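import Pool.Agent.Lib.MP_0820eb_co.Dens.Defs
import Pool.Agent.Lib.MP_164d34_nt.Mean1

/-! Mertens type estimates for sums of quadratic symbols over primes. -/

open Finset Filter ArithmeticFunction

noncomputable section

namespace Pool.Agent.Lib.MP_0820eb_co.Dens

lemma charsum_log_le {w : ℝ} (hw : |w| ≤ 1 / 2) : -Real.log (1 - w) ≤ w + 2 * w ^ 2 := by
  obtain ⟨h1, h2⟩ := abs_le.1 hw
  have h3 : 0 < 1 - w := by linarith
  rw [← Real.log_inv]
  refine (Real.log_le_sub_one_of_pos (inv_pos.2 h3)).trans ?_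
  rw [sub_le_iff_le_add, inv_le_iff_one_le_mul₀ h3]
  nlinarith [mul_nonneg (sq_nonneg w) (show 0 ≤ 1 - 2 * w by linarith)]

lemma charsum_sq_sum (S : Finset ℕ) : ∑ p ∈ S, ((p : ℝ)⁻¹) ^ 2 ≤ 2 := by
  have h := hasSum_zeta_two
  have h1 : ∑ p ∈ S, ((p : ℝ)⁻¹) ^ 2 ≤ Real.pi ^ 2 / 6 := by
    refine le_trans (le_of_eq ?_) (sum_le_hasSum S (fun n _ => by positivity) h)
    exact sum_congr rfl fun p _ => by rw [one_div, inv_pow]
  nlinarith [Real.pi_lt_d2, Real.pi_pos]

theorem cs1 : CS1Stmt := by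
  refine ⟨9, fun z hz => ⟨?_, ?_⟩⟩
  · have hz' : (2 : ℝ) ≤ z := mod_cast hz
    have h0 : 0 < Real.log z := Real.log_pos (by linarith)
    have h1 : Real.log z ≤ Real.log (z + 1) := Real.log_le_log (by linarith) (by linarith)
    have h2 := Real.log_le_log h0 (h1.trans (Pool.Agent.Shared.BrunSieve.log_le_prod_inv z))
    have h3 : ∀ p ∈ (range (z + 1)).filter Nat.Prime, |(p : ℝ)⁻¹| ≤ 1 / 2 := fun p hp => by
      have : (2 : ℝ) ≤ p := mod_cast (mem_filter.1 hp).2.two_le
      rw [abs_of_nonneg (by positivity), one_div]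
      exact inv_anti₀ (by norm_num) this
    rw [Real.log_prod (fun p hp => inv_ne_zero (by linarith [(abs_le.1 (h3 p hp)).2]))] at h2
    have h4 : ∑ p ∈ (range (z + 1)).filter Nat.Prime, Real.log (1 - (p : ℝ)⁻¹)⁻¹ ≤
        ∑ p ∈ (range (z + 1)).filter Nat.Prime, (1 / (p : ℝ) + 2 * ((p : ℝ)⁻¹) ^ 2) :=
      sum_le_sum fun p hp => by
        rw [Real.log_inv, one_div]; exact charsum_log_le (h3 p hp)
    rw [sum_add_distrib, ← mul_sum] at h4
    have h5 := charsum_sq_sum ((range (z + 1)).filter Nat.Prime)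
    unfold PS
    linarith
  · have hz' : (2 : ℝ) ≤ z := mod_cast hz
    set n := Nat.log 2 z with hn
    have h1 : z < 2 ^ (n + 1) := Nat.lt_pow_succ_log_self (by norm_num) z
    have h2 : 2 ^ n ≤ z := Nat.pow_log_le_self 2 (by omega)
    have h3 : 1 ≤ n := Nat.log_pos (by norm_num) hz
    have h4 := Pool.Agent.Shared.BrunSieve.sum_inv_primes_le n
    have h5 := harmonic_le_one_add_log n
    have h6 : PS (fun _ => 1) z ≤ ∑ r ∈ (range (2 ^ (n + 1) + 1)).filter Nat.Prime, (r : ℝ)⁻¹ := by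
      unfold PS
      simp only [one_div]
      exact sum_le_sum_of_subset_of_nonneg (filter_subset_filter _ (range_mono (by omega)))
        fun r _ _ => by positivity
    have h7 : (n : ℝ) * Real.log 2 ≤ Real.log z := by
      rw [← Real.log_pow]
      exact Real.log_le_log (by positivity) (mod_cast h2)
    have hn0 : (1 : ℝ) ≤ n := mod_cast h3
    have h0 : 0 < Real.log z := Real.log_pos (by linarith)
    have h8 : (n : ℝ) ≤ 2 * Real.log z := by nlinarith [Real.log_two_gt_d9]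
    have h9 : Real.log n ≤ Real.log 2 + Real.log (Real.log z) := by
      rw [← Real.log_mul two_ne_zero h0.ne']
      exact Real.log_le_log (by linarith) h8
    linarith [Real.log_two_lt_d9]

open ArithmeticFunction.vonMangoldt Complex in
lemma charsum_lam_le : ∃ C : ℝ, ∀ x ∈ Set.Ioc (1 : ℝ) 2,
    Summable (fun n : ℕ => vonMangoldt n / (n : ℝ) ^ x) ∧
    ∑' n : ℕ, vonMangoldt n / (n : ℝ) ^ x ≤ 1 / (x - 1) + C := by
  have ha : IsUnit (1 : ZMod 1) := isUnit_one
  have hr : ∀ n, residueClass (1 : ZMod 1) n = vonMangoldt n := fun n => by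
    simp [residueClass, Subsingleton.elim (n : ZMod 1) 1]
  have H {x : ℝ} (hx : 1 < x) : ∑' n, residueClass (1 : ZMod 1) n / (n : ℝ) ^ x =
      (LFunctionResidueClassAux (1 : ZMod 1) x).re + ((1 : ℕ).totient : ℝ)⁻¹ / (x - 1) := by
    refine ofReal_injective ?_
    simp only [ofReal_tsum, ofReal_div, ofReal_cpow (Nat.cast_nonneg _), ofReal_natCast,
      ofReal_add, ofReal_inv, ofReal_sub, ofReal_one]
    simp_rw [← LFunctionResidueClassAux_real ha hx,
      eqOn_LFunctionResidueClassAux ha <| Set.mem_ofPred.mpr (ofReal_re x ▸ hx), sub_add_cancel,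
      LSeries, LSeries.term]
    refine tsum_congr fun n ↦ ?_
    split_ifs with hn
    · simp only [hn, residueClass_apply_zero, ofReal_zero, zero_div]
    · rfl
  have : ContinuousOn (fun x : ℝ ↦ (LFunctionResidueClassAux (1 : ZMod 1) x).re) (Set.Icc 1 2) :=
    continuous_re.continuousOn.comp (t := Set.univ) (continuousOn_LFunctionResidueClassAux _)
      (fun ⦃x⦄ a ↦ trivial) |>.comp continuous_ofReal.continuousOn fun x hx ↦ by
        simpa only [Set.mem_ofPred_eq, ofReal_re] using hx.1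
  obtain ⟨C, hC⟩ := bddAbove_def.mp <| IsCompact.bddAbove_image isCompact_Icc this
  refine ⟨C, fun x hx => ⟨?_, ?_⟩⟩
  · simpa only [hr] using LSeries.summable_real_of_abscissaOfAbsConv_lt <|
      (abscissaOfAbsConv_residueClass_le_one (1 : ZMod 1)).trans_lt <| mod_cast hx.1
  · have h1 := H hx.1
    have h2 := hC _ (Set.mem_image_of_mem _ (Set.mem_Icc_of_Ioc hx))
    simp only [hr, Nat.totient_one, Nat.cast_one, inv_one] at h1
    linarith

lemma charsum_abs_le {x : ℕ → ℝ} (h1 : ∀ n, |x n| ≤ 1) (s : ℝ) (p : ℕ) :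
    |x p * (p : ℝ) ^ (-s)| ≤ (p : ℝ) ^ (-s) := by
  rw [abs_mul, abs_of_nonneg (by positivity : 0 ≤ (p : ℝ) ^ (-s))]
  exact mul_le_of_le_one_left (by positivity) (h1 _)

lemma charsum_summable {x : ℕ → ℝ} (h1 : ∀ n, |x n| ≤ 1) {s : ℝ} (hs : 1 < s) :
    Summable (fun p : Nat.Primes => x p * ((p : ℕ) : ℝ) ^ (-s)) :=
  Summable.of_norm_bounded (Nat.Primes.summable_rpow.2 (by linarith)) fun p =>
    charsum_abs_le h1 s p

/-- comparison of a finite sum over primes with a Dirichlet series -/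
lemma charsum_transfer : ∃ C0 : ℝ, 0 ≤ C0 ∧ ∀ x : ℕ → ℝ, (∀ n, |x n| ≤ 1) → ∀ C1 : ℝ, 0 ≤ C1 →
    (∀ s ∈ Set.Ioc (1 : ℝ) 2, ∑' p : Nat.Primes, x p * ((p : ℕ) : ℝ) ^ (-s) ≤ C1) →
    ∀ z : ℕ, ∑ p ∈ (range z).filter Nat.Prime, x p / p ≤ C1 + C0 := by
  obtain ⟨C2, h2⟩ := charsum_lam_le
  refine ⟨|C2| + 8, by positivity, fun x hb C1 hC1 h1 z => ?_⟩
  rcases lt_or_ge z 3 with hz | hz
  · refine le_trans ?_ (show (3 : ℝ) ≤ _ by linarith [abs_nonneg C2])
    calc _ ≤ ∑ p ∈ (range z).filter Nat.Prime, (1 : ℝ) := sum_le_sum fun p hp => by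
          have : (1 : ℝ) ≤ p := mod_cast (mem_filter.1 hp).2.one_le
          rw [div_le_one (by linarith)]; linarith [(abs_le.1 (hb p)).2]
      _ ≤ 3 := by
          have := card_filter_le (range z) Nat.Prime
          rw [card_range] at this
          simp only [sum_const, nsmul_eq_mul, mul_one]; exact_mod_cast this.trans hz.le
  refine le_trans ?_ (show C1 + 1 + |C2| + 7 ≤ _ by linarith)
  have hz' : (3 : ℝ) ≤ z := mod_cast hz
  have hL : 1 ≤ Real.log z := by
    rw [Real.le_log_iff_exp_le (by linarith)]; linarith [Real.exp_one_lt_d9]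
  set L := Real.log z with hLdef
  have hL0 : 0 < L := by linarith
  have hs : 1 + 1 / L ∈ Set.Ioc (1 : ℝ) 2 :=
    ⟨by have := one_div_pos.2 hL0; linarith, by have := (div_le_one hL0).2 hL; linarith⟩
  have a1 := charsum_summable hb hs.1
  have a2 := h1 _ hs
  obtain ⟨b1, b2⟩ := h2 _ hs
  set s := 1 + 1 / L with hsdef
  let a : ℕ → ℝ := Set.indicator {p | p.Prime} fun n => x n * (n : ℝ) ^ (-s)
  have a3 : Summable a := summable_subtype_iff_indicator.1 a1
  have a4 : ∑' n, a n ≤ C1 := by rw [← _root_.tsum_subtype]; exact a2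
  have b0 : ∀ n : ℕ, 0 ≤ 1 / L * (vonMangoldt n / (n : ℝ) ^ s) := fun n =>
    mul_nonneg (by positivity) (div_nonneg vonMangoldt_nonneg (by positivity))
  have c1 : ∑ n ∈ range z, (a n + 1 / L * (vonMangoldt n / (n : ℝ) ^ s)) ≤ C1 + 1 + |C2| := by
    refine ((a3.add (b1.mul_left _)).sum_le_tsum _ fun n hn => ?_).trans ?_
    · have hn' : (z : ℝ) ≤ n := by simpa using hn
      by_cases hp : n.Prime
      · have e1 : a n = x n * (n : ℝ) ^ (-s) := Set.indicator_of_mem hp _
        have e2 : L ≤ Real.log n := Real.log_le_log (by linarith) hn'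
        have e3 : 0 < (n : ℝ) ^ s := Real.rpow_pos_of_pos (by linarith) _
        rw [e1, vonMangoldt_apply_prime hp, Real.rpow_neg (by linarith)]
        have e4 : x n * ((n : ℝ) ^ s)⁻¹ + 1 / L * (Real.log n / (n : ℝ) ^ s) =
          (x n * L + Real.log n) / (L * (n : ℝ) ^ s) := by field_simp
        rw [e4]
        exact div_nonneg (by nlinarith [(abs_le.1 (hb n)).1]) (by positivity)
      · have e1 : a n = 0 := Set.indicator_of_notMem hp _
        rw [e1, zero_add]; exact b0 n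
    · rw [a3.tsum_add (b1.mul_left _), tsum_mul_left]
      have e1 : 1 / (s - 1) = L := by rw [hsdef]; simp
      have e2 : 1 / L * ∑' n : ℕ, vonMangoldt n / (n : ℝ) ^ s ≤ 1 / L * (L + |C2| * L) :=
        mul_le_mul_of_nonneg_left (by nlinarith [le_abs_self C2, abs_nonneg C2]) (by positivity)
      have e3 : 1 / L * (L + |C2| * L) = 1 + |C2| := by field_simp
      linarith
  have c2 : 1 / L * ∑ n ∈ range z, vonMangoldt n / (n : ℝ) ≤ 7 := by
    have e1 : ∑ n ∈ range z, vonMangoldt n / (n : ℝ) ≤ ∑ n ∈ Ioc 0 z, vonMangoldt n / (n : ℝ) := by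
      rw [← sum_filter_of_ne (p := fun n => n ≠ 0) (by rintro n - h rfl; simp at h)]
      refine sum_le_sum_of_subset_of_nonneg (fun n hn => ?_) fun n _ _ =>
        div_nonneg vonMangoldt_nonneg (by positivity)
      simp only [mem_filter, mem_range, mem_Ioc] at hn ⊢; omega
    have e2 := (Pool.Agent.Lib.MP_164d34_nt.mn_mertens z).2
    rw [one_div, inv_mul_le_iff₀ hL0]; linarith
  rw [mul_sum] at c2
  refine le_trans ?_ (add_le_add c1 c2)
  rw [← sum_add_distrib, sum_filter]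
  refine sum_le_sum fun n _ => ?_
  split_ifs with hp
  · have e1 : a n = x n * (n : ℝ) ^ (-s) := Set.indicator_of_mem hp _
    have hn : (0 : ℝ) < n := mod_cast hp.pos
    have e2 : (n : ℝ) ^ (-s) = Real.exp (-(1 / L * Real.log n)) / n := by
      rw [Real.rpow_def_of_pos hn, hsdef, eq_div_iff hn.ne']
      nth_rw 2 [← Real.exp_log hn]
      rw [← Real.exp_add]; congr 1; ring
    have e3 := Real.add_one_le_exp (-(1 / L * Real.log n))
    have e4 : Real.exp (-(1 / L * Real.log n)) ≤ 1 := Real.exp_le_one_iff.2 (neg_nonpos.2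
      (mul_nonneg (by positivity) (Real.log_natCast_nonneg n)))
    have e5 : x n / n ≤ x n * (n : ℝ) ^ (-s) + 1 / L * (Real.log n / n) := by
      rw [e2, ← mul_div_assoc, ← mul_div_assoc, ← add_div]
      exact div_le_div_of_nonneg_right (by nlinarith [(abs_le.1 (hb n)).2]) hn.le
    rw [e1, vonMangoldt_apply_prime hp]
    have := b0 n
    rw [vonMangoldt_apply_prime hp] at this
    linarith
  · have e1 : a n = 0 := Set.indicator_of_notMem hp _
    have := b0 n
    have : 0 ≤ 1 / L * (vonMangoldt n / (n : ℝ)) :=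
      mul_nonneg (by positivity) (div_nonneg vonMangoldt_nonneg (by positivity))
    rw [e1]; linarith

lemma charsum_bound {N : ℕ} (χ : DirichletCharacter ℂ N) (x : ℕ → ℝ)
    (hx : ∀ n : ℕ, χ n = x n) (n : ℕ) : |x n| ≤ 1 := by
  have := χ.norm_le_one (n : ZMod N)
  rwa [hx, Complex.norm_real, Real.norm_eq_abs] at this

/-- the logarithm of the Euler product -/
lemma charsum_euler {N : ℕ} [NeZero N] (χ : DirichletCharacter ℂ N) (x : ℕ → ℝ)
    (hx : ∀ n : ℕ, χ n = x n) {s : ℝ} (hs : 1 < s) :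
      ∑' p : Nat.Primes, x p * ((p : ℕ) : ℝ) ^ (-s) ≤ Real.log ‖χ.LFunction s‖ ∧
      Real.log ‖χ.LFunction s‖ ≤ ∑' p : Nat.Primes, x p * ((p : ℕ) : ℝ) ^ (-s) + 4 := by
  have h1 := charsum_bound χ x hx
  have hs' : 1 < (s : ℂ).re := by simpa using hs
  have h0 : ∀ p : Nat.Primes, |x p * ((p : ℕ) : ℝ) ^ (-s)| ≤ ((p : ℕ) : ℝ)⁻¹ := fun p => by
    refine (charsum_abs_le h1 s p).trans ?_
    rw [← Real.rpow_neg_one]
    exact Real.rpow_le_rpow_of_exponent_le (mod_cast p.prop.one_le) (by linarith)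
  have h2 : ∀ p : Nat.Primes, |x p * ((p : ℕ) : ℝ) ^ (-s)| ≤ 1 / 2 := fun p => by
    refine (h0 p).trans ?_
    rw [one_div]
    exact inv_anti₀ (by norm_num) (mod_cast p.prop.two_le)
  have h3 : ∀ p : Nat.Primes, 0 < 1 - x p * ((p : ℕ) : ℝ) ^ (-s) := fun p => by
    linarith [(abs_le.1 (h2 p)).2]
  have h4 := charsum_summable h1 hs
  have h5 : Summable (fun p : Nat.Primes => -Real.log (1 - x p * ((p : ℕ) : ℝ) ^ (-s))) := by
    simpa only [sub_eq_add_neg] using (Real.summable_log_one_add_of_summable h4.neg).neg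
  have h6 := χ.LSeries_eulerProduct_exp_log hs'
  have h7 : ∀ p : Nat.Primes, -Complex.log (1 - χ p * (p : ℂ) ^ (-(s : ℂ))) =
      ((-Real.log (1 - x p * ((p : ℕ) : ℝ) ^ (-s)) : ℝ) : ℂ) := fun p => by
    rw [Complex.ofReal_neg, Complex.ofReal_log (h3 p).le, hx]
    push_cast [Complex.ofReal_cpow (Nat.cast_nonneg _)]
    rfl
  rw [tsum_congr h7, ← Complex.ofReal_tsum, ← χ.LFunction_eq_LSeries hs'] at h6
  rw [← h6, Complex.norm_exp_ofReal, Real.log_exp]
  refine ⟨h4.tsum_le_tsum (fun p => ?_) h5, ?_⟩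
  · linarith [Real.log_le_sub_one_of_pos (h3 p)]
  · have h8 : ∀ S : Finset Nat.Primes, ∑ p ∈ S, 2 * (((p : ℕ) : ℝ)⁻¹) ^ 2 ≤ 4 := fun S => by
      have := charsum_sq_sum (S.map (Function.Embedding.subtype _))
      rw [sum_map] at this
      rw [← mul_sum]
      exact (mul_le_mul_of_nonneg_left this zero_le_two).trans (by norm_num)
    have h9 : Summable fun p : Nat.Primes => 2 * (((p : ℕ) : ℝ)⁻¹) ^ 2 :=
      summable_of_sum_le (fun p => by positivity) h8
    refine (h5.tsum_le_tsum (fun p => ?_) (h4.add h9)).trans ?_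
    · refine (charsum_log_le (h2 p)).trans ?_
      have := sq_le_sq' (abs_le.1 (h0 p)).1 (abs_le.1 (h0 p)).2
      linarith
    · rw [h4.tsum_add h9]
      linarith [h9.tsum_le_of_sum_le h8]

/-- two sided bound for a fixed non-trivial real character -/
lemma charsum_fixed {N : ℕ} [NeZero N] (χ : DirichletCharacter ℂ N) (hχ : χ ≠ 1) (x : ℕ → ℝ)
    (hx : ∀ n : ℕ, χ n = x n) : ∃ C : ℝ, ∀ z : ℕ, |PS x z| ≤ C := by
  have hc : ContinuousOn (fun s : ℝ => |Real.log ‖χ.LFunction s‖|) (Set.Icc 1 2) := by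
    refine (ContinuousOn.log ((DirichletCharacter.differentiable_LFunction hχ).continuous.comp
      Complex.continuous_ofReal).norm.continuousOn fun s hs => ?_).abs
    exact norm_ne_zero_iff.2 (χ.LFunction_ne_zero_of_one_le_re (.inl hχ) (by simpa using hs.1))
  obtain ⟨C, hC⟩ := bddAbove_def.mp <| IsCompact.bddAbove_image isCompact_Icc hc
  have hC' : ∀ s ∈ Set.Ioc (1 : ℝ) 2, |Real.log ‖χ.LFunction s‖| ≤ C := fun s hs =>
    hC _ (Set.mem_image_of_mem _ (Set.mem_Icc_of_Ioc hs))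
  have hC0 : 0 ≤ C := (abs_nonneg _).trans (hC' 2 ⟨by norm_num, le_rfl⟩)
  obtain ⟨C0, -, h0⟩ := charsum_transfer
  have h1 := charsum_bound χ x hx
  refine ⟨C + 4 + C0, fun z => abs_le.2 ⟨?_, ?_⟩⟩
  · have := h0 (fun n => -x n) (fun n => by rw [abs_neg]; exact h1 n) (C + 4) (by linarith)
      (fun s hs => by
        simp only [neg_mul, tsum_neg]
        linarith [(charsum_euler χ x hx hs.1).2, (abs_le.1 (hC' s hs)).1]) (z + 1)
    simp only [neg_div, sum_neg_distrib] at this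
    unfold PS
    linarith
  · exact h0 x h1 (C + 4) (by linarith) (fun s hs => by
      linarith [(charsum_euler χ x hx hs.1).1, (abs_le.1 (hC' s hs)).2]) (z + 1)

lemma charsum_abel (a f : ℕ → ℝ) (B : ℝ) (hA : ∀ N, ∑ n ∈ range N, a n ≤ B)
    (hf : ∀ n, f (n + 1) ≤ f n) (N : ℕ) :
    ∑ n ∈ range N, a n * f n ≤ B * f 0 - (B - ∑ n ∈ range N, a n) * f N := by
  induction N with
  | zero => simp
  | succ N ih =>
    have h1 := hA (N + 1)
    have h2 := mul_le_mul_of_nonneg_left (hf N) (sub_nonneg.2 h1)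
    rw [sum_range_succ (fun n => a n * f n)]
    rw [sum_range_succ] at h2 ⊢
    nlinarith

lemma charsum_period {q : ℕ} (hq : 0 < q) (x : ℕ → ℝ) (h1 : ∀ n, x n ≤ 1)
    (hp : ∀ n, x (q + n) = x n) (h0 : ∑ n ∈ range q, x n = 0) (N : ℕ) :
    ∑ n ∈ range N, x n ≤ q := by
  induction N using Nat.strong_induction_on with
  | _ N ih =>
    rcases le_or_gt N q with h | h
    · calc _ ≤ ∑ n ∈ range N, (1 : ℝ) := sum_le_sum fun n _ => h1 n
        _ ≤ q := by simpa using h
    · obtain ⟨M, rfl⟩ := Nat.exists_eq_add_of_le h.le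
      rw [sum_range_add, h0, zero_add]
      simp only [hp]
      exact ih M (by omega)

lemma charsum_series {q : ℕ} (hq : 0 < q) (x : ℕ → ℝ) (h1 : ∀ n, |x n| ≤ 1)
    (hp : ∀ n, x (q + n) = x n) (h0 : ∑ n ∈ range q, x n = 0) {s : ℝ} (hs : 1 < s) :
    ∑' n : ℕ, x n * (n : ℝ) ^ (-s) ≤ Real.log q + 2 := by
  have hq' : (1 : ℝ) ≤ q := mod_cast hq
  have hsum : Summable fun n : ℕ => x n * (n : ℝ) ^ (-s) :=
    Summable.of_norm_bounded (Real.summable_nat_rpow.2 (by linarith)) fun n =>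
      charsum_abs_le h1 s n
  rw [← hsum.sum_add_tsum_nat_add q]
  have e1 : ∑ n ∈ range q, x n * (n : ℝ) ^ (-s) ≤ 1 + Real.log q := by
    refine le_trans ?_ (harmonic_le_one_add_log q)
    have : ∑ n ∈ range q, x n * (n : ℝ) ^ (-s) ≤ ∑ n ∈ range (q + 1), (n : ℝ)⁻¹ := by
      refine le_trans (sum_le_sum fun n _ => ?_) (sum_le_sum_of_subset_of_nonneg
        (range_mono (Nat.le_succ q)) fun n _ _ => by positivity)
      refine (le_abs_self _).trans ((charsum_abs_le h1 s n).trans ?_)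
      rcases Nat.eq_zero_or_pos n with rfl | hn
      · rw [Nat.cast_zero, Real.zero_rpow (by linarith), inv_zero]
      · rw [← Real.rpow_neg_one]
        exact Real.rpow_le_rpow_of_exponent_le (mod_cast hn) (by linarith)
    refine this.trans (le_of_eq ?_)
    rw [sum_range_succ', harmonic]
    push_cast
    simp
  have e2 : ∑' n : ℕ, x (n + q) * ((n + q : ℕ) : ℝ) ^ (-s) ≤ 1 := by
    have hsum' := (summable_nat_add_iff q).2 hsum
    refine le_of_tendsto' hsum'.hasSum.tendsto_sum_nat fun N => ?_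
    have hA := charsum_period hq x (fun n => (abs_le.1 (h1 n)).2) hp h0
    have := charsum_abel x (fun n => ((n + q : ℕ) : ℝ) ^ (-s)) q hA (fun n =>
      Real.rpow_le_rpow_of_nonpos (by positivity) (by push_cast; linarith) (by linarith)) N
    have e3 := mul_nonneg (sub_nonneg.2 (hA N)) (show 0 ≤ ((N + q : ℕ) : ℝ) ^ (-s) by positivity)
    have e4 : (q : ℝ) * ((0 + q : ℕ) : ℝ) ^ (-s) ≤ 1 := by
      rw [zero_add, ← mul_inv_cancel₀ (show (q : ℝ) ≠ 0 by linarith), ← Real.rpow_neg_one]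
      exact mul_le_mul_of_nonneg_left (Real.rpow_le_rpow_of_exponent_le hq' (by linarith))
        (by linarith)
    simp only [add_comm _ q, hp] at this e3 e4 ⊢
    linarith
  linarith

/-- uniform upper bound for the L-function -/
lemma charsum_L_le {N : ℕ} [NeZero N] (χ : DirichletCharacter ℂ N) (hχ : χ ≠ 1) (x : ℕ → ℝ)
    (hx : ∀ n : ℕ, χ n = x n) {s : ℝ} (hs : 1 < s) : ‖χ.LFunction s‖ ≤ Real.log N + 2 := by
  have hN : 0 < N := Nat.pos_of_ne_zero (NeZero.ne N)
  have hs' : 1 < (s : ℂ).re := by simpa using hs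
  have h1 := charsum_bound χ x hx
  have hp : ∀ n, x (N + n) = x n := fun n => by
    refine Complex.ofReal_injective ?_
    rw [← hx, ← hx]; simp
  have h0 : ∑ n ∈ range N, x n = 0 := by
    refine Complex.ofReal_injective ?_
    push_cast
    rw [← MulChar.sum_eq_zero_of_ne_one hχ]
    refine sum_nbij (fun n : ℕ => (n : ZMod N)) (fun _ _ => mem_univ _) ?_ ?_
      fun n _ => (hx n).symm
    · intro a ha b hb h
      have h' : (a : ZMod N) = b := h
      rwa [ZMod.natCast_eq_natCast_iff', Nat.mod_eq_of_lt (by simpa using ha),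
        Nat.mod_eq_of_lt (by simpa using hb)] at h'
    · intro a _
      exact ⟨a.val, by simpa using ZMod.val_lt a, ZMod.natCast_zmod_val a⟩
  have h2 : χ.LFunction s = ((∑' n : ℕ, x n * (n : ℝ) ^ (-s) : ℝ) : ℂ) := by
    rw [χ.LFunction_eq_LSeries hs', Complex.ofReal_tsum, LSeries]
    refine tsum_congr fun n => ?_
    rcases Nat.eq_zero_or_pos n with rfl | hn
    · rw [LSeries.term_zero, Nat.cast_zero, Real.zero_rpow (by linarith)]; simp
    · rw [LSeries.term_of_ne_zero hn.ne', hx, Real.rpow_neg (Nat.cast_nonneg _)]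
      push_cast [Complex.ofReal_cpow (Nat.cast_nonneg _)]
      rw [div_eq_mul_inv]
  rw [h2, Complex.norm_real, Real.norm_eq_abs, abs_le]
  refine ⟨?_, charsum_series hN x h1 hp h0 hs⟩
  have := charsum_series hN (fun n => -x n) (fun n => by rw [abs_neg]; exact h1 n)
    (fun n => by rw [hp]) (by rw [sum_neg_distrib, h0, neg_zero]) hs
  simp only [neg_mul, tsum_neg] at this
  linarith

theorem cs3 : CS3Stmt := by
  obtain ⟨C0, -, h0⟩ := charsum_transfer
  refine ⟨2 + C0, fun r hr h2 z => ?_⟩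
  have : Fact r.Prime := ⟨hr⟩
  have hr3 : (3 : ℝ) ≤ r := by exact_mod_cast (show 3 ≤ r by have := hr.two_le; omega)
  have hL : 1 ≤ Real.log r := by
    rw [Real.le_log_iff_exp_le (by linarith)]; linarith [Real.exp_one_lt_d9]
  let χ : DirichletCharacter ℂ r := (quadraticChar (ZMod r)).ringHomComp (Int.castRingHom ℂ)
  have hχ : χ ≠ 1 := (MulChar.ringHomComp_ne_one_iff Int.cast_injective).2
    (quadraticChar_ne_one (by rwa [ZMod.ringChar_zmod_n]))
  have hx : ∀ n : ℕ, χ n = ((jacobiSym n r : ℝ) : ℂ) := fun n => by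
    rw [← jacobiSym.legendreSym.to_jacobiSym, legendreSym]
    simp [χ]
  have h3 := h0 _ (charsum_bound χ _ hx) (Real.log (Real.log r) + 2)
    (by linarith [Real.log_nonneg hL]) (fun s hs => by
      refine (charsum_euler χ _ hx hs.1).1.trans ?_
      have e1 := charsum_L_le χ hχ _ hx hs.1
      have e2 : 0 < ‖χ.LFunction s‖ :=
        norm_pos_iff.2 (χ.LFunction_ne_zero_of_one_le_re (.inl hχ) (by simpa using hs.1.le))
      have e3 : Real.log ‖χ.LFunction s‖ ≤ Real.log (Real.log r * 3) :=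
        Real.log_le_log e2 (by linarith)
      rw [Real.log_mul (by linarith) (by norm_num)] at e3
      linarith [Real.log_le_sub_one_of_pos (show (0 : ℝ) < 3 by norm_num)]) (z + 1)
  unfold PS
  linarith

open NumberTheorySymbols

lemma charsum_odd_val {D : ℤ} [NeZero (4 * D.natAbs)] {a : ZMod (4 * D.natAbs)} (h : IsUnit a) :
    Odd a.val := by
  have h1 := ZMod.val_coe_unit_coprime h.unit
  rw [IsUnit.unit_spec] at h1
  exact Nat.Coprime.odd_of_right (h1.coprime_dvd_right (Dvd.dvd.mul_right (by norm_num) _))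

open Classical in
/-- the Jacobi symbol as a function of its lower argument -/
def charsum_kr (D : ℤ) [NeZero (4 * D.natAbs)] : DirichletCharacter ℂ (4 * D.natAbs) where
  toFun a := if IsUnit a then (J(D | a.val) : ℂ) else 0
  map_one' := by
    have : Fact (1 < 4 * D.natAbs) := ⟨by have := NeZero.ne (4 * D.natAbs); omega⟩
    simp [ZMod.val_one]
  map_mul' a b := by
    by_cases ha : IsUnit a
    · by_cases hb : IsUnit b
      · have h1 := charsum_odd_val ha
        have h2 := charsum_odd_val hb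
        rw [if_pos ha, if_pos hb, if_pos (ha.mul hb), ZMod.val_mul,
          ← jacobiSym.mod_right D (h1.mul h2), jacobiSym.mul_right' D h1.pos.ne' h2.pos.ne']
        push_cast; rfl
      · rw [if_neg hb, if_neg fun h => hb (isUnit_of_mul_isUnit_right h), mul_zero]
    · rw [if_neg ha, if_neg fun h => ha (isUnit_of_mul_isUnit_left h), zero_mul]
  map_nonunit' a ha := if_neg ha

lemma charsum_neg {D : ℤ} (hD : D < 0) : ∃ n : ℕ, Odd n ∧ J(D | n) = -1 := by
  obtain ⟨b, hb⟩ : ∃ b, 4 * D.natAbs = b + 1 := Nat.exists_eq_succ_of_ne_zero (by omega)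
  have h4 : Odd b := Nat.odd_iff.2 (by omega)
  have h5 : J(2 ^ 2 * D | b) = J(-1 | b) := by
    refine jacobiSym.mod_left' (Int.emod_emod_of_dvd _ dvd_rfl ▸ ?_)
    rw [Int.emod_emod_of_dvd _ dvd_rfl]
    exact Int.ModEq.symm (Int.modEq_iff_dvd.2 ⟨-1, by omega⟩)
  rw [jacobiSym.mul_left, jacobiSym.sq_one' (by
    rw [Int.gcd_eq_natAbs]; simpa using h4), jacobiSym.at_neg_one h4,
    ZMod.χ₄_nat_three_mod_four (by omega), one_mul] at h5
  exact ⟨b, h4, h5⟩

lemma charsum_pos {m : ℕ} (hm : ¬ IsSquare m) : ∃ n : ℕ, Odd n ∧ J(m | n) = -1 := by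
  obtain ⟨a, b, hab, ha⟩ := Nat.sq_mul_squarefree m
  have ha1 : a ≠ 1 := by rintro rfl; exact hm ⟨b, by rw [← hab]; ring⟩
  have hb : b ≠ 0 := by rintro rfl; exact hm ⟨0, by rw [← hab]; ring⟩
  obtain ⟨q, hq, c, rfl⟩ := Nat.exists_prime_and_dvd ha1
  have hc : ¬ q ∣ c := fun h => hq.not_isUnit (ha q (mul_dvd_mul_left q h))
  obtain ⟨f, d, hd, rfl⟩ := Nat.exists_eq_pow_mul_and_not_dvd hb q hq.ne_one
  set k := d ^ 2 * c with hk
  have hqk : ¬ q ∣ k := fun h => ((Nat.Prime.dvd_mul hq).1 h).elim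
    (fun h => hd (hq.dvd_of_dvd_pow h)) hc
  have hk0 : 0 < k := Nat.pos_of_ne_zero (by rintro h; rw [h] at hqk; exact hqk (dvd_zero q))
  have hm' : (m : ℤ) = (q : ℤ) ^ (2 * f + 1) * k := by rw [← hab, hk]; push_cast; ring
  suffices h : ∃ n : ℕ, n % (4 * k) = 1 ∧ J(q | n) = -1 by
    obtain ⟨n, h1, h2⟩ := h
    have h3 : Odd n := by
      rw [Nat.odd_iff, ← Nat.mod_mod_of_dvd n (show 2 ∣ 4 * k from ⟨2 * k, by ring⟩), h1]
    refine ⟨n, h3, ?_⟩
    rw [hm', jacobiSym.mul_left, jacobiSym.pow_left, h2, jacobiSym.mod_right' k h3, h1,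
      jacobiSym.one_right, Odd.neg_one_pow ⟨f, rfl⟩, mul_one]
  by_cases h2 : q = 2
  · subst h2
    refine ⟨4 * k + 1, by rw [Nat.add_mod_left, Nat.mod_eq_of_lt (by omega)], ?_⟩
    rw [Nat.cast_ofNat, jacobiSym.at_two (Nat.odd_iff.2 (by omega)), ZMod.χ₈_nat_eq_if_mod_eight,
      if_neg (by omega), if_neg (by omega)]
  · have : Fact q.Prime := ⟨hq⟩
    obtain ⟨u, hu⟩ := quadraticChar_exists_neg_one (F := ZMod q) (by rwa [ZMod.ringChar_zmod_n])
    have hco : Nat.Coprime (4 * k) q := by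
      refine Nat.Coprime.symm ((Nat.Prime.coprime_iff_not_dvd hq).2 fun h => ?_)
      exact ((Nat.Prime.dvd_mul hq).1 h).elim (fun h => h2 ((Nat.prime_dvd_prime_iff_eq hq
        Nat.prime_two).1 (hq.dvd_of_dvd_pow (show q ∣ 2 ^ 2 from h)))) hqk
    obtain ⟨n, h3, h4⟩ := Nat.chineseRemainder hco 1 u.val
    have h5 : n % (4 * k) = 1 := by rw [h3, Nat.mod_eq_of_lt (by omega)]
    have h6 : n % 4 = 1 := by rw [← Nat.mod_mod_of_dvd n (dvd_mul_right 4 k), h5]
    refine ⟨n, h5, ?_⟩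
    rw [jacobiSym.quadratic_reciprocity_one_mod_four' (hq.odd_of_ne_two h2) h6,
      ← jacobiSym.legendreSym.to_jacobiSym, legendreSym, Int.cast_natCast,
      (ZMod.natCast_eq_natCast_iff _ _ _).2 h4, ZMod.natCast_zmod_val, hu]

lemma charsum_kr_ne {D : ℤ} (hD : ¬ IsSquare D) [NeZero (4 * D.natAbs)] : charsum_kr D ≠ 1 := by
  obtain ⟨n, h1, h2⟩ : ∃ n : ℕ, Odd n ∧ J(D | n) = -1 := by
    rcases lt_or_ge D 0 with h | h
    · exact charsum_neg h
    · lift D to ℕ using h
      exact charsum_pos fun h => hD (Int.isSquare_natCast_iff.2 h)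
  intro h
  have h3 : D.gcd n = 1 := by
    by_contra h3
    have : NeZero n := ⟨h1.pos.ne'⟩
    rw [jacobiSym.eq_zero_iff_not_coprime.2 h3] at h2
    omega
  have h4 : IsUnit (n : ZMod (4 * D.natAbs)) := by
    rw [ZMod.isUnit_iff_coprime]
    refine Nat.Coprime.mul_right ?_ ?_
    · exact Nat.Coprime.pow_right 2 (Nat.coprime_two_right.2 h1)
    · rw [Int.gcd_eq_natAbs, Int.natAbs_natCast] at h3
      exact Nat.Coprime.symm h3
  have h5 : charsum_kr D n = 1 := by rw [h]; exact MulChar.one_apply h4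
  have h6 : (J(D | (n : ZMod (4 * D.natAbs)).val) : ℂ) = 1 := (if_pos h4).symm.trans h5
  rw [ZMod.val_natCast, ← jacobiSym.mod_right _ h1, h2] at h6
  norm_num at h6

theorem cs2 : CS2Stmt := by
  intro D hD
  have hD0 : D ≠ 0 := by rintro rfl; exact hD IsSquare.zero
  have : NeZero (4 * D.natAbs) := ⟨by omega⟩
  classical
  obtain ⟨C, hC⟩ := charsum_fixed (charsum_kr D) (charsum_kr_ne hD) (fun n : ℕ =>
    if IsUnit (n : ZMod (4 * D.natAbs)) then (J(D | (n : ZMod (4 * D.natAbs)).val) : ℝ) else 0)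
    (fun n => by
      show (if _ then _ else _) = _
      split_ifs <;> simp)
  refine ⟨C + 1, fun z => ?_⟩
  have h1 : PS (fun p => (J(D | p) : ℝ)) z = PS (fun n : ℕ =>
      if IsUnit (n : ZMod (4 * D.natAbs)) then (J(D | (n : ZMod (4 * D.natAbs)).val) : ℝ) else 0) z +
      ∑ q ∈ (range (z + 1)).filter Nat.Prime, (if q = 2 then (J(D | 2) : ℝ) / 2 else 0) := by
    unfold PS
    rw [← sum_add_distrib]
    refine sum_congr rfl fun q hq => ?_
    have hp := (mem_filter.1 hq).2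
    simp only [ZMod.isUnit_prime_iff_not_dvd hp]
    by_cases h2 : q = 2
    · subst h2
      rw [if_neg (by omega), if_pos rfl]
      simp
    rw [if_neg h2, add_zero, ZMod.val_natCast, ← jacobiSym.mod_right _ (hp.odd_of_ne_two h2)]
    split_ifs with h3
    · have h4 : q ∣ D.natAbs := ((Nat.Prime.dvd_mul hp).1 h3).resolve_left fun h =>
        h2 ((Nat.prime_dvd_prime_iff_eq hp Nat.prime_two).1
          (hp.dvd_of_dvd_pow (show q ∣ 2 ^ 2 from h)))
      have : NeZero q := ⟨hp.ne_zero⟩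
      rw [jacobiSym.eq_zero_iff_not_coprime.2 (by
        rw [Int.gcd_eq_natAbs, Int.natAbs_natCast, Nat.gcd_eq_right h4]; exact hp.ne_one)]
      simp
    · rfl
  rw [h1]
  refine (abs_add_le _ _).trans (add_le_add (hC z) ?_)
  rw [sum_ite_eq']
  split_ifs
  · rcases jacobiSym.trichotomy D 2 with h | h | h <;> rw [h] <;> norm_num [abs_of_nonneg]
  · norm_num

end Pool.Agent.Lib.MP_0820eb_co.Dens
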