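import Mathlib
import Pool.Agent.Shared.BrunSieve

/-!
Density of the parameters of abelian difference sets with fixed `λ ≥ 2`: definitions,
intermediate statements and basic tools.
-/

open Finset Filter

namespace Pool.Agent.Lib.MP_0820eb_co.Dens

/-- the value `k ^ 2 - k + lam` -/
def F (lam k : ℕ) : ℕ := k * (k - 1) + lam

/-- `D` is a difference set with parameter `lam` -/
def IsDS {G : Type} [CommGroup G] [DecidableEq G] (lam : ℕ) (D : Finset G) : Prop :=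
  ∀ g : G, g ≠ 1 → #{y ∈ D | g * y ∈ D} = lam

/-- Arithmetic consequences of the existence of an abelian `(v, k, lam)` difference set. -/
structure Arith (lam v k : ℕ) : Prop where
  eq : lam * v = F lam k
  mann : ∀ p r : ℕ, p.Prime → r.Prime → lam < p → p ∣ k - lam → ¬ p ^ 2 ∣ k - lam → r ∣ v →
    ∀ j : ℕ, ¬ r ∣ p ^ j + 1
  mult : ∀ Z B u : ℕ, u ∣ k - lam → (∀ p : ℕ, p.Prime → p ∣ u → lam < p) →
    ArithmeticFunction.cardFactors v ≤ B →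
    (∀ k' : ℕ, F lam k' ∣ F lam k → F lam k' ≤ 4 * k → F lam k' < Z) →
    ∃ m : ℕ, 0 < m ∧ (∀ r : ℕ, r.Prime → r ∣ v → u ^ (m * lam.factorial ^ B) ≡ 1 [MOD r]) ∧
      (∀ r : ℕ, r.Prime → r ∣ v → Z ≤ r → m ∣ r - 1) ∧
      ((∀ r : ℕ, r.Prime → r ∣ v → Z ≤ r) → m ∣ k ∨ m ∣ k - 1)

/-- lower end of the sieving range -/
def pZ (s a : ℕ) : ℕ := a ^ (24 * s)

/-- upper end of the sieving range -/
def pz (s a : ℕ) : ℕ := 2 ^ (a ^ (2 * s))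

/-- size of a large prime factor -/
def pR (s a : ℕ) : ℕ := 2 ^ (a ^ (2 * s + 1))

/-- the sieving primes -/
def PP (s a : ℕ) : Finset ℕ := (Icc (pZ s a) (pz s a)).filter Nat.Prime

/-- `K` lies at scale `a` -/
def Scale (s a K : ℕ) : Prop := 2 ^ (a ^ (2 * s + 3)) ≤ K ∧ K < 2 ^ ((a + 1) ^ (2 * s + 3))

open Classical in
/-- the number of `k ≤ K` with property `S` -/
noncomputable def cnt (K : ℕ) (S : ℕ → Prop) : ℝ := (#{k ∈ range (K + 1) | S k} : ℕ)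

/-- the family `S a K` of sets of integers `k ≤ K` is sparse -/
def Sparse (s : ℕ) (S : ℕ → ℕ → ℕ → Prop) : Prop :=
  ∃ C : ℝ, ∀ᶠ a : ℕ in atTop, ∀ K : ℕ, Scale s a K →
    cnt K (S a K) ≤ C * K * (a : ℝ) ^ 2 / (a : ℝ) ^ (3 * s)

def S0 (lam : ℕ) (_a K k : ℕ) : Prop := k ≤ lam ∨ k * k ≤ K

def S1 (lam : ℕ) (a _K k : ℕ) : Prop := 2 * a ≤ ArithmeticFunction.cardFactors (F lam k)

def S2 (lam s : ℕ) (a _K k : ℕ) : Prop :=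
  lam < k ∧ ∃ d : ℕ, d ∣ k - lam ∧ pZ s a < d ∧ ∀ p : ℕ, p.Prime → p ∣ d → p ≤ lam

def S3 (lam s : ℕ) (a _K k : ℕ) : Prop := lam < k ∧ ∃ p : ℕ, pZ s a ≤ p ∧ p ^ 2 ∣ k - lam

/-- `r` is a prime factor of `F lam k` and `k ^ 2 / n₁` has order dividing `j` modulo `r` -/
def SmallOrd (lam Z k r j : ℕ) : Prop :=
  r.Prime ∧ r ∣ F lam k ∧ 0 < j ∧ ∃ n₁ : ℕ, 0 < n₁ ∧ n₁ ≤ Z ∧ k ^ (2 * j) ≡ n₁ ^ j [MOD r]

def S4 (lam s : ℕ) (a _K k : ℕ) : Prop :=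
  ∃ r j : ℕ, SmallOrd lam (pZ s a) k r j ∧ pR s a ≤ r ∧ j ≤ pz s a * lam.factorial ^ (2 * a)

def S5 (lam s : ℕ) (a K k : ℕ) : Prop :=
  ∃ r j m : ℕ, SmallOrd lam (pZ s a) k r j ∧ K ^ 9 ≤ r ^ 10 ∧ m ^ 5 ≤ K ^ 2 ∧
    j ≤ m * lam.factorial ^ (2 * a)

def S6 (lam s : ℕ) (a K k : ℕ) : Prop :=
  ∃ k' : ℕ, pZ s a ≤ F lam k' ∧ F lam k' ≤ 4 * K ∧ F lam k' ∣ F lam k

def S7 (lam s : ℕ) (a K k : ℕ) : Prop :=
  ∃ m r : ℕ, r.Prime ∧ r ∣ F lam k ∧ r ^ 10 < K ^ 9 ∧ pz s a < m ∧ m ∣ r - 1 ∧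
    (m ∣ k ∨ m ∣ k - 1)

def S8 (lam : ℕ) (_a K k : ℕ) : Prop :=
  ∃ m r₁ r₂ : ℕ, lam * (r₁ * r₂) = F lam k ∧ K ^ 9 ≤ r₁ ^ 10 ∧ K ^ 9 ≤ r₂ ^ 10 ∧ K ^ 2 < m ^ 5 ∧
    m ∣ r₁ - 1 ∧ m ∣ r₂ - 1 ∧ (m ∣ k ∨ m ∣ k - 1)

/-- `F lam k` has no prime factor in the sieving range -/
def Rough (lam s a k : ℕ) : Prop := ∀ p ∈ PP s a, ¬ p ∣ F lam k

def S9 (lam s : ℕ) (a₀ : ℤ) (a _K k : ℕ) : Prop :=
  Rough lam s a k ∧ ∀ p ∈ PP s a, k ≡ lam [MOD p] → jacobiSym a₀ p ≠ -1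

def S10 (lam s : ℕ) (a _K k : ℕ) : Prop :=
  Rough lam s a k ∧ ∃ r : ℕ, r.Prime ∧ r ≠ 2 ∧ r < pZ s a ∧ r ∣ F lam k ∧
    ∀ p ∈ PP s a, k ≡ lam [MOD p] → jacobiSym p r ≠ -1

def S11 (mu s : ℕ) (e : ℤ) (a _K k : ℕ) : Prop :=
  Rough (mu ^ 2) s a k ∧ ∃ A B : ℤ, (mu : ℤ) ^ 2 * (A ^ 2 + B ^ 2) = F (mu ^ 2) k ∧
    ∀ p ∈ PP s a, k ≡ mu ^ 2 [MOD p] → ((B : ℤ) : ZMod p) ≠ 0 →
      IsSquare ((2 * e * mu * (mu + A) : ℤ) : ZMod p)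

/-- the sum of `c p / p` over the primes `p ≤ z` -/
noncomputable def PS (c : ℕ → ℝ) (z : ℕ) : ℝ := ∑ p ∈ (range (z + 1)).filter Nat.Prime, c p / p

/-- Mertens type bounds -/
def CS1Stmt : Prop := ∃ C : ℝ, ∀ z : ℕ, 2 ≤ z →
  Real.log (Real.log z) - C ≤ PS (fun _ => 1) z ∧ PS (fun _ => 1) z ≤ 4 * Real.log (Real.log z) + C

/-- sums of a fixed non-trivial quadratic symbol over primes -/
def CS2Stmt : Prop := ∀ a₀ : ℤ, ¬ IsSquare a₀ → ∃ C : ℝ, ∀ z : ℕ,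
  |PS (fun p => (jacobiSym a₀ p : ℝ)) z| ≤ C

/-- uniform upper bound for Legendre symbols -/
def CS3Stmt : Prop := ∃ C : ℝ, ∀ r : ℕ, r.Prime → r ≠ 2 → ∀ z : ℕ,
  PS (fun p => (jacobiSym p r : ℝ)) z ≤ Real.log (Real.log r) + C

/-- main term of the sieve -/
def MTStmt : Prop := ∀ s : ℕ, 1 ≤ s → ∀ C : ℝ, 0 ≤ C → ∀ᶠ a : ℕ in atTop, ∀ g c : ℕ → ℝ,
  (∀ p : ℕ, p.Prime → c p ≤ 5) → (∀ p ∈ PP s a, c p / p - C / (p : ℝ) ^ 2 ≤ g p ∧ g p ≤ 1) →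
  3 / 2 * Real.log (Real.log (pz s a)) - C * (1 + Real.log (Real.log (pZ s a))) ≤ PS c (pz s a) →
  ∏ p ∈ PP s a, (1 - g p) ≤ (a : ℝ) / (a : ℝ) ^ (3 * s)

/-- error factor of the sieve -/
def ETStmt : Prop := ∀ s : ℕ, 1 ≤ s → ∃ n : ℕ, ∀ᶠ a : ℕ in atTop, ∀ g : ℕ → ℝ,
  (∀ p ∈ PP s a, 0 ≤ g p ∧ g p ≤ 5 / p) → ∏ p ∈ PP s a, (1 + 2 * g p) ≤ ((a : ℝ) + 1) ^ n

/-- a rational quartic reciprocity law -/
def QuarticStmt : Prop := ∀ r : ℕ, r.Prime → r % 4 = 1 →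
  ∃ A B e : ℤ, (e = 1 ∨ e = -1) ∧ A ^ 2 + B ^ 2 = r ∧
    ∀ p : ℕ, p.Prime → p ≠ 2 → p ≠ r → (∀ j : ℕ, ¬ r ∣ p ^ j + 1) →
      ∀ σ : ℤ, σ ^ 2 ≡ r [ZMOD p] → ((B : ℤ) : ZMod p) ≠ 0 →
        IsSquare ((2 * e * σ * (σ + A) : ℤ) : ZMod p)

/-- the binary quadratic form `u x ^ 2 + 2 y x w + v w ^ 2` -/
def QF {R : Type} [CommRing R] (u y v x w : R) : R := u * x ^ 2 + 2 * y * x * w + v * w ^ 2

/-- its bilinear form at `(a, c)` and `(b, d)` -/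
def BF {R : Type} [CommRing R] (u y v a c b d : R) : R :=
  u * a * b + y * (a * d + b * c) + v * c * d

/-- reduction of indefinite binary forms with control of the transformation matrix -/
def ParamStmt : Prop := ∀ Δ U y V : ℤ, 0 < Δ → ¬ IsSquare Δ → y ^ 2 - U * V = Δ →
  ∃ u₀ y₀ v₀ a b c d : ℤ, y₀ ^ 2 - u₀ * v₀ = Δ ∧ |u₀| ≤ 2 * Δ ∧ |y₀| ≤ 2 * Δ ∧ |v₀| ≤ 2 * Δ ∧
    a * d - b * c = 1 ∧ 0 < c ∧ |a| ≤ c ∧ |d| ≤ c ∧ c ^ 4 ≤ 9 * ((U + V) ^ 2 + 4 * Δ) ∧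
    ((U = QF u₀ y₀ v₀ a c ∧ y = BF u₀ y₀ v₀ a c b d ∧ V = QF u₀ y₀ v₀ b d) ∨
      (V = QF u₀ y₀ v₀ a c ∧ -y = BF u₀ y₀ v₀ a c b d ∧ U = QF u₀ y₀ v₀ b d))

/-- modular hyperbola in arithmetic progressions -/
def KloStmt : Prop := ∃ C : ℝ, ∀ c q a₀ d₀ : ℕ, 0 < c → 0 < q → c.Coprime q →
  |((#{x ∈ range (3 * c) ×ˢ range (3 * c) |
      x.1 ≡ a₀ [MOD q] ∧ x.2 ≡ d₀ [MOD q] ∧ x.1 * x.2 ≡ 1 [MOD c]} : ℕ) : ℝ) -
    9 * (Nat.totient c : ℝ) / (q : ℝ) ^ 2| ≤ C * (c : ℝ) ^ (23 / 24 : ℝ)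

open Classical in
/-- pure sieve on unimodular matrices, given by the entries `c, a, d` -/
def SL2Stmt : Prop := ∃ C : ℝ, ∀ (P : Finset ℕ) (z h T : ℕ)
  (Bad : (p : ℕ) → Finset (ZMod p × ZMod p × ZMod p)),
  (∀ p ∈ P, p.Prime ∧ p ≤ z) → Even h → (∀ p ∈ P, ∀ x ∈ Bad p, x.1 ≠ 0) →
  ((#{x ∈ range (T + 1) ×ˢ range (3 * T) ×ˢ range (3 * T) |
      0 < x.1 ∧ x.2.1 < 3 * x.1 ∧ x.2.2 < 3 * x.1 ∧ x.2.1 * x.2.2 ≡ 1 [MOD x.1] ∧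
        ∀ p ∈ P, ((x.1 : ZMod p), (x.2.1 : ZMod p), (x.2.2 : ZMod p)) ∉ Bad p} : ℕ) : ℝ) ≤
    9 * (T : ℝ) ^ 2 * ∏ p ∈ P, (1 - (#(Bad p) : ℝ) / (p : ℝ) ^ 3) +
    9 * (T : ℝ) ^ 2 / 2 ^ h * ∏ p ∈ P, (1 + 2 * ((#(Bad p) : ℝ) / (p : ℝ) ^ 3)) +
    C * ((z : ℝ) + 1) ^ (3 * h) * (T : ℝ) ^ (95 / 48 : ℝ)

/-- the residue classes that are sieved out -/
def BadP {R : Type} [CommRing R] (Δ e u y v c a d : R) : Prop :=
  c ≠ 0 ∧ ∃ b : R, a * d - b * c = 1 ∧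
    ((QF u y v a c + QF u y v b d) ^ 2 + 4 * Δ = 0 ∨
      (QF u y v a c + QF u y v b d = Δ - 1 ∧ BF u y v a c b d ≠ 0 ∧
        ¬ IsSquare (e * (Δ - QF u y v a c))))

/-- local densities -/
def LocalStmt : Prop := ∀ (mu Δ e u y v : ℤ) (p : ℕ), p.Prime → Δ = 4 * mu ^ 2 - 1 →
  (e = 1 ∨ e = -1) → y ^ 2 - u * v = Δ → ¬ (p : ℤ) ∣ 2 * mu * Δ * u →
  (((1 + (jacobiSym (-Δ) p : ℝ)) * (1 + (jacobiSym (-1) p : ℝ)) + 1 / 2) * (p : ℝ) ^ 2 - 27 * p ≤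
    (Set.ncard {x : ZMod p × ZMod p × ZMod p |
      BadP (Δ : ZMod p) (e : ZMod p) (u : ZMod p) (y : ZMod p) (v : ZMod p) x.1 x.2.1 x.2.2} : ℝ))

/-- every admissible `k` lies in one of the sparse sets -/
def CoverStmt : Prop := ∀ lam s : ℕ, 2 ≤ lam → 1 ≤ s → ∀ᶠ a : ℕ in atTop, ∀ K : ℕ, Scale s a K →
  ∀ k v : ℕ, k ≤ K → Arith lam v k →
    S0 lam a K k ∨ S1 lam a K k ∨ S2 lam s a K k ∨ S3 lam s a K k ∨ S4 lam s a K k ∨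
    S5 lam s a K k ∨ S6 lam s a K k ∨ S7 lam s a K k ∨ S8 lam a K k ∨
    S9 lam s (-(lam : ℤ)) a K k ∨ (¬ IsSquare (lam : ℤ) ∧ S9 lam s lam a K k) ∨ S10 lam s a K k ∨
    ∃ mu : ℕ, lam = mu ^ 2 ∧ (S11 mu s 1 a K k ∨ S11 mu s (-1) a K k)

/-- from scales to logarithms -/
def FinalStmt : Prop := ∀ S : ℕ → Prop, (∀ s : ℕ, 1 ≤ s → Sparse s (fun _ _ k => S k)) →
  ∀ ε : ℝ, 0 < ε → ∃ C : ℝ, ∀ K : ℕ, 2 ≤ K → cnt K S ≤ C * K / Real.log K ^ (3 / 2 - ε)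

theorem F_cast (lam k : ℕ) : (F lam k : ℤ) = (k : ℤ) ^ 2 - k + lam := by
  rcases k with _ | k
  · simp [F]
  · simp only [F, Nat.add_sub_cancel]
    push_cast
    ring

theorem F_pos {lam : ℕ} (h : 1 ≤ lam) (k : ℕ) : 0 < F lam k := by
  unfold F
  omega

theorem F_le {lam k K : ℕ} (hk : k ≤ K) (hl : lam ≤ K) : F lam k ≤ K ^ 2 := by
  have h := F_cast lam k
  have : (F lam k : ℤ) ≤ (K : ℤ) ^ 2 := by
    rw [h]
    rcases Nat.eq_zero_or_pos k with rfl | h0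
    · have : (lam : ℤ) ≤ K := by exact_mod_cast hl
      have : (0 : ℤ) ≤ lam := by positivity
      push_cast
      nlinarith
    · have h1 : (k : ℤ) ≤ K := by exact_mod_cast hk
      have h2 : (lam : ℤ) ≤ K := by exact_mod_cast hl
      have h3 : (1 : ℤ) ≤ k := by exact_mod_cast h0
      nlinarith
  exact_mod_cast this

theorem dvd_F_iff (lam d k : ℕ) : d ∣ F lam k ↔ ((k : ZMod d) ^ 2 - k + lam = 0) := by
  rw [← ZMod.natCast_eq_zero_iff]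
  have : ((F lam k : ℕ) : ZMod d) = (k : ZMod d) ^ 2 - k + lam := by
    have := congrArg (Int.cast : ℤ → ZMod d) (F_cast lam k)
    push_cast at this
    exact this
  rw [this]

theorem dvd_F_congr {lam d k k' : ℕ} (h : k ≡ k' [MOD d]) : d ∣ F lam k ↔ d ∣ F lam k' := by
  rw [dvd_F_iff, dvd_F_iff, (ZMod.natCast_eq_natCast_iff _ _ _).2 h]

theorem periodic_F (lam d : ℕ) : Function.Periodic (fun k => d ∣ F lam k) d := fun k =>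
  propext (dvd_F_congr (by simp [Nat.ModEq]))

/-- at most two roots modulo a prime -/
theorem roots_prime (lam : ℕ) {r : ℕ} (hr : r.Prime) : #{x ∈ range r | r ∣ F lam x} ≤ 2 := by
  classical
  have := Fact.mk hr
  let f : Polynomial (ZMod r) := Polynomial.X ^ 2 - Polynomial.X + Polynomial.C (lam : ZMod r)
  have hd : f.natDegree = 2 := by
    simp only [f]
    compute_degree!
  have hf : f ≠ 0 := by
    intro h
    rw [h] at hd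
    simp at hd
  refine le_trans (card_le_card_of_injOn (t := f.roots.toFinset) (fun x => (x : ZMod r)) ?_ ?_) ?_
  · intro x hx
    simp only [coe_filter, mem_range, Set.mem_ofPred_eq] at hx
    simp only [mem_coe, Multiset.mem_toFinset, Polynomial.mem_roots hf, Polynomial.IsRoot.def]
    have := (dvd_F_iff lam r x).1 hx.2
    simpa [f] using this
  · intro x hx y hy hxy
    simp only [coe_filter, mem_range, Set.mem_ofPred_eq] at hx hy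
    exact Nat.ModEq.eq_of_lt_of_lt ((ZMod.natCast_eq_natCast_iff _ _ _).1 hxy) hx.1 hy.1
  · exact (Multiset.toFinset_card_le _).trans ((Polynomial.card_roots' f).trans hd.le)

/-- counting a periodic predicate -/
theorem count_le {d : ℕ} (hd : 0 < d) (P : ℕ → Prop) [DecidablePred P]
    (hP : Function.Periodic P d) (Y : ℕ) :
    (#{n ∈ range Y | P n} : ℝ) ≤ #{n ∈ range d | P n} * ((Y : ℝ) / d + 1) := by
  have := (abs_le.1 (Pool.Agent.Shared.BrunSieve.count_approx hd P hP Y)).2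
  have e : (#{n ∈ range d | P n} : ℝ) * ((Y : ℝ) / d + 1) =
      Y * (#{n ∈ range d | P n} / d) + #{n ∈ range d | P n} := by ring
  linarith

theorem cnt_nonneg (K : ℕ) (S : ℕ → Prop) : 0 ≤ cnt K S := by
  unfold cnt
  positivity

theorem cnt_eq (K : ℕ) (S : ℕ → Prop) [DecidablePred S] :
    cnt K S = (#{k ∈ range (K + 1) | S k} : ℕ) := by
  unfold cnt
  congr

theorem cnt_le_card {K : ℕ} {S : ℕ → Prop} (T : Finset ℕ) (h : ∀ k, k ≤ K → S k → k ∈ T) :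
    cnt K S ≤ #T := by
  classical
  rw [cnt_eq]
  exact_mod_cast card_le_card fun k hk => by
    simp only [mem_filter, mem_range] at hk
    exact h k (by omega) hk.2

theorem cnt_mono {K : ℕ} {S S' : ℕ → Prop} (h : ∀ k, k ≤ K → S k → S' k) :
    cnt K S ≤ cnt K S' := by
  classical
  rw [cnt_eq K S']
  exact cnt_le_card _ fun k hk hs => mem_filter.2 ⟨mem_range.2 (by omega), h k hk hs⟩

theorem cnt_or (K : ℕ) (S S' : ℕ → Prop) : cnt K (fun k => S k ∨ S' k) ≤ cnt K S + cnt K S' := by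
  classical
  rw [cnt_eq, cnt_eq, cnt_eq, filter_or]
  exact_mod_cast card_union_le _ _

/-- union bound -/
theorem cnt_le_sum {ι : Type} {K : ℕ} {S : ℕ → Prop} (I : Finset ι) (T : ι → ℕ → Prop)
    (h : ∀ k, k ≤ K → S k → ∃ i ∈ I, T i k) : cnt K S ≤ ∑ i ∈ I, cnt K (T i) := by
  classical
  refine (cnt_le_card (I.biUnion fun i => {k ∈ range (K + 1) | T i k}) fun k hk hs => ?_).trans ?_
  · obtain ⟨i, hi, ht⟩ := h k hk hs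
    exact mem_biUnion.2 ⟨i, hi, mem_filter.2 ⟨mem_range.2 (by omega), ht⟩⟩
  · simp only [cnt_eq]
    exact_mod_cast card_biUnion_le

theorem cnt_dvd_F_prime (lam K : ℕ) {r : ℕ} (hr : r.Prime) :
    cnt K (fun k => r ∣ F lam k) ≤ 2 * (((K : ℝ) + 1) / r + 1) := by
  rw [cnt_eq]
  have h1 := count_le hr.pos (fun k => r ∣ F lam k) (periodic_F lam r) (K + 1)
  have h2 : (#{x ∈ range r | r ∣ F lam x} : ℝ) ≤ 2 := by exact_mod_cast roots_prime lam hr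
  push_cast at h1
  exact h1.trans (mul_le_mul_of_nonneg_right h2 (by positivity))

theorem Sparse.mono {s : ℕ} {S S' : ℕ → ℕ → ℕ → Prop} (h' : Sparse s S')
    (h : ∀ᶠ a : ℕ in atTop, ∀ K, Scale s a K → ∀ k, k ≤ K → S a K k → S' a K k) : Sparse s S := by
  obtain ⟨C, hC⟩ := h'
  refine ⟨C, ?_⟩
  filter_upwards [hC, h] with a h1 h2 K hK
  exact (cnt_mono (h2 K hK)).trans (h1 K hK)

theorem Sparse.or {s : ℕ} {S S' : ℕ → ℕ → ℕ → Prop} (h : Sparse s S) (h' : Sparse s S') :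
    Sparse s (fun a K k => S a K k ∨ S' a K k) := by
  obtain ⟨C, hC⟩ := h
  obtain ⟨C', hC'⟩ := h'
  refine ⟨C + C', ?_⟩
  filter_upwards [hC, hC'] with a h1 h2 K hK
  refine (cnt_or K _ _).trans ((add_le_add (h1 K hK) (h2 K hK)).trans (le_of_eq ?_))
  ring

theorem Sparse.of_false (s : ℕ) : Sparse s (fun _ _ _ => False) :=
  ⟨0, Eventually.of_forall fun a K _ => by simp [cnt]⟩

theorem Scale.pos {s a K : ℕ} (h : Scale s a K) : 0 < K :=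
  lt_of_lt_of_le (by positivity) h.1

theorem Scale.two_pow_le {s a K : ℕ} (h : Scale s a K) : 2 ^ a ≤ K :=
  le_trans (Nat.pow_le_pow_right (by norm_num) (Nat.le_self_pow (by omega) a)) h.1

theorem Scale.lt {s a K : ℕ} (h : Scale s a K) : a < K :=
  lt_of_lt_of_le Nat.lt_two_pow_self h.two_pow_le

theorem Scale.log_le {s a K : ℕ} (h : Scale s a K) :
    Real.log K ≤ ((a : ℝ) + 1) ^ (2 * s + 3) := by
  have h0 : (0 : ℝ) < K := by exact_mod_cast h.pos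
  have h1 : (K : ℝ) ≤ 2 ^ ((a + 1) ^ (2 * s + 3)) := by exact_mod_cast h.2.le
  refine (Real.log_le_log h0 h1).trans ?_
  rw [Real.log_pow]
  push_cast
  have := Real.log_two_lt_d9
  have h2 : (0 : ℝ) ≤ ((a : ℝ) + 1) ^ (2 * s + 3) := by positivity
  nlinarith

/-- polynomial times geometric -/
theorem poly_geom (n : ℕ) : ∀ᶠ a : ℕ in atTop, ((a : ℝ) + 1) ^ n * (2 / 3) ^ a ≤ 1 := by
  have h := tendsto_pow_const_mul_const_pow_of_abs_lt_one n (r := (2 / 3 : ℝ)) (by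
    rw [abs_of_pos] <;> norm_num)
  have h2 := (h.comp (tendsto_add_atTop_nat 1)).const_mul (3 / 2)
  rw [mul_zero] at h2
  filter_upwards [h2.eventually (gt_mem_nhds one_pos)] with a ha
  simp only [Function.comp] at ha
  push_cast at ha
  refine le_of_eq_of_le ?_ ha.le
  ring

/-- The general criterion: three kinds of admissible terms. -/
theorem Sparse.of_bound {s : ℕ} {S : ℕ → ℕ → ℕ → Prop} (C : ℝ) (n m : ℕ) (δ : ℝ) (hδ : 0 < δ)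
    (h : ∀ᶠ a : ℕ in atTop, ∀ K : ℕ, Scale s a K → cnt K (S a K) ≤
      C * (K * (a : ℝ) ^ 2 / (a : ℝ) ^ (3 * s) + K * (((a : ℝ) + 1) ^ n * (2 / 3) ^ a) +
        ((a : ℝ) + 1) ^ n * 2 ^ (m * a ^ (2 * s + 2)) * (K : ℝ) ^ (1 - δ))) : Sparse s S := by
  refine ⟨3 * |C|, ?_⟩
  obtain ⟨N, hN⟩ := exists_nat_gt (((m : ℝ) + 1) / δ)
  filter_upwards [h, poly_geom (n + 3 * s), eventually_ge_atTop 1, eventually_ge_atTop N]
    with a h1 h2 h3 h4 K hK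
  have ha : (1 : ℝ) ≤ a := by exact_mod_cast h3
  have hK0 : (0 : ℝ) < K := by exact_mod_cast hK.pos
  have e1 : ((a : ℝ) + 1) ^ n * (2 / 3) ^ a ≤ (a : ℝ) ^ 2 / (a : ℝ) ^ (3 * s) := by
    rw [le_div_iff₀ (by positivity)]
    have h5 : (a : ℝ) ^ (3 * s) ≤ ((a : ℝ) + 1) ^ (3 * s) := by gcongr; linarith
    calc _ ≤ ((a : ℝ) + 1) ^ n * (2 / 3) ^ a * ((a : ℝ) + 1) ^ (3 * s) := by gcongr
      _ = ((a : ℝ) + 1) ^ (n + 3 * s) * (2 / 3) ^ a := by ring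
      _ ≤ 1 := h2
      _ ≤ (a : ℝ) ^ 2 := one_le_pow₀ ha
  have e2 : (2 : ℝ) ^ (m * a ^ (2 * s + 2)) * (K : ℝ) ^ (1 - δ) ≤ K * (2 / 3) ^ a := by
    have h5 : (2 : ℝ) ^ (a ^ (2 * s + 3)) ≤ K := by exact_mod_cast hK.1
    have h6 : (2 : ℝ) ^ (m * a ^ (2 * s + 2) + a) ≤ (K : ℝ) ^ δ := by
      refine le_trans ?_ (Real.rpow_le_rpow (by positivity) h5 hδ.le)
      rw [← Real.rpow_natCast, ← Real.rpow_natCast, ← Real.rpow_mul (by norm_num)]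
      refine Real.rpow_le_rpow_of_exponent_le (by norm_num) ?_
      push_cast
      have h7 : (N : ℝ) ≤ a := by exact_mod_cast h4
      have h8 : (m : ℝ) + 1 ≤ a * δ := by
        rw [div_lt_iff₀ hδ] at hN
        nlinarith
      have h9 : (a : ℝ) ≤ (a : ℝ) ^ (2 * s + 2) := le_self_pow₀ ha (by omega)
      have h10 : (0 : ℝ) ≤ (a : ℝ) ^ (2 * s + 2) := by positivity
      calc (m : ℝ) * (a : ℝ) ^ (2 * s + 2) + a ≤ (m + 1) * (a : ℝ) ^ (2 * s + 2) := by linarith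
        _ ≤ (a * δ) * (a : ℝ) ^ (2 * s + 2) := by gcongr
        _ = _ := by ring
    have h7 : (K : ℝ) ^ (1 - δ) * (K : ℝ) ^ δ = K := by
      rw [← Real.rpow_add hK0]
      simp
    have h8 : (0 : ℝ) ≤ (K : ℝ) ^ (1 - δ) := by positivity
    have h9 : (1 : ℝ) ≤ 2 ^ a * (2 / 3) ^ a := by
      rw [← mul_pow]
      exact one_le_pow₀ (by norm_num)
    calc _ ≤ (2 : ℝ) ^ (m * a ^ (2 * s + 2)) * (K : ℝ) ^ (1 - δ) * (2 ^ a * (2 / 3) ^ a) :=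
          le_mul_of_one_le_right (by positivity) h9
      _ = (K : ℝ) ^ (1 - δ) * 2 ^ (m * a ^ (2 * s + 2) + a) * (2 / 3) ^ a := by ring
      _ ≤ (K : ℝ) ^ (1 - δ) * (K : ℝ) ^ δ * (2 / 3) ^ a := by gcongr
      _ = _ := by rw [h7]
  have e3 : (K : ℝ) * (((a : ℝ) + 1) ^ n * (2 / 3) ^ a) ≤ K * (a : ℝ) ^ 2 / (a : ℝ) ^ (3 * s) := by
    rw [mul_div_assoc]
    gcongr
  have e4 : ((a : ℝ) + 1) ^ n * 2 ^ (m * a ^ (2 * s + 2)) * (K : ℝ) ^ (1 - δ) ≤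
      K * (a : ℝ) ^ 2 / (a : ℝ) ^ (3 * s) := by
    refine le_trans ?_ e3
    calc _ = ((a : ℝ) + 1) ^ n * (2 ^ (m * a ^ (2 * s + 2)) * (K : ℝ) ^ (1 - δ)) := by ring
      _ ≤ ((a : ℝ) + 1) ^ n * (K * (2 / 3) ^ a) := by gcongr
      _ = _ := by ring
  refine (h1 K hK).trans ?_
  calc _ ≤ |C| * (K * (a : ℝ) ^ 2 / (a : ℝ) ^ (3 * s) + K * (((a : ℝ) + 1) ^ n * (2 / 3) ^ a) +
        ((a : ℝ) + 1) ^ n * 2 ^ (m * a ^ (2 * s + 2)) * (K : ℝ) ^ (1 - δ)) :=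
        mul_le_mul_of_nonneg_right (le_abs_self C) (by positivity)
    _ ≤ |C| * (3 * (K * (a : ℝ) ^ 2 / (a : ℝ) ^ (3 * s))) :=
        mul_le_mul_of_nonneg_left (by linarith) (abs_nonneg C)
    _ = _ := by ring

end Pool.Agent.Lib.MP_0820eb_co.Dens
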