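import Pool.Agent.Lib.MP_0820eb_co.Basic
import Pool.Agent.Lib.MP_0820eb_co.Dens.Defs

/-!
Abelian difference sets with arbitrary `λ`: first multiplier theorem, fixed translates, Mann's test.
-/

set_option linter.unusedSectionVars false

open Finset MonoidAlgebra

namespace Pool.Agent.Lib.MP_0820eb_co.Dens

variable {G : Type} [CommGroup G] [Fintype G] [DecidableEq G] {lam : ℕ}

theorem IsDS.base {A : Type} [CommRing A] {D : Finset G} (hD : IsDS lam D) (χ : G →* A) :
    (∑ x ∈ D, χ x) * (∑ y ∈ D, χ y⁻¹) = ((D.card : A) - lam) + lam * ∑ g, χ g := by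
  rw [conv D (fun x => x) χ, mul_sum]
  have h : ∀ g, ((D.filter (fun x => g⁻¹ * x ∈ D)).card : A) * χ g =
      (if g = 1 then (D.card : A) - lam else 0) + lam * χ g := by
    intro g
    split_ifs with h1
    · subst h1
      rw [filter_true_of_mem (by simp)]
      simp
    · rw [hD g⁻¹ (inv_ne_one.mpr h1)]
      simp
  rw [sum_congr rfl fun g _ => h g, sum_add_distrib]
  simp

theorem IsDS.count {D : Finset G} (hD : IsDS lam D) :
    (D.card : ℤ) * D.card = (D.card : ℤ) - lam + lam * Fintype.card G := by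
  simpa using hD.base (1 : G →* ℤ)

theorem IsDS.eq_F {D : Finset G} (hD : IsDS lam D) : lam * Fintype.card G = F lam D.card := by
  have h := hD.count
  have h2 := F_cast lam D.card
  have : ((lam * Fintype.card G : ℕ) : ℤ) = F lam D.card := by
    push_cast
    linarith
  exact_mod_cast this

theorem IsDS.not_dvd_card {D : Finset G} (hD : IsDS lam D) (hl : 1 ≤ lam) {p : ℕ} (hp : p.Prime)
    (h2 : lam < p) (hn : (p : ℤ) ∣ (D.card : ℤ) - lam) : ¬ p ∣ Fintype.card G := by
  intro hv
  have hp' : Prime (p : ℤ) := Nat.prime_iff_prime_int.mp hp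
  have h1 : (p : ℤ) ∣ D.card * D.card := by
    rw [hD.count]
    exact hn.add ((Int.natCast_dvd_natCast.mpr hv).mul_left _)
  have h3 : (p : ℤ) ∣ D.card := (hp'.dvd_or_dvd h1).elim id id
  have h4 : (p : ℤ) ∣ lam := by simpa using h3.sub hn
  have := Nat.le_of_dvd hl (Int.natCast_dvd_natCast.mp h4)
  omega

theorem IsDS.first_multiplier {D : Finset G} (hD : IsDS lam D) (hl : 1 ≤ lam) {p : ℕ}
    (hp : p.Prime) (h2 : lam < p) (hn : (p : ℤ) ∣ (D.card : ℤ) - lam) (h0 : lam < D.card) :
    ∃ g, ∀ x ∈ D, x ^ p * g ∈ D := by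
  have := Fact.mk hp
  have hcop : (Nat.card G).Coprime p := by
    rw [Nat.card_eq_fintype_card]
    exact ((Nat.Prime.coprime_iff_not_dvd hp).mpr (hD.not_dvd_card hl hp h2 hn)).symm
  let N : G → ℕ := fun g => (D.filter (fun x => g⁻¹ * x ^ p ∈ D)).card
  have hN2 : ∀ g, lam ≤ N g := by
    intro g
    have : CharP (MonoidAlgebra (ZMod p) G) p :=
      charP_of_injective_algebraMap' (ZMod p) p
    let χ := of (ZMod p) G
    have hk : ((D.card : MonoidAlgebra (ZMod p) G)) = lam := by
      have := (CharP.intCast_eq_zero_iff (MonoidAlgebra (ZMod p) G) p _).mpr hn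
      push_cast at this
      exact sub_eq_zero.mp this
    have h1 := conv D (fun x => x ^ p) χ
    have h3 := hD.base χ
    have h4 : (∑ x ∈ D, χ x) * ∑ g, χ g = lam * ∑ g, χ g := by
      rw [sum_mul, sum_congr rfl fun x _ => mul_all χ x, sum_const, nsmul_eq_mul, hk]
    have h5 : ∀ i : ℕ, (∑ x ∈ D, χ x) ^ i * ∑ g, χ g = lam ^ i * ∑ g, χ g := by
      intro i
      induction i with
      | zero => simp
      | succ i ih => rw [pow_succ, mul_assoc, h4, mul_left_comm, ih]; ring
    have h6 : (lam : MonoidAlgebra (ZMod p) G) ^ p = lam := by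
      have := map_natCast (frobenius (MonoidAlgebra (ZMod p) G) p) lam
      rwa [frobenius_def] at this
    obtain ⟨q, rfl⟩ : ∃ q, p = q + 1 := ⟨p - 1, by have := hp.pos; omega⟩
    simp only [map_pow] at h1
    rw [← sum_pow_char, pow_succ, mul_assoc, h3, hk, sub_self, zero_add, mul_left_comm, h5,
      ← mul_assoc, ← pow_succ', h6] at h1
    have h7 := congrArg (cf g) h1
    simp only [χ, of_apply, mul_sum, natCast_def, single_mul_single, map_sum, cf_of,
      one_mul, mul_one, sum_ite_eq', mem_univ, if_true] at h7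
    have h8 : ((lam : ℕ) : ZMod (q + 1)) = (N g : ZMod (q + 1)) := by exact_mod_cast h7
    have h9 := (ZMod.natCast_eq_natCast_iff' _ _ _).mp h8
    rw [Nat.mod_eq_of_lt h2] at h9
    exact h9 ▸ Nat.mod_le _ _
  have hs1 : ∑ g, (N g : ℤ) = D.card * D.card := by
    simpa using (conv D (fun x => x ^ p) (1 : G →* ℤ)).symm
  have hs2 : ∑ g, (N g : ℤ) * N g =
      (D.card - lam) ^ 2 + 2 * lam * (D.card - lam) + lam ^ 2 * Fintype.card G := by
    let χ := of ℤ G
    have h1 := conv D (fun x => x ^ p) χ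
    have h1' := conv D (fun x => x ^ p) (χ.comp invMonoidHom)
    have h3 := hD.base χ
    have h4 := hD.base (χ.comp (powMonoidHom p))
    have h5 : ∑ g, χ (g ^ p) = ∑ g, χ g := Fintype.sum_equiv (powCoprime hcop) _ _ fun g => rfl
    have h6 : (∑ g, χ g) * ∑ g, χ g = Fintype.card G * ∑ g, χ g := by
      rw [sum_mul, sum_congr rfl fun x _ => mul_all χ x, sum_const, nsmul_eq_mul, card_univ]
    simp only [MonoidHom.comp_apply, invMonoidHom_apply, powMonoidHom_apply, inv_inv, h5,
      inv_pow] at h1' h4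
    have h7 : (∑ g, (N g : MonoidAlgebra ℤ G) * χ g) * ∑ g, (N g : MonoidAlgebra ℤ G) * χ g⁻¹ =
        (D.card - lam) * (D.card - lam) +
          ((lam + lam) * (D.card - lam) + lam * lam * Fintype.card G) * ∑ g, χ g := by
      rw [← h1, ← h1', mul_mul_mul_comm, h4, mul_comm (∑ y ∈ D, χ y⁻¹), h3]
      linear_combination (lam : MonoidAlgebra ℤ G) * lam * h6
    have h8 := congrArg (cf 1) h7
    simp only [χ, of_apply, mul_sum, sum_mul, natCast_def, single_mul_single, map_sum,
      cf_of, one_mul, mul_one, ← single_sub, ← single_add, map_add, mul_inv_eq_one,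
      sum_ite_eq', mem_univ, if_true] at h8
    linear_combination h8
  have hc := hD.count
  have hs3 : ∑ g, ((N g : ℤ) - lam) * (D.card - N g) = 0 := by
    have : ∀ g, ((N g : ℤ) - lam) * (D.card - N g) =
        (D.card + lam) * N g - N g * N g - lam * D.card := fun g => by ring
    simp only [this, sum_sub_distrib, ← mul_sum, hs1, hs2, sum_const, card_univ, nsmul_eq_mul]
    linear_combination ((D.card : ℤ) + lam) * hc
  have hle : ∀ g, N g ≤ D.card := fun g => card_filter_le _ _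
  rw [sum_eq_zero_iff_of_nonneg fun g _ => mul_nonneg (by linarith [hN2 g]) (by linarith [hle g])]
    at hs3
  by_contra hno
  push Not at hno
  have h2' : ∀ g, (N g : ℤ) = lam := by
    intro g
    rcases mul_eq_zero.mp (hs3 g (mem_univ _)) with h | h
    · linarith
    · exfalso
      have h1 : N g = D.card := by omega
      obtain ⟨x, hx, hx'⟩ := hno g⁻¹
      exact hx' (mul_comm g⁻¹ _ ▸ (card_filter_eq_iff.mp h1) x hx)
  simp only [h2', sum_const, card_univ, nsmul_eq_mul] at hs1
  have : (lam : ℤ) < D.card := by exact_mod_cast h0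
  linarith

theorem IsDS.multiplier {D : Finset G} (hD : IsDS lam D) (hl : 1 ≤ lam) (h0 : lam < D.card) {t : ℕ}
    (ht : ∀ p : ℕ, p.Prime → p ∣ t → lam < p) (hn : (t : ℤ) ∣ (D.card : ℤ) - lam) :
    ∃ g, ∀ x ∈ D, x ^ t * g ∈ D := by
  induction t using induction_on_primes with
  | zero => exact absurd (ht _ (Nat.minFac_prime (by omega : lam + 1 ≠ 1)) (dvd_zero _)) (by
      have := ht 2 Nat.prime_two (dvd_zero _)
      have h3 : (lam : ℤ) < D.card := by exact_mod_cast h0
      simp only [Nat.cast_zero, zero_dvd_iff] at hn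
      omega)
  | one => exact ⟨1, by simp⟩
  | prime_mul p a hp ih =>
    push_cast at hn
    obtain ⟨g, hg⟩ := ih (fun q hq h => ht q hq (h.mul_left p)) (Dvd.dvd.trans (Dvd.intro_left _ rfl) hn)
    obtain ⟨g', hg'⟩ := hD.first_multiplier hl hp (ht p hp (Dvd.intro _ rfl))
      (Dvd.dvd.trans (Dvd.intro _ rfl) hn) h0
    exact ⟨g' ^ a * g, fun x hx => by
      have := hg _ (hg' x hx)
      rwa [mul_pow, ← pow_mul, mul_assoc] at this⟩

theorem IsDS.fix_translate {D : Finset G} (hD : IsDS lam D) (h0 : lam < D.card) {t : ℕ}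
    (ht : (Nat.card G).Coprime (t + 1)) {g : G} (h : ∀ x ∈ D, x ^ (t + 1) * g ∈ D) :
    ∃ h : G, h ^ t = g := by
  classical
  let U := (powMonoidHom t : G →* G).range
  let χ := (of ℤ (G ⧸ U)).comp (QuotientGroup.mk' U)
  have h1 : ∀ x, χ (x ^ (t + 1)) = χ x := fun x => by
    have : QuotientGroup.mk' U (x ^ t) = 1 := (QuotientGroup.eq_one_iff _).mpr ⟨x, rfl⟩
    simp only [χ, MonoidHom.comp_apply, pow_succ, map_mul, this, map_one, one_mul]
  have h2 : (∑ x ∈ D, χ x) * χ g = ∑ x ∈ D, χ x := by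
    rw [← sum_perm (f := fun x => x ^ (t + 1) * g)
      ((mul_left_injective g).comp (powCoprime ht).injective) h χ, sum_mul]
    conv_lhs => rw [← sum_mul, sum_perm (f := fun x => x ^ (t + 1) * g)
      ((mul_left_injective g).comp (powCoprime ht).injective) h χ, sum_mul]
    exact sum_congr rfl fun x _ => by rw [map_mul, h1]
  have h3 := hD.base χ
  have h4 := mul_all χ g
  have h5 : ((D.card : MonoidAlgebra ℤ (G ⧸ U)) - lam) * χ g = D.card - lam := by
    linear_combination (∑ y ∈ D, χ y⁻¹) * h2 - (χ g - 1) * h3 - (lam : MonoidAlgebra ℤ (G ⧸ U)) * h4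
  have h6 := congrArg (cf 1) h5
  simp only [χ, MonoidHom.comp_apply, of_apply, natCast_def, single_mul_single, cf_of,
    one_mul, mul_one, ← single_sub, if_true] at h6
  split_ifs at h6 with h7
  · exact (QuotientGroup.eq_one_iff _).mp h7
  · have : (lam : ℤ) < D.card := by exact_mod_cast h0
    linarith

theorem IsDS.translate {D : Finset G} (hD : IsDS lam D) (h : G) : IsDS lam (D.image (· * h)) := by
  intro g hg
  rw [← hD g hg]
  have m : ∀ y, y * h ∈ D.image (· * h) ↔ y ∈ D := fun y =>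
    (mul_left_injective h).mem_finset_image
  have : {y ∈ D.image (· * h) | g * y ∈ D.image (· * h)} = {y ∈ D | g * y ∈ D}.image (· * h) := by
    rw [filter_image]
    simp only [← mul_assoc, m]
  rw [this, card_image_of_injective _ (mul_left_injective h)]

theorem IsDS.exists_fixed {D : Finset G} (hD : IsDS lam D) (hl : 1 ≤ lam) (h0 : lam < D.card)
    {t : ℕ} (ht : ∀ p : ℕ, p.Prime → p ∣ t → lam < p) (hn : t ∣ D.card - lam) :
    (Fintype.card G).Coprime t ∧
      ∃ D' : Finset G, IsDS lam D' ∧ D'.card = D.card ∧ ∀ x ∈ D', x ^ t ∈ D' := by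
  have hn' : (t : ℤ) ∣ (D.card : ℤ) - lam := by
    have := Int.natCast_dvd_natCast.2 hn
    rwa [Nat.cast_sub h0.le] at this
  have hc : (Fintype.card G).Coprime t := by
    refine Nat.Coprime.symm (Nat.coprime_of_dvd fun p hp h1 => ?_)
    exact hD.not_dvd_card hl hp (ht p hp h1) ((Int.natCast_dvd_natCast.2 h1).trans hn')
  refine ⟨hc, ?_⟩
  obtain ⟨g, hg⟩ := hD.multiplier hl h0 ht hn'
  have ht0 : 0 < t := Nat.pos_of_dvd_of_pos hn (by omega)
  obtain ⟨s, rfl⟩ : ∃ s, t = s + 1 := ⟨t - 1, by omega⟩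
  obtain ⟨h, rfl⟩ := hD.fix_translate h0 (by rwa [Nat.card_eq_fintype_card]) hg
  refine ⟨_, hD.translate h, card_image_of_injective _ (mul_left_injective h), fun x hx => ?_⟩
  obtain ⟨y, hy, rfl⟩ := mem_image.mp hx
  exact mem_image.mpr ⟨_, hg y hy, by rw [mul_pow, pow_succ h, mul_assoc]⟩

/-- Mann's test. -/
theorem IsDS.mann {D : Finset G} (hD : IsDS lam D) (hl : 2 ≤ lam) (h0 : lam < D.card) {p r : ℕ}
    (hp : p.Prime) (hr : r.Prime) (h2 : lam < p) (hn : p ∣ D.card - lam)
    (hn2 : ¬ p ^ 2 ∣ D.card - lam) (hrv : r ∣ Fintype.card G) (j : ℕ) : ¬ r ∣ p ^ j + 1 := by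
  classical
  intro hj
  have := Fact.mk hp
  have := Fact.mk hr
  have hn' : (p : ℤ) ∣ (D.card : ℤ) - lam := by
    have := Int.natCast_dvd_natCast.2 hn
    rwa [Nat.cast_sub h0.le] at this
  let U := (powMonoidHom r : G →* G).range
  let π := QuotientGroup.mk' U
  obtain ⟨h, hh⟩ : ∃ h : G, π h ≠ 1 := by
    by_contra hc
    push Not at hc
    have hs : Function.Surjective (powMonoidHom r : G →* G) := fun g =>
      (QuotientGroup.eq_one_iff _).mp (hc g)
    have hi := Finite.injective_iff_surjective.2 hs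
    obtain ⟨g, hg⟩ := exists_prime_orderOf_dvd_card r hrv
    have : g = 1 := hi (by simp [← hg])
    rw [this, orderOf_one] at hg
    exact hr.one_lt.ne hg
  let b : G ⧸ U → ℤ := fun q => ∑ x ∈ D, if π x = q then 1 else 0
  have hb : ∀ q : G ⧸ U, (p : ℤ) ∣ b (π h * q) - b q := by
    intro q
    have : NeZero (Nat.card (G ⧸ U) : ZMod p) := ⟨by
      rw [Ne, ZMod.natCast_eq_zero_iff]
      intro h
      apply hD.not_dvd_card (by omega) hp h2 hn'
      rw [← Nat.card_eq_fintype_card]
      exact h.trans (Subgroup.card_quotient_dvd_card U)⟩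
    have : CharP (MonoidAlgebra (ZMod p) (G ⧸ U)) p := charP_of_injective_algebraMap' (ZMod p) p
    let χ := (of (ZMod p) (G ⧸ U)).comp π
    have hk : ((D.card : MonoidAlgebra (ZMod p) (G ⧸ U))) - lam = 0 := by
      have := (CharP.intCast_eq_zero_iff (MonoidAlgebra (ZMod p) (G ⧸ U)) p _).mpr hn'
      push_cast at this
      exact this
    have h1 : ∑ y ∈ D, χ y⁻¹ = (∑ y ∈ D, χ y) ^ p ^ j := by
      rw [sum_pow_char_pow]
      refine sum_congr rfl fun y _ => ?_
      have : π y⁻¹ = π (y ^ p ^ j) := by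
        refine QuotientGroup.eq.mpr ?_
        obtain ⟨c, hc⟩ := hj
        exact ⟨y ^ c, by simp [← pow_mul, mul_comm c r, ← hc, pow_succ']⟩
      rw [← map_pow]
      simp only [χ, MonoidHom.comp_apply, this]
    have h3 := hD.base χ
    rw [h1, hk, zero_add] at h3
    have h5 : (∑ y ∈ D, χ y) * χ h⁻¹ = ∑ y ∈ D, χ y := by
      rw [← sub_eq_zero]
      refine IsReduced.eq_zero _ ⟨p ^ j + 1, ?_⟩
      have e : (∑ y ∈ D, χ y) * χ h⁻¹ - ∑ y ∈ D, χ y = (∑ y ∈ D, χ y) * (χ h⁻¹ - 1) := by ring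
      rw [e, mul_pow, pow_succ', h3, pow_succ']
      linear_combination (lam : MonoidAlgebra (ZMod p) (G ⧸ U)) * (χ h⁻¹ - 1) ^ p ^ j *
        (mul_all χ h⁻¹)
    have h6 := congrArg (cf q) h5
    simp only [χ, sum_mul, map_sum, MonoidHom.comp_apply, of_apply, single_mul_single, cf_of,
      mul_one, map_inv, mul_inv_eq_iff_eq_mul, mul_comm q] at h6
    rw [← ZMod.intCast_zmod_eq_zero_iff_dvd, Int.cast_sub, sub_eq_zero]
    simp only [b]
    push_cast
    exact h6
  have hc : ∀ u : G ⧸ U, ∑ q, b (u * q) * b q =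
      ∑ x ∈ D, ∑ y ∈ D, if π x * (π y)⁻¹ = u then 1 else 0 := by
    intro u
    simp only [b, sum_mul_sum]
    rw [sum_comm]
    refine sum_congr rfl fun x _ => ?_
    rw [sum_comm]
    refine sum_congr rfl fun y _ => ?_
    simp only [mul_ite, mul_one, mul_zero, mul_inv_eq_iff_eq_mul]
    rw [sum_eq_single (π y) (fun q _ hq => if_neg hq.symm) (by simp), if_pos rfl]
  have hid : ∑ q, b q * b q - ∑ q, b (π h * q) * b q = D.card - lam := by
    let χ := (of ℤ (G ⧸ U)).comp π
    have h3 := hD.base χ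
    have h5 : (∑ x ∈ D, χ x) * (∑ y ∈ D, χ y⁻¹) - (∑ x ∈ D, χ x) * (∑ y ∈ D, χ y⁻¹) * χ h⁻¹ =
        (D.card - lam) - (D.card - lam) * χ h⁻¹ := by
      rw [h3]
      linear_combination (-(lam : MonoidAlgebra ℤ (G ⧸ U))) * (mul_all χ h⁻¹)
    have h6 := congrArg (cf 1) h5
    have h7 := hc 1
    simp only [one_mul] at h7
    rw [h7, hc]
    simp only [χ, sum_mul, mul_sum, map_sum, map_sub, MonoidHom.comp_apply, of_apply,
      single_mul_single, cf_of, mul_one, one_mul, map_inv, natCast_def, ← single_sub,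
      mul_inv_eq_one, inv_eq_one, hh, if_true, if_false, sub_zero] at h6
    rw [sum_comm, sum_comm (f := fun x y => if π x * (π y)⁻¹ = π h then (1 : ℤ) else 0)]
    simpa only [mul_inv_eq_one] using h6
  have hsq : ∑ q, (b (π h * q) - b q) ^ 2 = 2 * ((D.card : ℤ) - lam) := by
    have e : ∑ q, b (π h * q) * b (π h * q) = ∑ q, b q * b q :=
      Fintype.sum_equiv (Equiv.mulLeft (π h)) _ _ fun q => rfl
    have e2 : ∀ q, (b (π h * q) - b q) ^ 2 =
        b (π h * q) * b (π h * q) + b q * b q - 2 * (b (π h * q) * b q) := fun q => by ring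
    simp only [e2, sum_sub_distrib, sum_add_distrib, ← mul_sum, e]
    linarith
  have h8 : (p : ℤ) ^ 2 ∣ 2 * ((D.card : ℤ) - lam) :=
    hsq ▸ dvd_sum fun q _ => pow_dvd_pow_of_dvd (hb q) 2
  have h9 : p ^ 2 ∣ 2 * (D.card - lam) := by
    rw [← Int.natCast_dvd_natCast]
    push_cast [h0.le]
    exact h8
  refine hn2 ((Nat.Coprime.pow_left 2 ?_).dvd_of_dvd_mul_left h9)
  exact (Nat.coprime_primes hp Nat.prime_two).2 (by omega)

end Pool.Agent.Lib.MP_0820eb_co.Dens
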