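import Pool.Agent.Lib.MP_0820eb_co.Dens.Defs

/-!
Orbit lengths of a numerical multiplier that fixes an abelian difference set.
-/

open Finset

namespace Pool.Agent.Lib.MP_0820eb_co.Dens

/-- a permutation that maps a finite set into itself is killed there by the factorial -/
theorem chain_fact {G : Type} (ψ : Equiv.Perm G) (T : Finset G) (hT : ∀ y ∈ T, ψ y ∈ T)
    {y : G} (hy : y ∈ T) : (ψ ^ (#T).factorial) y = y := by
  have hmem : ∀ n : ℕ, (ψ ^ n) y ∈ T := by
    intro n
    induction n with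
    | zero => simpa using hy
    | succ n ih => rw [pow_succ', Equiv.Perm.mul_apply]; exact hT _ ih
  have key : ∀ a b : ℕ, a < b → b ≤ #T → (ψ ^ a) y = (ψ ^ b) y → (ψ ^ (#T).factorial) y = y := by
    intro a b hab hb h
    obtain ⟨c, rfl⟩ := Nat.exists_eq_add_of_lt hab
    have h1 : (ψ ^ (c + 1)) y = y := by
      rw [add_assoc, pow_add, Equiv.Perm.mul_apply] at h
      exact ((ψ ^ a).injective h).symm
    obtain ⟨e, he⟩ : c + 1 ∣ (#T).factorial := Nat.dvd_factorial (by omega) (by omega)
    rw [he, pow_mul]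
    exact Equiv.Perm.pow_apply_eq_self_of_apply_eq_self h1 e
  obtain ⟨a, ha, b, hb, hab, h⟩ := exists_ne_map_eq_of_card_lt_of_maps_to
    (s := range (#T + 1)) (t := T) (by simp) (f := fun n => (ψ ^ n) y) (fun n _ => hmem n)
  simp only [mem_range] at ha hb
  rcases lt_or_gt_of_ne hab with h' | h'
  · exact key a b h' (by omega) h
  · exact key b a h' (by omega) h.symm

/-- if all periods of the points of an invariant set are divisible by `m`, so is its size -/
theorem chain_dvd_card {G : Type} [Fintype G] [DecidableEq G] (ψ : Equiv.Perm G) (m : ℕ)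
    (T : Finset G) (hT : ∀ y ∈ T, ψ y ∈ T) (hm : ∀ y ∈ T, ∀ j : ℕ, (ψ ^ j) y = y → m ∣ j) :
    m ∣ #T := by
  classical
  rw [card_eq_sum_card_image (fun y => MulAction.orbit (Subgroup.zpowers ψ) y) T]
  refine dvd_sum fun b hb => ?_
  obtain ⟨y, hy, rfl⟩ := mem_image.1 hb
  have hmem : ∀ n : ℕ, (ψ ^ n) y ∈ T := by
    intro n
    induction n with
    | zero => simpa using hy
    | succ n ih => rw [pow_succ', Equiv.Perm.mul_apply]; exact hT _ ih
  have e : {a ∈ T | MulAction.orbit (Subgroup.zpowers ψ) a = MulAction.orbit (Subgroup.zpowers ψ) y} =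
      (MulAction.orbit (Subgroup.zpowers ψ) y).toFinset := by
    ext a
    simp only [mem_filter, Set.mem_toFinset, MulAction.orbit_eq_iff]
    refine ⟨fun h => h.2, fun h => ⟨?_, h⟩⟩
    obtain ⟨⟨σ, hσ⟩, rfl⟩ := h
    obtain ⟨n, rfl⟩ := (mem_powers_iff_mem_zpowers).2 hσ
    exact hmem n
  rw [e, Set.toFinset_card, ← MulAction.minimalPeriod_eq_card]
  refine hm y hy _ ?_
  have := Function.isPeriodicPt_minimalPeriod (fun x => ψ • x) y
  rw [Function.IsPeriodicPt, Function.IsFixedPt, smul_iterate] at this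
  simpa using this

/-- an increasing chain of subgroups becomes stationary after at most `Ω (card G)` steps -/
theorem chain_stat {G : Type} [Group G] [Fintype G] (H : ℕ → Subgroup G)
    (hH : ∀ i, H i ≤ H (i + 1)) (B : ℕ)
    (hB : ArithmeticFunction.cardFactors (Fintype.card G) ≤ B) : ∃ i ≤ B, H (i + 1) = H i := by
  by_contra hcon
  push Not at hcon
  have mono : ∀ a b : ℕ, b ≠ 0 → a ∣ b → a ≠ b →
      ArithmeticFunction.cardFactors a + 1 ≤ ArithmeticFunction.cardFactors b := by
    rintro a b hb ⟨c, rfl⟩ hne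
    have ha : a ≠ 0 := left_ne_zero_of_mul hb
    have hc : c ≠ 0 := right_ne_zero_of_mul hb
    have hc1 : c ≠ 1 := fun h => hne (by rw [h, mul_one])
    rw [ArithmeticFunction.cardFactors_mul ha hc]
    have := ArithmeticFunction.cardFactors_pos_iff_one_lt.2 (show 1 < c by omega)
    omega
  have step : ∀ i, i ≤ B + 1 → i ≤ ArithmeticFunction.cardFactors (Nat.card (H i)) := by
    intro i
    induction i with
    | zero => intro _; exact Nat.zero_le _
    | succ i ih =>
      intro hi
      have h1 := ih (by omega)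
      have h2 := mono (Nat.card (H i)) (Nat.card (H (i + 1))) Nat.card_pos.ne'
        (Subgroup.card_dvd_of_le (hH i))
        (fun h => hcon i (by omega) (Subgroup.eq_of_le_of_card_ge (hH i) h.ge).symm)
      omega
  have h1 := step (B + 1) le_rfl
  obtain ⟨c, hc⟩ := Subgroup.card_subgroup_dvd_card (H (B + 1))
  rw [Nat.card_eq_fintype_card] at hc
  have h0 : Fintype.card G ≠ 0 := Fintype.card_ne_zero
  rw [hc] at h0 hB
  rw [ArithmeticFunction.cardFactors_mul (left_ne_zero_of_mul h0) (right_ne_zero_of_mul h0)] at hB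
  omega

/-- a subgroup that contains all representations of its non-trivial elements -/
theorem chain_sub {G : Type} [CommGroup G] [Fintype G] [DecidableEq G] {lam : ℕ} {D : Finset G}
    (hD : IsDS lam D) (H : Subgroup G) (hH : ∀ h ∈ H, h ≠ 1 → ∀ y ∈ D, h * y ∈ D → y ∈ H) :
    ∃ k' : ℕ, k' ≤ #D ∧ lam * Nat.card H = F lam k' ∧
      (#D - k' + 1) * Nat.card H ≤ Fintype.card G := by
  classical
  set W : Finset G := univ.filter (fun x => x ∈ H) with hW
  have hWc : Nat.card H = #W := by
    rw [hW, Nat.card_eq_fintype_card, Fintype.card_subtype]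
  have hWm : ∀ x, x ∈ W ↔ x ∈ H := fun x => by simp [hW]
  set D' : Finset G := D.filter (fun x => x ∈ H) with hD'
  refine ⟨#D', card_filter_le _ _, ?_, ?_⟩
  · have e1 : ∑ h ∈ W, #{y ∈ D' | h * y ∈ D'} = #D' * #D' := by
      have : ∀ h ∈ W, #{y ∈ D' | h * y ∈ D'} = ∑ y ∈ D', if h * y ∈ D' then 1 else 0 :=
        fun h _ => by rw [card_filter]
      rw [sum_congr rfl this, sum_comm]
      have h2 : ∀ y ∈ D', (∑ h ∈ W, if h * y ∈ D' then 1 else 0) = #D' := by
        intro y hy
        rw [← card_filter]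
        have hyH : y ∈ H := (mem_filter.1 hy).2
        refine card_bij (fun h _ => h * y) (fun h hh => (mem_filter.1 hh).2)
          (fun a _ b _ hab => mul_right_cancel hab) (fun z hz => ⟨z * y⁻¹, ?_, by simp⟩)
        refine mem_filter.2 ⟨(hWm _).2 (H.mul_mem (mem_filter.1 hz).2 (H.inv_mem hyH)), ?_⟩
        simpa using hz
      rw [sum_congr rfl h2, sum_const, smul_eq_mul]
    have h1W : (1 : G) ∈ W := (hWm _).2 H.one_mem
    rw [← add_sum_erase W _ h1W] at e1
    have e2 : ∀ h ∈ W.erase 1, #{y ∈ D' | h * y ∈ D'} = lam := by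
      intro h hh
      obtain ⟨hne, hh⟩ := mem_erase.1 hh
      rw [hWm] at hh
      rw [← hD h hne]
      congr 1
      ext y
      simp only [hD', mem_filter]
      constructor
      · rintro ⟨⟨h1, _⟩, h2, _⟩
        exact ⟨h1, h2⟩
      · rintro ⟨h1, h2⟩
        have := hH h hh hne y h1 h2
        exact ⟨⟨h1, this⟩, h2, H.mul_mem hh this⟩
    rw [sum_congr rfl e2, sum_const, smul_eq_mul, card_erase_of_mem h1W] at e1
    have e3 : #{y ∈ D' | 1 * y ∈ D'} = #D' := by
      congr 1
      ext y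
      simp
    rw [e3] at e1
    have hpos : 1 ≤ #W := card_pos.2 ⟨1, h1W⟩
    rw [hWc]
    have e4 := F_cast lam #D'
    zify [hpos] at e1 ⊢
    rw [e4]
    linarith
  · set E : Finset G := D.filter (fun x => x ∉ H) with hE
    have hEc : #D - #D' = #E := by
      have := card_filter_add_card_filter_not (s := D) (fun x => x ∈ H)
      rw [← hD', ← hE] at this
      omega
    have h1E : (1 : G) ∉ E := fun h => (mem_filter.1 h).2 H.one_mem
    rw [hEc, hWc, ← card_insert_of_notMem h1E, ← card_product, ← card_univ]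
    refine card_le_card_of_injOn (fun p => p.1 * p.2) (fun _ _ => by simp) ?_
    rintro ⟨y, h⟩ hp ⟨y', h'⟩ hp' he
    simp only [coe_product, Set.mem_prod, mem_coe, mem_insert, hWm] at hp hp' he
    have hq : h * h'⁻¹ ∈ H := H.mul_mem hp.2 (H.inv_mem hp'.2)
    have hy' : y' = h * h'⁻¹ * y := by
      rw [mul_comm _ y, ← mul_assoc, he, mul_inv_cancel_right]
    have hyy : y = y' := by
      rcases hp.1 with h1 | h1
      · rcases hp'.1 with h2 | h2
        · rw [h1, h2]
        · exfalso
          refine (mem_filter.1 h2).2 ?_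
          rw [hy', h1, mul_one]
          exact hq
      · by_contra hne
        have hne' : h * h'⁻¹ ≠ 1 := fun h0 => hne (by rw [hy', h0, one_mul])
        rcases hp'.1 with h2 | h2
        · refine (mem_filter.1 h1).2 ?_
          have : y = (h * h'⁻¹)⁻¹ := by
            rw [h2] at hy'
            exact eq_inv_of_mul_eq_one_right hy'.symm
          rw [this]
          exact H.inv_mem hq
        · exact (mem_filter.1 h1).2
            (hH _ hq hne' y (mem_filter.1 h1).1 (hy' ▸ (mem_filter.1 h2).1))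
    subst hyy
    rw [mul_left_cancel he]

/-- the numerical inequality -/
theorem chain_num {lam k k' : ℕ} (hk : lam < k) (hk' : k' ≤ k) (h1 : 2 * F lam k' ≤ F lam k)
    (h2 : (k - k' + 1) * F lam k' ≤ F lam k) : F lam k' ≤ 4 * k := by
  by_contra hcon
  push Not at hcon
  have e1 := F_cast lam k
  have e2 := F_cast lam k'
  zify [hk'] at h1 h2 hcon hk hk'
  have hl : (0 : ℤ) ≤ lam := by positivity
  have hk0 : (0 : ℤ) ≤ k' := by positivity
  have h3 : (F lam k : ℤ) ≤ (k : ℤ) ^ 2 := by linarith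
  have h4 : 4 * ((k : ℤ) - k' + 1) < k := by
    by_contra h5
    push Not at h5
    nlinarith
  nlinarith

theorem mult_of_fixed {G : Type} [CommGroup G] [Fintype G] [DecidableEq G] {lam : ℕ}
    {D : Finset G} (hD : IsDS lam D) (hk : lam < #D) (u : ℕ) (hu : (Fintype.card G).Coprime u)
    (hfix : ∀ x ∈ D, x ^ u ∈ D) (hv : lam * Fintype.card G = F lam #D) (Z B : ℕ)
    (hB : ArithmeticFunction.cardFactors (Fintype.card G) ≤ B)
    (hZ : ∀ k' : ℕ, F lam k' ∣ F lam #D → F lam k' ≤ 4 * #D → F lam k' < Z) (hl : 1 ≤ lam) :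
    ∃ m : ℕ, 0 < m ∧
      (∀ r : ℕ, r.Prime → r ∣ Fintype.card G → u ^ (m * lam.factorial ^ B) ≡ 1 [MOD r]) ∧
      (∀ r : ℕ, r.Prime → r ∣ Fintype.card G → Z ≤ r → m ∣ r - 1) ∧
      ((∀ r : ℕ, r.Prime → r ∣ Fintype.card G → Z ≤ r) → m ∣ #D ∨ m ∣ #D - 1) := by
  classical
  have hu' : (Nat.card G).Coprime u := by rwa [Nat.card_eq_fintype_card]
  let φ : Equiv.Perm G := powCoprime hu'
  have hφ : ∀ (n : ℕ) (x : G), (φ ^ n) x = x ^ u ^ n := by
    intro n
    induction n with
    | zero => intro x; simp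
    | succ n ih =>
      intro x
      rw [pow_succ', Equiv.Perm.mul_apply, ih, pow_succ, pow_mul]
      rfl
  have hfixn : ∀ (n : ℕ), ∀ x ∈ D, x ^ u ^ n ∈ D := by
    intro n
    induction n with
    | zero => intro x hx; simpa using hx
    | succ n ih => intro x hx; rw [pow_succ, pow_mul]; exact hfix _ (ih x hx)
  have hmul : ∀ (n c : ℕ) (x : G), x ^ u ^ n = x → x ^ u ^ (n * c) = x := by
    intro n c x hx
    rw [← hφ] at hx ⊢
    rw [pow_mul]
    exact Equiv.Perm.pow_apply_eq_self_of_apply_eq_self hx c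
  set L := lam.factorial with hL
  have key : ∀ (g : G) (j : ℕ), g ^ u ^ j = g → Z ≤ orderOf g → orderOf (φ ^ L ^ B) ∣ j := by
    intro g j hg hZg
    let H : ℕ → Subgroup G := fun i =>
      { carrier := {x | x ^ u ^ (j * L ^ i) = x}
        mul_mem' := fun {a b} ha hb => by
          simp only [Set.mem_ofPred_eq] at ha hb ⊢
          rw [mul_pow, ha, hb]
        one_mem' := by simp
        inv_mem' := fun {a} ha => by
          simp only [Set.mem_ofPred_eq] at ha ⊢
          rw [inv_pow, ha] }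
    have hHm : ∀ i x, x ∈ H i ↔ x ^ u ^ (j * L ^ i) = x := fun i x => Iff.rfl
    obtain ⟨i, hi, hst⟩ := chain_stat H (fun i x hx => by
      rw [hHm] at hx ⊢
      rw [pow_succ, ← mul_assoc]
      exact hmul _ _ x hx) B hB
    obtain ⟨k', hk', e1, e2⟩ := chain_sub hD (H i) (fun h hh hne y hy hhy => by
      rw [← hst, hHm]
      have h1 := chain_fact (φ ^ (j * L ^ i)) {y ∈ D | h * y ∈ D} (fun z hz => by
        obtain ⟨hz1, hz2⟩ := mem_filter.1 hz
        rw [hφ]
        refine mem_filter.2 ⟨hfixn _ z hz1, ?_⟩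
        have := hfixn (j * L ^ i) _ hz2
        rwa [mul_pow, (hHm i h).1 hh] at this) (mem_filter.2 ⟨hy, hhy⟩)
      rw [hD h hne, ← pow_mul, hφ] at h1
      rwa [pow_succ, ← mul_assoc])
    have htop : H i = ⊤ := by
      by_contra hne
      obtain ⟨c, hc⟩ := Subgroup.card_subgroup_dvd_card (H i)
      have hc1 : c ≠ 1 := fun h => hne (Subgroup.eq_top_of_card_eq _ (by rw [hc, h, mul_one]))
      have hc0 : c ≠ 0 := fun h => by
        rw [h, mul_zero] at hc
        exact Nat.card_pos.ne' hc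
      rw [Nat.card_eq_fintype_card] at hc
      have hF : F lam #D = F lam k' * c := by rw [← hv, hc, ← e1, mul_assoc]
      have h1 : 2 * F lam k' ≤ F lam #D := by
        rw [hF, mul_comm]
        exact Nat.mul_le_mul_left _ (by omega)
      have h2 : (#D - k' + 1) * F lam k' ≤ F lam #D := by
        rw [← hv, ← e1, mul_left_comm]
        exact Nat.mul_le_mul_left _ e2
      have h3 := hZ k' ⟨c, hF⟩ (chain_num hk hk' h1 h2)
      have h4 : orderOf g ≤ Nat.card (H i) :=
        Nat.le_of_dvd Nat.card_pos ((H i).orderOf_dvd_natCard ((hHm i g).2 (hmul _ _ g hg)))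
      have h5 : Nat.card (H i) ≤ F lam k' := by
        rw [← e1]
        exact Nat.le_mul_of_pos_left _ hl
      omega
    refine orderOf_dvd_of_pow_eq_one (Equiv.ext fun x => ?_)
    obtain ⟨c, rfl⟩ := Nat.exists_eq_add_of_le hi
    have hx : x ∈ H i := htop ▸ Subgroup.mem_top x
    rw [← pow_mul, hφ, show L ^ (i + c) * j = j * L ^ i * L ^ c by ring]
    exact hmul _ _ x ((hHm i x).1 hx)
  refine ⟨orderOf (φ ^ L ^ B), orderOf_pos _, fun r hr hrv => ?_, fun r hr hrv hZr => ?_,
    fun hall => ?_⟩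
  · have := Fact.mk hr
    obtain ⟨g, hg⟩ := exists_prime_orderOf_dvd_card r hrv
    have h1 := congrArg (fun σ : Equiv.Perm G => σ g) (pow_orderOf_eq_one (φ ^ L ^ B))
    simp only [← pow_mul, hφ, Equiv.Perm.one_apply] at h1
    rw [← hg, ← pow_eq_pow_iff_modEq, pow_one, mul_comm]
    exact h1
  · have := Fact.mk hr
    obtain ⟨g, hg⟩ := exists_prime_orderOf_dvd_card r hrv
    refine key g _ ?_ (hg ▸ hZr)
    have h1 := Nat.ModEq.pow_totient (Nat.Coprime.coprime_dvd_left hrv hu).symm
    rw [Nat.totient_prime hr, ← hg, ← pow_eq_pow_iff_modEq, pow_one, hg] at h1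
    exact h1
  · have h1 : orderOf (φ ^ L ^ B) ∣ #(D.erase 1) := by
      refine chain_dvd_card φ _ _ (fun y hy => ?_) (fun y hy j hj => ?_)
      · obtain ⟨hy1, hy2⟩ := mem_erase.1 hy
        refine mem_erase.2 ⟨fun h => hy1 (φ.injective ?_), hfix y hy2⟩
        rw [h]
        exact (one_pow u).symm
      · rw [hφ] at hj
        refine key y j hj ?_
        have h2 : orderOf y ≠ 1 := fun h => (mem_erase.1 hy).1 (orderOf_eq_one_iff.1 h)
        exact (hall _ (Nat.minFac_prime h2) ((Nat.minFac_dvd _).trans orderOf_dvd_card)).trans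
          (Nat.minFac_le (orderOf_pos y))
    by_cases h : (1 : G) ∈ D
    · rw [card_erase_of_mem h] at h1
      exact Or.inr h1
    · rw [erase_eq_of_notMem h] at h1
      exact Or.inl h1

end Pool.Agent.Lib.MP_0820eb_co.Dens
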