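import Pool.Agent.Lib.MP_0820eb_co.Dens.Defs

/-! Every admissible parameter lies in one of the sparse sets. -/

open Finset Filter

namespace Pool.Agent.Lib.MP_0820eb_co.Dens

theorem cover_split (lam : ℕ) (n : ℕ) : n ≠ 0 → ∃ n₁ u : ℕ, n = n₁ * u ∧
    (∀ p : ℕ, p.Prime → p ∣ n₁ → p ≤ lam) ∧ ∀ p : ℕ, p.Prime → p ∣ u → lam < p := by
  induction n using induction_on_primes with
  | zero => exact fun h => absurd rfl h
  | one =>
    exact fun _ => ⟨1, 1, rfl, fun p hp h => absurd (Nat.dvd_one.1 h) hp.ne_one,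
      fun p hp h => absurd (Nat.dvd_one.1 h) hp.ne_one⟩
  | prime_mul q n hq ih =>
    intro h
    obtain ⟨n₁, u, rfl, h1, h2⟩ := ih (right_ne_zero_of_mul h)
    rcases le_or_gt q lam with hl | hl
    · refine ⟨q * n₁, u, by ring, fun p hp hd => ?_, h2⟩
      rcases (Nat.Prime.dvd_mul hp).1 hd with h3 | h3
      · rwa [(Nat.prime_dvd_prime_iff_eq hp hq).1 h3]
      · exact h1 p hp h3
    · refine ⟨n₁, q * u, by ring, h1, fun p hp hd => ?_⟩
      rcases (Nat.Prime.dvd_mul hp).1 hd with h3 | h3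
      · rwa [(Nat.prime_dvd_prime_iff_eq hp hq).1 h3]
      · exact h2 p hp h3

theorem cover_le_pow {n R : ℕ} (hn : n ≠ 0) (h : ∀ r : ℕ, r.Prime → r ∣ n → r ≤ R) :
    n ≤ R ^ ArithmeticFunction.cardFactors n := by
  rw [ArithmeticFunction.cardFactors_apply]
  conv_lhs => rw [← Nat.prod_primeFactorsList hn]
  exact List.prod_le_pow_card _ _ fun r hr =>
    h r (Nat.prime_of_mem_primeFactorsList hr) (Nat.dvd_of_mem_primeFactorsList hr)

theorem cover_jac (x : ℤ) (v : ℕ) : v ≠ 0 → (∀ r : ℕ, r.Prime → r ∣ v → jacobiSym x r = 1) →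
    jacobiSym x v = 1 := by
  induction v using induction_on_primes with
  | zero => exact fun h => absurd rfl h
  | one => exact fun _ _ => jacobiSym.one_right x
  | prime_mul q n hq ih =>
    intro h hr
    have hn := right_ne_zero_of_mul h
    rw [jacobiSym.mul_right' x hq.ne_zero hn, hr q hq (dvd_mul_right _ _),
      ih hn fun r h1 h2 => hr r h1 (h2.mul_left _), one_mul]

theorem cover_leg {p r : ℕ} (hp : p.Prime) (hr : r.Prime) (hpr : p ≠ r)
    (h : ∀ j : ℕ, ¬ r ∣ p ^ j + 1) : jacobiSym p r = 1 := by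
  have := Fact.mk hr
  rw [← jacobiSym.legendreSym.to_jacobiSym]
  have h0 : (((p : ℕ) : ℤ) : ZMod r) ≠ 0 := by
    rw [Int.cast_natCast, Ne, ZMod.natCast_eq_zero_iff, Nat.prime_dvd_prime_iff_eq hr hp]
    exact hpr.symm
  refine (legendreSym.eq_one_or_neg_one r h0).resolve_right fun h1 => h (r / 2) ?_
  have h2 := legendreSym.eq_pow r (p : ℤ)
  rw [h1] at h2
  rw [← ZMod.natCast_eq_zero_iff]
  push_cast at h2 ⊢
  rw [← h2]
  ring

theorem cover (hq : QuarticStmt) : CoverStmt := by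
  intro lam s hl hs
  filter_upwards [eventually_ge_atTop 4, eventually_gt_atTop lam] with a ha4 hal K hK k v hk hA
  have haZ : a ≤ pZ s a := Nat.le_self_pow (by omega) a
  have haK := hK.lt
  by_cases n0 : S0 lam a K k
  · exact Or.inl n0
  by_cases n1 : S1 lam a K k
  · exact Or.inr (Or.inl n1)
  by_cases n2 : S2 lam s a K k
  · exact Or.inr (Or.inr (Or.inl n2))
  by_cases n3 : S3 lam s a K k
  · exact Or.inr (Or.inr (Or.inr (Or.inl n3)))
  by_cases n4 : S4 lam s a K k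
  · exact Or.inr (Or.inr (Or.inr (Or.inr (Or.inl n4))))
  by_cases n5 : S5 lam s a K k
  · exact Or.inr (Or.inr (Or.inr (Or.inr (Or.inr (Or.inl n5)))))
  by_cases n6 : S6 lam s a K k
  · exact Or.inr (Or.inr (Or.inr (Or.inr (Or.inr (Or.inr (Or.inl n6))))))
  by_cases n7 : S7 lam s a K k
  · exact Or.inr (Or.inr (Or.inr (Or.inr (Or.inr (Or.inr (Or.inr (Or.inl n7)))))))
  by_cases n8 : S8 lam a K k
  · exact Or.inr (Or.inr (Or.inr (Or.inr (Or.inr (Or.inr (Or.inr (Or.inr (Or.inl n8))))))))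
  refine Or.inr (Or.inr (Or.inr (Or.inr (Or.inr (Or.inr (Or.inr (Or.inr (Or.inr ?_))))))))
  have hlk : lam < k := not_le.1 fun h => n0 (Or.inl h)
  have hKk : K < k * k := not_le.1 fun h => n0 (Or.inr h)
  have hF := hA.eq
  have hl0 : 0 < lam := by omega
  have hvk : k ≤ v := by
    refine Nat.le_of_mul_le_mul_left ?_ hl0
    rw [hF, F, mul_comm]
    exact (Nat.mul_le_mul_left k (by omega)).trans (Nat.le_add_right _ _)
  have hv0 : v ≠ 0 := by omega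
  have hvF : v ∣ F lam k := hF ▸ dvd_mul_left v lam
  have hOm : ArithmeticFunction.cardFactors v ≤ 2 * a := by
    have h1 : ArithmeticFunction.cardFactors (F lam k) < 2 * a := not_le.1 n1
    rw [← hF, ArithmeticFunction.cardFactors_mul hl0.ne' hv0] at h1
    omega
  obtain ⟨r₀, hr₀, hr₀v, hr₀R⟩ : ∃ r : ℕ, r.Prime ∧ r ∣ v ∧ pR s a ≤ r := by
    by_contra hc
    push Not at hc
    have h1 := cover_le_pow hv0 fun r h1 h2 => (hc r h1 h2).le
    have h2 : v ≤ pR s a ^ (2 * a) :=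
      h1.trans (Nat.pow_le_pow_right (by unfold pR; positivity) hOm)
    have h3 : pR s a ^ (2 * a) * pR s a ^ (2 * a) ≤ K := by
      refine le_trans ?_ hK.1
      rw [← pow_add, pR, ← pow_mul]
      refine Nat.pow_le_pow_right (by norm_num) ?_
      calc a ^ (2 * s + 1) * (2 * a + 2 * a) = a ^ (2 * s + 1) * (4 * a) := by ring
        _ ≤ a ^ (2 * s + 1) * (a * a) := by gcongr
        _ = a ^ (2 * s + 3) := by ring
    have h4 : k * k ≤ v * v := Nat.mul_le_mul hvk hvk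
    have h5 := Nat.mul_le_mul h2 h2
    omega
  obtain ⟨n₁, u, hnu, hn₁, hu⟩ := cover_split lam (k - lam) (by omega)
  have hn₁0 : 0 < n₁ := Nat.pos_of_ne_zero fun h => by rw [h, zero_mul] at hnu; omega
  have hn₁Z : n₁ ≤ pZ s a :=
    not_lt.1 fun h => n2 ⟨hlk, n₁, hnu ▸ dvd_mul_right _ _, h, hn₁⟩
  obtain ⟨m, hm0, hm1, hm2, hm3⟩ := hA.mult (pZ s a) (2 * a) u (hnu ▸ dvd_mul_left _ _) hu hOm
    fun k' h1 h2 => not_le.1 fun h => n6 ⟨k', h, by omega, h1⟩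
  have hkk : k ^ 2 = F lam k + n₁ * u := by
    rw [← hnu, F]
    obtain ⟨c, rfl⟩ := Nat.exists_eq_add_of_lt hlk
    rw [show lam + c + 1 - lam = c + 1 by omega, Nat.add_sub_cancel]
    ring
  have hSO : ∀ r : ℕ, r.Prime → r ∣ v →
      SmallOrd lam (pZ s a) k r (m * lam.factorial ^ (2 * a)) := by
    intro r hr hrv
    refine ⟨hr, hrv.trans hvF, by positivity, n₁, hn₁0, hn₁Z, ?_⟩
    have h1 : k ^ 2 ≡ n₁ * u [MOD r] := by
      rw [hkk]
      simpa using ((Nat.modEq_zero_iff_dvd.2 (hrv.trans hvF)).add_right (n₁ * u))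
    have h2 := h1.pow (m * lam.factorial ^ (2 * a))
    rw [← pow_mul, mul_pow] at h2
    simpa using h2.trans ((hm1 r hr hrv).mul_left _)
  have hzm : pz s a < m :=
    not_le.1 fun h => n4 ⟨r₀, _, hSO r₀ hr₀ hr₀v, hr₀R, Nat.mul_le_mul_right _ h⟩
  have hPP : ∀ p ∈ PP s a, p.Prime ∧ pZ s a ≤ p ∧ p ≤ pz s a := fun p hp => by
    simp only [PP, mem_filter, mem_Icc] at hp
    exact ⟨hp.2, hp.1.1, hp.1.2⟩
  have hcop : ∀ p ∈ PP s a, p.Coprime lam := fun p hp =>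
    (Nat.Prime.coprime_iff_not_dvd (hPP p hp).1).2 fun h => by
      have := Nat.le_of_dvd hl0 h
      have := (hPP p hp).2.1
      omega
  have hR : Rough lam s a k := by
    intro p hp h
    obtain ⟨h1, h2, h3⟩ := hPP p hp
    rw [← hF] at h
    have h4 := Nat.le_of_dvd (by have := h1.two_le; omega)
      (hm2 p h1 ((hcop p hp).dvd_of_dvd_mul_left h) h2)
    omega
  have hmann : ∀ p ∈ PP s a, k ≡ lam [MOD p] → ∀ r : ℕ, r.Prime → r ∣ v →
      ∀ j : ℕ, ¬ r ∣ p ^ j + 1 := by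
    intro p hp h r hr hrv
    obtain ⟨h1, h2, -⟩ := hPP p hp
    exact hA.mann p r h1 hr (by omega) ((Nat.modEq_iff_dvd' hlk.le).1 h.symm)
      (fun h4 => n3 ⟨hlk, p, h2, h4⟩) hrv
  have hne : ∀ p ∈ PP s a, ∀ r : ℕ, r ∣ v → p ≠ r := fun p hp r hrv h =>
    hR p hp (h ▸ hrv.trans hvF)
  have hJ : ∀ p ∈ PP s a, k ≡ lam [MOD p] → ∀ r : ℕ, r.Prime → r ∣ v → jacobiSym p r = 1 :=
    fun p hp h r hr hrv => cover_leg (hPP p hp).1 hr (hne p hp r hrv) (hmann p hp h r hr hrv)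
  have hJv : ∀ p ∈ PP s a, k ≡ lam [MOD p] → jacobiSym p v = 1 :=
    fun p hp h => cover_jac _ v hv0 (hJ p hp h)
  have hvl : ∀ p ∈ PP s a, k ≡ lam [MOD p] → v ≡ lam [MOD p] := by
    intro p hp h
    refine Nat.ModEq.cancel_left_of_coprime (c := lam) (hcop p hp) ?_
    rw [hF]
    have h1 : F lam k ≡ lam * (lam - 1) + lam [MOD p] :=
      (h.mul (Nat.ModEq.sub (by omega) (by omega) h (Nat.ModEq.refl 1))).add_right _
    refine h1.trans (by
      obtain ⟨c, rfl⟩ := Nat.exists_eq_add_of_lt hl0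
      rw [show 0 + c + 1 - 1 = c by omega, show (0 + c + 1) * c + (0 + c + 1) =
        (0 + c + 1) * (0 + c + 1) by ring])
  have hodd : ∀ p ∈ PP s a, Odd p := fun p hp =>
    (hPP p hp).1.odd_of_ne_two (by have := (hPP p hp).2.1; omega)
  have hJl : ∀ p ∈ PP s a, k ≡ lam [MOD p] → jacobiSym lam p = jacobiSym v p := fun p hp h =>
    jacobiSym.mod_left' (by exact_mod_cast (hvl p hp h).symm)
  by_cases hev : 2 ∣ v
  · exact Or.inl ⟨hR, fun p hp h => absurd (by simp) (hmann p hp h 2 Nat.prime_two hev 0)⟩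
  have hvo : Odd v := Nat.odd_iff.2 (by omega)
  rcases (by omega : v % 4 = 3 ∨ v % 4 = 1) with h4 | h4
  · refine Or.inl ⟨hR, fun p hp h => ?_⟩
    have hpo := hodd p hp
    rw [jacobiSym.neg _ hpo, hJl p hp h]
    rcases (by have := Nat.odd_iff.1 hpo; omega : p % 4 = 1 ∨ p % 4 = 3) with h5 | h5
    · rw [ZMod.χ₄_nat_one_mod_four h5, jacobiSym.quadratic_reciprocity_one_mod_four' hvo h5,
        hJv p hp h]
      norm_num
    · rw [ZMod.χ₄_nat_three_mod_four h5, jacobiSym.quadratic_reciprocity_three_mod_four h4 h5,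
        hJv p hp h]
      norm_num
  by_cases hsq : IsSquare (lam : ℤ)
  swap
  · refine Or.inr (Or.inl ⟨hsq, hR, fun p hp h => ?_⟩)
    rw [hJl p hp h, jacobiSym.quadratic_reciprocity_one_mod_four h4 (hodd p hp), hJv p hp h]
    norm_num
  refine Or.inr (Or.inr ?_)
  by_cases hsm : ∃ r : ℕ, r.Prime ∧ r ∣ v ∧ r < pZ s a
  · obtain ⟨r, h1, h2, h3⟩ := hsm
    refine Or.inl ⟨hR, r, h1, fun h => hev (h ▸ h2), h3, h2.trans hvF, fun p hp h => ?_⟩
    rw [hJ p hp h r h1 h2]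
    norm_num
  push Not at hsm
  have hmk := hm3 hsm
  have hbig : ∀ r : ℕ, r.Prime → r ∣ v → K ^ 9 ≤ r ^ 10 := fun r h1 h2 =>
    not_lt.1 fun h => n7 ⟨m, r, h1, h2.trans hvF, h, hzm, hm2 r h1 h2 (hsm r h1 h2), hmk⟩
  have hKm : K ^ 2 < m ^ 5 :=
    not_le.1 fun h => n5 ⟨r₀, _, m, hSO r₀ hr₀ hr₀v, hbig r₀ hr₀ hr₀v, h, le_rfl⟩
  have hvK : v ≤ K ^ 2 := (Nat.le_of_dvd (F_pos hl0 k) hvF).trans (F_le hk (by omega))
  have hvp : v.Prime := by
    obtain ⟨w, rfl⟩ := hr₀v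
    by_cases hw : w = 1
    · rwa [hw, mul_one]
    exfalso
    obtain ⟨r₂, hr₂, w', rfl⟩ := Nat.exists_prime_and_dvd hw
    have d₂ : r₂ ∣ r₀ * (r₂ * w') := (dvd_mul_right _ _).mul_left _
    have d₀ : r₀ ∣ r₀ * (r₂ * w') := dvd_mul_right _ _
    by_cases hw' : w' = 1
    · subst hw'
      exact n8 ⟨m, r₀, r₂, by rw [← hF, mul_one], hbig _ hr₀ d₀, hbig _ hr₂ d₂, hKm,
        hm2 _ hr₀ d₀ (hsm _ hr₀ d₀), hm2 _ hr₂ d₂ (hsm _ hr₂ d₂), hmk⟩
    obtain ⟨r₃, hr₃, w'', rfl⟩ := Nat.exists_prime_and_dvd hw'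
    have d₃ : r₃ ∣ r₀ * (r₂ * (r₃ * w'')) := ((dvd_mul_right _ _).mul_left _).mul_left _
    have h1 : r₀ * r₂ * r₃ ≤ K ^ 2 :=
      (Nat.le_of_dvd (Nat.pos_of_ne_zero hv0) ⟨w'', by ring⟩).trans hvK
    have h2 : K ^ 27 ≤ K ^ 20 := by
      calc K ^ 27 = K ^ 9 * K ^ 9 * K ^ 9 := by ring
        _ ≤ r₀ ^ 10 * r₂ ^ 10 * r₃ ^ 10 :=
            Nat.mul_le_mul (Nat.mul_le_mul (hbig _ hr₀ d₀) (hbig _ hr₂ d₂)) (hbig _ hr₃ d₃)
        _ = (r₀ * r₂ * r₃) ^ 10 := by ring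
        _ ≤ (K ^ 2) ^ 10 := Nat.pow_le_pow_left h1 _
        _ = K ^ 20 := by ring
    have := (Nat.pow_le_pow_iff_right (by omega : 1 < K)).1 h2
    omega
  obtain ⟨mu, hmu⟩ := Int.isSquare_natCast_iff.1 hsq
  rw [← sq] at hmu
  subst hmu
  obtain ⟨A, B, e, he, hAB, hQ⟩ := hq v hvp h4
  have hS : S11 mu s e a K k := by
    refine ⟨hR, A, B, by rw [hAB]; exact_mod_cast hF, fun p hp h hB => ?_⟩
    refine hQ p (hPP p hp).1 (by have := (hPP p hp).2.1; omega) (hne p hp v dvd_rfl)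
      (hmann p hp h v hvp dvd_rfl) mu ?_ hB
    exact_mod_cast Int.natCast_modEq_iff.2 (hvl p hp h).symm
  refine Or.inr ⟨mu, rfl, ?_⟩
  rcases he with rfl | rfl
  · exact Or.inl hS
  · exact Or.inr hS

end Pool.Agent.Lib.MP_0820eb_co.Dens
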