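import Pool.Agent.Lib.MP_0820eb_co.Dens.Defs

/-!
The easy sparse sets and the passage from scales to logarithms.
-/

open Finset Filter

namespace Pool.Agent.Lib.MP_0820eb_co.Dens

theorem sparse_S0 (lam s : ℕ) : Sparse s (S0 lam) := by
  refine Sparse.of_bound ((lam : ℝ) + 3) 0 0 (1 / 2) (by norm_num)
    (Eventually.of_forall fun a K hK => ?_)
  have hK1 : (1 : ℝ) ≤ K := by exact_mod_cast hK.pos
  have h1 : cnt K (S0 lam a K) ≤ #(range (lam + 1) ∪ range (Nat.sqrt K + 1)) := by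
    refine cnt_le_card _ fun k _ hs => ?_
    rcases hs with h | h
    · exact mem_union_left _ (mem_range.2 (by omega))
    · exact mem_union_right _ (mem_range.2 (Nat.lt_succ_of_le (Nat.le_sqrt.2 h)))
  have h2 : (#(range (lam + 1) ∪ range (Nat.sqrt K + 1)) : ℝ) ≤ (lam + 1) + (Nat.sqrt K + 1) := by
    have := card_union_le (range (lam + 1)) (range (Nat.sqrt K + 1))
    rw [card_range, card_range] at this
    exact_mod_cast this
  have h3 : (Nat.sqrt K : ℝ) ≤ (K : ℝ) ^ (1 - 1 / 2 : ℝ) := by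
    rw [show (1 - 1 / 2 : ℝ) = 1 / 2 by norm_num, ← Real.sqrt_eq_rpow]
    exact Real.nat_sqrt_le_real_sqrt
  have h4 : (1 : ℝ) ≤ (K : ℝ) ^ (1 - 1 / 2 : ℝ) := Real.one_le_rpow hK1 (by norm_num)
  have h5 : (0 : ℝ) ≤ K * (a : ℝ) ^ 2 / (a : ℝ) ^ (3 * s) := by positivity
  have h6 : (0 : ℝ) ≤ K * (((a : ℝ) + 1) ^ 0 * (2 / 3) ^ a) := by positivity
  have h7 : (0 : ℝ) ≤ lam := by positivity
  simp only [pow_zero, zero_mul, one_mul] at h6 ⊢
  nlinarith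

theorem easy_cnt_dvd (lam K d : ℕ) :
    cnt K (fun k => lam < k ∧ d ∣ k - lam) ≤ (K : ℝ) / d := by
  classical
  rw [cnt_eq]
  have h1 : #{k ∈ range (K + 1) | lam < k ∧ d ∣ k - lam} ≤ #{n ∈ Ioc 0 K | d ∣ n} := by
    refine card_le_card_of_injOn (fun k => k - lam) ?_ ?_
    · intro k hk
      simp only [coe_filter, mem_range, Set.mem_ofPred_eq, mem_Ioc] at hk ⊢
      exact ⟨⟨by omega, by omega⟩, hk.2.2⟩
    · intro k hk k' hk' h
      simp only [coe_filter, mem_range, Set.mem_ofPred_eq] at hk hk' h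
      omega
  rw [Nat.Ioc_filter_dvd_card_eq_div] at h1
  exact le_trans (by exact_mod_cast h1) Nat.cast_div_le

theorem easy_smooth_sum (lam : ℕ) : ∃ C : ℝ, 0 ≤ C ∧ ∀ D : Finset ℕ,
    (∀ d ∈ D, 0 < d ∧ ∀ p : ℕ, p.Prime → p ∣ d → p ≤ lam) → ∑ d ∈ D, (√(d : ℝ))⁻¹ ≤ C := by
  let f : ℕ →* ℝ := ⟨⟨fun n => (√(n : ℝ))⁻¹, by simp⟩, fun a b => by
    simp [mul_comm]⟩
  have hf : ∀ {p : ℕ}, p.Prime → ‖f p‖ < 1 := by
    intro p hp
    have : (1 : ℝ) < p := by exact_mod_cast hp.one_lt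
    show ‖(√(p : ℝ))⁻¹‖ < 1
    rw [norm_inv, Real.norm_of_nonneg (Real.sqrt_nonneg _)]
    exact inv_lt_one_of_one_lt₀ (Real.lt_sqrt_of_sq_lt (by simpa using this))
  have hs := (EulerProduct.summable_and_hasSum_factoredNumbers_prod_filter_prime_geometric hf
    (range (lam + 1))).2
  have hs2 : HasSum ((Nat.factoredNumbers (range (lam + 1))).indicator
      fun n : ℕ => (√(n : ℝ))⁻¹) (∏ r ∈ (range (lam + 1)).filter Nat.Prime, (1 - f r)⁻¹) :=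
    hasSum_subtype_iff_indicator.1 hs
  have hn : ∀ n, 0 ≤ (Nat.factoredNumbers (range (lam + 1))).indicator
      (fun n : ℕ => (√(n : ℝ))⁻¹) n := fun n => Set.indicator_nonneg (fun m _ => by positivity) n
  refine ⟨_, hs2.nonneg hn, fun D hD => ?_⟩
  refine le_trans (le_of_eq (sum_congr rfl fun n hn => ?_)) (sum_le_hasSum D (fun n _ => hn n) hs2)
  rw [Set.indicator_of_mem]
  rw [Nat.mem_factoredNumbers']
  intro p hp hpn
  exact mem_range.2 (Nat.lt_succ_of_le ((hD n hn).2 p hp hpn))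

theorem sparse_S2 (lam s : ℕ) (hs : 1 ≤ s) : Sparse s (S2 lam s) := by
  classical
  obtain ⟨C, hC0, hC⟩ := easy_smooth_sum lam
  refine ⟨C, ?_⟩
  filter_upwards [eventually_ge_atTop 1] with a ha K hK
  have ha' : (1 : ℝ) ≤ a := by exact_mod_cast ha
  set D : Finset ℕ := {d ∈ Ioc (pZ s a) K | ∀ p : ℕ, p.Prime → p ∣ d → p ≤ lam} with hD
  have h1 : cnt K (S2 lam s a K) ≤ ∑ d ∈ D, cnt K (fun k => lam < k ∧ d ∣ k - lam) := by
    refine cnt_le_sum D _ fun k hk hS => ?_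
    obtain ⟨h0, d, h1, h2, h3⟩ := hS
    refine ⟨d, mem_filter.2 ⟨mem_Ioc.2 ⟨h2, ?_⟩, h3⟩, h0, h1⟩
    have := Nat.le_of_dvd (by omega) h1
    omega
  have h2 : ∀ d ∈ D, cnt K (fun k => lam < k ∧ d ∣ k - lam) ≤
      (K : ℝ) / (a : ℝ) ^ (3 * s) * (√(d : ℝ))⁻¹ := by
    intro d hd
    refine (easy_cnt_dvd lam K d).trans ?_
    have hd1 := (mem_Ioc.1 (mem_filter.1 hd).1).1
    have hd2 : ((a : ℝ) ^ (3 * s)) ^ 2 ≤ d := by
      have : (a : ℝ) ^ (24 * s) ≤ d := by exact_mod_cast hd1.le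
      refine le_trans ?_ this
      rw [← pow_mul]
      exact pow_le_pow_right₀ ha' (by omega)
    have hd3 : (a : ℝ) ^ (3 * s) ≤ √(d : ℝ) := Real.le_sqrt_of_sq_le hd2
    have hp : (0 : ℝ) < (a : ℝ) ^ (3 * s) := by positivity
    have hd0 : (0 : ℝ) ≤ d := by positivity
    have hq : 0 < √(d : ℝ) := lt_of_lt_of_le hp hd3
    rw [← div_eq_mul_inv, div_div]
    refine div_le_div_of_nonneg_left (by positivity) (by positivity) ?_
    calc (a : ℝ) ^ (3 * s) * √(d : ℝ) ≤ √(d : ℝ) * √(d : ℝ) := by gcongr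
      _ = d := Real.mul_self_sqrt hd0
  have h3 : ∑ d ∈ D, (√(d : ℝ))⁻¹ ≤ C := hC D fun d hd =>
    ⟨lt_of_le_of_lt (Nat.zero_le _) (mem_Ioc.1 (mem_filter.1 hd).1).1, (mem_filter.1 hd).2⟩
  refine h1.trans ((sum_le_sum h2).trans ?_)
  rw [← mul_sum]
  have h4 : (1 : ℝ) ≤ (a : ℝ) ^ 2 := one_le_pow₀ ha'
  calc (K : ℝ) / (a : ℝ) ^ (3 * s) * ∑ d ∈ D, (√(d : ℝ))⁻¹ ≤ (K : ℝ) / (a : ℝ) ^ (3 * s) * C := by
        gcongr
    _ = C * K * 1 / (a : ℝ) ^ (3 * s) := by ring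
    _ ≤ _ := by gcongr

theorem sparse_S3 (lam s : ℕ) (hs : 1 ≤ s) : Sparse s (S3 lam s) := by
  classical
  refine ⟨2, ?_⟩
  filter_upwards [eventually_ge_atTop 1] with a ha K hK
  have ha' : (1 : ℝ) ≤ a := by exact_mod_cast ha
  have hZ : 1 ≤ pZ s a := Nat.one_le_pow _ _ ha
  have h1 : cnt K (S3 lam s a K) ≤
      ∑ p ∈ Ioo (pZ s a - 1) (K + 1), cnt K (fun k => lam < k ∧ p ^ 2 ∣ k - lam) := by
    refine cnt_le_sum _ _ fun k hk hS => ?_
    obtain ⟨h0, p, h1, h2⟩ := hS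
    refine ⟨p, mem_Ioo.2 ⟨by omega, ?_⟩, h0, h2⟩
    have h3 := Nat.le_of_dvd (by omega) h2
    have h4 : p ≤ p ^ 2 := Nat.le_self_pow (by norm_num) p
    omega
  have h2 : ∀ p ∈ Ioo (pZ s a - 1) (K + 1), cnt K (fun k => lam < k ∧ p ^ 2 ∣ k - lam) ≤
      (K : ℝ) * ((p : ℝ) ^ 2)⁻¹ := by
    intro p _
    refine (easy_cnt_dvd lam K _).trans (le_of_eq ?_)
    push_cast
    rw [div_eq_mul_inv]
  refine h1.trans ((sum_le_sum h2).trans ?_)
  rw [← mul_sum]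
  have h3 := sum_Ioo_inv_sq_le (α := ℝ) (pZ s a - 1) (K + 1)
  have h4 : ((pZ s a - 1 : ℕ) : ℝ) + 1 = (a : ℝ) ^ (24 * s) := by
    rw [Nat.cast_sub hZ]
    simp [pZ]
  rw [h4] at h3
  have h5 : (a : ℝ) ^ (3 * s) ≤ (a : ℝ) ^ (24 * s) := pow_le_pow_right₀ ha' (by omega)
  have h6 : (1 : ℝ) ≤ (a : ℝ) ^ 2 := one_le_pow₀ ha'
  calc (K : ℝ) * ∑ p ∈ Ioo (pZ s a - 1) (K + 1), ((p : ℝ) ^ 2)⁻¹
      ≤ K * (2 / (a : ℝ) ^ (24 * s)) := by gcongr
    _ ≤ K * (2 / (a : ℝ) ^ (3 * s)) := by gcongr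
    _ = 2 * K * 1 / (a : ℝ) ^ (3 * s) := by ring
    _ ≤ _ := by gcongr

theorem easy_scale (s a₀ K : ℕ) (h0 : 1 ≤ a₀) (hK : 2 ^ (a₀ ^ (2 * s + 3)) ≤ K) :
    ∃ a : ℕ, a₀ ≤ a ∧ Scale s a K := by
  classical
  have hex : ∃ a : ℕ, K < 2 ^ ((a + 1) ^ (2 * s + 3)) :=
    ⟨K, lt_of_lt_of_le (lt_trans (Nat.lt_succ_self K) Nat.lt_two_pow_self)
      (Nat.pow_le_pow_right (by norm_num) (Nat.le_self_pow (by omega) _))⟩
  have h1 := Nat.find_spec hex
  have h2 : a₀ ≤ Nat.find hex := by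
    by_contra hc
    have h3 : Nat.find hex + 1 ≤ a₀ := by omega
    have h4 : 2 ^ ((Nat.find hex + 1) ^ (2 * s + 3)) ≤ 2 ^ (a₀ ^ (2 * s + 3)) :=
      Nat.pow_le_pow_right (by norm_num) (Nat.pow_le_pow_left h3 _)
    omega
  refine ⟨Nat.find hex, h2, ?_, h1⟩
  have h3 := Nat.find_min hex (m := Nat.find hex - 1) (by omega)
  rw [Nat.sub_add_cancel (by omega)] at h3
  omega

theorem final : FinalStmt := by
  intro S hS ε hε
  obtain ⟨s, hs⟩ := exists_nat_gt (4 / ε + 1)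
  have hε4 : 0 < 4 / ε := by positivity
  have hs1 : 1 ≤ s := by
    have : (1 : ℝ) ≤ s := by linarith
    exact_mod_cast this
  have hs' : (1 : ℝ) ≤ s := by exact_mod_cast hs1
  have hθ : (3 / 2 - ε) * (2 * s + 3) ≤ 3 * s - 2 := by
    have h1 : 4 / ε < s := by linarith
    rw [div_lt_iff₀ hε] at h1
    nlinarith
  obtain ⟨C, hC⟩ := hS s hs1
  obtain ⟨a₁, ha₁⟩ := eventually_atTop.1 hC
  set a₀ := max a₁ 2 with ha₀
  set K₀ := 2 ^ (a₀ ^ (2 * s + 3)) with hK₀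
  set M : ℝ := ∑ K ∈ range K₀, Real.log K ^ (3 / 2 - ε) with hM
  have hlog : ∀ K : ℕ, 0 ≤ Real.log K ^ (3 / 2 - ε) := fun K =>
    Real.rpow_nonneg (Real.log_natCast_nonneg K) _
  have hM0 : 0 ≤ M := sum_nonneg fun K _ => hlog K
  refine ⟨2 * M + |C| * 2 ^ (3 * s - 2), fun K hK => ?_⟩
  have hK2 : (2 : ℝ) ≤ K := by exact_mod_cast hK
  have hL : 0 < Real.log K := Real.log_pos (by linarith)
  have hLθ : 0 < Real.log K ^ (3 / 2 - ε) := Real.rpow_pos_of_pos hL _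
  rw [le_div_iff₀ hLθ]
  have hA : (0 : ℝ) ≤ |C| * 2 ^ (3 * s - 2) * K := by positivity
  have hB : (0 : ℝ) ≤ 2 * M * K := by positivity
  rcases lt_or_ge K K₀ with hlt | hge
  · have h1 : cnt K S ≤ #(range (K + 1)) :=
      cnt_le_card _ fun k hk _ => mem_range.2 (Nat.lt_succ_of_le hk)
    rw [card_range] at h1
    push_cast at h1
    have h2 : Real.log K ^ (3 / 2 - ε) ≤ M :=
      single_le_sum (f := fun K : ℕ => Real.log K ^ (3 / 2 - ε)) (fun K _ => hlog K)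
        (mem_range.2 hlt)
    have h3 : cnt K S * Real.log K ^ (3 / 2 - ε) ≤ (2 * K) * M :=
      mul_le_mul (by linarith) h2 hLθ.le (by positivity)
    nlinarith
  · obtain ⟨a, ha, hsc⟩ := easy_scale s a₀ K (by omega) hge
    have h1 := ha₁ a (by omega) K hsc
    have ha2 : 2 ≤ a := by omega
    have ha' : (2 : ℝ) ≤ a := by exact_mod_cast ha2
    have hK4 : (4 : ℝ) ≤ K := by
      have := hsc.two_pow_le
      have h2 : 2 ^ 2 ≤ 2 ^ a := Nat.pow_le_pow_right (by norm_num) ha2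
      exact_mod_cast le_trans h2 this
    have hL1 : 1 ≤ Real.log K := by
      rw [Real.le_log_iff_exp_le (by linarith)]
      have := Real.exp_one_lt_d9
      linarith
    have h2 : Real.log K ^ (3 / 2 - ε) ≤ (2 * (a : ℝ)) ^ (3 * s - 2) := by
      have e1 : Real.log K ^ (3 / 2 - ε) ≤ Real.log K ^ ((3 * (s : ℝ) - 2) / (2 * s + 3)) := by
        refine Real.rpow_le_rpow_of_exponent_le hL1 ?_
        rw [le_div_iff₀ (by positivity)]
        exact hθ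
      have e2 : Real.log K ^ ((3 * (s : ℝ) - 2) / (2 * s + 3)) ≤
          (((a : ℝ) + 1) ^ (2 * s + 3)) ^ ((3 * (s : ℝ) - 2) / (2 * s + 3)) :=
        Real.rpow_le_rpow hL.le hsc.log_le (div_nonneg (by linarith) (by positivity))
      have e3 : (((a : ℝ) + 1) ^ (2 * s + 3)) ^ ((3 * (s : ℝ) - 2) / (2 * s + 3)) =
          ((a : ℝ) + 1) ^ (3 * s - 2) := by
        rw [← Real.rpow_natCast, ← Real.rpow_mul (by positivity), ← Real.rpow_natCast]
        congr 1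
        rw [Nat.cast_sub (by omega)]
        push_cast
        field_simp
      refine e1.trans (e2.trans (e3.le.trans ?_))
      gcongr
      linarith
    have h3 : cnt K S ≤ |C| * K / (a : ℝ) ^ (3 * s - 2) := by
      refine h1.trans ?_
      have e : (a : ℝ) ^ (3 * s) = (a : ℝ) ^ (3 * s - 2) * (a : ℝ) ^ 2 := by
        rw [← pow_add, Nat.sub_add_cancel (by omega)]
      rw [e, mul_div_mul_right _ _ (by positivity)]
      gcongr
      exact le_abs_self C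
    have h4 : cnt K S * Real.log K ^ (3 / 2 - ε) ≤
        |C| * K / (a : ℝ) ^ (3 * s - 2) * (2 * (a : ℝ)) ^ (3 * s - 2) :=
      mul_le_mul h3 h2 hLθ.le (by positivity)
    have h5 : |C| * K / (a : ℝ) ^ (3 * s - 2) * (2 * (a : ℝ)) ^ (3 * s - 2) =
        |C| * 2 ^ (3 * s - 2) * K := by
      rw [mul_pow]
      field_simp
    nlinarith

end Pool.Agent.Lib.MP_0820eb_co.Dens
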