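import Mathlib

/-!
An elementary bound for Kloosterman sums by the fourth moment.
-/

open Finset

namespace Pool.Agent.Lib.MP_0820eb_co.Dens

variable {c : ℕ} [NeZero c]

/-- the standard additive character -/
noncomputable abbrev kloE (x : ZMod c) : ℂ := ZMod.stdAddChar x

/-- the Kloosterman sum -/
noncomputable def kloS (p : ZMod c × ZMod c) : ℂ :=
  ∑ x : (ZMod c)ˣ, kloE (p.1 * (x : ZMod c) + p.2 * ((x⁻¹ : (ZMod c)ˣ) : ZMod c))

/-- size of the annihilator -/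
def kloG (h : ZMod c) : ℕ := #{y : ZMod c | h * y = 0}

theorem klo_orth (u v : ZMod c) :
    ∑ p : ZMod c × ZMod c, kloE (p.1 * u + p.2 * v) = if u = 0 ∧ v = 0 then (c : ℂ) ^ 2 else 0 := by
  simp only [kloE, AddChar.map_add_eq_mul, Fintype.sum_prod_type]
  rw [← sum_mul_sum, AddChar.sum_mulShift _ (ZMod.isPrimitive_stdAddChar c),
    AddChar.sum_mulShift _ (ZMod.isPrimitive_stdAddChar c), ZMod.card]
  by_cases hu : u = 0 <;> by_cases hv : v = 0 <;> simp [hu, hv, sq]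

theorem klo_parseval {ι : Type} [Fintype ι] (u v : ι → ZMod c) :
    ∑ p : ZMod c × ZMod c, ‖∑ i, kloE (p.1 * u i + p.2 * v i)‖ ^ 2 =
      (c : ℝ) ^ 2 * #{q : ι × ι | u q.1 = u q.2 ∧ v q.1 = v q.2} := by
  have h : ∀ p : ZMod c × ZMod c, ((‖∑ i, kloE (p.1 * u i + p.2 * v i)‖ ^ 2 : ℝ) : ℂ) =
      ∑ q : ι × ι, kloE (p.1 * (u q.1 - u q.2) + p.2 * (v q.1 - v q.2)) := fun p => by
    rw [← Complex.normSq_eq_norm_sq, ← Complex.mul_conj, map_sum, sum_mul_sum,
      Fintype.sum_prod_type]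
    refine sum_congr rfl fun i _ => sum_congr rfl fun k _ => ?_
    rw [kloE, kloE, kloE, ← AddChar.map_neg_eq_conj, ← AddChar.map_add_eq_mul]
    congr 1
    ring
  have : ((∑ p : ZMod c × ZMod c, ‖∑ i, kloE (p.1 * u i + p.2 * v i)‖ ^ 2 : ℝ) : ℂ) =
      (((c : ℝ) ^ 2 * #{q : ι × ι | u q.1 = u q.2 ∧ v q.1 = v q.2} : ℝ) : ℂ) := by
    rw [Complex.ofReal_sum, sum_congr rfl fun p _ => h p, sum_comm]
    simp only [klo_orth, sub_eq_zero]
    rw [← sum_filter, sum_const, nsmul_eq_mul, mul_comm]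
    push_cast
    rfl
  exact_mod_cast this

theorem klo_cnt_dvd (d : ℕ) (hd : d ∣ c) : #{y : ZMod c | d ∣ y.val} ≤ c / d := by
  rw [← card_range (c / d)]
  refine card_le_card_of_injOn (fun y => y.val / d) (fun y hy => ?_) fun y hy z hz e => ?_
  · simp only [coe_filter, mem_univ, true_and, Set.mem_ofPred_eq] at hy
    exact mem_coe.2 (mem_range.2 (Nat.div_lt_div_of_lt_of_dvd hd (ZMod.val_lt y)))
  · simp only [coe_filter, mem_univ, true_and, Set.mem_ofPred_eq] at hy hz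
    refine ZMod.val_injective c ?_
    rw [← Nat.mul_div_cancel' hy, ← Nat.mul_div_cancel' hz]
    exact congrArg _ e

theorem kloG_le (h : ZMod c) : kloG h ≤ c.gcd h.val := by
  have hc := NeZero.pos c
  have hg : 0 < c.gcd h.val := Nat.gcd_pos_of_pos_left _ hc
  have h1 := klo_cnt_dvd (c := c) _ (Nat.div_dvd_of_dvd (Nat.gcd_dvd_left c h.val))
  rw [Nat.div_div_self (Nat.gcd_dvd_left _ _) hc.ne'] at h1
  refine le_trans (card_le_card fun y hy => ?_) h1
  simp only [mem_filter, mem_univ, true_and] at hy ⊢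
  have h2 : c ∣ h.val * y.val := by
    rw [← ZMod.natCast_eq_zero_iff]
    simpa using hy
  have h3 : c ∣ c.gcd h.val * y.val := by
    rw [← Nat.gcd_mul_right]
    exact Nat.dvd_gcd (dvd_mul_right _ _) h2
  refine Nat.dvd_of_mul_dvd_mul_left hg ?_
  rwa [Nat.mul_div_cancel' (Nat.gcd_dvd_left _ _)]

theorem kloG_pos (h : ZMod c) : 1 ≤ kloG h := card_pos.2 ⟨0, by simp⟩

theorem kloG_unit (h : ZMod c) {u : ZMod c} (hu : IsUnit u) : kloG (h * u) = kloG h := by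
  unfold kloG
  congr 1
  ext y
  simp only [mem_filter, mem_univ, true_and]
  rw [mul_right_comm, hu.mul_left_eq_zero]

/-- residues with a large common divisor with the modulus -/
def kloB (c : ℕ) [NeZero c] : Finset (ZMod c) := {y | c ≤ c.gcd y.val ^ 3}

theorem kloB_card {w : ℝ} (hw : 0 < w) (hc : (c : ℝ) = w ^ 3) :
    (#(kloB c) : ℝ) ≤ #c.divisors * w ^ 2 := by
  classical
  have h1 : kloB c ⊆ ({d ∈ c.divisors | c ≤ d ^ 3}).biUnion fun d => {y : ZMod c | d ∣ y.val} := by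
    intro y hy
    simp only [kloB, mem_filter, mem_univ, true_and] at hy
    simp only [mem_biUnion, mem_filter, mem_univ, true_and]
    exact ⟨_, ⟨Nat.mem_divisors.2 ⟨Nat.gcd_dvd_left _ _, NeZero.ne c⟩, hy⟩, Nat.gcd_dvd_right _ _⟩
  have h2 : (#(kloB c) : ℝ) ≤ ∑ d ∈ c.divisors with c ≤ d ^ 3, (#{y : ZMod c | d ∣ y.val} : ℝ) := by
    exact_mod_cast (card_le_card h1).trans card_biUnion_le
  refine h2.trans ((sum_le_card_nsmul _ _ (w ^ 2) fun d hd => ?_).trans ?_)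
  · obtain ⟨h3, h4⟩ := mem_filter.1 hd
    have h5 : w ≤ d := by
      refine le_of_pow_le_pow_left₀ three_ne_zero (Nat.cast_nonneg _) ?_
      rw [← hc]
      exact_mod_cast h4
    have h6 : (#{y : ZMod c | d ∣ y.val} : ℝ) ≤ (c : ℝ) / d :=
      (Nat.cast_le.2 (klo_cnt_dvd d (Nat.dvd_of_mem_divisors h3))).trans Nat.cast_div_le
    refine h6.trans ?_
    rw [div_le_iff₀ (hw.trans_le h5), hc, pow_succ]
    gcongr
  · rw [nsmul_eq_mul]
    gcongr
    exact filter_subset _ _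

theorem kloB_mem {α β γ : ZMod c} (h : α * β * γ = 0) : α ∈ kloB c ∨ β ∈ kloB c ∨ γ ∈ kloB c := by
  have h1 : c ∣ α.val * β.val * γ.val := by
    rw [← ZMod.natCast_eq_zero_iff]
    simpa using h
  have h2 : c ∣ c.gcd α.val * c.gcd β.val * c.gcd γ.val := by
    refine ((Nat.dvd_gcd dvd_rfl h1).trans (gcd_mul_dvd_mul_gcd c _ _)).trans ?_
    exact mul_dvd_mul_right (gcd_mul_dvd_mul_gcd c _ _) _
  have hp : ∀ y : ZMod c, 0 < c.gcd y.val := fun y => Nat.gcd_pos_of_pos_left _ (NeZero.pos c)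
  have h3 := Nat.le_of_dvd (mul_pos (mul_pos (hp α) (hp β)) (hp γ)) h2
  simp only [kloB, mem_filter, mem_univ, true_and]
  generalize c.gcd α.val = a at *
  generalize c.gcd β.val = b at *
  generalize c.gcd γ.val = g at *
  by_contra hcon
  push Not at hcon
  obtain ⟨h4, h5, h6⟩ := hcon
  have h7 : (a * b * g) ^ 3 < c ^ 3 := by
    calc (a * b * g) ^ 3 = a ^ 3 * b ^ 3 * g ^ 3 := by ring
      _ < c * c * c := Nat.mul_lt_mul'' (Nat.mul_lt_mul'' h4 h5) h6
      _ = c ^ 3 := by ring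
  exact absurd (Nat.pow_le_pow_left h3 3) h7.not_ge

theorem klo_four : ∑ p : ZMod c × ZMod c, ‖kloS p‖ ^ 4 ≤
    (c : ℝ) ^ 2 * (3 * (c.totient * #(kloB c) * c)) := by
  classical
  let u : (ZMod c)ˣ × (ZMod c)ˣ → ZMod c := fun q => q.1 + q.2
  let v : (ZMod c)ˣ × (ZMod c)ˣ → ZMod c := fun q => (q.1⁻¹ : (ZMod c)ˣ) + (q.2⁻¹ : (ZMod c)ˣ)
  have h : ∀ p : ZMod c × ZMod c, ‖kloS p‖ ^ 4 = ‖∑ i, kloE (p.1 * u i + p.2 * v i)‖ ^ 2 :=
    fun p => by
      rw [show (4 : ℕ) = 2 * 2 from rfl, pow_mul, ← norm_pow, sq (kloS p), kloS, sum_mul_sum,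
        Fintype.sum_prod_type]
      congr 2
      refine sum_congr rfl fun i _ => sum_congr rfl fun k _ => ?_
      rw [kloE, kloE, kloE, ← AddChar.map_add_eq_mul]
      congr 1
      simp only [u, v]
      ring
  rw [sum_congr rfl fun p _ => h p, klo_parseval]
  gcongr
  let T := ((ZMod c)ˣ × (ZMod c)ˣ) × (ZMod c)ˣ × (ZMod c)ˣ
  let s : Finset T := {q | u q.1 = u q.2}
  have key : ∀ (f : T → (ZMod c)ˣ) (g k : T → ZMod c),
      (∀ q ∈ s, ∀ q' ∈ s, f q = f q' → g q = g q' → k q = k q' → q = q') →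
      #{q ∈ s | g q ∈ kloB c} ≤ c.totient * #(kloB c) * c := by
    intro f g k hinj
    have e : c.totient * #(kloB c) * c =
        #(((univ : Finset (ZMod c)ˣ) ×ˢ kloB c) ×ˢ (univ : Finset (ZMod c))) := by
      rw [card_product, card_product, card_univ, card_univ, ZMod.card_units_eq_totient, ZMod.card]
    rw [e]
    refine card_le_card_of_injOn (fun q => ((f q, g q), k q)) (fun q hq => ?_) fun q hq q' hq' e => ?_
    · simpa using (mem_filter.1 hq).2
    · simp only [Prod.mk.injEq] at e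
      exact hinj q (mem_filter.1 hq).1 q' (mem_filter.1 hq').1 e.1.1 e.1.2 e.2
  have fin : ∀ q ∈ s, ∀ q' ∈ s, (q.1.1 : ZMod c) = q'.1.1 → (q.1.2 : ZMod c) = q'.1.2 →
      (q.2.1 : ZMod c) = q'.2.1 → q = q' := by
    intro q hq q' hq' e1 e2 e3
    have a1 : (q.1.1 : ZMod c) + q.1.2 = q.2.1 + q.2.2 := (mem_filter.1 hq).2
    have a2 : (q'.1.1 : ZMod c) + q'.1.2 = q'.2.1 + q'.2.2 := (mem_filter.1 hq').2
    exact Prod.ext (Prod.ext (Units.ext e1) (Units.ext e2)) (Prod.ext (Units.ext e3)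
      (Units.ext (by linear_combination e1 + e2 - e3 - a1 + a2)))
  have k1 := key (fun q => q.1.1) (fun q => q.1.1 + q.1.2) (fun q => q.2.1)
    fun q hq q' hq' e1 e2 e3 => fin q hq q' hq' (congrArg _ e1)
      (by linear_combination e2 - (congrArg Units.val e1)) e3
  have k2 := key (fun q => q.1.1) (fun q => q.2.1 - q.1.1) (fun q => q.1.2)
    fun q hq q' hq' e1 e2 e3 => fin q hq q' hq' (congrArg _ e1) e3
      (by linear_combination e2 + (congrArg Units.val e1))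
  have k3 := key (fun q => q.1.2) (fun q => q.2.1 - q.1.2) (fun q => q.1.1)
    fun q hq q' hq' e1 e2 e3 => fin q hq q' hq' e3 (congrArg _ e1)
      (by linear_combination e2 + (congrArg Units.val e1))
  have sub : ({q : T | u q.1 = u q.2 ∧ v q.1 = v q.2} : Finset T) ⊆
      {q ∈ s | ((q.1.1 : ZMod c) + q.1.2) ∈ kloB c} ∪ ({q ∈ s | ((q.2.1 : ZMod c) - q.1.1) ∈ kloB c} ∪
        {q ∈ s | ((q.2.1 : ZMod c) - q.1.2) ∈ kloB c}) := by
    rintro ⟨⟨x1, x2⟩, x3, x4⟩ hq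
    obtain ⟨H1, H2⟩ := (mem_filter.1 hq).2
    have hs : ((x1, x2), x3, x4) ∈ s := mem_filter.2 ⟨mem_univ _, H1⟩
    simp only [mem_union, mem_filter, hs, true_and]
    refine kloB_mem ?_
    simp only [u, v] at H1 H2
    linear_combination (-(x1 * x2 * x3 * x4 : ZMod c)) * H2 + (x2 * x3 * x4 : ZMod c) * x1.mul_inv
      + (x1 * x3 * x4 : ZMod c) * x2.mul_inv - (x1 * x2 * x4 : ZMod c) * x3.mul_inv
      - (x1 * x2 * x3 : ZMod c) * x4.mul_inv + (x1 * x2 - (x1 + x2) * x3 : ZMod c) * H1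
  have tot := (card_le_card sub).trans ((card_union_le _ _).trans
    (add_le_add k1 ((card_union_le _ _).trans (add_le_add k2 k3))))
  have : #({q : T | u q.1 = u q.2 ∧ v q.1 = v q.2} : Finset T) ≤
      3 * (c.totient * #(kloB c) * c) := by omega
  exact_mod_cast this

theorem kloS_unit (p : ZMod c × ZMod c) (t : (ZMod c)ˣ) :
    kloS (p.1 * (t : ZMod c), p.2 * ((t⁻¹ : (ZMod c)ˣ) : ZMod c)) = kloS p := by
  unfold kloS
  refine Fintype.sum_equiv (Equiv.mulLeft t) _ _ fun x => ?_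
  simp only [Equiv.coe_mulLeft, mul_inv, Units.val_mul, mul_assoc]

theorem kloS_swap (p : ZMod c × ZMod c) : kloS p.swap = kloS p := by
  unfold kloS
  refine Fintype.sum_equiv (Equiv.inv (ZMod c)ˣ) _ _ fun x => ?_
  simp [add_comm]

theorem klo_pow_le (p : ZMod c × ZMod c) :
    ‖kloS p‖ ^ 4 ≤ kloG p.1 * ((c : ℝ) ^ 2 * (3 * (#(kloB c) * c))) := by
  classical
  let f : (ZMod c)ˣ → ZMod c × ZMod c := fun t => (p.1 * (t : ZMod c), p.2 * ((t⁻¹ : (ZMod c)ˣ) : ZMod c))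
  have h1 : (c.totient : ℝ) * ‖kloS p‖ ^ 4 = ∑ t, ‖kloS (f t)‖ ^ 4 := by
    simp only [f, kloS_unit]
    rw [sum_const, card_univ, ZMod.card_units_eq_totient, nsmul_eq_mul]
  have h2 : ∀ b, #{t | f t = b} ≤ kloG p.1 := fun b => by
    rcases eq_empty_or_nonempty ({t | f t = b} : Finset (ZMod c)ˣ) with h | ⟨t0, h0⟩
    · simp [h]
    refine card_le_card_of_injOn (fun t => (t : ZMod c) - t0) (fun t ht => ?_) fun t _ t' _ e => ?_
    · have e := congrArg Prod.fst ((mem_filter.1 ht).2.trans (mem_filter.1 h0).2.symm)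
      simp only [coe_filter, mem_univ, true_and, Set.mem_ofPred_eq]
      simp only [f] at e
      linear_combination e
    · exact Units.ext (sub_left_injective e)
  have h3 : ∑ t, ‖kloS (f t)‖ ^ 4 ≤ kloG p.1 * ∑ b : ZMod c × ZMod c, ‖kloS b‖ ^ 4 := by
    rw [sum_comp (fun b => ‖kloS b‖ ^ 4) f, mul_sum]
    refine (sum_le_sum fun b _ => ?_).trans
      (sum_le_sum_of_subset_of_nonneg (subset_univ _) fun _ _ _ => by positivity)
    rw [nsmul_eq_mul]
    gcongr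
    exact_mod_cast h2 b
  have h4 : (0 : ℝ) < c.totient := by exact_mod_cast Nat.totient_pos.2 (NeZero.pos c)
  refine le_of_mul_le_mul_left ?_ h4
  rw [h1]
  refine h3.trans ((mul_le_mul_of_nonneg_left klo_four (Nat.cast_nonneg _)).trans (le_of_eq ?_))
  ring

/-- the bound of Kloosterman -/
theorem klo_le {w : ℝ} (hw : 0 < w) (hc : (c : ℝ) = w ^ 12) (p : ZMod c × ZMod c) :
    ‖kloS p‖ ≤ 2 * #c.divisors * w ^ 11 * kloG p.1 := by
  have h1 := kloB_card (c := c) (w := w ^ 4) (by positivity) (by rw [hc]; ring)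
  have h2 : (1 : ℝ) ≤ kloG p.1 := by exact_mod_cast kloG_pos p.1
  have h3 : (1 : ℝ) ≤ #c.divisors := by
    exact_mod_cast card_pos.2 ⟨1, Nat.one_mem_divisors.2 (NeZero.ne c)⟩
  refine le_of_pow_le_pow_left₀ four_ne_zero (by positivity) ((klo_pow_le p).trans ?_)
  calc (kloG p.1 : ℝ) * ((c : ℝ) ^ 2 * (3 * (#(kloB c) * c)))
      ≤ kloG p.1 * ((c : ℝ) ^ 2 * (3 * (#c.divisors * (w ^ 4) ^ 2 * c))) := by gcongr
    _ = 3 * #c.divisors ^ 1 * w ^ 44 * (kloG p.1 : ℝ) ^ 1 := by rw [hc]; ring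
    _ ≤ 16 * #c.divisors ^ 4 * w ^ 44 * (kloG p.1 : ℝ) ^ 4 := by gcongr <;> norm_num
    _ = _ := by ring

end Pool.Agent.Lib.MP_0820eb_co.Dens
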