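import Mathlib
import Pool.Agent.Lib.MP_0820eb_co.Dens.Defs
import Pool.Agent.Lib.MP_0820eb_co.Dens.Kloost1
import Pool.Agent.Lib.MP_30b5ba_nt.Variance

/-!
The modular hyperbola in arithmetic progressions.
-/

open Finset

namespace Pool.Agent.Lib.MP_0820eb_co.Dens

/-- an initial segment of an arithmetic progression -/
def kloA (Y q a₀ : ℕ) : Finset ℕ := {a ∈ range Y | a ≡ a₀ [MOD q]}

theorem klo_one (q a₀ Y : ℕ) : #{a ∈ range q | Y + a ≡ a₀ [MOD q]} ≤ 1 :=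
  card_le_one.2 fun a ha b hb => by
    simp only [mem_filter, mem_range] at ha hb
    exact (Nat.ModEq.add_left_cancel' Y (ha.2.trans hb.2.symm)).eq_of_lt_of_lt ha.1 hb.1

theorem kloA_card {q : ℕ} (hq : 0 < q) (Y a₀ : ℕ) : |(#(kloA Y q a₀) : ℝ) - Y / q| ≤ 1 := by
  have h := Pool.Agent.Shared.BrunSieve.count_approx hq (fun a => a ≡ a₀ [MOD q])
    (fun a => by simp [Nat.ModEq]) Y
  have h1 : #{a ∈ range q | a ≡ a₀ [MOD q]} = 1 := by
    refine le_antisymm (by simpa using klo_one q a₀ 0) (card_pos.2 ⟨a₀ % q, ?_⟩)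
    exact mem_filter.2 ⟨mem_range.2 (Nat.mod_lt _ hq), Nat.mod_modEq _ _⟩
  rw [h1] at h
  simpa [kloA, div_eq_mul_inv] using h

theorem klo_geom {z : ℂ} (hz : ‖z‖ = 1) (Y q a₀ : ℕ) :
    ‖∑ a ∈ kloA Y q a₀, z ^ a‖ * ‖z ^ q - 1‖ ≤ 2 := by
  let f : ℕ → ℂ := fun a => if a ≡ a₀ [MOD q] then z ^ a else 0
  have h1 : ∀ Z, ‖∑ a ∈ range q, f (Z + a)‖ ≤ 1 := fun Z => by
    simp only [f]
    rw [← sum_filter]
    refine (norm_sum_le _ _).trans ?_
    simp only [norm_pow, hz, one_pow, sum_const, nsmul_eq_mul, mul_one]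
    exact_mod_cast klo_one q a₀ Z
  have h2 : ∀ a, f (q + a) = f a * z ^ q := fun a => by
    have : (q + a ≡ a₀ [MOD q]) ↔ (a ≡ a₀ [MOD q]) := by simp [Nat.ModEq]
    simp only [f, this]
    split_ifs
    · ring
    · simp
  have h3 := sum_range_add f Y q
  rw [add_comm, sum_range_add, sum_congr rfl fun a _ => h2 a, ← sum_mul] at h3
  have h4 : (∑ a ∈ kloA Y q a₀, z ^ a) * (z ^ q - 1) =
      ∑ a ∈ range q, f (Y + a) - ∑ a ∈ range q, f (0 + a) := by
    rw [kloA, sum_filter]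
    simp only [zero_add]
    linear_combination h3
  rw [← norm_mul, h4]
  exact (norm_sub_le _ _).trans (by linarith [h1 Y, h1 0])

variable {c : ℕ} [NeZero c]

theorem klo_sin {j : ZMod c} (hj : 2 * j.val ≤ c) : 4 * (j.val : ℝ) ≤ ‖kloE j - 1‖ * c := by
  have hc : (0 : ℝ) < c := by exact_mod_cast NeZero.pos c
  have h1 : kloE j = Complex.exp (Complex.I * (2 * Real.pi * j.val / c : ℝ)) := by
    rw [kloE, ZMod.stdAddChar_apply, ZMod.toCircle_apply]
    congr 1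
    push_cast
    ring
  have h2 : (2 * j.val : ℝ) ≤ c := by exact_mod_cast hj
  have h3 := Real.mul_le_sin (x := 2 * Real.pi * j.val / c / 2) (by positivity) (by
    gcongr
    rw [div_le_iff₀ hc]
    nlinarith [Real.pi_pos])
  have h4 : 2 / Real.pi * (2 * Real.pi * j.val / c / 2) = 2 * j.val / c := by
    field_simp
  rw [h4, div_le_iff₀ hc] at h3
  rw [h1, Complex.norm_exp_I_mul_ofReal_sub_one, Real.norm_eq_abs]
  have h5 := le_abs_self (2 * Real.sin (2 * Real.pi * j.val / c / 2))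
  nlinarith

theorem klo_sin' {j : ZMod c} (hj : j ≠ 0) {x : ℝ} (hx : 0 ≤ x) (h : x * ‖kloE j - 1‖ ≤ 2) :
    x ≤ c * (((j.val : ℝ))⁻¹ + (((-j).val : ℝ))⁻¹) := by
  have hc : (0 : ℝ) < c := by exact_mod_cast NeZero.pos c
  have key : ∀ i : ZMod c, i ≠ 0 → 2 * i.val ≤ c → x * ‖kloE i - 1‖ ≤ 2 → x ≤ c * ((i.val : ℝ))⁻¹ := by
    intro i h0 h1 h2
    have h3 : (0 : ℝ) < i.val := by exact_mod_cast (ZMod.val_pos.2 h0)
    have h4 := klo_sin h1
    rw [← div_eq_mul_inv, le_div_iff₀ h3]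
    nlinarith [mul_le_mul_of_nonneg_left h4 hx, mul_le_mul_of_nonneg_right h2 hc.le]
  have h5 : ‖kloE (-j) - 1‖ = ‖kloE j - 1‖ := by
    rw [kloE, AddChar.map_neg_eq_conj, ← Complex.norm_conj (kloE j - 1), map_sub, map_one]
  have h6 : (-j).val = c - j.val := by rw [ZMod.neg_val, if_neg hj]
  have p1 : (0 : ℝ) ≤ c * ((j.val : ℝ))⁻¹ := by positivity
  have p2 : (0 : ℝ) ≤ c * (((-j).val : ℝ))⁻¹ := by positivity
  rcases le_total (2 * j.val) c with h7 | h7
  · linarith [key j hj h7 h]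
  · linarith [key (-j) (neg_ne_zero.2 hj) (by omega) (h5 ▸ h)]

theorem klo_harm : ∑ j : ZMod c, (kloG j : ℝ) * ((j.val : ℝ))⁻¹ ≤ #c.divisors * (1 + Real.log c) := by
  classical
  have h1 : ∀ j : ZMod c, (kloG j : ℝ) * ((j.val : ℝ))⁻¹ ≤
      ∑ d ∈ c.divisors, if d ∣ j.val ∧ j ≠ 0 then (((j.val / d : ℕ) : ℝ))⁻¹ else 0 := fun j => by
    by_cases hj : j = 0
    · simp [hj]
    have hg : c.gcd j.val ∈ c.divisors := Nat.mem_divisors.2 ⟨Nat.gcd_dvd_left _ _, NeZero.ne c⟩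
    refine le_trans ?_ (single_le_sum (fun d _ => by positivity) hg)
    have h0 : ((c.gcd j.val : ℕ) : ℝ) ≠ 0 := by exact_mod_cast (Nat.pos_of_mem_divisors hg).ne'
    rw [if_pos ⟨Nat.gcd_dvd_right _ _, hj⟩, Nat.cast_div (Nat.gcd_dvd_right _ _) h0, inv_div,
      div_eq_mul_inv]
    gcongr
    exact_mod_cast kloG_le j
  refine (sum_le_sum fun j _ => h1 j).trans ?_
  rw [sum_comm]
  refine (sum_le_card_nsmul _ _ (1 + Real.log c) fun d hd => ?_).trans (by rw [nsmul_eq_mul])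
  have hd0 := Nat.pos_of_mem_divisors hd
  refine le_trans ?_ (harmonic_le_one_add_log c)
  rw [← sum_filter, harmonic_eq_sum_Icc]
  push_cast
  rw [← sum_image (g := fun j : ZMod c => j.val / d) (f := fun m : ℕ => ((m : ℝ))⁻¹)]
  · refine sum_le_sum_of_subset_of_nonneg (fun m hm => ?_) fun _ _ _ => by positivity
    obtain ⟨j, hj, rfl⟩ := mem_image.1 hm
    obtain ⟨h2, h3⟩ := (mem_filter.1 hj).2
    exact mem_Icc.2 ⟨Nat.div_pos (Nat.le_of_dvd (ZMod.val_pos.2 h3) h2) hd0,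
      (Nat.div_le_self _ _).trans (ZMod.val_lt j).le⟩
  · intro y hy z hz e
    refine ZMod.val_injective c ?_
    rw [← Nat.mul_div_cancel' (mem_filter.1 hy).2.1, ← Nat.mul_div_cancel' (mem_filter.1 hz).2.1]
    exact congrArg _ e

/-- Fourier transform of a progression -/
noncomputable def kloF (A : Finset ℕ) (h : ZMod c) : ℂ := ∑ a ∈ A, kloE (-(h * (a : ZMod c)))

/-- the weight -/
def kloW (h : ZMod c) : ℝ := if h = 0 then 1 else kloG h

theorem kloW_ge (h : ZMod c) : 1 ≤ kloW h := by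
  unfold kloW
  split_ifs
  · rfl
  · exact_mod_cast kloG_pos h

theorem klo_wsum {q : ℕ} (hq : c.Coprime q) (a₀ : ℕ) :
    ∑ h : ZMod c, kloW h * ‖kloF (kloA (3 * c) q a₀) h‖ ≤
      c * (3 + 2 * (#c.divisors * (1 + Real.log c))) := by
  classical
  let g : ZMod c → ℝ := fun j => (kloG j : ℝ) * ((j.val : ℝ))⁻¹
  have hu : IsUnit (q : ZMod c) := (ZMod.isUnit_iff_coprime q c).2 hq.symm
  have hs : ∀ u : ZMod c, IsUnit u → ∑ h, g (h * u) ≤ #c.divisors * (1 + Real.log c) := by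
    rintro _ ⟨u, rfl⟩
    exact (Equiv.sum_comp u.mulRight g).le.trans klo_harm
  have hp : ∀ n : ℕ, ∀ h : ZMod c, kloE (-(h * (n : ZMod c))) = kloE (-h) ^ n := fun n h => by
    rw [kloE, kloE, ← AddChar.map_nsmul_eq_pow, nsmul_eq_mul]
    congr 1
    ring
  have h1 : ∀ h : ZMod c, kloW h * ‖kloF (kloA (3 * c) q a₀) h‖ ≤
      (if h = 0 then 3 * (c : ℝ) else 0) + c * (g (h * -q) + g (h * q)) := fun h => by
    unfold kloW
    split_ifs with h0
    · have : ‖kloF (kloA (3 * c) q a₀) h‖ ≤ 3 * c := by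
        refine (norm_sum_le _ _).trans ?_
        simp only [AddChar.norm_apply, sum_const, nsmul_eq_mul, mul_one]
        exact_mod_cast (card_filter_le _ _).trans (card_range _).le
      simpa [g, h0] using this
    · have h2 := klo_geom (AddChar.norm_apply (ZMod.stdAddChar (N := c)) (-h)) (3 * c) q a₀
      rw [← hp, ← sum_congr rfl fun a _ => hp a h] at h2
      have h3 := klo_sin' (neg_ne_zero.2 (mt hu.mul_left_eq_zero.1 h0)) (norm_nonneg _) h2
      simp only [g]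
      rw [kloG_unit h hu, kloG_unit h hu.neg, mul_neg, zero_add, ← mul_add, mul_left_comm]
      rw [neg_neg] at h3
      exact mul_le_mul_of_nonneg_left h3 (Nat.cast_nonneg _)
  refine (sum_le_sum fun h _ => h1 h).trans ?_
  rw [sum_add_distrib, ← mul_sum, sum_add_distrib, sum_ite_eq' univ (0 : ZMod c), if_pos (mem_univ _)]
  nlinarith [hs _ hu, hs _ hu.neg, Nat.cast_nonneg (α := ℝ) c]

theorem klo_ind (a d : ZMod c) :
    ∑ p : ZMod c × ZMod c, kloS p * (kloE (-(p.1 * a)) * kloE (-(p.2 * d))) =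
      if a * d = 1 then (c : ℂ) ^ 2 else 0 := by
  have h : ∀ p : ZMod c × ZMod c, kloS p * (kloE (-(p.1 * a)) * kloE (-(p.2 * d))) =
      ∑ x : (ZMod c)ˣ, kloE (p.1 * ((x : ZMod c) - a) + p.2 * (((x⁻¹ : (ZMod c)ˣ) : ZMod c) - d)) :=
    fun p => by
      rw [kloS, sum_mul]
      refine sum_congr rfl fun x _ => ?_
      simp only [kloE, ← AddChar.map_add_eq_mul]
      congr 1
      ring
  rw [sum_congr rfl fun p _ => h p, sum_comm]
  simp only [klo_orth, sub_eq_zero]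
  split_ifs with h1
  · rw [sum_eq_single (⟨a, d, h1, (mul_comm _ _).trans h1⟩ : (ZMod c)ˣ)]
    · simp
    · exact fun x _ hx => if_neg fun h2 => hx (Units.ext h2.1)
    · simp
  · refine sum_eq_zero fun x _ => if_neg fun h2 => h1 ?_
    rw [← h2.1, ← h2.2, Units.mul_inv]

theorem klo_ident (A D : Finset ℕ) :
    ∑ p : ZMod c × ZMod c, kloS p * (kloF A p.1 * kloF D p.2) =
      (c : ℂ) ^ 2 * #{x ∈ A ×ˢ D | x.1 * x.2 ≡ 1 [MOD c]} := by
  have h : ∀ p : ZMod c × ZMod c, kloS p * (kloF A p.1 * kloF D p.2) = ∑ x ∈ A ×ˢ D,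
      kloS p * (kloE (-(p.1 * (x.1 : ZMod c))) * kloE (-(p.2 * (x.2 : ZMod c)))) := fun p => by
    rw [kloF, kloF, sum_mul_sum, ← sum_product', mul_sum]
  rw [sum_congr rfl fun p _ => h p, sum_comm]
  simp only [klo_ind]
  rw [← sum_filter, sum_const, nsmul_eq_mul, mul_comm]
  congr 3
  ext x
  simp [← ZMod.natCast_eq_natCast_iff]

theorem klo_err {w : ℝ} (hw : 0 < w) (hc : (c : ℝ) = w ^ 12) {q : ℕ} (hq : c.Coprime q)
    (a₀ d₀ : ℕ) :
    |(#{x ∈ kloA (3 * c) q a₀ ×ˢ kloA (3 * c) q d₀ | x.1 * x.2 ≡ 1 [MOD c]} : ℝ) -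
      c.totient * (#(kloA (3 * c) q a₀) * #(kloA (3 * c) q d₀)) / (c : ℝ) ^ 2| ≤
      2 * #c.divisors * w ^ 11 * (3 + 2 * (#c.divisors * (1 + Real.log c))) ^ 2 := by
  classical
  set A := kloA (3 * c) q a₀
  set D := kloA (3 * c) q d₀
  set K : ℝ := 2 * #c.divisors * w ^ 11
  have hK : 0 ≤ K := by positivity
  have hc0 : (0 : ℝ) < (c : ℝ) ^ 2 := pow_pos (by exact_mod_cast NeZero.pos c) 2
  have h1 := klo_ident (c := c) A D
  rw [← add_sum_erase _ _ (mem_univ 0)] at h1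
  have h2 : kloS (0 : ZMod c × ZMod c) * (kloF A (0 : ZMod c × ZMod c).1 *
      kloF D (0 : ZMod c × ZMod c).2) = c.totient * (#A * #D) := by
    simp [kloS, kloF, ZMod.card_units_eq_totient]
  have h3 : ∀ p : ZMod c × ZMod c, p ≠ 0 → ‖kloS p‖ ≤ K * (kloW p.1 * kloW p.2) := by
    intro p hp
    by_cases h : p.1 = 0
    · have h' : p.2 ≠ 0 := fun e => hp (Prod.ext h e)
      rw [← kloS_swap, kloW, kloW, if_pos h, if_neg h', one_mul]
      exact klo_le hw hc _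
    · refine (klo_le hw hc p).trans (mul_le_mul_of_nonneg_left ?_ hK)
      rw [kloW, if_neg h]
      exact le_mul_of_one_le_right (Nat.cast_nonneg _) (kloW_ge _)
  have hW : ∀ h : ZMod c, 0 ≤ kloW h := fun h => zero_le_one.trans (kloW_ge h)
  have h4 : ‖∑ p ∈ univ.erase (0 : ZMod c × ZMod c), kloS p * (kloF A p.1 * kloF D p.2)‖ ≤
      K * ((∑ h : ZMod c, kloW h * ‖kloF A h‖) * ∑ h : ZMod c, kloW h * ‖kloF D h‖) := by
    rw [sum_mul_sum, ← sum_product', mul_sum, univ_product_univ]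
    refine (norm_sum_le _ _).trans ((sum_le_sum fun p hp => ?_).trans
      (sum_le_sum_of_subset_of_nonneg (subset_univ _) fun p _ _ => ?_))
    · rw [norm_mul, norm_mul]
      refine (mul_le_mul_of_nonneg_right (h3 p (ne_of_mem_erase hp)) (by positivity)).trans_eq ?_
      ring
    · have := hW p.1
      have := hW p.2
      positivity
  have h5 := mul_le_mul (klo_wsum hq a₀) (klo_wsum hq d₀)
    (sum_nonneg fun h _ => mul_nonneg (hW h) (norm_nonneg _))
    ((sum_nonneg fun h _ => mul_nonneg (hW h) (norm_nonneg _)).trans (klo_wsum hq a₀))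
  rw [h2, add_comm, ← eq_sub_iff_add_eq] at h1
  rw [h1] at h4
  have h6 := h4.trans (mul_le_mul_of_nonneg_left h5 hK)
  rw [← Real.norm_eq_abs, ← Complex.norm_real]
  refine le_of_mul_le_mul_left ?_ hc0
  rw [← Real.norm_of_nonneg hc0.le, ← Complex.norm_real, ← norm_mul, Complex.norm_real,
    Real.norm_of_nonneg hc0.le]
  refine (le_of_eq ?_).trans (h6.trans (le_of_eq (by ring)))
  have : (c : ℂ) ≠ 0 := by exact_mod_cast NeZero.ne c
  congr 1
  push_cast
  field_simp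

theorem klo : KloStmt := by
  obtain ⟨C, hC⟩ := Pool.Agent.Lib.MP_30b5ba_nt.card_divisors_pow_le 120
  refine ⟨7 + 2 * (C + 1) * (3 + 242 * (C + 1)) ^ 2, fun c q a₀ d₀ hc hq hcq => ?_⟩
  have : NeZero c := ⟨hc.ne'⟩
  have hc1 : (1 : ℝ) ≤ c := by exact_mod_cast hc
  have hq1 : (1 : ℝ) ≤ q := by exact_mod_cast hq
  set u : ℝ := (c : ℝ) ^ (1 / 120 : ℝ) with hu
  have hu1 : 1 ≤ u := Real.one_le_rpow hc1 (by norm_num)
  have hp : ∀ n : ℕ, u ^ n = (c : ℝ) ^ ((n : ℝ) / 120) := fun n => by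
    rw [hu, ← Real.rpow_natCast, ← Real.rpow_mul (by positivity)]
    congr 1
    ring
  have e1 : (c : ℝ) = u ^ 120 := by rw [hp]; norm_num
  have e2 : (c : ℝ) ^ (23 / 24 : ℝ) = u ^ 115 := by rw [hp]; norm_num
  have h1 := klo_err (c := c) (w := u ^ 10) (by positivity) (by rw [e1]; ring) hcq a₀ d₀
  have h2 : ({x ∈ range (3 * c) ×ˢ range (3 * c) |
      x.1 ≡ a₀ [MOD q] ∧ x.2 ≡ d₀ [MOD q] ∧ x.1 * x.2 ≡ 1 [MOD c]} : Finset (ℕ × ℕ)) =
      {x ∈ kloA (3 * c) q a₀ ×ˢ kloA (3 * c) q d₀ | x.1 * x.2 ≡ 1 [MOD c]} := by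
    ext x
    simp only [kloA, mem_filter, mem_product]
    tauto
  have h3 : (#c.divisors : ℝ) ≤ (C + 1) * u := by
    refine le_of_pow_le_pow_left₀ (n := 120) (by norm_num) (by positivity) ?_
    have h4 : (#c.divisors : ℝ) ^ 120 ≤ C * c := by exact_mod_cast hC c hc.ne'
    have h5 : (C : ℝ) + 1 ≤ ((C : ℝ) + 1) ^ 120 :=
      le_self_pow₀ (by linarith [Nat.cast_nonneg (α := ℝ) C]) (by norm_num)
    rw [mul_pow, ← e1]
    exact h4.trans (mul_le_mul_of_nonneg_right (by linarith) (by positivity))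
  have h4 : 1 + Real.log c ≤ 121 * u := by
    have := Real.log_le_rpow_div (x := c) (ε := 1 / 120) (by positivity) (by norm_num)
    rw [← hu] at this
    linarith
  have h5 : 0 ≤ 1 + Real.log c := by linarith [Real.log_nonneg hc1]
  have h6 : 3 + 2 * (#c.divisors * (1 + Real.log c)) ≤ (3 + 242 * (C + 1)) * u ^ 2 := by
    have h7 : (#c.divisors : ℝ) * (1 + Real.log c) ≤ (C + 1) * u * (121 * u) := by gcongr
    nlinarith [one_le_pow₀ (n := 2) hu1]
  have h7 : 2 * #c.divisors * (u ^ 10) ^ 11 * (3 + 2 * (#c.divisors * (1 + Real.log c))) ^ 2 ≤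
      2 * ((C + 1) * u) * (u ^ 10) ^ 11 * ((3 + 242 * (C + 1)) * u ^ 2) ^ 2 :=
    mul_le_mul (by gcongr) (pow_le_pow_left₀
      (by linarith [mul_nonneg (Nat.cast_nonneg #c.divisors) h5]) h6 2) (sq_nonneg _) (by positivity)
  have h8 : |c.totient * (#(kloA (3 * c) q a₀) * #(kloA (3 * c) q d₀)) / (c : ℝ) ^ 2 -
      9 * (Nat.totient c : ℝ) / (q : ℝ) ^ 2| ≤ 7 := by
    have k1 := kloA_card hq (3 * c) a₀
    have k2 := kloA_card hq (3 * c) d₀
    push_cast at k1 k2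
    generalize (#(kloA (3 * c) q a₀) : ℝ) = m at *
    generalize (#(kloA (3 * c) q d₀) : ℝ) = n at *
    have k3 : (c.totient : ℝ) ≤ c := by exact_mod_cast Nat.totient_le c
    have k4 : |3 * (c : ℝ) / q| ≤ 3 * c := by
      rw [abs_of_nonneg (by positivity)]
      exact div_le_self (by positivity) hq1
    have k5 : c.totient * (m * n) / (c : ℝ) ^ 2 - 9 * (Nat.totient c : ℝ) / (q : ℝ) ^ 2 =
        c.totient / (c : ℝ) ^ 2 * ((m - 3 * c / q) * (n - 3 * c / q) +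
          (3 * c / q * (m - 3 * c / q) + 3 * c / q * (n - 3 * c / q))) := by
      field_simp
      ring
    rw [k5, abs_mul, abs_of_nonneg (by positivity)]
    calc _ ≤ c / (c : ℝ) ^ 2 * (1 * 1 + (3 * c * 1 + 3 * c * 1)) := by
          gcongr
          refine (abs_add_le _ _).trans (add_le_add ?_ ((abs_add_le _ _).trans (add_le_add ?_ ?_)))
          all_goals rw [abs_mul]; gcongr
      _ ≤ 7 := by
          rw [div_mul_eq_mul_div, div_le_iff₀ (by positivity)]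
          nlinarith
  rw [h2, e2]
  have h9 := one_le_pow₀ (n := 115) hu1
  refine (abs_sub_le _ _ _).trans ((add_le_add (h1.trans h7) h8).trans ?_)
  have : 2 * ((C + 1) * u) * (u ^ 10) ^ 11 * ((3 + 242 * (C + 1)) * u ^ 2) ^ 2 =
      2 * (C + 1) * (3 + 242 * (C + 1)) ^ 2 * u ^ 115 := by ring
  rw [this, add_mul]
  linarith

end Pool.Agent.Lib.MP_0820eb_co.Dens
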