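import Pool.Agent.Lib.MP_0820eb_co.Dens.Defs

/-!
Local densities of the sieved residue classes.
-/

open Finset

namespace Pool.Agent.Lib.MP_0820eb_co.Dens

section
variable {K : Type} [Field K] [Fintype K] [DecidableEq K]

lemma local_card_sq (hK : ringChar K ≠ 2) (x : K) :
    ((#{t : K | t ^ 2 = x} : ℕ) : ℤ) = quadraticChar K x + 1 := by
  rw [← quadraticChar_card_sqrts hK x, Set.toFinset_ofPred]

lemma local_chi_le (x : K) : quadraticChar K x ≤ 1 ∧ -1 ≤ quadraticChar K x := by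
  rcases quadraticChar_isQuadratic K x with h | h | h <;> rw [h] <;> omega

lemma local_card_sq_le (hK : ringChar K ≠ 2) (x : K) : #{t : K | t ^ 2 = x} ≤ 2 := by
  have h1 := local_card_sq hK x
  have h2 := (local_chi_le x).1
  omega

lemma local_sq_sum (hK : ringChar K ≠ 2) (f : K → ℤ) :
    ∑ t : K, f (t ^ 2) = ∑ x : K, (quadraticChar K x + 1) * f x := by
  rw [← Finset.sum_fiberwise (s := univ) (g := fun t : K => t ^ 2) (f := fun t => f (t ^ 2))]
  refine sum_congr rfl fun x _ => ?_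
  rw [← local_card_sq hK x, sum_congr rfl (g := fun _ => f x)
    (fun t ht => by rw [(mem_filter.1 ht).2]), sum_const, nsmul_eq_mul]

lemma local_lin_sum (hK : ringChar K ≠ 2) {α : K} (hα : α ≠ 0) (β : K) :
    ∑ x : K, quadraticChar K (α * x + β) = 0 := by
  rw [← quadraticChar_sum_zero hK]
  exact Equiv.sum_comp ((Equiv.mulLeft₀ α hα).trans (Equiv.addRight β)) (quadraticChar K)

lemma local_quad_sum (hK : ringChar K ≠ 2) {α β : K} (hα : α ≠ 0) (hβ : β ≠ 0) :
    ∑ t : K, quadraticChar K (α * t ^ 2 + β) = -quadraticChar K α := by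
  rw [local_sq_sum hK fun x => quadraticChar K (α * x + β)]
  simp only [add_mul, one_mul, sum_add_distrib, local_lin_sum hK hα β, add_zero]
  have h1 : ∀ x : K, quadraticChar K x * quadraticChar K (α * x + β) =
      quadraticChar K (β * x⁻¹ + α) - if x = 0 then quadraticChar K α else 0 := by
    intro x
    by_cases hx : x = 0
    · simp [hx]
    · rw [if_neg hx, sub_zero, ← map_mul]
      have e : x * (α * x + β) = x ^ 2 * (β * x⁻¹ + α) := by field_simp; ring
      rw [e, map_mul, quadraticChar_sq_one' hx, one_mul]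
  have h2 : ∑ x : K, quadraticChar K (β * x⁻¹ + α) = 0 := by
    rw [← local_lin_sum hK hβ α]
    exact Equiv.sum_comp (Equiv.inv K) fun x => quadraticChar K (β * x + α)
  simp only [h1, sum_sub_distrib, h2, sum_ite_eq', mem_univ, if_true, zero_sub]

/-- representations of a non-zero value by a non-degenerate form -/
lemma local_rep (hK : ringChar K ≠ 2) {D u y v U : K} (hD : D ≠ 0) (hu : u ≠ 0) (hU : U ≠ 0)
    (h : y ^ 2 - u * v = D) :
    (Fintype.card K : ℤ) - 3 ≤ (#{x : K × K | x.2 ≠ 0 ∧ QF u y v x.1 x.2 = U} : ℕ) := by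
  have h1 : ((univ.erase (0 : K)).sigma fun c => ({t : K | t ^ 2 = D * c ^ 2 + u * U} : Finset K)).card
      ≤ #{x : K × K | x.2 ≠ 0 ∧ QF u y v x.1 x.2 = U} := by
    refine card_le_card_of_injOn (fun z => ((z.2 - y * z.1) / u, z.1)) ?_ ?_
    · rintro ⟨c, t⟩ hz
      simp only [coe_sigma, Set.mem_sigma_iff, mem_coe, mem_erase, mem_univ, and_true, mem_filter,
        true_and] at hz
      simp only [coe_filter, mem_univ, true_and, Set.mem_ofPred_eq]
      refine ⟨hz.1, ?_⟩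
      unfold QF
      field_simp
      linear_combination hz.2 - c ^ 2 * h
    · rintro ⟨c, t⟩ _ ⟨c', t'⟩ _ e
      simp only [Prod.mk.injEq] at e
      obtain ⟨e1, rfl⟩ := e
      rw [div_left_inj' hu, sub_left_inj] at e1
      rw [e1]
  rw [card_sigma] at h1
  have h2 : ((∑ c ∈ univ.erase (0 : K), #{t : K | t ^ 2 = D * c ^ 2 + u * U} : ℕ) : ℤ) =
      ∑ c ∈ univ.erase (0 : K), (quadraticChar K (D * c ^ 2 + u * U) + 1) := by
    rw [Nat.cast_sum]
    exact sum_congr rfl fun c _ => local_card_sq hK _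
  rw [sum_erase_eq_sub (mem_univ _), sum_add_distrib, local_quad_sum hK hD (mul_ne_zero hu hU),
    sum_const, card_univ, nsmul_eq_mul, mul_one] at h2
  have h3 := (local_chi_le D).1
  have h4 := (local_chi_le (D * 0 ^ 2 + u * U)).1
  omega

/-- each bad form contributes at least `q - 3` bad triples -/
lemma local_inj (hK : ringChar K ≠ 2) {D e u y v : K} (hD : D ≠ 0) (hu : u ≠ 0)
    (h : y ^ 2 - u * v = D) (S : Finset (K × K × K))
    (hS : ∀ s ∈ S, s.1 ≠ 0 ∧ s.2.1 ^ 2 - s.1 * s.2.2 = D ∧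
      ((s.1 + s.2.2) ^ 2 + 4 * D = 0 ∨
        (s.1 + s.2.2 = D - 1 ∧ s.2.1 ≠ 0 ∧ ¬ IsSquare (e * (D - s.1))))) :
    (#S : ℤ) * ((Fintype.card K : ℤ) - 3) ≤
      (Set.ncard {x : K × K × K | BadP D e u y v x.1 x.2.1 x.2.2} : ℕ) := by
  have h1 : (S.sigma fun s => ({x : K × K | x.2 ≠ 0 ∧ QF u y v x.1 x.2 = s.1} : Finset _)).card ≤
      Set.ncard {x : K × K × K | BadP D e u y v x.1 x.2.1 x.2.2} := by
    rw [← Set.ncard_coe_finset]
    refine Set.ncard_le_ncard_of_injOn
      (fun z => (z.2.2, z.2.1, (z.2.2 * z.1.2.1 + u * z.2.1 + y * z.2.2) / z.1.1)) ?_ ?_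
    · rintro ⟨⟨U, y₁, V⟩, a, c⟩ hz
      simp only [coe_sigma, Set.mem_sigma_iff, mem_coe, mem_filter, mem_univ, true_and] at hz
      obtain ⟨hs, hc, hQ⟩ := hz
      obtain ⟨hU, hd, hb⟩ := hS _ hs
      simp only at hU hd hb
      set d := (c * y₁ + u * a + y * c) / U with hdd
      have e1 : d * U = c * y₁ + u * a + y * c := div_mul_cancel₀ _ hU
      set b := (a * d - 1) / c with hbb
      have e2 : b * c = a * d - 1 := div_mul_cancel₀ _ hc
      have e3 : BF u y v a c b d = y₁ := by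
        refine mul_left_cancel₀ hc ?_
        unfold BF
        unfold QF at hQ
        linear_combination (u * a + y * c) * e2 + d * hQ + e1
      have e4 : QF u y v b d = V := by
        refine mul_left_cancel₀ hU ?_
        have e5 : BF u y v a c b d ^ 2 - QF u y v a c * QF u y v b d =
            (y ^ 2 - u * v) * (a * d - b * c) ^ 2 := by
          unfold BF QF
          ring
        rw [e3, hQ, h, e2] at e5
        linear_combination hd - e5
      refine ⟨hc, b, by linear_combination -e2, ?_⟩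
      change (QF u y v a c + QF u y v b d) ^ 2 + 4 * D = 0 ∨
        (QF u y v a c + QF u y v b d = D - 1 ∧ BF u y v a c b d ≠ 0 ∧
          ¬ IsSquare (e * (D - QF u y v a c)))
      rw [e3, e4, hQ]
      exact hb
    · rintro ⟨⟨U, y₁, V⟩, a, c⟩ hz ⟨⟨U', y₁', V'⟩, a', c'⟩ hz' he
      simp only [coe_sigma, Set.mem_sigma_iff, mem_coe, mem_filter, mem_univ, true_and] at hz hz'
      simp only [Prod.mk.injEq] at he
      obtain ⟨rfl, rfl, he⟩ := he
      obtain ⟨hs, hc, hQ⟩ := hz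
      obtain ⟨hs', -, hQ'⟩ := hz'
      obtain rfl : U = U' := hQ.symm.trans hQ'
      obtain ⟨hU, hd, -⟩ := hS _ hs
      obtain ⟨-, hd', -⟩ := hS _ hs'
      simp only at hU hd hd'
      rw [div_left_inj' hU, add_left_inj, add_left_inj, mul_right_inj' hc] at he
      subst he
      obtain rfl : V = V' := mul_left_cancel₀ hU (by linear_combination hd' - hd)
      rfl
  rw [card_sigma] at h1
  calc (#S : ℤ) * ((Fintype.card K : ℤ) - 3) = ∑ _s ∈ S, ((Fintype.card K : ℤ) - 3) := by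
        rw [sum_const, nsmul_eq_mul]
    _ ≤ ∑ s ∈ S, ((#{x : K × K | x.2 ≠ 0 ∧ QF u y v x.1 x.2 = s.1} : ℕ) : ℤ) :=
        sum_le_sum fun s hs => local_rep hK hD hu (hS s hs).1 h
    _ ≤ _ := by exact_mod_cast h1

/-- bad forms of the second type -/
lemma local_two (hK : ringChar K ≠ 2) {D e mu : K} (hmu : mu ≠ 0) (h2 : (2 : K) ≠ 0)
    (hDm : D = 4 * mu ^ 2 - 1) (he : e ^ 2 = 1) :
    ∃ S : Finset (K × K × K), (Fintype.card K : ℤ) - 9 ≤ 2 * #S ∧
      ∀ s ∈ S, s.1 ≠ 0 ∧ s.2.1 ^ 2 - s.1 * s.2.2 = D ∧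
        s.1 + s.2.2 = D - 1 ∧ s.2.1 ≠ 0 ∧ ¬ IsSquare (e * (D - s.1)) := by
  have he0 : e ≠ 0 := by
    rintro rfl
    simp at he
  have h4 : 4 * mu ^ 2 ≠ 0 := by
    have : (4 : K) * mu ^ 2 = (2 * mu) ^ 2 := by ring
    rw [this]
    exact pow_ne_zero _ (mul_ne_zero h2 hmu)
  set A : Finset K := {t : K | quadraticChar K (e * t ^ 2 + e) = -1} with hA
  have hA1 : (Fintype.card K : ℤ) - 3 ≤ 2 * #A := by
    have h1 : ∑ t : K, (1 - quadraticChar K (e * t ^ 2 + e)) ≤
        ∑ t : K, (2 * (if quadraticChar K (e * t ^ 2 + e) = -1 then 1 else 0) +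
          if t ^ 2 = -1 then 1 else 0) := by
      refine sum_le_sum fun t _ => ?_
      by_cases h0 : t ^ 2 = -1
      · simp [h0]
      · have h5 : e * t ^ 2 + e ≠ 0 := by
          rw [← mul_add_one]
          exact mul_ne_zero he0 fun h6 => h0 (eq_neg_of_add_eq_zero_left h6)
        rcases quadraticChar_dichotomy h5 with h6 | h6 <;> simp [h0, h6]
    rw [sum_sub_distrib, local_quad_sum hK he0 he0, sum_add_distrib, ← mul_sum, sum_boole,
      sum_boole, sum_const, card_univ, nsmul_eq_mul, mul_one] at h1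
    have h5 := local_card_sq_le hK (-1 : K)
    have h6 := (local_chi_le e).2
    rw [← hA] at h1
    omega
  set T : Finset K := (A \ ({t : K | t ^ 2 = D⁻¹} : Finset K)).erase 0 with hT
  have hT1 : #A ≤ #T + 3 := by
    have h5 := local_card_sq_le hK D⁻¹
    have h6 := le_card_sdiff ({t : K | t ^ 2 = D⁻¹} : Finset K) A
    have h7 := pred_card_le_card_erase (s := A \ ({t : K | t ^ 2 = D⁻¹} : Finset K)) (a := 0)
    rw [← hT] at h7
    omega
  have hT2 : ∀ t ∈ T, t ≠ 0 ∧ t ^ 2 ≠ D⁻¹ ∧ ¬ IsSquare (e * t ^ 2 + e) ∧ 1 + t ^ 2 ≠ 0 := by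
    intro t ht
    simp only [hT, hA, mem_erase, mem_sdiff, mem_filter, mem_univ, true_and] at ht
    have h5 := quadraticChar_neg_one_iff_not_isSquare.1 ht.2.1
    refine ⟨ht.1, ht.2.2, h5, fun h6 => h5 ⟨0, by linear_combination e * h6⟩⟩
  refine ⟨T.image fun t => (D - 4 * mu ^ 2 / (1 + t ^ 2), t * (4 * mu ^ 2 / (1 + t ^ 2)),
    4 * mu ^ 2 / (1 + t ^ 2) - 1), ?_, ?_⟩
  · rw [card_image_of_injOn]
    · omega
    · intro t ht t' _ e1
      simp only [Prod.mk.injEq, sub_left_inj] at e1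
      obtain ⟨-, e2, e3⟩ := e1
      rw [← e3] at e2
      exact mul_right_cancel₀ (div_ne_zero h4 (hT2 t ht).2.2.2) e2
  · intro s hs
    obtain ⟨t, ht, rfl⟩ := mem_image.1 hs
    obtain ⟨h5, h6, h7, h8⟩ := hT2 t ht
    have h9 := div_ne_zero h4 h8
    set w := 4 * mu ^ 2 / (1 + t ^ 2) with hw
    have e1 : w * (1 + t ^ 2) = 4 * mu ^ 2 := div_mul_cancel₀ _ h8
    refine ⟨fun h0 => h6 ?_, ?_, by ring, mul_ne_zero h5 h9, ?_⟩
    · refine eq_inv_of_mul_eq_one_right ?_
      simp only at h0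
      linear_combination (1 + t ^ 2) * h0 + e1 - hDm
    · simp only
      linear_combination w * e1 - w * hDm
    · rintro ⟨r, hr⟩
      simp only [sub_sub_cancel] at hr
      have hr0 : r ≠ 0 := by
        rintro rfl
        exact mul_ne_zero he0 h9 (by rw [hr, mul_zero])
      refine h7 ⟨2 * mu / r, ?_⟩
      field_simp
      linear_combination (-(e * (t ^ 2 + 1))) * hr + e ^ 2 * e1 + 4 * mu ^ 2 * he

/-- bad forms of the first type -/
lemma local_one {D : K} (hD : D ≠ 0) (h2 : (2 : K) ≠ 0) (h1 : IsSquare (-D))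
    (hi : IsSquare (-1 : K)) :
    ∃ S : Finset (K × K × K), 4 * ((Fintype.card K : ℤ) - 2) ≤ #S ∧
      ∀ s ∈ S, s.1 ≠ 0 ∧ s.2.1 ^ 2 - s.1 * s.2.2 = D ∧ (s.1 + s.2.2) ^ 2 + 4 * D = 0 := by
  obtain ⟨r, hr⟩ := h1
  obtain ⟨i, hi⟩ := hi
  have hne : ∀ x : K, x ≠ 0 → x ≠ -x := fun x hx h0 =>
    mul_ne_zero h2 hx (by linear_combination h0)
  have hr0 : r ≠ 0 := by
    rintro rfl
    exact hD (by linear_combination -hr)
  have hi0 : i ≠ 0 := by
    rintro rfl
    simp at hi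
  refine ⟨((({r, -r} : Finset K) ×ˢ ({i, -i} : Finset K)).sigma
    fun z => (univ.erase (0 : K)).erase z.1).image
      fun z => (z.2, z.1.2 * (z.2 - z.1.1), 2 * z.1.1 - z.2), ?_, ?_⟩
  · rw [card_image_of_injOn, card_sigma]
    · have h3 : ∀ z ∈ ({r, -r} : Finset K) ×ˢ ({i, -i} : Finset K),
          Fintype.card K - 2 ≤ #((univ.erase (0 : K)).erase z.1) := by
        intro z _
        have h4 := pred_card_le_card_erase (s := univ.erase (0 : K)) (a := z.1)
        have h5 := pred_card_le_card_erase (s := (univ : Finset K)) (a := 0)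
        rw [card_univ] at h5
        omega
      have h4 := card_nsmul_le_sum _ _ _ h3
      rw [card_product, card_pair (hne r hr0), card_pair (hne i hi0), smul_eq_mul] at h4
      omega
    · rintro ⟨⟨τ, j⟩, U⟩ hz ⟨⟨τ', j'⟩, U'⟩ _ e1
      simp only [Prod.mk.injEq] at e1
      obtain ⟨rfl, e2, e3⟩ := e1
      obtain rfl : τ = τ' := mul_left_cancel₀ h2 (by linear_combination e3)
      simp only [coe_sigma, Set.mem_sigma_iff, mem_coe, mem_erase] at hz
      obtain rfl : j = j' := mul_right_cancel₀ (sub_ne_zero.2 hz.2.1) e2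
      rfl
  · intro s hs
    obtain ⟨⟨⟨τ, j⟩, U⟩, hz, rfl⟩ := mem_image.1 hs
    simp only [mem_sigma, mem_product, mem_insert, mem_singleton, mem_erase] at hz
    obtain ⟨⟨hτ, hj⟩, -, hU, -⟩ := hz
    have e1 : τ ^ 2 = -D := by rcases hτ with rfl | rfl <;> linear_combination -hr
    have e2 : j ^ 2 = -1 := by rcases hj with rfl | rfl <;> linear_combination -hi
    refine ⟨hU, ?_, ?_⟩
    · simp only
      linear_combination (U - τ) ^ 2 * e2 - e1
    · simp only
      linear_combination 4 * e1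

lemma local_field (hK : ringChar K ≠ 2) {D e mu u y v : K} (hD : D ≠ 0) (hmu : mu ≠ 0)
    (h2 : (2 : K) ≠ 0) (hu : u ≠ 0) (hDm : D = 4 * mu ^ 2 - 1) (he : e ^ 2 = 1)
    (h : y ^ 2 - u * v = D) (h3 : 3 ≤ Fintype.card K) :
    (2 * ((1 + quadraticChar K (-D)) * (1 + quadraticChar K (-1))) + 1) * (Fintype.card K : ℤ) ^ 2 -
      54 * Fintype.card K ≤
      2 * (Set.ncard {x : K × K × K | BadP D e u y v x.1 x.2.1 x.2.2} : ℕ) := by
  obtain ⟨S₂, hc₂, hS₂⟩ := local_two hK hmu h2 hDm he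
  have h3' : (0 : ℤ) ≤ (Fintype.card K : ℤ) - 3 := by omega
  by_cases hh : IsSquare (-D) ∧ IsSquare (-1 : K)
  · obtain ⟨S₁, hc₁, hS₁⟩ := local_one hD h2 hh.1 hh.2
    have hdis : Disjoint S₁ S₂ := by
      refine disjoint_left.2 fun s hs hs' => ?_
      have e1 := (hS₁ s hs).2.2
      rw [(hS₂ s hs').2.2.1] at e1
      exact pow_ne_zero 4 (mul_ne_zero h2 hmu)
        (by linear_combination e1 - (D + 4 * mu ^ 2 + 1) * hDm)
    have h4 := local_inj (e := e) hK hD hu h (S₁ ∪ S₂) fun s hs => by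
      rcases mem_union.1 hs with hs | hs
      · exact ⟨(hS₁ s hs).1, (hS₁ s hs).2.1, Or.inl (hS₁ s hs).2.2⟩
      · exact ⟨(hS₂ s hs).1, (hS₂ s hs).2.1, Or.inr (hS₂ s hs).2.2⟩
    rw [card_union_of_disjoint hdis, Nat.cast_add] at h4
    rw [(quadraticChar_one_iff_isSquare (neg_ne_zero.2 hD)).2 hh.1,
      (quadraticChar_one_iff_isSquare (neg_ne_zero.2 one_ne_zero)).2 hh.2]
    nlinarith [mul_le_mul_of_nonneg_right hc₁ h3', mul_le_mul_of_nonneg_right hc₂ h3']
  · have h4 := local_inj (e := e) hK hD hu h S₂ fun s hs =>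
      ⟨(hS₂ s hs).1, (hS₂ s hs).2.1, Or.inr (hS₂ s hs).2.2⟩
    have h5 : (1 + quadraticChar K (-D)) * (1 + quadraticChar K (-1)) = 0 := by
      rcases not_and_or.1 hh with h6 | h6 <;>
        rw [quadraticChar_neg_one_iff_not_isSquare.2 h6] <;> simp
    rw [h5]
    nlinarith [mul_le_mul_of_nonneg_right hc₂ h3']

end

theorem local_density : LocalStmt := by
  intro mu Δ e u y v p hp hΔ he h hnd
  have := Fact.mk hp
  have h0 : ((2 * mu * Δ * u : ℤ) : ZMod p) ≠ 0 := fun h1 =>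
    hnd ((ZMod.intCast_zmod_eq_zero_iff_dvd _ p).1 h1)
  push_cast at h0
  have h2 : (2 : ZMod p) ≠ 0 := left_ne_zero_of_mul (left_ne_zero_of_mul (left_ne_zero_of_mul h0))
  have hp2 : p ≠ 2 := by
    rintro rfl
    exact h2 rfl
  have h3 : 3 ≤ p := by
    have := hp.two_le
    omega
  have key := local_field (K := ZMod p) (D := Δ) (e := e) (mu := mu) (u := u) (y := y) (v := v)
    (by rwa [ZMod.ringChar_zmod_n]) (right_ne_zero_of_mul (left_ne_zero_of_mul h0))
    (right_ne_zero_of_mul (left_ne_zero_of_mul (left_ne_zero_of_mul h0))) h2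
    (right_ne_zero_of_mul h0) (by rw [hΔ]; push_cast; ring)
    (by rcases he with rfl | rfl <;> simp) (by rw [← h]; push_cast; ring) (by rwa [ZMod.card])
  rw [ZMod.card] at key
  have e1 : jacobiSym (-Δ) p = quadraticChar (ZMod p) (-(Δ : ZMod p)) := by
    rw [← jacobiSym.legendreSym.to_jacobiSym, legendreSym, Int.cast_neg]
  have e2 : jacobiSym (-1) p = quadraticChar (ZMod p) (-1) := by
    rw [← jacobiSym.legendreSym.to_jacobiSym, legendreSym, Int.cast_neg, Int.cast_one]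
  rw [← e1, ← e2] at key
  have key' : ((2 * ((1 + jacobiSym (-Δ) p) * (1 + jacobiSym (-1) p)) + 1) * (p : ℝ) ^ 2 -
      54 * p : ℝ) ≤ 2 * (Set.ncard {x : ZMod p × ZMod p × ZMod p |
        BadP (Δ : ZMod p) (e : ZMod p) (u : ZMod p) (y : ZMod p) (v : ZMod p) x.1 x.2.1 x.2.2} : ℝ) := by
    exact_mod_cast key
  linarith

end Pool.Agent.Lib.MP_0820eb_co.Dens
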