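import Mathlib
import Pool.Agent.Lib.MP_0820eb_co.Dens.Defs

/-!
Main term and error factor of the pure sieve.
-/

open Finset Filter

namespace Pool.Agent.Lib.MP_0820eb_co.Dens

theorem mainterm_loglog (A B c : ℝ) (hc : 0 < c) :
    ∀ᶠ a : ℕ in atTop, A * Real.log (c * Real.log a) + B ≤ Real.log a := by
  have ht : Tendsto (fun a : ℕ => Real.log a) atTop atTop :=
    Real.tendsto_log_atTop.comp tendsto_natCast_atTop_atTop
  have h1 := (Real.isLittleO_log_id_atTop.bound (c := 1 / (2 * (|A| + 1))) (by positivity))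
  filter_upwards [ht.eventually h1, ht.eventually_ge_atTop 1,
    ht.eventually_ge_atTop (2 * (A * Real.log c + B))] with a h2 h3 h4
  generalize Real.log a = t at h2 h3 h4
  rw [Real.log_mul hc.ne' (by linarith)]
  simp only [id, Real.norm_eq_abs, abs_of_nonneg (show 0 ≤ t by linarith),
    abs_of_nonneg (Real.log_nonneg h3)] at h2
  have h5 : A * Real.log t ≤ (|A| + 1) * (1 / (2 * (|A| + 1)) * t) :=
    mul_le_mul (by linarith [le_abs_self A]) h2 (Real.log_nonneg h3) (by positivity)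
  have h6 : (|A| + 1) * (1 / (2 * (|A| + 1)) * t) = t / 2 := by field_simp
  linarith

theorem mainterm_Z (s a : ℕ) :
    Real.log (Real.log (pZ s a)) = Real.log ((24 * s : ℕ) * Real.log a) := by
  rw [pZ, Nat.cast_pow, Real.log_pow]

theorem mainterm_z (s : ℕ) {a : ℕ} (ha : 1 ≤ a) :
    Real.log (Real.log (pz s a)) = 2 * s * Real.log a + Real.log (Real.log 2) := by
  have h0 : (0 : ℝ) < a := by exact_mod_cast ha
  rw [pz, Nat.cast_pow, Real.log_pow, Nat.cast_pow, Nat.cast_ofNat,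
    Real.log_mul (by positivity) (Real.log_pos one_lt_two).ne', Real.log_pow]
  push_cast
  ring

theorem mainterm_le_Z {s a : ℕ} (hs : 1 ≤ s) : a ≤ pZ s a := Nat.le_self_pow (by omega) a

theorem mainterm_two_le_z (s : ℕ) {a : ℕ} (ha : 1 ≤ a) : 2 ≤ pz s a :=
  Nat.le_self_pow (by positivity) 2

theorem mainterm_sub (s a : ℕ) : PP s a ⊆ (range (pz s a + 1)).filter Nat.Prime := fun p hp => by
  simp only [PP, mem_filter, mem_Icc, mem_range] at hp ⊢
  exact ⟨by omega, hp.2⟩

theorem mt (h : CS1Stmt) : MTStmt := by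
  obtain ⟨C₁, h₁⟩ := h
  intro s hs C hC
  filter_upwards [mainterm_loglog (C + 20) (3 * C + 5 * C₁ - 3 / 2 * Real.log (Real.log 2))
    (24 * s : ℕ) (by exact_mod_cast (by omega : 0 < 24 * s)), eventually_ge_atTop 2]
    with a h2 ha g c hc hg hP
  have h0 : (0 : ℝ) < a := by exact_mod_cast (by omega : 0 < a)
  have e1 : ∏ p ∈ PP s a, (1 - g p) ≤ Real.exp (-∑ p ∈ PP s a, g p) := by
    rw [← sum_neg_distrib, Real.exp_sum]
    exact prod_le_prod (fun p hp => by linarith [(hg p hp).2]) fun p _ => by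
      linarith [Real.add_one_le_exp (-g p)]
  have e2 : ∑ p ∈ PP s a, ((p : ℝ) ^ 2)⁻¹ ≤ 2 := by
    refine le_trans (sum_le_sum_of_subset_of_nonneg (t := Ioo 0 (pz s a + 1)) (fun p hp => ?_)
      fun _ _ _ => by positivity) ((sum_Ioo_inv_sq_le 0 _).trans (by norm_num))
    simp only [PP, mem_filter, mem_Icc, mem_Ioo] at hp ⊢
    exact ⟨hp.2.pos, by omega⟩
  have e3 : ∑ p ∈ PP s a, c p / p - C * 2 ≤ ∑ p ∈ PP s a, g p := by
    refine le_trans ?_ (sum_le_sum fun p hp => (hg p hp).1)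
    simp only [sum_sub_distrib, div_eq_mul_inv C, ← mul_sum]
    gcongr
  have e4 : PS c (pz s a) ≤ ∑ p ∈ PP s a, c p / p + 5 * PS (fun _ => 1) (pZ s a) := by
    unfold PS
    rw [← sum_sdiff (mainterm_sub s a), add_comm, mul_sum]
    refine add_le_add le_rfl (le_trans (sum_le_sum (g := fun p : ℕ => 5 * (1 / (p : ℝ)))
      fun p hp => ?_) (sum_le_sum_of_subset_of_nonneg (fun p hp => ?_) fun _ _ _ => by positivity))
    · rw [mul_one_div]
      gcongr
      exact hc p (mem_filter.1 (mem_sdiff.1 hp).1).2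
    · obtain ⟨h3, h4⟩ := Finset.mem_sdiff.1 hp
      simp only [PP, mem_filter, mem_Icc, mem_range] at h3 h4 ⊢
      refine ⟨?_, h3.2⟩
      by_contra hcon
      exact h4 ⟨⟨by omega, by omega⟩, h3.2⟩
  have e5 := (h₁ (pZ s a) (ha.trans (mainterm_le_Z hs))).2
  rw [mainterm_z s (by omega)] at hP
  rw [← mainterm_Z] at h2
  refine e1.trans ?_
  rw [← Real.exp_log (show 0 < (a : ℝ) / (a : ℝ) ^ (3 * s) by positivity), Real.exp_le_exp,
    Real.log_div h0.ne' (by positivity), Real.log_pow]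
  push_cast
  nlinarith

theorem et (h : CS1Stmt) : ETStmt := by
  obtain ⟨C₁, h₁⟩ := h
  intro s hs
  refine ⟨80 * s + 1, ?_⟩
  filter_upwards [tendsto_natCast_atTop_atTop.eventually_ge_atTop (Real.exp (10 * C₁)),
    eventually_ge_atTop 1] with a h2 ha g hg
  have h0 : (0 : ℝ) < a := by exact_mod_cast ha
  have e1 : ∏ p ∈ PP s a, (1 + 2 * g p) ≤ Real.exp (∑ p ∈ PP s a, 2 * g p) := by
    rw [Real.exp_sum]
    exact prod_le_prod (fun p hp => by linarith [(hg p hp).1]) fun p _ => by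
      linarith [Real.add_one_le_exp (2 * g p)]
  have e2 : ∑ p ∈ PP s a, 2 * g p ≤ 10 * PS (fun _ => 1) (pz s a) := by
    unfold PS
    rw [mul_sum]
    refine le_trans (sum_le_sum (g := fun p : ℕ => 10 * (1 / (p : ℝ))) fun p hp => ?_)
      (sum_le_sum_of_subset_of_nonneg (mainterm_sub s a) fun _ _ _ => by positivity)
    have := (hg p hp).2
    rw [div_eq_mul_one_div] at this
    linarith
  have e3 := (h₁ (pz s a) (mainterm_two_le_z s ha)).2
  rw [mainterm_z s ha] at e3
  have e4 : Real.log (Real.log 2) ≤ 0 :=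
    Real.log_nonpos (Real.log_pos one_lt_two).le (by linarith [Real.log_two_lt_d9])
  calc ∏ p ∈ PP s a, (1 + 2 * g p) ≤ Real.exp (((80 * s : ℕ) : ℝ) * Real.log a + 10 * C₁) := by
        refine e1.trans (Real.exp_le_exp.2 ?_)
        push_cast
        linarith
    _ = (a : ℝ) ^ (80 * s) * Real.exp (10 * C₁) := by
        rw [Real.exp_add, ← Real.log_pow, Real.exp_log (by positivity)]
    _ ≤ ((a : ℝ) + 1) ^ (80 * s) * (a + 1) := by gcongr <;> linarith
    _ = _ := by ring

end Pool.Agent.Lib.MP_0820eb_co.Dens
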