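import Pool.Agent.Lib.MP_0820eb_co.Dens.Defs
import Pool.Agent.Lib.MP_30b5ba_nt.Variance

/-!
Roots of `k ^ 2 - k + lam` modulo `d`, values with many prime factors and values with a
large divisor of the same shape.
-/

open Finset Filter

namespace Pool.Agent.Lib.MP_0820eb_co.Dens

theorem omega_fibre (lam : ℕ) (hl : 1 ≤ lam) (g h x₀ : ℕ) (hg : 0 < g) (hh : 0 < h)
    (h0 : g * h ∣ F lam x₀) :
    #((range (g * h)).filter fun x : ℕ =>
      (g : ℤ) ∣ (x : ℤ) - x₀ ∧ (h : ℤ) ∣ (x : ℤ) + x₀ - 1) ≤ 4 * lam := by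
  rcases ((range (g * h)).filter fun x : ℕ => (g : ℤ) ∣ (x : ℤ) - x₀ ∧
    (h : ℤ) ∣ (x : ℤ) + x₀ - 1).eq_empty_or_nonempty with he | ⟨x₁, hx₁⟩
  · rw [he]
    simp
  obtain ⟨-, h1, h2⟩ := mem_filter.1 hx₁
  have hL : 0 < Nat.lcm g h := Nat.lcm_pos hg hh
  have hgl : Nat.gcd g h * Nat.lcm g h = g * h := Nat.gcd_mul_lcm g h
  have he0 : 0 < Nat.gcd g h := Nat.gcd_pos_of_pos_left _ hg
  have he : Nat.gcd g h ≤ 4 * lam := by
    have a1 : ((Nat.gcd g h : ℕ) : ℤ) ∣ (x₁ : ℤ) - x₀ :=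
      (Int.natCast_dvd_natCast.2 (Nat.gcd_dvd_left g h)).trans h1
    have a2 : ((Nat.gcd g h : ℕ) : ℤ) ∣ (x₁ : ℤ) + x₀ - 1 :=
      (Int.natCast_dvd_natCast.2 (Nat.gcd_dvd_right g h)).trans h2
    have a3 : ((Nat.gcd g h : ℕ) : ℤ) ∣ 2 * (x₀ : ℤ) - 1 := by
      have := dvd_sub a2 a1
      rwa [show (x₁ : ℤ) + x₀ - 1 - (x₁ - x₀) = 2 * x₀ - 1 by ring] at this
    have a4 : ((Nat.gcd g h : ℕ) : ℤ) * (Nat.gcd g h : ℕ) ∣ (F lam x₀ : ℤ) := by
      exact_mod_cast (Nat.mul_dvd_mul (Nat.gcd_dvd_left g h) (Nat.gcd_dvd_right g h)).trans h0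
    have a5 : ((Nat.gcd g h : ℕ) : ℤ) * (Nat.gcd g h : ℕ) ∣ 4 * (lam : ℤ) - 1 := by
      have := dvd_sub (a4.mul_left 4) (mul_dvd_mul a3 a3)
      rwa [F_cast, show 4 * ((x₀ : ℤ) ^ 2 - x₀ + lam) - (2 * x₀ - 1) * (2 * x₀ - 1) =
        4 * lam - 1 by ring] at this
    have a6 := Int.le_of_dvd (by omega) a5
    have a7 : (1 : ℤ) ≤ (Nat.gcd g h : ℕ) := by exact_mod_cast he0
    have a8 : ((Nat.gcd g h : ℕ) : ℤ) ≤ 4 * lam := by nlinarith
    exact_mod_cast a8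
  refine le_trans (card_le_card_of_injOn (t := range (Nat.gcd g h))
    (fun x => x / Nat.lcm g h) ?_ ?_) (by rwa [card_range])
  · intro x hx
    simp only [coe_filter, mem_range, Set.mem_ofPred_eq] at hx
    simp only [coe_range, Set.mem_Iio]
    exact Nat.div_lt_of_lt_mul (by rw [mul_comm, hgl]; exact hx.1)
  · intro x hx y hy hxy
    simp only [coe_filter, mem_range, Set.mem_ofPred_eq] at hx hy
    have b1 : (g : ℤ) ∣ (y : ℤ) - x := by
      have := dvd_sub hy.2.1 hx.2.1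
      rwa [show (y : ℤ) - x₀ - (x - x₀) = y - x by ring] at this
    have b2 : (h : ℤ) ∣ (y : ℤ) - x := by
      have := dvd_sub hy.2.2 hx.2.2
      rwa [show (y : ℤ) + x₀ - 1 - (x + x₀ - 1) = y - x by ring] at this
    have b3 : x ≡ y [MOD Nat.lcm g h] := by
      rw [Nat.modEq_iff_dvd, Int.natCast_dvd]
      exact Nat.lcm_dvd (Int.natCast_dvd.1 b1) (Int.natCast_dvd.1 b2)
    have b4 : x / Nat.lcm g h = y / Nat.lcm g h := hxy
    rw [← Nat.div_add_mod x (Nat.lcm g h), ← Nat.div_add_mod y (Nat.lcm g h), b4, b3]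

/-- the number of roots modulo an arbitrary modulus -/
theorem roots_le (lam : ℕ) (hl : 1 ≤ lam) (d : ℕ) (hd : 0 < d) :
    #{x ∈ range d | d ∣ F lam x} ≤ 4 * lam * #d.divisors := by
  rcases ({x ∈ range d | d ∣ F lam x} : Finset ℕ).eq_empty_or_nonempty with he | ⟨x₀, hx₀⟩
  · rw [he]
    simp
  have h0 := (mem_filter.1 hx₀).2
  refine le_trans (card_le_card (t := d.divisors.biUnion fun g => (range d).filter fun x : ℕ =>
    (g : ℤ) ∣ (x : ℤ) - x₀ ∧ ((d / g : ℕ) : ℤ) ∣ (x : ℤ) + x₀ - 1) ?_) ?_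
  · intro x hx
    obtain ⟨hx1, hx2⟩ := mem_filter.1 hx
    have a1 : (d : ℤ) ∣ ((x : ℤ) - x₀) * ((x : ℤ) + x₀ - 1) := by
      have := dvd_sub (Int.natCast_dvd_natCast.2 hx2) (Int.natCast_dvd_natCast.2 h0)
      rwa [F_cast, F_cast, show (x : ℤ) ^ 2 - x + lam - ((x₀ : ℤ) ^ 2 - x₀ + lam) =
        ((x : ℤ) - x₀) * ((x : ℤ) + x₀ - 1) by ring] at this
    obtain ⟨d₁, d₂, e1, e2, e3⟩ := exists_dvd_and_dvd_of_dvd_mul a1
    have e4 : d = d₁.natAbs * d₂.natAbs := by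
      rw [← Int.natAbs_mul, ← e3, Int.natAbs_natCast]
    have e5 : 0 < d₁.natAbs := Nat.pos_of_ne_zero fun h => by
      rw [h, zero_mul] at e4
      omega
    refine mem_biUnion.2 ⟨d₁.natAbs, Nat.mem_divisors.2 ⟨⟨_, e4⟩, hd.ne'⟩,
      mem_filter.2 ⟨hx1, Int.natAbs_dvd.2 e1, ?_⟩⟩
    have e6 : d / d₁.natAbs = d₂.natAbs := by
      rw [e4, Nat.mul_div_cancel_left _ e5]
    rw [e6]
    exact Int.natAbs_dvd.2 e2
  · rw [mul_comm]
    refine card_biUnion_le_card_mul _ _ _ fun g hg => ?_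
    obtain ⟨h, rfl⟩ := Nat.dvd_of_mem_divisors hg
    have hg0 : 0 < g := Nat.pos_of_mul_pos_right hd
    have hh0 : 0 < h := Nat.pos_of_mul_pos_left hd
    rw [Nat.mul_div_cancel_left _ hg0]
    exact omega_fibre lam hl g h x₀ hg0 hh0 h0

theorem omega_cnt (lam : ℕ) (hl : 1 ≤ lam) (K d : ℕ) (hd : 0 < d) :
    cnt K (fun k => d ∣ F lam k) ≤ 4 * lam * #d.divisors * (((K : ℝ) + 1) / d + 1) := by
  rw [cnt_eq]
  have h1 := count_le hd (fun k => d ∣ F lam k) (periodic_F lam d) (K + 1)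
  have h2 : (#{x ∈ range d | d ∣ F lam x} : ℝ) ≤ 4 * lam * #d.divisors := by
    exact_mod_cast roots_le lam hl d hd
  push_cast at h1
  exact h1.trans (mul_le_mul_of_nonneg_right h2 (by positivity))

theorem omega_exists_dvd (a : ℕ) : ∀ n : ℕ, n ≠ 0 → a ≤ ArithmeticFunction.cardFactors n →
    ∃ d : ℕ, d ∣ n ∧ ArithmeticFunction.cardFactors d = a := by
  induction a with
  | zero => exact fun n _ _ => ⟨1, one_dvd _, by simp⟩
  | succ a ih =>
    intro n hn ha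
    obtain ⟨d, ⟨m, rfl⟩, hd⟩ := ih n hn (by omega)
    have hd0 : d ≠ 0 := left_ne_zero_of_mul hn
    have hm0 : m ≠ 0 := right_ne_zero_of_mul hn
    rw [ArithmeticFunction.cardFactors_mul hd0 hm0] at ha
    have hm1 : m ≠ 1 := by
      rintro rfl
      simp at ha
      omega
    obtain ⟨p, hp, hpm⟩ := Nat.exists_prime_and_dvd hm1
    refine ⟨d * p, Nat.mul_dvd_mul_left _ hpm, ?_⟩
    rw [ArithmeticFunction.cardFactors_mul hd0 hp.ne_zero,
      ArithmeticFunction.cardFactors_apply_prime hp, hd]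

theorem omega_split (a n K : ℕ) (hn : n ≠ 0) (hK : n ≤ K ^ 2)
    (ha : 2 * a ≤ ArithmeticFunction.cardFactors n) :
    ∃ d : ℕ, d ∣ n ∧ ArithmeticFunction.cardFactors d = a ∧ 1 ≤ d ∧ d ≤ K := by
  obtain ⟨d, ⟨m, rfl⟩, hd⟩ := omega_exists_dvd a n hn (by omega)
  have hd0 : d ≠ 0 := left_ne_zero_of_mul hn
  have hm0 : m ≠ 0 := right_ne_zero_of_mul hn
  rw [ArithmeticFunction.cardFactors_mul hd0 hm0] at ha
  obtain ⟨e, he, he'⟩ := omega_exists_dvd a m hm0 (by omega)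
  have h1 : e ≤ m := Nat.le_of_dvd (Nat.pos_of_ne_zero hm0) he
  have he0 : e ≠ 0 := ne_zero_of_dvd_ne_zero hm0 he
  rcases le_or_gt d K with h | h
  · exact ⟨d, dvd_mul_right _ _, hd, Nat.pos_of_ne_zero hd0, h⟩
  · refine ⟨e, he.mul_left _, he', Nat.pos_of_ne_zero he0, ?_⟩
    by_contra h2
    have h3 : K + 1 ≤ m := by omega
    have h4 : (K + 1) * (K + 1) ≤ d * m := Nat.mul_le_mul h h3
    nlinarith

/-- the completely multiplicative weight -/
noncomputable def omega_w : ℕ →* ℝ where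
  toFun n := (3 / 2 : ℝ) ^ ArithmeticFunction.cardFactors n / n
  map_one' := by simp
  map_mul' a b := by
    rcases eq_or_ne a 0 with rfl | ha
    · simp
    rcases eq_or_ne b 0 with rfl | hb
    · simp
    rw [ArithmeticFunction.cardFactors_mul ha hb, pow_add, Nat.cast_mul, div_mul_div_comm]

theorem omega_w_apply (n : ℕ) :
    omega_w n = (3 / 2 : ℝ) ^ ArithmeticFunction.cardFactors n / n := rfl

theorem omega_w_nonneg (n : ℕ) : 0 ≤ omega_w n := by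
  rw [omega_w_apply]
  positivity

theorem omega_w_prime {p : ℕ} (hp : p.Prime) : omega_w p = 3 / 2 * (p : ℝ)⁻¹ := by
  rw [omega_w_apply, ArithmeticFunction.cardFactors_apply_prime hp, pow_one, div_eq_mul_inv]

theorem omega_euler (K n : ℕ) (hn : 1 ≤ n) (hK : K ≤ 2 ^ n) :
    ∑ x ∈ Icc 1 K, omega_w x ≤ Real.exp 18 * n ^ 16 := by
  have hp2 : ∀ {p : ℕ}, p.Prime → 0 < (p : ℝ)⁻¹ ∧ (p : ℝ)⁻¹ ≤ 1 / 2 := by
    intro p hp
    have : (2 : ℝ) ≤ p := by exact_mod_cast hp.two_le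
    refine ⟨by positivity, ?_⟩
    rw [one_div]
    exact inv_anti₀ (by norm_num) this
  have hf : ∀ {p : ℕ}, p.Prime → ‖omega_w p‖ < 1 := by
    intro p hp
    rw [Real.norm_of_nonneg (omega_w_nonneg p), omega_w_prime hp]
    have := hp2 hp
    linarith
  have hs := (EulerProduct.summable_and_hasSum_factoredNumbers_prod_filter_prime_geometric hf
    (range (2 ^ n + 1))).2
  have hs2 : HasSum ((Nat.factoredNumbers (range (2 ^ n + 1))).indicator fun n : ℕ => omega_w n)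
      (∏ r ∈ (range (2 ^ n + 1)).filter Nat.Prime, (1 - omega_w r)⁻¹) :=
    hasSum_subtype_iff_indicator.1 hs
  have h3 := sum_le_hasSum (Icc 1 K) (fun n _ => Set.indicator_nonneg
    (fun m _ => omega_w_nonneg m) n) hs2
  refine le_trans (le_of_eq (sum_congr rfl fun x hx => ?_)) (h3.trans (le_trans ?_
    (Pool.Agent.Shared.BrunSieve.exp_sum_inv_primes_le n hn)))
  · rw [Set.indicator_of_mem]
    simp only [mem_Icc] at hx
    rw [Nat.mem_factoredNumbers']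
    intro p _ hp
    have := Nat.le_of_dvd (by omega) hp
    simp only [mem_range]
    omega
  · rw [mul_sum, Real.exp_sum]
    refine prod_le_prod (fun p hp => ?_) fun p hp => ?_
    · have := hp2 (mem_filter.1 hp).2
      rw [omega_w_prime (mem_filter.1 hp).2]
      exact inv_nonneg.2 (by linarith)
    · obtain ⟨h1, h2⟩ := hp2 (mem_filter.1 hp).2
      rw [omega_w_prime (mem_filter.1 hp).2]
      refine le_trans ?_ (Real.quadratic_le_exp_of_nonneg (by positivity))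
      rw [inv_le_iff_one_le_mul₀ (by linarith)]
      generalize (p : ℝ)⁻¹ = t at h1 h2
      nlinarith [mul_nonneg h1.le (sub_nonneg.2 h2), mul_nonneg (mul_nonneg h1.le h1.le)
        (sub_nonneg.2 h2)]

theorem omega_conv (K : ℕ) :
    ∑ d ∈ Icc 1 K, (#d.divisors : ℝ) * omega_w d ≤ (∑ x ∈ Icc 1 K, omega_w x) ^ 2 := by
  have h1 : ∀ d ∈ Icc 1 K, (#d.divisors : ℝ) * omega_w d =
      ∑ p ∈ d.divisorsAntidiagonal, omega_w p.1 * omega_w p.2 := by
    intro d _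
    rw [Nat.sum_divisorsAntidiagonal (fun x y => omega_w x * omega_w y), ← nsmul_eq_mul,
      ← sum_const]
    refine sum_congr rfl fun i hi => ?_
    rw [← map_mul, Nat.mul_div_cancel' (Nat.dvd_of_mem_divisors hi)]
  rw [sum_congr rfl h1, ← sum_biUnion, sq, sum_mul_sum, ← sum_product']
  · refine sum_le_sum_of_subset_of_nonneg (fun p hp => ?_)
      fun p _ _ => mul_nonneg (omega_w_nonneg _) (omega_w_nonneg _)
    obtain ⟨d, hd, hp⟩ := mem_biUnion.1 hp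
    obtain ⟨e1, e2⟩ := Nat.mem_divisorsAntidiagonal.1 hp
    have hd2 := (mem_Icc.1 hd).2
    have h0 : p.1 * p.2 ≠ 0 := by rwa [e1]
    have a1 : 1 ≤ p.1 := Nat.pos_of_ne_zero (left_ne_zero_of_mul h0)
    have a2 : 1 ≤ p.2 := Nat.pos_of_ne_zero (right_ne_zero_of_mul h0)
    refine mem_product.2 ⟨mem_Icc.2 ⟨a1, ?_⟩, mem_Icc.2 ⟨a2, ?_⟩⟩ <;> nlinarith
  · intro d _ d' _ hne
    refine disjoint_left.2 fun p h h' => hne ?_
    rw [← (Nat.mem_divisorsAntidiagonal.1 h).1, ← (Nat.mem_divisorsAntidiagonal.1 h').1]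

theorem sparse_S1 (lam s : ℕ) (hl : 1 ≤ lam) : Sparse s (S1 lam) := by
  refine Sparse.of_bound (12 * lam * Real.exp 18 ^ 2) ((2 * s + 3) * 32) 0 1 one_pos ?_
  filter_upwards [eventually_ge_atTop lam] with a ha K hK
  have hK0 : (1 : ℝ) ≤ K := by exact_mod_cast hK.pos
  have h1 : cnt K (S1 lam a K) ≤ ∑ d ∈ (Icc 1 K).filter
      (fun d => ArithmeticFunction.cardFactors d = a), cnt K (fun k => d ∣ F lam k) := by
    refine cnt_le_sum _ _ fun k hk hs => ?_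
    obtain ⟨d, e1, e2, e3, e4⟩ := omega_split a (F lam k) K (F_pos hl k).ne'
      (F_le hk (ha.trans hK.lt.le)) hs
    exact ⟨d, mem_filter.2 ⟨mem_Icc.2 ⟨e3, e4⟩, e2⟩, e1⟩
  have h2 : ∑ d ∈ (Icc 1 K).filter (fun d => ArithmeticFunction.cardFactors d = a),
      cnt K (fun k => d ∣ F lam k) ≤
      ∑ d ∈ Icc 1 K, 12 * lam * K * (2 / 3) ^ a * ((#d.divisors : ℝ) * omega_w d) := by
    refine le_trans (sum_le_sum fun d hd => ?_) (sum_le_sum_of_subset_of_nonneg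
      (filter_subset _ _) fun d _ _ => by have := omega_w_nonneg d; positivity)
    obtain ⟨hd1, hd2⟩ := mem_filter.1 hd
    obtain ⟨hd3, hd4⟩ := mem_Icc.1 hd1
    refine (omega_cnt lam hl K d hd3).trans ?_
    have hd5 : (0 : ℝ) < d := by exact_mod_cast hd3
    have hd6 : (d : ℝ) ≤ K := by exact_mod_cast hd4
    have e1 : ((K : ℝ) + 1) / d + 1 ≤ 3 * K / d := by
      rw [div_add_one hd5.ne']
      gcongr
      linarith
    have e2 : (2 / 3 : ℝ) ^ a * (3 / 2) ^ a = 1 := by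
      rw [← mul_pow]
      norm_num
    rw [omega_w_apply, hd2]
    calc _ ≤ 4 * lam * #d.divisors * (3 * (K : ℝ) / d) := by gcongr
      _ = 12 * lam * K * ((2 / 3 : ℝ) ^ a * (3 / 2) ^ a) * (#d.divisors / d) := by
        rw [e2]
        ring
      _ = _ := by ring
  have h3 := omega_euler K ((a + 1) ^ (2 * s + 3)) (Nat.one_le_pow _ _ (by omega)) hK.2.le
  have h4 : (∑ x ∈ Icc 1 K, omega_w x) ^ 2 ≤
      Real.exp 18 ^ 2 * ((a : ℝ) + 1) ^ ((2 * s + 3) * 32) := by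
    refine (pow_le_pow_left₀ (sum_nonneg fun x _ => omega_w_nonneg x) h3 2).trans (le_of_eq ?_)
    push_cast
    rw [mul_pow, ← pow_mul, ← pow_mul]
  rw [← mul_sum] at h2
  refine h1.trans (h2.trans ?_)
  calc _ ≤ 12 * lam * K * (2 / 3) ^ a *
        (Real.exp 18 ^ 2 * ((a : ℝ) + 1) ^ ((2 * s + 3) * 32)) := by
        gcongr
        exact (omega_conv K).trans h4
    _ = 12 * lam * Real.exp 18 ^ 2 *
        (0 + K * (((a : ℝ) + 1) ^ ((2 * s + 3) * 32) * (2 / 3) ^ a) + 0) := by ring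
    _ ≤ _ := by gcongr <;> positivity

theorem omega_F_ge (lam : ℕ) (hl : 1 ≤ lam) (k : ℕ) : (k + 1) ^ 2 ≤ 4 * F lam k := by
  have h := F_cast lam k
  have h1 : (1 : ℤ) ≤ lam := by exact_mod_cast hl
  have : ((k : ℤ) + 1) ^ 2 ≤ 4 * F lam k := by
    rw [h]
    nlinarith [sq_nonneg ((k : ℤ) - 1)]
  exact_mod_cast this

theorem sparse_S6 (lam s : ℕ) (hl : 1 ≤ lam) (_hs : 1 ≤ s) : Sparse s (S6 lam s) := by
  obtain ⟨C, hC⟩ := Pool.Agent.Lib.MP_30b5ba_nt.card_divisors_pow_le 4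
  have hsum : Summable fun k : ℕ => (((k + 1 : ℕ) : ℝ) ^ (5 / 4 : ℝ))⁻¹ :=
    (summable_nat_add_iff (f := fun k : ℕ => ((k : ℝ) ^ (5 / 4 : ℝ))⁻¹) 1).2
      (Real.summable_nat_rpow_inv.2 (by norm_num))
  set T := ∑' k : ℕ, (((k + 1 : ℕ) : ℝ) ^ (5 / 4 : ℝ))⁻¹ with hT
  have hT0 : 0 ≤ T := tsum_nonneg fun k => by positivity
  refine ⟨24 * lam * (4 * (C + 1)) * T, ?_⟩
  filter_upwards [eventually_ge_atTop 1] with a ha K hK
  have ha1 : (1 : ℝ) ≤ a := by exact_mod_cast ha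
  have hK0 : (1 : ℝ) ≤ K := by exact_mod_cast hK.pos
  have h1 : cnt K (S6 lam s a K) ≤ ∑ k' ∈ (range (16 * K)).filter
      (fun k' => pZ s a ≤ F lam k' ∧ F lam k' ≤ 4 * K),
        cnt K (fun k => F lam k' ∣ F lam k) := by
    refine cnt_le_sum _ _ fun k _ hs => ?_
    obtain ⟨k', e1, e2, e3⟩ := hs
    refine ⟨k', mem_filter.2 ⟨mem_range.2 ?_, e1, e2⟩, e3⟩
    have := omega_F_ge lam hl k'
    nlinarith
  have h2 : ∀ k' ∈ (range (16 * K)).filter (fun k' => pZ s a ≤ F lam k' ∧ F lam k' ≤ 4 * K),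
      cnt K (fun k => F lam k' ∣ F lam k) ≤
        24 * lam * (4 * (C + 1)) * K / (a : ℝ) ^ (3 * s) *
          (((k' + 1 : ℕ) : ℝ) ^ (5 / 4 : ℝ))⁻¹ := by
    intro k' hk'
    obtain ⟨-, e1, e2⟩ := mem_filter.1 hk'
    have e3 := omega_F_ge lam hl k'
    have e4 := F_pos hl k'
    generalize F lam k' = d at e1 e2 e3 e4
    refine (omega_cnt lam hl K d e4).trans ?_
    have hd0 : (0 : ℝ) < d := by exact_mod_cast e4
    have hd1 : (d : ℝ) ≤ 4 * K := by exact_mod_cast e2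
    have a1 : ((K : ℝ) + 1) / d + 1 ≤ 6 * K / d := by
      rw [div_add_one hd0.ne']
      gcongr
      linarith
    have a2 : (#d.divisors : ℝ) * (a : ℝ) ^ (3 * s) * ((k' + 1 : ℕ) : ℝ) ^ (5 / 4 : ℝ) ≤
        4 * (C + 1) * d := by
      refine le_of_pow_le_pow_left₀ (n := 8) (by norm_num) (by positivity) ?_
      have b1 : (((k' + 1 : ℕ) : ℝ) ^ (5 / 4 : ℝ)) ^ 8 = (((k' + 1 : ℕ) : ℝ) ^ 2) ^ 5 := by
        rw [← Real.rpow_natCast, ← Real.rpow_mul (by positivity), ← pow_mul, ← Real.rpow_natCast]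
        norm_num
      have b2 : ((k' + 1 : ℕ) : ℝ) ^ 2 ≤ 4 * d := by exact_mod_cast e3
      have b3 : (#d.divisors : ℝ) ^ 4 ≤ C * d := by exact_mod_cast hC d e4.ne'
      have b4 : ((a : ℝ) ^ (3 * s)) ^ 8 ≤ d := by
        rw [← pow_mul, show 3 * s * 8 = 24 * s by ring]
        exact_mod_cast e1
      have b5 : (C : ℝ) ^ 2 ≤ ((C : ℝ) + 1) ^ 8 :=
        (pow_le_pow_left₀ (by positivity) (by linarith) 2).trans
          (pow_le_pow_right₀ (by linarith [(Nat.cast_nonneg C : (0 : ℝ) ≤ C)]) (by norm_num))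
      calc _ = ((#d.divisors : ℝ) ^ 4) ^ 2 * ((a : ℝ) ^ (3 * s)) ^ 8 *
            (((k' + 1 : ℕ) : ℝ) ^ (5 / 4 : ℝ)) ^ 8 := by ring
        _ ≤ ((C : ℝ) * d) ^ 2 * d * (4 * d) ^ 5 := by
            rw [b1]
            gcongr
        _ = 4 ^ 5 * (C : ℝ) ^ 2 * d ^ 8 := by ring
        _ ≤ 4 ^ 8 * ((C : ℝ) + 1) ^ 8 * d ^ 8 := by
            gcongr <;> norm_num
        _ = _ := by ring
    have a3 : (0 : ℝ) < ((k' + 1 : ℕ) : ℝ) ^ (5 / 4 : ℝ) := by positivity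
    calc _ ≤ 4 * lam * #d.divisors * (6 * (K : ℝ) / d) := by gcongr
      _ = 24 * lam * K * ((#d.divisors : ℝ) * (a : ℝ) ^ (3 * s) *
            ((k' + 1 : ℕ) : ℝ) ^ (5 / 4 : ℝ)) / d / (a : ℝ) ^ (3 * s) *
            (((k' + 1 : ℕ) : ℝ) ^ (5 / 4 : ℝ))⁻¹ := by
          field_simp
          ring
      _ ≤ 24 * lam * K * (4 * (C + 1) * d) / d / (a : ℝ) ^ (3 * s) *
            (((k' + 1 : ℕ) : ℝ) ^ (5 / 4 : ℝ))⁻¹ := by gcongr
      _ = _ := by field_simp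
  refine h1.trans ((sum_le_sum h2).trans ?_)
  rw [← mul_sum]
  have h3 := hsum.sum_le_tsum ((range (16 * K)).filter
    (fun k' => pZ s a ≤ F lam k' ∧ F lam k' ≤ 4 * K)) (fun k _ => by positivity)
  calc _ ≤ 24 * lam * (4 * (C + 1)) * K / (a : ℝ) ^ (3 * s) * T := by gcongr
    _ = 24 * lam * (4 * (C + 1)) * T * K * 1 / (a : ℝ) ^ (3 * s) := by ring
    _ ≤ _ := by
        gcongr
        exact one_le_pow₀ ha1

end Pool.Agent.Lib.MP_0820eb_co.Dens
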