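import Pool.Agent.Lib.MP_0820eb_co.Dens.Defs

/-! Integers `k` such that `F lam k` has a large prime factor at which `k` has small order. -/

open Finset Filter

namespace Pool.Agent.Lib.MP_0820eb_co.Dens

theorem order_seq (lam i : ℕ) : ∃ u w : ℤ, (lam : ℤ) ∣ u - 1 ∧ |u| ≤ ((lam : ℤ) + 1) ^ i ∧
    |w| ≤ ((lam : ℤ) + 1) ^ i ∧ ∀ (r : ℕ) (k : ZMod r), k ^ 2 - k + lam = 0 →
      k ^ (i + 1) = u * k - lam * w := by
  induction i with
  | zero => exact ⟨1, 0, by simp, by simp, by simp, fun r k _ => by simp⟩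
  | succ i ih =>
    obtain ⟨u, w, h1, h2, h3, h4⟩ := ih
    have h0 : (0 : ℤ) ≤ lam := Nat.cast_nonneg _
    have h5 : (0 : ℤ) ≤ lam * ((lam : ℤ) + 1) ^ i := by positivity
    refine ⟨u - lam * w, u, ?_, ?_, ?_, fun r k hk => ?_⟩
    · rw [sub_right_comm]
      exact h1.sub (dvd_mul_right _ _)
    · refine (abs_sub _ _).trans ?_
      rw [abs_mul, abs_of_nonneg h0, pow_succ]
      linarith [mul_le_mul_of_nonneg_left h3 h0]
    · rw [pow_succ]
      linarith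
    · push_cast
      linear_combination k * h4 r k hk + u * hk

theorem order_card {N e : ℕ} (h0 : 0 < N) (h : N ≤ 2 ^ e) : #N.primeFactors ≤ e := by
  refine (Nat.pow_le_pow_iff_right one_lt_two).1 (le_trans ?_ h)
  exact (pow_card_le_prod _ (fun p => p) _ fun p hp => (Nat.prime_of_mem_primeFactors hp).two_le).trans
    (Nat.le_of_dvd h0 (Nat.prod_primeFactors_dvd N))

theorem order_norm {lam : ℕ} (hl : 2 ≤ lam) (Z j n : ℕ) : ∃ P : Finset ℕ, 0 < j → 0 < n → n ≤ Z →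
    #P ≤ (5 + 4 * lam) * Z * j ∧ (∀ r ∈ P, r.Prime) ∧
      ∀ r k : ℕ, r.Prime → r ∣ F lam k → k ^ (2 * j) ≡ n ^ j [MOD r] → r ∈ P := by
  rcases j with _ | j
  · exact ⟨∅, fun h => absurd h (lt_irrefl 0)⟩
  obtain ⟨u, w, h1, h2, h3, h4⟩ := order_seq lam (2 * j + 1)
  have hl' : (2 : ℤ) ≤ lam := by exact_mod_cast hl
  have hu : u ≠ 0 := by
    rintro rfl
    have := Int.le_of_dvd one_pos (by simpa using h1)
    omega
  set A : ℤ := lam * w + n ^ (j + 1) with hA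
  have hN : 0 < A ^ 2 - A * u + lam * u ^ 2 := by
    nlinarith [sq_nonneg (2 * A - u), sq_pos_of_ne_zero hu]
  obtain ⟨N, hN'⟩ := Int.eq_ofNat_of_zero_le hN.le
  have hN0 : 0 < N := by omega
  refine ⟨N.primeFactors, fun _ hn hZ => ⟨?_, fun r => Nat.prime_of_mem_primeFactors,
    fun r k hr hF hk => Nat.mem_primeFactors.2 ⟨hr, ?_, hN0.ne'⟩⟩⟩
  · refine (order_card (e := 3 + (2 * lam + Z) * (j + 1) * 2) hN0 ?_).trans ?_
    · set E : ℤ := 2 ^ ((2 * lam + Z) * (j + 1)) with hE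
      have e1 : ((lam : ℤ) + 1) ^ (2 * j + 1) * (lam + 1) ≤ E := by
        rw [← pow_succ]
        calc _ ≤ ((2 : ℤ) ^ lam) ^ (2 * j + 1 + 1) :=
              pow_le_pow_left₀ (by omega) (by exact_mod_cast Nat.lt_two_pow_self) _
          _ ≤ _ := by
              rw [← pow_mul]
              exact pow_le_pow_right₀ one_le_two (by nlinarith [Nat.zero_le (Z * (j + 1))])
      have e2 : (n : ℤ) ^ (j + 1) ≤ E := by
        calc _ ≤ ((2 : ℤ) ^ Z) ^ (j + 1) :=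
              pow_le_pow_left₀ (by omega) (by exact_mod_cast hZ.trans Nat.lt_two_pow_self.le) _
          _ ≤ _ := by
              rw [← pow_mul]
              exact pow_le_pow_right₀ one_le_two (by nlinarith [Nat.zero_le (lam * (j + 1))])
      have e0 : (0 : ℤ) ≤ ((lam : ℤ) + 1) ^ (2 * j + 1) := by positivity
      have e3 : |A| ≤ 2 * E := by
        refine (abs_add_le _ _).trans ?_
        rw [abs_mul, abs_of_nonneg (by omega : (0 : ℤ) ≤ lam),
          abs_of_nonneg (by positivity : (0 : ℤ) ≤ (n : ℤ) ^ (j + 1))]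
        nlinarith
      have e4 : lam * |u| ≤ E := by nlinarith
      have e5 : |u| ≤ E := by nlinarith [abs_nonneg u]
      have e6 : (N : ℤ) ≤ 8 * E ^ 2 := by
        rw [← hN', ← sq_abs A, ← sq_abs u]
        have := neg_abs_le (A * u)
        have e7 : 0 ≤ E := by positivity
        rw [abs_mul] at this
        nlinarith [mul_le_mul e3 e5 (abs_nonneg u) (by omega),
          mul_le_mul e4 e5 (abs_nonneg u) e7, mul_le_mul e3 e3 (abs_nonneg A) (by omega)]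
      rw [pow_add, pow_mul]
      rw [hE] at e6
      exact_mod_cast e6
    · obtain ⟨Z, rfl⟩ : ∃ Z', Z = Z' + 1 := ⟨Z - 1, by omega⟩
      nlinarith [Nat.zero_le (Z * j), Nat.zero_le (lam * Z * j), Nat.zero_le (lam * Z)]
  · have e1 := (dvd_F_iff lam r k).1 hF
    have e2 := h4 r k e1
    have e3 := (ZMod.natCast_eq_natCast_iff _ _ _).2 hk
    have e4 := congrArg (Int.cast : ℤ → ZMod r) hN'
    have e5 := congrArg (Int.cast : ℤ → ZMod r) hA
    push_cast at e3 e4 e5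
    have e6 : (A : ZMod r) = u * k := by linear_combination e5 + e2 - e3
    rw [← ZMod.natCast_eq_zero_iff, ← e4, e6]
    linear_combination (u : ZMod r) ^ 2 * e1

theorem order_cnt {lam : ℕ} (hl : 2 ≤ lam) (Z y K : ℕ) {R : ℝ} (hR : 0 < R) :
    cnt K (fun k => ∃ r j : ℕ, SmallOrd lam Z k r j ∧ R ≤ r ∧ j ≤ y) ≤
      (5 + 4 * lam) * (Z : ℝ) ^ 2 * (y : ℝ) ^ 2 * (2 * (((K : ℝ) + 1) / R + 1)) := by
  classical
  choose P hP using order_norm hl Z
  refine (cnt_le_sum {r ∈ (Icc 1 y ×ˢ Icc 1 Z).biUnion fun p => P p.1 p.2 | R ≤ (r : ℕ)}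
    (fun r k => r ∣ F lam k) ?_).trans ((sum_le_card_nsmul _ _ (2 * (((K : ℝ) + 1) / R + 1))
      fun r hr => ?_).trans ?_)
  · rintro k - ⟨r, j, ⟨h1, h2, h3, n, h4, h5, h6⟩, h7, h8⟩
    exact ⟨r, mem_filter.2 ⟨mem_biUnion.2 ⟨(j, n), mem_product.2 ⟨mem_Icc.2 ⟨h3, h8⟩,
      mem_Icc.2 ⟨h4, h5⟩⟩, (hP j n h3 h4 h5).2.2 r k h1 h2 h6⟩, h7⟩, h2⟩
  · obtain ⟨h1, h2⟩ := mem_filter.1 hr
    obtain ⟨p, hp, h1⟩ := mem_biUnion.1 h1
    simp only [mem_product, mem_Icc] at hp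
    refine (cnt_dvd_F_prime lam K ((hP _ _ hp.1.1 hp.2.1 hp.2.2).2.1 r h1)).trans ?_
    gcongr
  · rw [nsmul_eq_mul]
    refine mul_le_mul_of_nonneg_right ?_ (by positivity)
    have := (card_filter_le _ fun r : ℕ => R ≤ r).trans (card_biUnion_le_card_mul
      (Icc 1 y ×ˢ Icc 1 Z) (fun p => P p.1 p.2) ((5 + 4 * lam) * Z * y) fun p hp => by
        simp only [mem_product, mem_Icc] at hp
        exact (hP _ _ hp.1.1 hp.2.1 hp.2.2).1.trans (Nat.mul_le_mul_left _ hp.1.2))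
    rw [card_product, Nat.card_Icc, Nat.card_Icc, Nat.add_sub_cancel, Nat.add_sub_cancel] at this
    refine (Nat.cast_le.2 this).trans (le_of_eq ?_)
    push_cast
    ring

theorem order_pZ (s a : ℕ) : (pZ s a : ℝ) ^ 2 ≤ ((a : ℝ) + 1) ^ (48 * s) := by
  rw [pZ, Nat.cast_pow, ← pow_mul, show 24 * s * 2 = 48 * s by ring]
  exact pow_le_pow_left₀ (Nat.cast_nonneg _) (by linarith) _

theorem order_pow (L a : ℕ) : (L ^ (2 * a)) ^ 2 ≤ 2 ^ (4 * L * a) := by
  rw [← pow_mul, show 4 * L * a = L * (2 * a * 2) by ring, pow_mul 2]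
  exact Nat.pow_le_pow_left Nat.lt_two_pow_self.le _

theorem sparse_S4 (lam s : ℕ) (hl : 2 ≤ lam) (hs : 1 ≤ s) : Sparse s (S4 lam s) := by
  refine Sparse.of_bound (6 * (5 + 4 * lam)) (48 * s) 0 1 one_pos ?_
  filter_upwards [eventually_ge_atTop (4 * lam.factorial + 3)] with a ha K hK
  have hR : (0 : ℝ) < pR s a := by
    rw [pR]
    positivity
  refine (cnt_mono fun k _ ⟨r, j, h1, h2, h3⟩ => ⟨r, j, h1, Nat.cast_le.2 h2, h3⟩).trans
    ((order_cnt hl (pZ s a) (pz s a * lam.factorial ^ (2 * a)) K hR).trans ?_)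
  have h1 : pR s a ≤ K :=
    (Nat.pow_le_pow_right two_pos (Nat.pow_le_pow_right (by omega) (by omega))).trans hK.1
  have h2 : (pz s a * lam.factorial ^ (2 * a)) ^ 2 * 2 ^ a ≤ pR s a := by
    rw [mul_pow]
    refine (Nat.mul_le_mul_right _ (Nat.mul_le_mul_left _ (order_pow _ _))).trans ?_
    rw [pz, pR, ← pow_mul, ← pow_add, ← pow_add, pow_succ]
    refine Nat.pow_le_pow_right two_pos ?_
    have := Nat.le_self_pow (show 2 * s ≠ 0 by omega) a
    nlinarith [Nat.mul_le_mul_left (a ^ (2 * s)) ha, Nat.mul_le_mul_left lam.factorial this]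
  have h3 : (pR s a : ℝ) ≤ K := Nat.cast_le.2 h1
  have h4 : (1 : ℝ) ≤ K := Nat.one_le_cast.2 hK.pos
  have h5 : ((K : ℝ) + 1) / pR s a + 1 ≤ 3 * K / pR s a := by
    rw [div_add_one hR.ne']
    gcongr
    linarith
  have h6 : ((pz s a * lam.factorial ^ (2 * a) : ℕ) : ℝ) ^ 2 / pR s a ≤ (2 / 3) ^ a := by
    rw [div_le_iff₀ hR]
    have e : (1 : ℝ) ≤ (2 / 3) ^ a * 2 ^ a := by
      rw [← mul_pow]
      exact one_le_pow₀ (by norm_num)
    refine (le_mul_of_one_le_left (by positivity) e).trans ?_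
    rw [mul_assoc, mul_comm ((2 : ℝ) ^ a)]
    exact mul_le_mul_of_nonneg_left (by exact_mod_cast h2) (by positivity)
  have h7 := order_pZ s a
  calc _ ≤ (5 + 4 * lam) * (pZ s a : ℝ) ^ 2 * ((pz s a * lam.factorial ^ (2 * a) : ℕ) : ℝ) ^ 2 *
        (2 * (3 * K / pR s a)) := by gcongr
    _ = 6 * (5 + 4 * lam) * (K * ((pZ s a : ℝ) ^ 2 *
        (((pz s a * lam.factorial ^ (2 * a) : ℕ) : ℝ) ^ 2 / pR s a))) := by ring
    _ ≤ 6 * (5 + 4 * lam) * (K * (((a : ℝ) + 1) ^ (48 * s) * (2 / 3) ^ a)) := by gcongr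
    _ ≤ _ := mul_le_mul_of_nonneg_left (le_add_of_le_of_nonneg
        (le_add_of_nonneg_left (by positivity)) (by positivity)) (by positivity)

theorem sparse_S5 (lam s : ℕ) (hl : 2 ≤ lam) (hs : 1 ≤ s) : Sparse s (S5 lam s) := by
  refine Sparse.of_bound (6 * (5 + 4 * lam)) (48 * s) (4 * lam.factorial) (1 / 10)
    (by norm_num) (Eventually.of_forall fun a K hK => ?_)
  have h4 : (1 : ℝ) ≤ K := Nat.one_le_cast.2 hK.pos
  obtain ⟨T, hT, h1, h2⟩ : ∃ T : ℝ, 1 ≤ T ∧ (K : ℝ) = T ^ 10 ∧ (K : ℝ) ^ (1 - 1 / 10 : ℝ) = T ^ 9 := by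
    refine ⟨(K : ℝ) ^ (1 / 10 : ℝ), Real.one_le_rpow h4 (by norm_num), ?_, ?_⟩ <;>
      rw [← Real.rpow_natCast, ← Real.rpow_mul (by linarith)] <;> norm_num
  have hT0 : 0 < T := by linarith
  refine (cnt_mono ?_).trans
    ((order_cnt hl (pZ s a) (⌊T ^ 4⌋₊ * lam.factorial ^ (2 * a)) K (pow_pos hT0 9)).trans ?_)
  · rintro k - ⟨r, j, m, h5, h6, h7, h8⟩
    refine ⟨r, j, h5, ?_, h8.trans ?_⟩
    · refine le_of_pow_le_pow_left₀ (n := 10) (by norm_num) (Nat.cast_nonneg _) ?_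
      rw [← pow_mul, mul_comm, pow_mul, ← h1]
      exact_mod_cast h6
    · refine Nat.mul_le_mul_right _ (Nat.le_floor
        (le_of_pow_le_pow_left₀ (n := 5) (by norm_num) (by positivity) ?_))
      rw [← pow_mul, show 4 * 5 = 10 * 2 from rfl, pow_mul, ← h1]
      exact_mod_cast h7
  have h5 : ((K : ℝ) + 1) / T ^ 9 + 1 ≤ 3 * T := by
    rw [div_add_one (by positivity), div_le_iff₀ (by positivity)]
    have : T ^ 9 ≤ T ^ 10 := pow_le_pow_right₀ hT (by norm_num)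
    linarith
  have h6 : ((⌊T ^ 4⌋₊ * lam.factorial ^ (2 * a) : ℕ) : ℝ) ^ 2 ≤
      (T ^ 4) ^ 2 * 2 ^ (4 * lam.factorial * a ^ (2 * s + 2)) := by
    rw [Nat.cast_mul, mul_pow]
    refine mul_le_mul (pow_le_pow_left₀ (Nat.cast_nonneg _) (Nat.floor_le (by positivity)) _) ?_
      (by positivity) (by positivity)
    exact_mod_cast (order_pow _ _).trans (Nat.pow_le_pow_right two_pos
      (Nat.mul_le_mul_left _ (Nat.le_self_pow (by omega) a)))
  have h7 := order_pZ s a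
  calc _ ≤ (5 + 4 * lam) * ((a : ℝ) + 1) ^ (48 * s) *
        ((T ^ 4) ^ 2 * 2 ^ (4 * lam.factorial * a ^ (2 * s + 2))) * (2 * (3 * T)) := by gcongr
    _ = 6 * (5 + 4 * lam) * (((a : ℝ) + 1) ^ (48 * s) *
        2 ^ (4 * lam.factorial * a ^ (2 * s + 2)) * (K : ℝ) ^ (1 - 1 / 10 : ℝ)) := by
        rw [h2]
        ring
    _ ≤ _ := mul_le_mul_of_nonneg_left (le_add_of_nonneg_left (by positivity)) (by positivity)

end Pool.Agent.Lib.MP_0820eb_co.Dens
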