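import Pool.Agent.Lib.MP_0820eb_co.Dens.Defs

/-! A rational quartic reciprocity law from Gauss and Jacobi sums. -/

namespace Pool.Agent.Lib.MP_0820eb_co.Dens

/-- a quartic character with values in the Gaussian integers -/
theorem quartic_char (r : ℕ) [Fact r.Prime] (h4 : r % 4 = 1) :
    ∃ χ : MulChar (ZMod r) GaussianInt, χ ^ 4 = 1 ∧ ∃ x, χ x * χ x = -1 := by
  have hi : IsPrimitiveRoot (⟨0, 1⟩ : GaussianInt) 4 := by
    refine IsPrimitiveRoot.mk_of_lt _ (by norm_num) (by decide) fun l h0 h1 => ?_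
    interval_cases l <;> decide
  obtain ⟨χ, hχ⟩ := MulChar.exists_mulChar_orderOf (F := ZMod r) (n := 4)
    (by rw [ZMod.card]; omega) hi
  have h1 : χ ^ 4 = 1 := hχ ▸ pow_orderOf_eq_one χ
  have h2 : χ ^ 2 ≠ 1 := pow_ne_one_of_lt_orderOf (by norm_num) (by omega)
  obtain ⟨x, hx⟩ := MulChar.ne_one_iff.1 h2
  have h3 := congrArg (fun φ : MulChar (ZMod r) GaussianInt => φ x) h1
  simp only [MulChar.pow_apply_coe, MulChar.one_apply_coe] at h3 hx
  refine ⟨χ, h1, x, (mul_self_eq_one_iff.1 ?_).resolve_left (by rwa [← sq])⟩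
  rw [← h3]
  ring

theorem quartic_inv {r : ℕ} [Fact r.Prime] (χ : MulChar (ZMod r) GaussianInt) :
    χ⁻¹ = χ.ringHomComp (starRingEnd GaussianInt) := by
  refine inv_eq_of_mul_eq_one_right (MulChar.ext fun x => ?_)
  rw [MulChar.mul_apply, MulChar.ringHomComp_apply, MulChar.one_apply_coe, starRingEnd_apply,
    ← Zsqrtd.norm_eq_mul_conj, (Zsqrtd.norm_eq_one_iff' (by norm_num) _).2 (x.isUnit.map χ),
    Int.cast_one]

theorem quartic_ne {r : ℕ} [Fact r.Prime] {K : Type} [Field K] (h2 : (2 : K) ≠ 0)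
    {χ : MulChar (ZMod r) K} {x : ZMod r} (hx : χ x * χ x = -1) : χ ≠ 1 ∧ χ * χ ≠ 1 := by
  have h : χ * χ ≠ 1 := fun h => by
    have h1 := congrArg (fun φ : MulChar (ZMod r) K => φ x) h
    simp only [MulChar.mul_apply, hx] at h1
    by_cases hu : IsUnit x
    · rw [MulChar.one_apply hu] at h1
      exact h2 (by linear_combination -h1)
    · rw [MulChar.map_nonunit _ hu] at h1
      exact one_ne_zero (neg_eq_zero.1 h1)
  exact ⟨fun h1 => h (by rw [h1, mul_one]), h⟩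

theorem quartic_norm {r : ℕ} [Fact r.Prime] {χ : MulChar (ZMod r) GaussianInt} {x : ZMod r}
    (hx : χ x * χ x = -1) : (jacobiSum χ χ).re ^ 2 + (jacobiSum χ χ).im ^ 2 = r := by
  have h := quartic_ne (χ := χ.ringHomComp GaussianInt.toComplex) (x := x) two_ne_zero (by
    rw [MulChar.ringHomComp_apply, ← map_mul, hx, map_neg, map_one])
  have h1 := jacobiSum_mul_jacobiSum_inv (by
    rw [ringChar.eq_zero, ZMod.ringChar_zmod_n]
    exact (Fact.out : r.Prime).ne_zero.symm) h.1 h.1 h.2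
  rw [MulChar.ringHomComp_inv, quartic_inv, jacobiSum_ringHomComp, jacobiSum_ringHomComp,
    jacobiSum_ringHomComp, ← map_mul, starRingEnd_apply, ← Zsqrtd.norm_eq_mul_conj, map_intCast,
    ZMod.card, Zsqrtd.norm_def] at h1
  have h2 : (jacobiSum χ χ).re * (jacobiSum χ χ).re
      - -1 * (jacobiSum χ χ).im * (jacobiSum χ χ).im = r := by exact_mod_cast h1
  linear_combination h2

theorem quartic_apply {r p : ℕ} [Fact r.Prime] (hp : (p : ZMod r) ≠ 0)
    (h : ∀ j : ℕ, ¬ r ∣ p ^ j + 1) {K : Type} [CommRing K] {χ : MulChar (ZMod r) K}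
    (h4 : χ ^ 4 = 1) : χ p = 1 := by
  have hu : IsUnit (p : ZMod r) := hp.isUnit
  have h0 : 0 < orderOf (p : ZMod r) := by
    rw [← hu.unit_spec, orderOf_units]
    exact orderOf_pos _
  have hodd : Odd (orderOf (p : ZMod r)) := by
    rw [← Nat.not_even_iff_odd]
    rintro ⟨j, hj⟩
    have h1 := pow_orderOf_eq_one (p : ZMod r)
    rw [hj, pow_add] at h1
    rcases mul_self_eq_one_iff.1 h1 with h2 | h2
    · exact pow_ne_one_of_lt_orderOf (by omega) (by omega) h2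
    · refine h j ((ZMod.natCast_eq_zero_iff _ _).1 ?_)
      push_cast
      rw [h2, neg_add_cancel]
  refine (pow_eq_one_iff_of_coprime (m := 2 ^ 2) (Nat.Coprime.pow_left 2
    (Nat.coprime_two_left.2 hodd))).1 ⟨?_, ?_⟩
  · rw [← MulChar.pow_apply' _ (by norm_num), show 2 ^ 2 = 4 from rfl, h4, MulChar.one_apply hu]
  · rw [← map_pow, pow_orderOf_eq_one, map_one]

/-- the computation with Gauss sums in characteristic `p` -/
theorem quartic_gauss {r p : ℕ} [Fact r.Prime] [Fact p.Prime] (hp2 : p ≠ 2)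
    (hp : (p : ZMod r) ≠ 0) {K : Type} [Field K] [CharP K p] {χ : MulChar (ZMod r) K}
    (h4 : χ ^ 4 = 1) {x : ZMod r} (hx : χ x * χ x = -1) (h1 : χ p = 1) {ψ : AddChar (ZMod r) K}
    (hψ : ψ.IsPrimitive) : ∃ G t : K, G ^ 2 = r ∧ t ^ p = t ∧
      t ^ 2 = G * (jacobiSum χ χ + jacobiSum χ⁻¹ χ⁻¹) + 2 * χ (-1) * r := by
  have h2 : (2 : K) ≠ 0 := fun h => hp2 ((Nat.prime_dvd_prime_iff_eq Fact.out Nat.prime_two).1
    ((CharP.cast_eq_zero_iff K p 2).1 (by exact_mod_cast h)))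
  obtain ⟨n1, n2⟩ := quartic_ne h2 hx
  have hi : χ⁻¹ = χ ^ 3 := inv_eq_of_mul_eq_one_right (by rw [← pow_succ', h4])
  have hii : χ⁻¹ * χ⁻¹ = χ * χ := by
    rw [hi, ← pow_add, show 3 + 3 = 4 + 2 from rfl, pow_add, h4, one_mul, sq]
  have he : χ (-1) * χ (-1) = 1 := by rw [← map_mul, neg_mul_neg, mul_one, map_one]
  have e1 := gaussSum_sq n2 (MulChar.isQuadratic_iff_sq_eq_one.2 (by
    rw [← sq, ← pow_mul, h4])) hψ
  rw [MulChar.mul_apply, he, one_mul, ZMod.card] at e1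
  have e2 := jacobiSum_mul_nontrivial n2 ψ
  have e3 := jacobiSum_mul_nontrivial (χ := χ⁻¹) (φ := χ⁻¹) (hii ▸ n2) ψ
  rw [hii] at e3
  have e4 := gaussSum_mul_gaussSum_eq_card n1 hψ
  have e5 := mul_gaussSum_inv_eq_gaussSum χ⁻¹ ψ
  rw [MulChar.inv_apply', inv_neg_one] at e5
  rw [ZMod.card] at e4
  have hf : ∀ n : ℕ, gaussSum (χ ^ n) ψ ^ p = gaussSum (χ ^ (n * p % 4)) ψ := fun n => by
    have h5 := gaussSum_mulShift (χ ^ (n * p)) ψ hp.isUnit.unit
    rw [MulChar.pow_apply_coe, hp.isUnit.unit_spec, h1, one_pow, one_mul] at h5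
    rw [gaussSum_frob, AddChar.pow_mulShift, ← pow_mul, h5, ← pow_eq_pow_mod _ h4]
  refine ⟨_, gaussSum χ ψ + gaussSum χ⁻¹ ψ, e1, ?_, ?_⟩
  · have f1 := hf 1
    have f3 := hf 3
    have hodd := (Fact.out : p.Prime).eq_two_or_odd.resolve_left hp2
    rw [pow_one] at f1
    rw [add_pow_char, hi, f1, f3]
    rcases (by omega : p % 4 = 1 ∨ p % 4 = 3) with h | h
    · rw [show 1 * p % 4 = 1 by omega, show 3 * p % 4 = 3 by omega, pow_one]
    · rw [show 1 * p % 4 = 3 by omega, show 3 * p % 4 = 1 by omega, pow_one, add_comm]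
  · linear_combination -e2 - e3 + 2 * χ (-1) * e4 - 2 * gaussSum χ ψ * e5

theorem quartic : QuarticStmt := by
  intro r hr h4
  have := Fact.mk hr
  obtain ⟨χ, hχ, x, hx⟩ := quartic_char r h4
  obtain ⟨e, he1, he⟩ : ∃ e : ℤ, (e = 1 ∨ e = -1) ∧ χ (-1) = e := by
    rcases mul_self_eq_one_iff.1 (show χ (-1) * χ (-1) = 1 by
      rw [← map_mul, neg_mul_neg, mul_one, map_one]) with h | h
    · exact ⟨1, Or.inl rfl, by rw [h, Int.cast_one]⟩
    · exact ⟨-1, Or.inr rfl, by rw [h, Int.cast_neg, Int.cast_one]⟩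
  have hn := quartic_norm hx
  refine ⟨(jacobiSum χ χ).re, (jacobiSum χ χ).im, e, he1, hn, fun p hp hp2 hpr hj σ hσ hB => ?_⟩
  have := Fact.mk hp
  have hp0 : (p : ZMod r) ≠ 0 := fun h =>
    hpr ((Nat.prime_dvd_prime_iff_eq hr hp).1 ((ZMod.natCast_eq_zero_iff _ _).1 h)).symm
  have hr0 : (r : ZMod p) ≠ 0 := fun h =>
    hpr ((Nat.prime_dvd_prime_iff_eq hp hr).1 ((ZMod.natCast_eq_zero_iff _ _).1 h))
  have h20 : (2 : ZMod p) ≠ 0 := fun h => hp2 ((Nat.prime_dvd_prime_iff_eq hp Nat.prime_two).1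
    ((ZMod.natCast_eq_zero_iff _ _).1 (by exact_mod_cast h)))
  have : NeZero (r : ZMod p) := ⟨hr0⟩
  obtain ⟨ζ, hζ⟩ := HasEnoughRootsOfUnity.exists_primitiveRoot (AlgebraicClosure (ZMod p)) r
  obtain ⟨i, hi⟩ := IsAlgClosed.exists_eq_mul_self (-1 : AlgebraicClosure (ZMod p))
  let f : GaussianInt →+* AlgebraicClosure (ZMod p) := Zsqrtd.lift ⟨i, by rw [← hi]; simp⟩
  have g4 : χ.ringHomComp f ^ 4 = 1 := by
    rw [MulChar.ringHomComp_pow, hχ, MulChar.ringHomComp_one]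
  obtain ⟨G, t, hG, ht, h⟩ := quartic_gauss hp2 hp0 g4 (x := x)
    (by rw [MulChar.ringHomComp_apply, ← map_mul, hx, map_neg, map_one]) (quartic_apply hp0 hj g4)
    (AddChar.zmodChar_primitive_of_primitive_root r hζ)
  have hA : jacobiSum χ χ + star (jacobiSum χ χ) = ((2 * (jacobiSum χ χ).re : ℤ) : GaussianInt) := by
    ext <;> simp [two_mul]
  rw [MulChar.ringHomComp_inv, quartic_inv, jacobiSum_ringHomComp, jacobiSum_ringHomComp,
    jacobiSum_ringHomComp, ← map_add, starRingEnd_apply, hA, MulChar.ringHomComp_apply, he,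
    map_intCast, map_intCast] at h
  obtain ⟨m, rfl⟩ := (mem_bot_iff_intCast p _).1 ((Subfield.mem_bot_iff_pow_eq_self _ p).2 ht)
  generalize (jacobiSum χ χ).re = A at *
  generalize (jacobiSum χ χ).im = B at *
  have s1 : (σ : ZMod p) ^ 2 = r := by exact_mod_cast (ZMod.intCast_eq_intCast_iff _ _ _).2 hσ
  have s2 : (A : ZMod p) ^ 2 + (B : ZMod p) ^ 2 = r := by
    exact_mod_cast congrArg (Int.cast : ℤ → ZMod p) hn
  have s3 : (e : ZMod p) * e = 1 := by rcases he1 with rfl | rfl <;> simp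
  have s4 : (σ : AlgebraicClosure (ZMod p)) ^ 2 = r := by
    simpa using congrArg (algebraMap (ZMod p) (AlgebraicClosure (ZMod p))) s1
  have key : ∃ ε : ℤ, (ε = 1 ∨ ε = -1) ∧ (m : ZMod p) ^ 2 = 2 * ε * σ * A + 2 * e * r := by
    rcases sq_eq_sq_iff_eq_or_eq_neg.1 (hG.trans s4.symm) with rfl | rfl
    · refine ⟨1, Or.inl rfl, (algebraMap (ZMod p) (AlgebraicClosure (ZMod p))).injective ?_⟩
      simp only [map_add, map_mul, map_pow, map_intCast, map_natCast, map_ofNat]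
      rw [h]
      push_cast
      ring
    · refine ⟨-1, Or.inr rfl, (algebraMap (ZMod p) (AlgebraicClosure (ZMod p))).injective ?_⟩
      simp only [map_add, map_mul, map_pow, map_intCast, map_natCast, map_ofNat]
      rw [h]
      push_cast
      ring
  obtain ⟨ε, hε, key⟩ := key
  have hσ0 : (σ : ZMod p) ≠ 0 := fun h0 => hr0 (by rw [← s1, h0]; simp)
  push_cast
  by_cases hc : ε = e
  · subst hc
    exact ⟨m, by linear_combination -key + 2 * (ε : ZMod p) * s1⟩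
  · have hc' : (ε : ZMod p) = -e := by
      rcases hε with rfl | rfl <;> rcases he1 with rfl | rfl <;> simp at hc ⊢
    rw [hc'] at key
    have k2 : (m : ZMod p) ^ 2 * (2 * e * σ * (σ + A)) = (2 * σ * B) ^ 2 := by
      rw [key, ← s1]
      linear_combination 4 * (σ : ZMod p) ^ 2 * ((σ : ZMod p) ^ 2 - (A : ZMod p) ^ 2) * s3
        + 4 * (σ : ZMod p) ^ 2 * (s1 - s2)
    have hm : (m : ZMod p) ≠ 0 := fun h0 => by
      rw [h0] at k2
      exact pow_ne_zero 2 (mul_ne_zero (mul_ne_zero h20 hσ0) hB) (by rw [← k2]; simp)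
    refine ⟨2 * σ * B / m, ?_⟩
    rw [div_mul_div_comm, eq_div_iff (mul_ne_zero hm hm)]
    linear_combination k2

end Pool.Agent.Lib.MP_0820eb_co.Dens
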