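import Pool.Agent.Lib.MP_0820eb_co.Dens.Defs
import Pool.Agent.Lib.MP_30b5ba_nt.Upper

/-!
Pure sieve on unimodular matrices.
-/

open Finset

namespace Pool.Agent.Lib.MP_0820eb_co.Dens

open Pool.Agent.Shared

theorem sl2_subsets (P : Finset ℕ) (h : ℕ) : #{D ∈ P.powerset | #D ≤ h} ≤ (#P + 1) ^ h := by
  induction h with
  | zero =>
    rw [pow_zero]
    refine card_le_one.2 fun a ha b hb => ?_
    rw [card_eq_zero.1 (Nat.le_zero.1 (mem_filter.1 ha).2),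
      card_eq_zero.1 (Nat.le_zero.1 (mem_filter.1 hb).2)]
  | succ h ih =>
    have hs : {D ∈ P.powerset | #D ≤ h + 1} ⊆ {D ∈ P.powerset | #D ≤ h} ∪
        (P ×ˢ {D ∈ P.powerset | #D ≤ h}).image fun x => insert x.1 x.2 := by
      intro D hD
      simp only [mem_filter, mem_powerset] at hD
      rcases D.eq_empty_or_nonempty with rfl | ⟨p, hp⟩
      · exact mem_union_left _ (by simp)
      · refine mem_union_right _ (mem_image.2 ⟨(p, D.erase p), mem_product.2 ⟨hD.1 hp,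
          mem_filter.2 ⟨mem_powerset.2 ((erase_subset _ _).trans hD.1), ?_⟩⟩, insert_erase hp⟩)
        rw [card_erase_of_mem hp]
        omega
    have h1 := (card_le_card hs).trans (card_union_le _ _)
    have h2 := card_image_le (s := P ×ˢ {D ∈ P.powerset | #D ≤ h}) (f := fun x => insert x.1 x.2)
    rw [card_product] at h2
    have h3 := Nat.mul_le_mul_left #P ih
    rw [pow_succ, mul_add, mul_one, mul_comm]
    omega

/-- weighted Bonferroni inequality -/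
theorem sl2_bonf {α : Type} (Ω : Finset α) (w : α → ℝ) (hw : ∀ x ∈ Ω, 0 ≤ w x) (P : Finset ℕ)
    (A : ℕ → α → Prop) [∀ p x, Decidable (A p x)] (g : ℕ → ℝ) (hg : ∀ p ∈ P, 0 ≤ g p)
    {M E : ℝ} (hM : 0 ≤ M) (hE : 0 ≤ E) {h : ℕ} (hh : Even h)
    (H : ∀ D ⊆ P, #D ≤ h → |∑ x ∈ Ω with ∀ p ∈ D, A p x, w x - M * ∏ p ∈ D, g p| ≤ E) :
    ∑ x ∈ Ω with ∀ p ∈ P, ¬ A p x, w x ≤
      M * ∏ p ∈ P, (1 - g p) + M / 2 ^ h * ∏ p ∈ P, (1 + 2 * g p) + E * (#P + 1) ^ h := by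
  have step1 : ∑ x ∈ Ω with ∀ p ∈ P, ¬ A p x, w x ≤ ∑ D ∈ P.powerset,
      (if #D ≤ h then (-1 : ℝ) ^ #D else 0) * ∑ x ∈ Ω with ∀ p ∈ D, A p x, w x := by
    have e1 : ∀ D ∈ P.powerset, (if #D ≤ h then (-1 : ℝ) ^ #D else 0) *
        ∑ x ∈ Ω with ∀ p ∈ D, A p x, w x = ∑ x ∈ Ω,
          (if D ∈ (P.filter (fun p => A p x)).powerset then
            (if #D ≤ h then (-1 : ℝ) ^ #D else 0) else 0) * w x := by
      intro D hD
      rw [sum_filter, mul_sum]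
      refine sum_congr rfl fun x _ => ?_
      have e : (∀ p ∈ D, A p x) ↔ D ∈ (P.filter (fun p => A p x)).powerset := by
        simp only [mem_powerset] at hD ⊢
        exact ⟨fun H r hr => mem_filter.2 ⟨hD hr, H r hr⟩, fun H r hr => (mem_filter.1 (H hr)).2⟩
      by_cases hc : ∀ p ∈ D, A p x
      · rw [if_pos hc, if_pos (e.1 hc)]
      · rw [if_neg hc, if_neg (fun h => hc (e.2 h)), mul_zero, zero_mul]
    rw [sum_congr rfl e1, sum_comm, sum_filter]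
    refine sum_le_sum fun x hx => ?_
    have hsub : (P.filter (fun p => A p x)).powerset ⊆ P.powerset :=
      powerset_mono.2 (filter_subset _ _)
    rw [← sum_mul, ← sum_filter, filter_mem_eq_inter, inter_eq_right.2 hsub]
    refine le_trans (le_of_eq ?_)
      (mul_le_mul_of_nonneg_right (BrunSieve.bonf _ h hh) (hw x hx))
    by_cases hc : ∀ p ∈ P, ¬ A p x
    · rw [if_pos hc, if_pos (filter_eq_empty_iff.2 hc), one_mul]
    · rw [if_neg hc, if_neg (fun h => hc (filter_eq_empty_iff.1 h)), zero_mul]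
  have step2 : ∀ D ∈ P.powerset, (if #D ≤ h then (-1 : ℝ) ^ #D else 0) *
      ∑ x ∈ Ω with ∀ p ∈ D, A p x, w x ≤ M * ∏ p ∈ D, (-g p) +
        M / 2 ^ h * ∏ p ∈ D, (2 * g p) + if #D ≤ h then E else 0 := by
    intro D hD
    have hDP : D ⊆ P := mem_powerset.1 hD
    have hG0 : 0 ≤ ∏ p ∈ D, g p := prod_nonneg fun p hp => hg p (hDP hp)
    have e1 : ∏ p ∈ D, (-g p) = (-1) ^ #D * ∏ p ∈ D, g p := by
      rw [← prod_const, ← prod_mul_distrib]
      exact prod_congr rfl fun r _ => by ring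
    have e2 : ∏ p ∈ D, (2 * g p) = 2 ^ #D * ∏ p ∈ D, g p := by
      rw [prod_mul_distrib, prod_const]
    have habs : |(-1 : ℝ) ^ #D| = 1 := by rw [abs_pow, abs_neg, abs_one, one_pow]
    rw [e1, e2]
    split_ifs with hc
    · have e4 : (-1 : ℝ) ^ #D * (∑ x ∈ Ω with ∀ p ∈ D, A p x, w x - M * ∏ p ∈ D, g p) ≤ E := by
        refine (le_abs_self _).trans ?_
        rw [abs_mul, habs, one_mul]
        exact H D hDP hc
      have e6 : (0 : ℝ) ≤ M / 2 ^ h * (2 ^ #D * ∏ p ∈ D, g p) := by positivity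
      linarith
    · have e5 : (1 : ℝ) ≤ 2 ^ #D / 2 ^ h := by
        rw [le_div_iff₀ (by positivity), one_mul]
        exact pow_le_pow_right₀ (by norm_num) (by omega)
      have e7 : -1 ≤ (-1 : ℝ) ^ #D := (abs_le.1 habs.le).1
      have e8 : 0 ≤ (M * ∏ p ∈ D, g p) * ((-1 : ℝ) ^ #D + 2 ^ #D / 2 ^ h) :=
        mul_nonneg (by positivity) (by linarith)
      have e9 : M * ((-1 : ℝ) ^ #D * ∏ p ∈ D, g p) + M / 2 ^ h * (2 ^ #D * ∏ p ∈ D, g p) =
          (M * ∏ p ∈ D, g p) * ((-1 : ℝ) ^ #D + 2 ^ #D / 2 ^ h) := by ring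
      rw [e9, zero_mul]
      linarith
  refine step1.trans ((sum_le_sum step2).trans ?_)
  rw [sum_add_distrib, sum_add_distrib, ← mul_sum, ← mul_sum, ← prod_one_add, ← prod_one_add,
    ← sum_filter, sum_const, nsmul_eq_mul, mul_comm _ E]
  simp only [← sub_eq_add_neg]
  have h1 : (#{D ∈ P.powerset | #D ≤ h} : ℝ) ≤ (#P + 1) ^ h := by
    exact_mod_cast sl2_subsets P h
  linarith [mul_le_mul_of_nonneg_left h1 hE]

theorem sl2_modEq {D : Finset ℕ} (hD : ∀ p ∈ D, p.Prime) {x y : ℕ}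
    (h : ∀ p ∈ D, (x : ZMod p) = y) : x ≡ y [MOD ∏ p ∈ D, p] := by
  wlog hxy : x ≤ y generalizing x y
  · exact (this (fun p hp => (h p hp).symm) (not_le.1 hxy).le).symm
  refine (Nat.modEq_iff_dvd' hxy).2 (prod_primes_dvd _ (fun p hp => (hD p hp).prime) fun p hp => ?_)
  exact (Nat.modEq_iff_dvd' hxy).1 ((ZMod.natCast_eq_natCast_iff _ _ _).1 (h p hp))

theorem sl2_lift {D : Finset ℕ} (hD : ∀ p ∈ D, p.Prime) (f : ∀ p ∈ D, ZMod p) :
    ∃ x, x < ∏ p ∈ D, p ∧ ∀ p (hp : p ∈ D), (x : ZMod p) = f p hp := by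
  have h1 : ∀ p ∈ D, p ≠ 0 := fun p hp => (hD p hp).ne_zero
  have h2 : Set.Pairwise (D : Set ℕ) (Function.onFun Nat.Coprime fun p => p) :=
    fun p hp r hr hpr => (Nat.coprime_primes (hD p hp) (hD r hr)).2 hpr
  refine ⟨_, Nat.chineseRemainderOfFinset_lt_prod
    (fun p => if hp : p ∈ D then (f p hp).val else 0) (fun p => p) h1 h2, fun p hp => ?_⟩
  have h3 := (Nat.chineseRemainderOfFinset
    (fun p => if hp : p ∈ D then (f p hp).val else 0) (fun p => p) D h1 h2).2 p hp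
  have : NeZero p := ⟨h1 p hp⟩
  rw [(ZMod.natCast_eq_natCast_iff _ _ _).2 h3, dif_pos hp, ZMod.natCast_zmod_val]

open Classical in
/-- Chinese remainder theorem for triples -/
theorem sl2_crt {D : Finset ℕ} (hD : ∀ p ∈ D, p.Prime)
    (Bad : (p : ℕ) → Finset (ZMod p × ZMod p × ZMod p)) :
    #{x ∈ range (∏ p ∈ D, p) ×ˢ range (∏ p ∈ D, p) ×ˢ range (∏ p ∈ D, p) |
      ∀ p ∈ D, ((x.1 : ZMod p), (x.2.1 : ZMod p), (x.2.2 : ZMod p)) ∈ Bad p} =
      ∏ p ∈ D, #(Bad p) := by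
  rw [← card_pi]
  refine card_bij (fun x _ p _ => ((x.1 : ZMod p), (x.2.1 : ZMod p), (x.2.2 : ZMod p)))
    (fun x hx => mem_pi.2 (mem_filter.1 hx).2) ?_ ?_
  · intro x hx y hy h
    simp only [mem_filter, mem_product, mem_range] at hx hy
    have h1 := fun p hp => congrFun (congrFun h p) hp
    simp only [Prod.mk.injEq] at h1
    exact Prod.ext ((sl2_modEq hD fun p hp => (h1 p hp).1).eq_of_lt_of_lt hx.1.1 hy.1.1)
      (Prod.ext ((sl2_modEq hD fun p hp => (h1 p hp).2.1).eq_of_lt_of_lt hx.1.2.1 hy.1.2.1)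
        ((sl2_modEq hD fun p hp => (h1 p hp).2.2).eq_of_lt_of_lt hx.1.2.2 hy.1.2.2))
  · intro f hf
    obtain ⟨c, hc, ec⟩ := sl2_lift hD fun p hp => (f p hp).1
    obtain ⟨a, ha, ea⟩ := sl2_lift hD fun p hp => (f p hp).2.1
    obtain ⟨d, hd, ed⟩ := sl2_lift hD fun p hp => (f p hp).2.2
    have e : ∀ p (hp : p ∈ D), ((c : ZMod p), (a : ZMod p), (d : ZMod p)) = f p hp :=
      fun p hp => by rw [ec p hp, ea p hp, ed p hp]
    refine ⟨(c, a, d), mem_filter.2 ⟨by simp [hc, ha, hd], fun p hp => ?_⟩,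
      funext fun p => funext fun hp => e p hp⟩
    rw [e p hp]
    exact mem_pi.1 hf p hp

/-- counting in the fibre over one value of `c` -/
theorem sl2_fibre {C : ℝ} (hC0 : 0 ≤ C) (hC : ∀ c q a₀ d₀ : ℕ, 0 < c → 0 < q → c.Coprime q →
    |((#{x ∈ range (3 * c) ×ˢ range (3 * c) |
      x.1 ≡ a₀ [MOD q] ∧ x.2 ≡ d₀ [MOD q] ∧ x.1 * x.2 ≡ 1 [MOD c]} : ℕ) : ℝ) -
    9 * (Nat.totient c : ℝ) / (q : ℝ) ^ 2| ≤ C * (c : ℝ) ^ (23 / 24 : ℝ))
    {c q : ℕ} (hc : 0 < c) (hq : 0 < q) (Q : ℕ × ℕ → Prop) [DecidablePred Q]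
    (hQ : ∀ x : ℕ × ℕ, Q (x.1 % q, x.2 % q) ↔ Q x) (hcop : ∀ x, Q x → c.Coprime q) :
    |(#{x ∈ range (3 * c) ×ˢ range (3 * c) | x.1 * x.2 ≡ 1 [MOD c] ∧ Q x} : ℝ) -
      9 * (Nat.totient c : ℝ) / (q : ℝ) ^ 2 * #{y ∈ range q ×ˢ range q | Q y}| ≤
      (q : ℝ) ^ 2 * (C * (c : ℝ) ^ (23 / 24 : ℝ)) := by
  have h1 : #{x ∈ range (3 * c) ×ˢ range (3 * c) | x.1 * x.2 ≡ 1 [MOD c] ∧ Q x} =
      ∑ y ∈ {y ∈ range q ×ˢ range q | Q y}, #{x ∈ range (3 * c) ×ˢ range (3 * c) |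
        x.1 ≡ y.1 [MOD q] ∧ x.2 ≡ y.2 [MOD q] ∧ x.1 * x.2 ≡ 1 [MOD c]} := by
    rw [card_eq_sum_card_fiberwise (f := fun x : ℕ × ℕ => (x.1 % q, x.2 % q))
      (t := {y ∈ range q ×ˢ range q | Q y})]
    · refine sum_congr rfl fun y hy => ?_
      simp only [mem_filter, mem_product, mem_range] at hy
      rw [filter_filter]
      refine congrArg _ (filter_congr fun x _ => ?_)
      constructor
      · rintro ⟨⟨h, -⟩, rfl⟩
        exact ⟨(Nat.mod_modEq _ _).symm, (Nat.mod_modEq _ _).symm, h⟩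
      · rintro ⟨h1, h2, h⟩
        have e : (x.1 % q, x.2 % q) = y := Prod.ext (Eq.trans h1 (Nat.mod_eq_of_lt hy.1.1))
          (Eq.trans h2 (Nat.mod_eq_of_lt hy.1.2))
        exact ⟨⟨h, (hQ x).1 (e ▸ hy.2)⟩, e⟩
    · intro x hx
      simp only [coe_filter, mem_product, mem_range, Set.mem_ofPred_eq] at hx ⊢
      exact ⟨⟨Nat.mod_lt _ hq, Nat.mod_lt _ hq⟩, (hQ x).2 hx.2.2⟩
  have h2 : (#{y ∈ range q ×ˢ range q | Q y} : ℝ) ≤ (q : ℝ) ^ 2 := by
    have := card_filter_le (range q ×ˢ range q) Q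
    rw [card_product, card_range, ← sq] at this
    exact_mod_cast this
  rw [h1, Nat.cast_sum, mul_comm (_ / _ : ℝ), ← nsmul_eq_mul, ← sum_const, ← sum_sub_distrib]
  refine (abs_sum_le_sum_abs _ _).trans ((sum_le_card_nsmul _ _ _ fun y hy =>
    hC c q y.1 y.2 hc hq (hcop y (mem_filter.1 hy).2)).trans ?_)
  rw [nsmul_eq_mul]
  exact mul_le_mul_of_nonneg_right h2 (by positivity)

/-- sum of the numbers of classes -/
theorem sl2_classes {q : ℕ} (hq : 0 < q) (Q : ℕ → ℕ × ℕ → Prop) [∀ c y, Decidable (Q c y)]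
    (hQ : ∀ y, Function.Periodic (fun c => Q c y) q) (T : ℕ) :
    |∑ c ∈ range T, (#{y ∈ range q ×ˢ range q | Q (c + 1) y} : ℝ) -
      T / q * #{x ∈ range q ×ˢ range q ×ˢ range q | Q x.1 x.2}| ≤ (q : ℝ) ^ 3 := by
  have h1 : ∑ c ∈ range T, (#{y ∈ range q ×ˢ range q | Q (c + 1) y} : ℝ) =
      ∑ y ∈ range q ×ˢ range q, (#{c ∈ range T | Q (c + 1) y} : ℝ) := by
    simp only [card_filter]
    push_cast
    exact sum_comm
  have h2 : (#{x ∈ range q ×ˢ range q ×ˢ range q | Q x.1 x.2} : ℝ) =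
      ∑ y ∈ range q ×ˢ range q, (#{c ∈ range q | Q (c + 1) y} : ℝ) := by
    have e : ∀ y, #{c ∈ range q | Q (c + 1) y} = #{c ∈ range q | Q c y} := fun y => by
      have h3 := Nat.filter_Ico_card_eq_of_periodic 1 q (fun c => Q c y) (hQ y)
      rw [Nat.count_eq_card_filter_range] at h3
      rw [← h3, card_filter, card_filter, sum_Ico_eq_sum_range, Nat.add_sub_cancel_left]
      simp only [add_comm]
    simp only [e]
    simp only [card_filter]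
    push_cast
    rw [sum_product, sum_comm]
  rw [h1, h2, mul_sum, ← sum_sub_distrib]
  refine (abs_sum_le_sum_abs _ _).trans ((sum_le_card_nsmul _ _ (q : ℝ) fun y _ => ?_).trans ?_)
  · have h3 := BrunSieve.count_approx hq (fun c => Q (c + 1) y)
      (fun c => by simpa only [add_right_comm] using hQ y (c + 1)) T
    have h4 : (#{c ∈ range q | Q (c + 1) y} : ℝ) ≤ q := by
      exact_mod_cast (card_filter_le _ _).trans (card_range q).le
    rw [div_mul_eq_mul_div, mul_div_assoc]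
    exact h3.trans h4
  · rw [card_product, card_range, nsmul_eq_mul]
    push_cast
    exact le_of_eq (by ring)

theorem sl2_totient {c : ℕ} (hc : 0 < c) : c ≤ #c.divisors * c.totient := by
  conv_lhs => rw [← Nat.sum_totient c]
  exact sum_le_card_nsmul _ _ _ fun d hd => Nat.le_of_dvd (Nat.totient_pos.2 hc)
    (Nat.totient_dvd_of_dvd (Nat.dvd_of_mem_divisors hd))

theorem sl2_sum : ∃ C : ℝ, 0 ≤ C ∧ ∀ T : ℕ, ∑ c ∈ range T,
    ((c + 1 : ℕ) : ℝ) ^ (23 / 24 : ℝ) / (Nat.totient (c + 1) : ℝ) ≤ C * (T : ℝ) ^ (47 / 48 : ℝ) := by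
  obtain ⟨C, hC0, hC⟩ := MP_30b5ba_nt.exists_divisor_bound (δ := 1 / 96) (by norm_num)
  refine ⟨97 * C, by positivity, fun T => ?_⟩
  rcases Nat.eq_zero_or_pos T with rfl | hT
  · simp
  obtain ⟨τ, h1, h2⟩ := hC T hT
  have hT1 : (1 : ℝ) ≤ T := by exact_mod_cast hT
  have hT0 : (0 : ℝ) < T := by linarith
  have h3 : ∀ c ∈ range T, ((c + 1 : ℕ) : ℝ) ^ (23 / 24 : ℝ) / (Nat.totient (c + 1) : ℝ) ≤
      (T : ℝ) ^ (23 / 24 : ℝ) * τ * ((c + 1 : ℕ) : ℝ)⁻¹ := fun c hc => by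
    have hc' : c + 1 ≤ T := mem_range.1 hc
    have a1 : ((c + 1 : ℕ) : ℝ) ^ (23 / 24 : ℝ) ≤ (T : ℝ) ^ (23 / 24 : ℝ) :=
      Real.rpow_le_rpow (by positivity) (by exact_mod_cast hc') (by norm_num)
    have a2 : c + 1 ≤ τ * Nat.totient (c + 1) := (sl2_totient c.succ_pos).trans
      (Nat.mul_le_mul_right _ (h1 _ (hc'.trans (Nat.le_self_pow two_ne_zero T))))
    have a3 : ((c + 1 : ℕ) : ℝ) ≤ τ * (Nat.totient (c + 1) : ℝ) := by exact_mod_cast a2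
    have a4 : (0 : ℝ) < Nat.totient (c + 1) := by exact_mod_cast Nat.totient_pos.2 c.succ_pos
    rw [← div_eq_mul_inv, div_le_div_iff₀ a4 (by positivity), mul_assoc]
    exact mul_le_mul a1 a3 (by positivity) (by positivity)
  refine (sum_le_sum h3).trans ?_
  have h4 : ∑ c ∈ range T, ((c + 1 : ℕ) : ℝ)⁻¹ ≤ 97 * (T : ℝ) ^ (1 / 96 : ℝ) := by
    have a1 := harmonic_le_one_add_log T
    have a2 := Real.log_le_rpow_div hT0.le (ε := 1 / 96) (by norm_num)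
    have a3 := Real.one_le_rpow hT1 (z := 1 / 96) (by norm_num)
    rw [harmonic] at a1
    push_cast at a1 ⊢
    linarith
  rw [← mul_sum]
  calc _ ≤ (T : ℝ) ^ (23 / 24 : ℝ) * (C * (T : ℝ) ^ (1 / 96 : ℝ)) *
        (97 * (T : ℝ) ^ (1 / 96 : ℝ)) := by gcongr
    _ = 97 * C * ((T : ℝ) ^ (23 / 24 : ℝ) * (T : ℝ) ^ (1 / 96 : ℝ) * (T : ℝ) ^ (1 / 96 : ℝ)) := by
      ring
    _ = _ := by
      rw [← Real.rpow_add hT0, ← Real.rpow_add hT0]
      norm_num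

/-- the triples that are sieved -/
def sl2Box (T : ℕ) : Finset (ℕ × ℕ × ℕ) :=
  {x ∈ range (T + 1) ×ˢ range (3 * T) ×ˢ range (3 * T) |
    0 < x.1 ∧ x.2.1 < 3 * x.1 ∧ x.2.2 < 3 * x.1 ∧ x.2.1 * x.2.2 ≡ 1 [MOD x.1]}

theorem sl2_split (T : ℕ) (Q : ℕ → ℕ × ℕ → Prop) [∀ c y, Decidable (Q c y)] (w : ℕ → ℝ) :
    ∑ x ∈ sl2Box T with Q x.1 x.2, w x.1 = ∑ c ∈ range T, w (c + 1) *
      #{y ∈ range (3 * (c + 1)) ×ˢ range (3 * (c + 1)) |
        y.1 * y.2 ≡ 1 [MOD (c + 1)] ∧ Q (c + 1) y} := by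
  rw [sl2Box, filter_filter, sum_filter, sum_product, sum_range_succ']
  simp only [lt_irrefl, false_and, if_false, sum_const_zero, add_zero]
  refine sum_congr rfl fun c hc => ?_
  rw [← sum_filter, sum_const, nsmul_eq_mul, mul_comm]
  have hc' := mem_range.1 hc
  congr 3
  ext y
  simp only [mem_filter, mem_product, mem_range]
  constructor
  · rintro ⟨-, ⟨-, h1, h2, h3⟩, h4⟩
    exact ⟨⟨h1, h2⟩, h3, h4⟩
  · rintro ⟨⟨h1, h2⟩, h3, h4⟩
    exact ⟨⟨by omega, by omega⟩, ⟨by omega, h1, h2, h3⟩, h4⟩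

/-- level of distribution -/
theorem sl2_level (h : KloStmt) : ∃ C : ℝ, 0 ≤ C ∧ ∀ (T q : ℕ) (Q : ℕ → ℕ × ℕ → Prop)
    [∀ c y, Decidable (Q c y)], 0 < q → (∀ c x, Q c (x.1 % q, x.2 % q) ↔ Q c x) →
    (∀ y, Function.Periodic (fun c => Q c y) q) → (∀ c x, Q c x → c.Coprime q) →
    |∑ x ∈ sl2Box T with Q x.1 x.2, (T : ℝ) / (Nat.totient x.1 : ℝ) - 9 * (T : ℝ) ^ 2 *
      (#{x ∈ range q ×ˢ range q ×ˢ range q | Q x.1 x.2} / (q : ℝ) ^ 3)| ≤
      C * (q : ℝ) ^ 2 * (T : ℝ) ^ (95 / 48 : ℝ) := by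
  obtain ⟨C, hC⟩ := h
  obtain ⟨C', hC'0, hC'⟩ := sl2_sum
  refine ⟨|C| * C' + 9, by positivity, fun T q Q _ hq h1 h2 h3 => ?_⟩
  rcases Nat.eq_zero_or_pos T with rfl | hT
  · simp [sl2Box]
  have hT1 : (1 : ℝ) ≤ T := by exact_mod_cast hT
  have hT0 : (0 : ℝ) < T := by linarith
  have hq1 : (1 : ℝ) ≤ q := by exact_mod_cast hq
  have a1 : |∑ x ∈ sl2Box T with Q x.1 x.2, (T : ℝ) / (Nat.totient x.1 : ℝ) -
      9 * T / (q : ℝ) ^ 2 * ∑ c ∈ range T, (#{y ∈ range q ×ˢ range q | Q (c + 1) y} : ℝ)| ≤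
      |C| * C' * (q : ℝ) ^ 2 * (T : ℝ) ^ (95 / 48 : ℝ) := by
    rw [sl2_split T Q fun c => (T : ℝ) / (Nat.totient c : ℝ), mul_sum, ← sum_sub_distrib]
    have b1 : ∀ c ∈ range T, |(T : ℝ) / (Nat.totient (c + 1) : ℝ) *
        #{y ∈ range (3 * (c + 1)) ×ˢ range (3 * (c + 1)) |
          y.1 * y.2 ≡ 1 [MOD (c + 1)] ∧ Q (c + 1) y} -
        9 * T / (q : ℝ) ^ 2 * (#{y ∈ range q ×ˢ range q | Q (c + 1) y} : ℝ)| ≤
        T * (q : ℝ) ^ 2 * |C| *
          (((c + 1 : ℕ) : ℝ) ^ (23 / 24 : ℝ) / (Nat.totient (c + 1) : ℝ)) := fun c _ => by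
      have b2 := sl2_fibre (abs_nonneg C) (fun c q a d hc hq hcq => (hC c q a d hc hq hcq).trans
        (mul_le_mul_of_nonneg_right (le_abs_self C) (by positivity))) c.succ_pos hq (Q (c + 1))
        (h1 (c + 1)) (h3 (c + 1))
      have b3 : (0 : ℝ) < Nat.totient (c + 1) := by exact_mod_cast Nat.totient_pos.2 c.succ_pos
      have b4 := mul_le_mul_of_nonneg_left b2 (div_pos hT0 b3).le
      rw [← abs_of_pos (div_pos hT0 b3), ← abs_mul, abs_of_pos (div_pos hT0 b3)] at b4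
      refine le_of_eq_of_le (congrArg _ ?_) (b4.trans_eq ?_)
      · simp only [Nat.succ_eq_add_one]
        field_simp
      · simp only [Nat.succ_eq_add_one]
        ring
    refine (abs_sum_le_sum_abs _ _).trans ((sum_le_sum b1).trans ?_)
    rw [← mul_sum, show (95 / 48 : ℝ) = 47 / 48 + 1 by norm_num, Real.rpow_add_one hT0.ne']
    exact (mul_le_mul_of_nonneg_left (hC' T) (by positivity)).trans_eq (by ring)
  have a2 := mul_le_mul_of_nonneg_left (sl2_classes hq Q h2 T)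
    (show (0 : ℝ) ≤ 9 * T / (q : ℝ) ^ 2 by positivity)
  rw [← abs_of_nonneg (show (0 : ℝ) ≤ 9 * T / (q : ℝ) ^ 2 by positivity), ← abs_mul,
    abs_of_nonneg (show (0 : ℝ) ≤ 9 * T / (q : ℝ) ^ 2 by positivity), mul_sub] at a2
  have a3 : 9 * T / (q : ℝ) ^ 2 * (q : ℝ) ^ 3 ≤ 9 * (q : ℝ) ^ 2 * (T : ℝ) ^ (95 / 48 : ℝ) := by
    have b1 : (T : ℝ) ≤ (T : ℝ) ^ (95 / 48 : ℝ) := Real.self_le_rpow_of_one_le hT1 (by norm_num)
    calc _ = 9 * (q : ℝ) * T := by field_simp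
      _ ≤ _ := by
        gcongr
        exact le_self_pow₀ hq1 two_ne_zero
  have e : 9 * (T : ℝ) ^ 2 * (#{x ∈ range q ×ˢ range q ×ˢ range q | Q x.1 x.2} / (q : ℝ) ^ 3) =
      9 * T / (q : ℝ) ^ 2 * (T / q * #{x ∈ range q ×ˢ range q ×ˢ range q | Q x.1 x.2}) := by
    field_simp
  rw [e]
  refine (abs_sub_le _ _ _).trans ((add_le_add a1 (a2.trans a3)).trans_eq (by ring))

theorem sl2 (h : KloStmt) : SL2Stmt := by
  classical
  obtain ⟨C, hC0, hC⟩ := sl2_level h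
  refine ⟨C, fun P z h T Bad hP hh hB => ?_⟩
  have hz : (1 : ℝ) ≤ (z : ℝ) + 1 := by linarith [(Nat.cast_nonneg z : (0 : ℝ) ≤ z)]
  have h1 := sl2_bonf (sl2Box T) (fun x => (T : ℝ) / (Nat.totient x.1 : ℝ))
    (fun x _ => by positivity) P
    (fun p x => ((x.1 : ZMod p), (x.2.1 : ZMod p), (x.2.2 : ZMod p)) ∈ Bad p)
    (fun p => (#(Bad p) : ℝ) / (p : ℝ) ^ 3) (fun p _ => by positivity)
    (M := 9 * (T : ℝ) ^ 2) (E := C * (((z : ℝ) + 1) ^ h) ^ 2 * (T : ℝ) ^ (95 / 48 : ℝ))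
    (by positivity) (by positivity) hh fun D hD hDh => by
      have hp : ∀ p ∈ D, p.Prime := fun p hp => (hP p (hD hp)).1
      have hm : ∀ p ∈ D, ∀ x : ℕ, ((x % ∏ p ∈ D, p : ℕ) : ZMod p) = x := fun p hp x =>
        (ZMod.natCast_eq_natCast_iff _ _ _).2
          ((Nat.mod_modEq _ _).of_dvd (dvd_prod_of_mem (fun p => p) hp))
      have a1 := hC T (∏ p ∈ D, p)
        (fun c y => ∀ p ∈ D, ((c : ZMod p), (y.1 : ZMod p), (y.2 : ZMod p)) ∈ Bad p)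
        (prod_pos fun p h => (hp p h).pos)
        (fun c x => forall₂_congr fun p h => by rw [hm p h, hm p h])
        (fun y c => propext (forall₂_congr fun p h => by
          rw [← hm p h (c + _), Nat.add_mod_right, hm p h]))
        (fun c x H => Nat.Coprime.prod_right fun p h =>
          ((Nat.Prime.coprime_iff_not_dvd (hp p h)).2 fun hd =>
            hB p (hD h) _ (H p h) ((ZMod.natCast_eq_zero_iff _ _).2 hd)).symm)
      have a2 : ((∏ p ∈ D, p : ℕ) : ℝ) ≤ ((z : ℝ) + 1) ^ h := by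
        refine le_trans ?_ (pow_le_pow_right₀ hz hDh)
        have b1 : ∏ p ∈ D, p ≤ (z + 1) ^ #D :=
          prod_le_pow_card _ _ _ fun p h => (hP p (hD h)).2.trans (Nat.le_succ z)
        exact_mod_cast b1
      rw [sl2_crt hp] at a1
      rw [prod_div_distrib, prod_pow, ← Nat.cast_prod, ← Nat.cast_prod]
      refine a1.trans ?_
      gcongr
  have h2 : (#P : ℝ) ≤ z := by
    have : P ⊆ Icc 1 z := fun p hp => mem_Icc.2 ⟨(hP p hp).1.pos, (hP p hp).2⟩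
    exact_mod_cast (card_le_card this).trans (by simp)
  have h3 : C * (((z : ℝ) + 1) ^ h) ^ 2 * (T : ℝ) ^ (95 / 48 : ℝ) * (#P + 1) ^ h ≤
      C * ((z : ℝ) + 1) ^ (3 * h) * (T : ℝ) ^ (95 / 48 : ℝ) :=
    calc _ ≤ C * (((z : ℝ) + 1) ^ h) ^ 2 * (T : ℝ) ^ (95 / 48 : ℝ) * ((z : ℝ) + 1) ^ h := by
          gcongr
      _ = _ := by ring
  refine le_trans ?_ (h1.trans (add_le_add_right h3 _))
  rw [sl2Box, filter_filter, card_eq_sum_ones, Nat.cast_sum]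
  simp only [and_assoc]
  refine sum_le_sum fun x hx => ?_
  simp only [mem_filter, mem_product, mem_range] at hx
  have a1 : (0 : ℝ) < Nat.totient x.1 := by exact_mod_cast Nat.totient_pos.2 hx.2.1
  rw [Nat.cast_one, one_le_div a1]
  exact_mod_cast (Nat.totient_le _).trans (Nat.lt_succ_iff.1 hx.1.1)

end Pool.Agent.Lib.MP_0820eb_co.Dens
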