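import Mathlib
import Pool.Agent.Lib.MP_0820eb_co.Dens.MainTerm

/-!
The one dimensional sieve estimates.
-/

open Finset Filter

namespace Pool.Agent.Lib.MP_0820eb_co.Dens

/-- the residue classes that are sieved out -/
def sieve1A (lam : ℕ) (j : ℕ → ℤ) (p n : ℕ) : Prop := p ∣ F lam n ∨ (n ≡ lam [MOD p] ∧ j p = -1)

instance (lam : ℕ) (j : ℕ → ℤ) (p : ℕ) : DecidablePred (sieve1A lam j p) := fun n => by
  unfold sieve1A; infer_instance

theorem sieve1_iff (lam : ℕ) (j : ℕ → ℤ) (p n : ℕ) : sieve1A lam j p n ↔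
    ((n : ZMod p) ^ 2 - n + lam = 0 ∨ ((n : ZMod p) = lam ∧ j p = -1)) := by
  rw [sieve1A, dvd_F_iff, ZMod.natCast_eq_natCast_iff]

theorem sieve1_card {p : ℕ} [Fact p.Prime] (Q : ZMod p → Prop) [DecidablePred Q] (k₁ : ℕ) {r : ℕ}
    (hr : p.Coprime r) :
    #{x ∈ range p | Q ((k₁ + r * x : ℕ) : ZMod p)} = #{y : ZMod p | Q y} := by
  have hr0 : (r : ZMod p) ≠ 0 := fun h =>
    (Nat.Prime.coprime_iff_not_dvd Fact.out).1 hr ((ZMod.natCast_eq_zero_iff _ _).1 h)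
  refine card_bij (fun x _ => ((k₁ + r * x : ℕ) : ZMod p)) (fun x hx => ?_) (fun x hx y hy h => ?_)
    fun y hy => ?_
  · exact mem_filter.2 ⟨mem_univ _, (mem_filter.1 hx).2⟩
  · push_cast at h
    exact Nat.ModEq.eq_of_lt_of_lt ((ZMod.natCast_eq_natCast_iff _ _ _).1
      (mul_left_cancel₀ hr0 (add_left_cancel h))) (mem_range.1 (mem_filter.1 hx).1)
      (mem_range.1 (mem_filter.1 hy).1)
  · have e : ((k₁ + r * ((y - k₁) / r).val : ℕ) : ZMod p) = y := by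
      push_cast
      rw [ZMod.natCast_zmod_val]
      field_simp
      ring
    exact ⟨((y - k₁) / r).val, mem_filter.2 ⟨mem_range.2 (ZMod.val_lt _), by
      rw [e]; exact (mem_filter.1 hy).2⟩, e⟩

theorem sieve1_roots (lam : ℕ) {p : ℕ} [Fact p.Prime] (hp : p ≠ 2) :
    (#{y : ZMod p | y ^ 2 - y + lam = 0} : ℤ) = jacobiSym (1 - 4 * lam) p + 1 := by
  have h2 : (2 : ZMod p) ≠ 0 := fun h => hp ((Nat.prime_dvd_prime_iff_eq Fact.out
    Nat.prime_two).1 ((ZMod.natCast_eq_zero_iff 2 p).1 (by exact_mod_cast h)))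
  rw [← jacobiSym.legendreSym.to_jacobiSym, ← legendreSym.card_sqrts p hp, Set.toFinset_ofPred]
  congr 1
  refine card_bij (fun y _ => 2 * y - 1) (fun y hy => ?_) (fun x _ y _ h => ?_) fun w hw => ?_
  · refine mem_filter.2 ⟨mem_univ _, ?_⟩
    push_cast
    linear_combination 4 * (mem_filter.1 hy).2
  · exact mul_left_cancel₀ h2 (sub_left_injective h)
  · have h := (mem_filter.1 hw).2
    push_cast at h
    refine ⟨(w + 1) / 2, mem_filter.2 ⟨mem_univ _, ?_⟩, by field_simp; ring⟩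
    field_simp
    linear_combination h

theorem sieve1_count (lam : ℕ) (j : ℕ → ℤ) {p : ℕ} (hp : p.Prime) (h2 : p ≠ 2) (hl : ¬ p ∣ lam)
    (hj : j p = 1 ∨ j p = -1) (k₁ : ℕ) {r : ℕ} (hr : p.Coprime r) :
    1 + (jacobiSym (1 - 4 * lam) p : ℝ) + (1 - j p) / 2 ≤
      #{x ∈ range p | sieve1A lam j p (k₁ + r * x)} ∧
    (#{x ∈ range p | sieve1A lam j p (k₁ + r * x)} : ℝ) ≤ 3 := by
  have := Fact.mk hp
  have e0 : #{x ∈ range p | sieve1A lam j p (k₁ + r * x)} =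
      #{y : ZMod p | y ^ 2 - y + lam = 0 ∨ (y = lam ∧ j p = -1)} := by
    rw [← sieve1_card _ k₁ hr]
    exact congrArg _ (filter_congr fun x _ => sieve1_iff _ _ _ _)
  rw [e0]
  have h1 : (#{y : ZMod p | y ^ 2 - y + lam = 0} : ℝ) = jacobiSym (1 - 4 * lam) p + 1 := by
    exact_mod_cast sieve1_roots lam h2
  have h3 : (jacobiSym (1 - 4 * lam) p : ℝ) ≤ 1 := by
    rcases jacobiSym.trichotomy (1 - 4 * lam) p with h | h | h <;> rw [h] <;> norm_num
  rcases hj with h | h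
  · simp only [h, show ¬ (1 : ℤ) = -1 by decide, and_false, or_false, h1]
    constructor <;> norm_num <;> linarith
  · have e : univ.filter (fun y : ZMod p => y ^ 2 - y + lam = 0 ∨ (y = lam ∧ j p = -1)) =
        insert (lam : ZMod p) (univ.filter fun y : ZMod p => y ^ 2 - y + lam = 0) := by
      ext y; simp [h, or_comm]
    rw [e, card_insert_of_notMem, h]
    · push_cast
      rw [h1]
      constructor <;> linarith
    · intro hm
      have h4 := (mem_filter.1 hm).2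
      rw [sub_add_cancel] at h4
      exact hl ((ZMod.natCast_eq_zero_iff _ _).1 (pow_eq_zero_iff two_ne_zero |>.1 h4))

theorem sieve1_nsq {lam : ℕ} (hl : 1 ≤ lam) : ¬ IsSquare (1 - 4 * (lam : ℤ)) := by
  rintro ⟨w, hw⟩
  nlinarith [mul_self_nonneg w]

theorem sieve1_loglog {s a : ℕ} (hs : 1 ≤ s) (ha : 3 ≤ a) : 0 ≤ Real.log (Real.log (pZ s a)) := by
  have h : (3 : ℝ) ≤ pZ s a := by exact_mod_cast ha.trans (mainterm_le_Z hs)
  refine Real.log_nonneg ?_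
  rw [Real.le_log_iff_exp_le (by linarith)]
  linarith [Real.exp_one_lt_d9]

theorem sieve1_main (h1 : CS1Stmt) (h2 : CS2Stmt) (lam s : ℕ) (hl : 1 ≤ lam) (hs : 1 ≤ s)
    (C' : ℝ) : ∃ n : ℕ, ∀ᶠ a : ℕ in atTop, ∀ (j : ℕ → ℤ) (k₁ r Y : ℕ), (∀ p, -1 ≤ j p) →
      (∀ p ∈ PP s a, j p = 1 ∨ j p = -1) → (∀ p ∈ PP s a, p.Coprime r) →
      PS (fun p => j p) (pz s a) ≤ Real.log (Real.log (pZ s a)) + C' →
      (#{x ∈ range Y | ∀ p ∈ PP s a, ¬ sieve1A lam j p (k₁ + r * x)} : ℝ) ≤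
        Y * ((a : ℝ) / (a : ℝ) ^ (3 * s) + ((a : ℝ) + 1) ^ n * (2 / 3) ^ a) +
          ((a : ℝ) + 1) ^ n * 2 ^ (2 * a ^ (2 * s + 2)) := by
  obtain ⟨n, hn⟩ := et h1 s hs
  obtain ⟨C₁, h₁⟩ := id h1
  obtain ⟨C₂, h₂⟩ := h2 _ (sieve1_nsq hl)
  refine ⟨n, ?_⟩
  filter_upwards [hn, mt h1 s hs (3 / 2 * |C₁| + |C₂| + |C'| + 1) (by positivity),
    eventually_ge_atTop 3, eventually_gt_atTop lam] with a he hm ha hla j k₁ r Y hj1 hj hr hP
  have hPP : ∀ p ∈ PP s a, p.Prime ∧ a ≤ p ∧ p ≤ pz s a := fun p hp => by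
    simp only [PP, mem_filter, mem_Icc] at hp
    exact ⟨hp.2, (mainterm_le_Z hs).trans hp.1.1, hp.1.2⟩
  have hc := fun p hp => sieve1_count lam j (hPP p hp).1 (by have := (hPP p hp).2.1; omega)
    (Nat.not_dvd_of_pos_of_lt hl (hla.trans_le (hPP p hp).2.1)) (hj p hp) k₁ (hr p hp)
  let g : ℕ → ℝ := fun p => (#{x ∈ range p | sieve1A lam j p (k₁ + r * x)} : ℝ) / p
  have hb := Pool.Agent.Shared.BrunSieve.brun (PP s a) (fun p hp => (hPP p hp).1)
    (fun p x => sieve1A lam j p (k₁ + r * x)) (fun p _ x => by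
      simp only [sieve1_iff, mul_add, Nat.cast_add, Nat.cast_mul, ZMod.natCast_self, mul_zero,
        add_zero]) g (fun _ _ => rfl) (pz s a) (Nat.one_le_two_pow) (fun p hp => (hPP p hp).2.2)
    (2 * a) (even_two_mul a) Y
  have hg3 : ∀ p ∈ PP s a, g p ≤ 3 / p := fun p hp => by
    simp only [g]; gcongr; exact (hc p hp).2
  have e1 := hm g (fun p => 1 + (jacobiSym (1 - 4 * lam) p : ℝ) + (1 - j p) / 2) (fun p _ => by
    have h3 : (jacobiSym (1 - 4 * lam) p : ℝ) ≤ 1 := by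
      rcases jacobiSym.trichotomy (1 - 4 * lam) p with h | h | h <;> rw [h] <;> norm_num
    have h4 : (-1 : ℝ) ≤ j p := by exact_mod_cast hj1 p
    linarith) (fun p hp => by
    have h3 : (3 : ℝ) ≤ p := by exact_mod_cast ha.trans (hPP p hp).2.1
    refine ⟨le_trans (sub_le_self _ (by positivity)) ?_,
      (hg3 p hp).trans ((div_le_one (by linarith)).2 h3)⟩
    simp only [g]; gcongr; exact (hc p hp).1) (by
    have e : PS (fun p => 1 + (jacobiSym (1 - 4 * lam) p : ℝ) + (1 - j p) / 2) (pz s a) =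
        3 / 2 * PS (fun _ => 1) (pz s a) + PS (fun p => (jacobiSym (1 - 4 * lam) p : ℝ)) (pz s a) -
          1 / 2 * PS (fun p => j p) (pz s a) := by
      simp only [PS, mul_sum, ← sum_add_distrib, ← sum_sub_distrib]
      exact sum_congr rfl fun p _ => by ring
    have h3 := (h₁ _ (mainterm_two_le_z s (by omega : 1 ≤ a))).1
    have h4 := (abs_le.1 (h₂ (pz s a))).1
    have h5 := sieve1_loglog hs ha
    rw [e]
    nlinarith [le_abs_self C₁, le_abs_self C₂, le_abs_self C', abs_nonneg C₁, abs_nonneg C₂,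
      abs_nonneg C', mul_nonneg (show 0 ≤ 3 / 2 * |C₁| + |C₂| + |C'| by positivity) h5])
  have e2 := he g fun p hp => ⟨by positivity, (hg3 p hp).trans (by gcongr; norm_num)⟩
  have e3 : (Y : ℝ) / 2 ^ (2 * a) ≤ Y * (2 / 3) ^ a := by
    rw [div_eq_mul_inv, pow_mul, ← inv_pow]
    gcongr
    norm_num
  have e4 : (pz s a : ℝ) ^ (2 * a) ≤ 2 ^ (2 * a ^ (2 * s + 2)) := by
    rw [pz, Nat.cast_pow, ← pow_mul, Nat.cast_ofNat]
    refine pow_le_pow_right₀ (by norm_num) ?_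
    have : a ^ (2 * s + 1) ≤ a ^ (2 * s + 2) := Nat.pow_le_pow_right (by omega) (by omega)
    calc a ^ (2 * s) * (2 * a) = 2 * a ^ (2 * s + 1) := by ring
      _ ≤ _ := by omega
  refine hb.trans ?_
  calc (Y : ℝ) * ∏ p ∈ PP s a, (1 - g p) + (Y / 2 ^ (2 * a) + (pz s a : ℝ) ^ (2 * a)) *
        ∏ p ∈ PP s a, (1 + 2 * g p)
      ≤ Y * ((a : ℝ) / (a : ℝ) ^ (3 * s)) + (Y * (2 / 3) ^ a + 2 ^ (2 * a ^ (2 * s + 2))) *
        ((a : ℝ) + 1) ^ n :=
        add_le_add (mul_le_mul_of_nonneg_left e1 (Nat.cast_nonneg _))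
          (mul_le_mul (add_le_add e3 e4) e2 (prod_nonneg fun p _ => by
            have : 0 ≤ g p := div_nonneg (Nat.cast_nonneg _) (Nat.cast_nonneg _)
            linarith) (by positivity))
    _ = _ := by ring

theorem sparse_S9 (h1 : CS1Stmt) (h2 : CS2Stmt) (lam s : ℕ) (hl : 1 ≤ lam) (hs : 1 ≤ s) (a₀ : ℤ)
    (ha : ¬ IsSquare a₀) : Sparse s (S9 lam s a₀) := by
  obtain ⟨C, hC⟩ := h2 a₀ ha
  obtain ⟨n, hn⟩ := sieve1_main h1 h2 lam s hl hs C
  have h0 : a₀ ≠ 0 := by rintro rfl; exact ha ⟨0, rfl⟩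
  refine Sparse.of_bound 2 n 2 1 one_pos ?_
  filter_upwards [hn, eventually_ge_atTop 3, eventually_gt_atTop a₀.natAbs] with a hm h3 h4 K hK
  have e := hm (fun p => jacobiSym a₀ p) 0 1 (K + 1) (fun p => by
    rcases jacobiSym.trichotomy a₀ p with h | h | h <;> rw [h] <;> norm_num) (fun p hp => by
    simp only [PP, mem_filter, mem_Icc] at hp
    refine jacobiSym.eq_one_or_neg_one ?_
    have := (mainterm_le_Z (a := a) hs).trans hp.1.1
    exact ((Nat.Prime.coprime_iff_not_dvd hp.2).2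
      (Nat.not_dvd_of_pos_of_lt (Int.natAbs_pos.2 h0) (by omega))).symm)
    (fun p _ => Nat.coprime_one_right p)
    (by linarith [(abs_le.1 (hC (pz s a))).2, sieve1_loglog hs h3])
  refine (cnt_le_card _ fun k hk hS => ?_).trans (e.trans ?_)
  · refine mem_filter.2 ⟨mem_range.2 (by omega), fun p hp => ?_⟩
    rw [zero_add, one_mul]
    rintro (h | h)
    · exact hS.1 p hp h
    · exact hS.2 p hp h.1 h.2
  · have hK1 : (1 : ℝ) ≤ K := by exact_mod_cast hK.pos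
    have ha1 : (1 : ℝ) ≤ a := by exact_mod_cast (by omega : 1 ≤ a)
    have e1 : (a : ℝ) / (a : ℝ) ^ (3 * s) ≤ (a : ℝ) ^ 2 / (a : ℝ) ^ (3 * s) := by
      gcongr; nlinarith
    rw [sub_self, Real.rpow_zero, mul_one, mul_div_assoc]
    push_cast
    calc ((K : ℝ) + 1) * ((a : ℝ) / (a : ℝ) ^ (3 * s) + ((a : ℝ) + 1) ^ n * (2 / 3) ^ a) +
          ((a : ℝ) + 1) ^ n * 2 ^ (2 * a ^ (2 * s + 2))
        ≤ (2 * K) * ((a : ℝ) ^ 2 / (a : ℝ) ^ (3 * s) + ((a : ℝ) + 1) ^ n * (2 / 3) ^ a) +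
          2 * (((a : ℝ) + 1) ^ n * 2 ^ (2 * a ^ (2 * s + 2))) := by
          refine add_le_add ?_ (le_mul_of_one_le_left (by positivity) (by norm_num))
          gcongr
          linarith
      _ = _ := by ring

theorem sparse_S10 (h1 : CS1Stmt) (h2 : CS2Stmt) (h3 : CS3Stmt) (lam s : ℕ) (hl : 1 ≤ lam)
    (hs : 1 ≤ s) : Sparse s (S10 lam s) := by
  obtain ⟨C, hC⟩ := h3
  obtain ⟨n, hn⟩ := sieve1_main h1 h2 lam s hl hs C
  obtain ⟨C₁, h₁⟩ := h1
  refine Sparse.of_bound 4 (n + 24 * s) 2 1 one_pos ?_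
  filter_upwards [hn, eventually_ge_atTop 3, poly_geom (24 * s),
    mainterm_loglog 4 C₁ (24 * s : ℕ) (by exact_mod_cast (by omega : 0 < 24 * s))]
    with a hm h3 h4 h5 K hK
  have ha1 : (1 : ℝ) ≤ a := by exact_mod_cast (by omega : 1 ≤ a)
  have hZ1 : (pZ s a : ℝ) ≤ ((a : ℝ) + 1) ^ (24 * s) := by
    rw [pZ, Nat.cast_pow]; gcongr; linarith
  have hZK : (pZ s a : ℝ) ≤ K := by
    have e1 : (1 : ℝ) ≤ 2 ^ a * (2 / 3) ^ a := by
      rw [← mul_pow]; exact one_le_pow₀ (by norm_num)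
    have e2 : (2 : ℝ) ^ a ≤ K := by exact_mod_cast hK.two_pow_le
    calc (pZ s a : ℝ) ≤ ((a : ℝ) + 1) ^ (24 * s) * (2 ^ a * (2 / 3) ^ a) :=
          hZ1.trans (le_mul_of_one_le_right (by positivity) e1)
      _ = 2 ^ a * (((a : ℝ) + 1) ^ (24 * s) * (2 / 3) ^ a) := by ring
      _ ≤ K * 1 := by gcongr
      _ = K := mul_one _
  have hsum : PS (fun _ => 1) (pZ s a) ≤ a := by
    have := (h₁ (pZ s a) ((by omega : 2 ≤ a).trans (mainterm_le_Z hs))).2
    rw [← mainterm_Z] at h5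
    linarith [Real.log_le_sub_one_of_pos (show (0 : ℝ) < a by linarith)]
  obtain ⟨u, hu⟩ : ∃ u, u = (a : ℝ) / (a : ℝ) ^ (3 * s) + ((a : ℝ) + 1) ^ n * (2 / 3) ^ a := ⟨_, rfl⟩
  obtain ⟨w, hw⟩ : ∃ w, w = ((a : ℝ) + 1) ^ n * 2 ^ (2 * a ^ (2 * s + 2)) := ⟨_, rfl⟩
  have u0 : 0 ≤ u := by rw [hu]; positivity
  have w0 : 0 ≤ w := by rw [hw]; positivity
  rw [← hu, ← hw] at hm
  let R := (range (pZ s a)).filter fun r => r.Prime ∧ r ≠ 2
  let T : ℕ → ℕ → Prop := fun r k => r ∣ F lam k ∧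
    ∀ p ∈ PP s a, ¬ sieve1A lam (fun p => jacobiSym p r) p k
  have hT : ∀ r ∈ R, cnt K (T r) ≤ 2 * (2 * K * (1 / r) * u + w) := fun r hr => by
    simp only [R, mem_filter, mem_range] at hr
    obtain ⟨hrZ, hr, hr2⟩ := hr
    have hr3 : (3 : ℝ) ≤ r := by exact_mod_cast (by have := hr.two_le; omega : 3 ≤ r)
    have hrZ' : (r : ℝ) ≤ pZ s a := by exact_mod_cast hrZ.le
    have hcop : ∀ p ∈ PP s a, p.Coprime r := fun p hp => by
      simp only [PP, mem_filter, mem_Icc] at hp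
      exact (Nat.coprime_primes hp.2 hr).2 (by omega)
    have hY : ((K / r + 1 : ℕ) : ℝ) ≤ 2 * K * (1 / r) := by
      have e1 : ((K / r : ℕ) : ℝ) ≤ K / r := Nat.cast_div_le
      have e2 : (1 : ℝ) ≤ K / r := (one_le_div (by linarith)).2 (hrZ'.trans hZK)
      push_cast
      rw [mul_one_div, mul_div_assoc]
      linarith
    refine (cnt_le_sum {x ∈ range r | r ∣ F lam x} (fun k₁ k => k % r = k₁ ∧ T r k)
      fun k _ hk => ⟨k % r, mem_filter.2 ⟨mem_range.2 (Nat.mod_lt _ hr.pos),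
        (dvd_F_congr (Nat.mod_modEq k r)).2 hk.1⟩, rfl, hk⟩).trans ?_
    refine (sum_le_card_nsmul _ _ (2 * K * (1 / r) * u + w) fun k₁ _ => ?_).trans ?_
    · have e := hm (fun p => jacobiSym p r) k₁ r (K / r + 1) (fun p => by
        rcases jacobiSym.trichotomy p r with h | h | h <;> rw [h] <;> norm_num)
        (fun p hp => jacobiSym.eq_one_or_neg_one (hcop p hp)) hcop ((hC r hr hr2 _).trans (by
          have : 0 < Real.log r := Real.log_pos (by linarith)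
          gcongr))
      refine (cnt_le_card (image (fun x => k₁ + r * x) _) fun k hk hS => ?_).trans
        (le_trans (by exact_mod_cast card_image_le) (e.trans (by gcongr)))
      have e1 : k₁ + r * (k / r) = k := by rw [← hS.1]; exact Nat.mod_add_div k r
      refine mem_image.2 ⟨k / r, mem_filter.2 ⟨mem_range.2
        (Nat.lt_succ_of_le (Nat.div_le_div_right hk)), ?_⟩, e1⟩
      rw [e1]
      exact hS.2.2
    · rw [nsmul_eq_mul]
      gcongr
      exact_mod_cast roots_prime lam hr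
  refine (cnt_le_sum R T fun k _ hk => ?_).trans ((sum_le_sum hT).trans ?_)
  · obtain ⟨hR, r, hr, hr2, hrZ, hd, hj⟩ := hk
    refine ⟨r, mem_filter.2 ⟨mem_range.2 hrZ, hr, hr2⟩, hd, fun p hp => ?_⟩
    rintro (h | h)
    · exact hR p hp h
    · exact hj p hp h.1 h.2
  · have e1 : ∑ r ∈ R, (1 / r : ℝ) ≤ a := by
      refine le_trans (sum_le_sum_of_subset_of_nonneg (fun r hr => ?_)
        fun _ _ _ => by positivity) hsum
      simp only [R, mem_filter, mem_range] at hr ⊢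
      exact ⟨by omega, hr.2.1⟩
    have e2 : (#R : ℝ) ≤ ((a : ℝ) + 1) ^ (24 * s) := by
      refine le_trans ?_ hZ1
      exact_mod_cast (card_filter_le _ _).trans (card_range _).le
    have e3 : (a : ℝ) ≤ ((a : ℝ) + 1) ^ (24 * s) :=
      le_trans (by linarith) (le_self_pow₀ (by linarith) (by omega))
    rw [sub_self, Real.rpow_zero, mul_one]
    calc ∑ r ∈ R, 2 * (2 * K * (1 / r) * u + w) = 4 * K * u * ∑ r ∈ R, (1 / r : ℝ) + 2 * #R * w := by
          rw [mul_sum, mul_comm 2 (#R : ℝ), mul_assoc (#R : ℝ), ← nsmul_eq_mul, ← sum_const,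
            ← sum_add_distrib]
          exact sum_congr rfl fun r _ => by ring
      _ ≤ 4 * K * u * a + 4 * ((a : ℝ) + 1) ^ (24 * s) * w := by gcongr; norm_num
      _ = 4 * (K * (a : ℝ) ^ 2 / (a : ℝ) ^ (3 * s) + K * (a * (((a : ℝ) + 1) ^ n * (2 / 3) ^ a)) +
          ((a : ℝ) + 1) ^ (n + 24 * s) * 2 ^ (2 * a ^ (2 * s + 2))) := by
          rw [hu, hw]; ring
      _ ≤ 4 * (K * (a : ℝ) ^ 2 / (a : ℝ) ^ (3 * s) +
          K * (((a : ℝ) + 1) ^ (24 * s) * (((a : ℝ) + 1) ^ n * (2 / 3) ^ a)) +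
          ((a : ℝ) + 1) ^ (n + 24 * s) * 2 ^ (2 * a ^ (2 * s + 2))) := by gcongr
      _ = _ := by ring

end Pool.Agent.Lib.MP_0820eb_co.Dens
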