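import Pool.Agent.Lib.MP_0820eb_co.Dens.Defs

/-! The sieve on unimodular matrices applied to the set `S11`. -/

open Finset Filter

namespace Pool.Agent.Lib.MP_0820eb_co.Dens

theorem sieve3_nb {K : Type} [Field K] (h2 : (2 : K) ≠ 0) (mu k A B e u y v a b c d : K)
    (he : e = 1 ∨ e = -1) (hF : mu ^ 2 * (A ^ 2 + B ^ 2) = k ^ 2 - k + mu ^ 2)
    (h0 : k ^ 2 - k + mu ^ 2 ≠ 0)
    (hsq : k = mu ^ 2 → B ≠ 0 → IsSquare (2 * e * mu * (mu + A))) (hdet : a * d - b * c = 1)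
    (halt : (2 * k - 1 - 2 * mu * A = QF u y v a c ∧ 2 * mu * B = BF u y v a c b d ∧
        2 * k - 1 + 2 * mu * A = QF u y v b d) ∨
      (2 * k - 1 + 2 * mu * A = QF u y v a c ∧ -(2 * mu * B) = BF u y v a c b d ∧
        2 * k - 1 - 2 * mu * A = QF u y v b d)) :
    ¬ BadP (4 * mu ^ 2 - 1) e u y v c a d := by
  rintro ⟨hc, b', hb, h⟩
  obtain rfl : b' = b := mul_right_cancel₀ hc (by linear_combination hdet - hb)
  have hs : QF u y v a c + QF u y v b' d = 2 * (2 * k - 1) := by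
    rcases halt with ⟨h1, -, h3⟩ | ⟨h1, -, h3⟩ <;> linear_combination -h1 - h3
  rw [hs] at h
  rcases h with h | ⟨h1, h3, h4⟩
  · exact h0 (mul_left_cancel₀ (pow_ne_zero 4 h2) (by linear_combination h))
  have hk : k = mu ^ 2 := mul_left_cancel₀ (pow_ne_zero 2 h2) (by linear_combination h1)
  have hy : 2 * mu * B ≠ 0 := by
    rcases halt with ⟨-, h5, -⟩ | ⟨-, h5, -⟩
    · rwa [h5]
    · rwa [← h5, neg_ne_zero] at h3
  obtain ⟨w, hw⟩ := hsq hk (right_ne_zero_of_mul hy)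
  rcases halt with ⟨h5, -, -⟩ | ⟨h5, -, -⟩
  · exact h4 ⟨w, by rw [← h5, ← hw, hk]; ring⟩
  · have he2 : e ^ 2 = 1 := by rcases he with rfl | rfl <;> ring
    have h6 : w * w * (e * (4 * mu ^ 2 - 1 - QF u y v a c)) = (2 * mu * B) ^ 2 := by
      rw [← h5, ← hw]
      rw [hk] at hF ⊢
      linear_combination 4 * mu ^ 2 * (mu ^ 2 - A ^ 2) * he2 - 4 * hF
    have hw0 : w ≠ 0 := by
      rintro rfl
      exact pow_ne_zero 2 hy (by rw [← h6]; ring)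
    exact h4 ⟨2 * mu * B / w, by field_simp; linear_combination h6⟩

/-- the expected number of classes -/
noncomputable def sieve3_c (Δ : ℤ) (p : ℕ) : ℝ :=
  (1 + (jacobiSym (-Δ) p : ℝ)) * (1 + (jacobiSym (-1) p : ℝ)) + 1 / 2

theorem sieve3_c_eq (Δ : ℤ) (p : ℕ) : sieve3_c Δ p =
    3 / 2 + (jacobiSym (-Δ) p : ℝ) + (jacobiSym (-1) p : ℝ) + (jacobiSym Δ p : ℝ) := by
  have h : jacobiSym Δ p = jacobiSym (-Δ) p * jacobiSym (-1) p := by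
    rw [← jacobiSym.mul_left]
    simp
  rw [sieve3_c, h]
  push_cast
  ring

theorem sieve3_c_le (Δ : ℤ) (p : ℕ) : sieve3_c Δ p ≤ 5 := by
  have h : ∀ a : ℤ, (jacobiSym a p : ℝ) ≤ 1 := fun a => by
    rcases jacobiSym.trichotomy a p with h | h | h <;> rw [h] <;> norm_num
  rw [sieve3_c_eq]
  linarith [h (-Δ), h (-1), h Δ]

theorem sieve3_bad (hl : LocalStmt) (mu Δ e u y v : ℤ) (p : ℕ) (hp : p.Prime)
    (hΔ : Δ = 4 * mu ^ 2 - 1) (he : e = 1 ∨ e = -1) (hy : y ^ 2 - u * v = Δ)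
    (hd : ¬ (p : ℤ) ∣ 2 * mu * Δ * u) :
    ∃ Bd : Finset (ZMod p × ZMod p × ZMod p),
      (∀ x ∈ Bd, BadP (Δ : ZMod p) e u y v x.1 (x.2.1 - x.1) (x.2.2 - x.1)) ∧
      sieve3_c Δ p / p - 27 / (p : ℝ) ^ 2 ≤ (#Bd : ℝ) / (p : ℝ) ^ 3 ∧
      (#Bd : ℝ) / (p : ℝ) ^ 3 ≤ 5 / p := by
  classical
  have := Fact.mk hp
  have h1 := hl mu Δ e u y v p hp hΔ he hy hd
  rw [Set.ncard_eq_toFinset_card _ (Set.toFinite _)] at h1
  obtain ⟨t, ht, hc⟩ := exists_subset_card_eq (min_le_left #(Set.toFinite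
    {x : ZMod p × ZMod p × ZMod p | BadP (Δ : ZMod p) (e : ZMod p) (u : ZMod p) (y : ZMod p)
      (v : ZMod p) x.1 x.2.1 x.2.2}).toFinset (5 * p ^ 2))
  have hp0 : (0 : ℝ) < p := by exact_mod_cast hp.pos
  have hinj : Function.Injective
      fun x : ZMod p × ZMod p × ZMod p => (x.1, x.2.1 + x.1, x.2.2 + x.1) := by
    rintro ⟨a, b, c⟩ ⟨a', b', c'⟩ h
    simp only [Prod.mk.injEq] at h ⊢
    obtain ⟨rfl, h2, h3⟩ := h
    exact ⟨rfl, add_right_cancel h2, add_right_cancel h3⟩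
  refine ⟨t.image fun x => (x.1, x.2.1 + x.1, x.2.2 + x.1), fun x hx => ?_, ?_, ?_⟩
  · obtain ⟨x', hx', rfl⟩ := mem_image.1 hx
    simpa using ht hx'
  · rw [card_image_of_injective _ hinj, hc, le_div_iff₀ (by positivity)]
    have e1 : (sieve3_c Δ p / p - 27 / (p : ℝ) ^ 2) * (p : ℝ) ^ 3
        = sieve3_c Δ p * (p : ℝ) ^ 2 - 27 * p := by
      field_simp
    rw [e1]
    push_cast
    refine le_min h1 ?_
    have := mul_le_mul_of_nonneg_right (sieve3_c_le Δ p) (sq_nonneg (p : ℝ))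
    linarith
  · rw [card_image_of_injective _ hinj, hc, div_le_div_iff₀ (by positivity) hp0]
    push_cast
    exact (mul_le_mul_of_nonneg_right (min_le_right _ _) hp0.le).trans (le_of_eq (by ring))

theorem sieve3_nsq (mu : ℤ) : ¬ IsSquare (4 * mu ^ 2 - 1) := by
  rintro ⟨r, hr⟩
  rcases Int.even_or_odd' r with ⟨m, rfl | rfl⟩
  · have : 4 * (mu ^ 2 - m ^ 2) = 1 := by linear_combination hr
    omega
  · have : 4 * (mu ^ 2 - m ^ 2 - m) = 2 := by linear_combination hr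
    omega

theorem sieve3_ps (h1 : CS1Stmt) (h2 : CS2Stmt) (Δ : ℤ) (h0 : 0 < Δ) (hn : ¬ IsSquare Δ) :
    ∃ C : ℝ, 27 ≤ C ∧ ∀ z : ℕ, 2 ≤ z →
      3 / 2 * Real.log (Real.log z) - C ≤ PS (sieve3_c Δ) z := by
  obtain ⟨C₁, h1⟩ := h1
  obtain ⟨C₂, h3⟩ := h2 (-Δ) (by rintro ⟨r, hr⟩; nlinarith [mul_self_nonneg r])
  obtain ⟨C₃, h4⟩ := h2 (-1) (by rintro ⟨r, hr⟩; nlinarith [mul_self_nonneg r])
  obtain ⟨C₄, h5⟩ := h2 Δ hn
  refine ⟨max 27 (3 / 2 * C₁ + C₂ + C₃ + C₄), le_max_left _ _, fun z hz => ?_⟩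
  have e : PS (sieve3_c Δ) z = 3 / 2 * PS (fun _ => 1) z + PS (fun p => (jacobiSym (-Δ) p : ℝ)) z
      + PS (fun p => (jacobiSym (-1) p : ℝ)) z + PS (fun p => (jacobiSym Δ p : ℝ)) z := by
    simp only [PS, mul_sum, ← sum_add_distrib, sieve3_c_eq]
    exact sum_congr rfl fun p _ => by ring
  rw [e]
  linarith [(h1 z hz).1, (abs_le.1 (h3 z)).1, (abs_le.1 (h4 z)).1, (abs_le.1 (h5 z)).1,
    le_max_right 27 (3 / 2 * C₁ + C₂ + C₃ + C₄)]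

/-- recovering `k` from the reduced form and the matrix -/
def sieve3_k (β : ℤ × ℤ × ℤ) (x : ℕ × ℕ × ℕ) : ℕ :=
  ((QF β.1 β.2.1 β.2.2 ((x.2.1 : ℤ) - x.1) x.1 + QF β.1 β.2.1 β.2.2
    ((((x.2.1 : ℤ) - x.1) * ((x.2.2 : ℤ) - x.1) - 1) / x.1) ((x.2.2 : ℤ) - x.1) + 2) / 4).toNat

/-- the reduced forms -/
noncomputable def sieve3_B (Δ : ℤ) : Finset (ℤ × ℤ × ℤ) :=
  {β ∈ Icc (-(2 * Δ)) (2 * Δ) ×ˢ Icc (-(2 * Δ)) (2 * Δ) ×ˢ Icc (-(2 * Δ)) (2 * Δ) |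
    β.2.1 ^ 2 - β.1 * β.2.2 = Δ}

theorem sieve3_cover (hp : ParamStmt) (mu s a K k : ℕ) (hmu : 1 ≤ mu) (e : ℤ)
    (he : e = 1 ∨ e = -1) (hZ : 3 ≤ pZ s a) (hK : mu ^ 2 ≤ K) (hk : k ≤ K)
    (h : S11 mu s e a K k) :
    ∃ β ∈ sieve3_B (4 * (mu : ℤ) ^ 2 - 1), ∃ x : ℕ × ℕ × ℕ, sieve3_k β x = k ∧
      x.1 ≤ Nat.sqrt (12 * K) ∧ 0 < x.1 ∧ x.2.1 < 3 * x.1 ∧ x.2.2 < 3 * x.1 ∧
      x.2.1 * x.2.2 ≡ 1 [MOD x.1] ∧ ∀ p ∈ PP s a,
        ¬ BadP ((4 * (mu : ℤ) ^ 2 - 1 : ℤ) : ZMod p) e β.1 β.2.1 β.2.2 x.1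
          ((x.2.1 : ZMod p) - x.1) ((x.2.2 : ZMod p) - x.1) := by
  obtain ⟨hR, A, B, hF, hsq⟩ := h
  have hle : (F (mu ^ 2) k : ℤ) ≤ (K : ℤ) ^ 2 := by exact_mod_cast F_le hk hK
  rw [F_cast] at hF hle
  push_cast at hF hle
  have hmu' : (1 : ℤ) ≤ mu := by exact_mod_cast hmu
  obtain ⟨u, y, v, a', b, c, d, h1, h2, h3, h4, hdet, hc, ha, hd, hc4, halt⟩ :=
    hp (4 * (mu : ℤ) ^ 2 - 1) (2 * k - 1 - 2 * mu * A) (2 * mu * B) (2 * k - 1 + 2 * mu * A)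
      (by nlinarith) (sieve3_nsq mu) (by linear_combination 4 * hF)
  rw [abs_le] at h2 h3 h4 ha hd
  lift c to ℕ using hc.le
  obtain ⟨a₁, ha₁⟩ := Int.eq_ofNat_of_zero_le (show 0 ≤ a' + c by omega)
  obtain ⟨d₁, hd₁⟩ := Int.eq_ofNat_of_zero_le (show 0 ≤ d + c by omega)
  obtain rfl : a' = a₁ - c := by omega
  obtain rfl : d = d₁ - c := by omega
  refine ⟨(u, y, v), by simp [sieve3_B, h1, h2, h3, h4], (c, a₁, d₁), ?_, ?_, by omega,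
    by dsimp only; omega, by dsimp only; omega, ?_, fun p hpP => ?_⟩
  · have hb : (((a₁ : ℤ) - c) * (d₁ - c) - 1) / c = b :=
      Int.ediv_eq_of_eq_mul_left hc.ne' (by linear_combination hdet)
    have hs : QF u y v ((a₁ : ℤ) - c) c + QF u y v b (d₁ - c) + 2 = 4 * k := by
      rcases halt with ⟨h1, -, h3⟩ | ⟨h1, -, h3⟩ <;> linear_combination -h1 - h3
    simp only [sieve3_k, hb, hs]
    omega
  · rw [Nat.le_sqrt']
    have h5 : ((c : ℤ) ^ 2) ^ 2 ≤ (12 * K) ^ 2 := by nlinarith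
    exact_mod_cast (abs_le_of_sq_le_sq' h5 (by positivity)).2
  · exact Nat.modEq_iff_dvd.2 ⟨c - a₁ - d₁ - b, by push_cast; linear_combination -hdet⟩
  · simp only [PP, mem_filter, mem_Icc] at hpP
    have := Fact.mk hpP.2
    have hP : p ∈ PP s a := by simpa [PP] using hpP
    have h5 := sieve3_nb (K := ZMod p) ?_ mu k A B e u y v ((a₁ : ZMod p) - c) b c
      ((d₁ : ZMod p) - c) ?_ ?_ ?_ ?_ ?_ ?_
    · simpa using h5
    · intro h0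
      have := Nat.le_of_dvd two_pos ((ZMod.natCast_eq_zero_iff 2 p).1 (by exact_mod_cast h0))
      omega
    · rcases he with rfl | rfl <;> simp
    · simpa using congrArg (Int.cast : ℤ → ZMod p) hF
    · simpa [dvd_F_iff] using hR p hP
    · intro h5 h6
      simpa using hsq p hP ((ZMod.natCast_eq_natCast_iff _ _ _).1 (by simpa using h5)) h6
    · simpa using congrArg (Int.cast : ℤ → ZMod p) hdet
    · refine halt.imp ?_ ?_ <;> rintro ⟨h5, h6, h7⟩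
      all_goals
        exact ⟨by simpa [QF] using congrArg (Int.cast : ℤ → ZMod p) h5,
          by simpa [BF] using congrArg (Int.cast : ℤ → ZMod p) h6,
          by simpa [QF] using congrArg (Int.cast : ℤ → ZMod p) h7⟩

theorem sieve3_num (s a n K T : ℕ) (C P₁ P₂ : ℝ) (ha : 1 ≤ a) (hT : T ^ 2 ≤ 12 * K)
    (h1 : P₁ ≤ (a : ℝ) / (a : ℝ) ^ (3 * s)) (h2 : P₂ ≤ ((a : ℝ) + 1) ^ n) :
    9 * (T : ℝ) ^ 2 * P₁ + 9 * (T : ℝ) ^ 2 / 2 ^ (2 * a) * P₂ +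
      C * ((pz s a : ℝ) + 1) ^ (3 * (2 * a)) * (T : ℝ) ^ (95 / 48 : ℝ) ≤
    (108 + 12 * |C|) * (K * (a : ℝ) ^ 2 / (a : ℝ) ^ (3 * s) + K * (((a : ℝ) + 1) ^ n * (2 / 3) ^ a) +
      ((a : ℝ) + 1) ^ n * 2 ^ (12 * a ^ (2 * s + 2)) * (K : ℝ) ^ (1 - 1 / 96 : ℝ)) := by
  have ha' : (1 : ℝ) ≤ a := by exact_mod_cast ha
  have hT' : (T : ℝ) ^ 2 ≤ 12 * K := by exact_mod_cast hT
  have e1 : 9 * (T : ℝ) ^ 2 * P₁ ≤ 108 * (K * (a : ℝ) ^ 2 / (a : ℝ) ^ (3 * s)) :=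
    calc _ ≤ 9 * (T : ℝ) ^ 2 * ((a : ℝ) / (a : ℝ) ^ (3 * s)) := by gcongr
      _ ≤ 9 * (12 * K) * ((a : ℝ) ^ 2 / (a : ℝ) ^ (3 * s)) := by gcongr; nlinarith
      _ = _ := by ring
  have e2 : 9 * (T : ℝ) ^ 2 / 2 ^ (2 * a) * P₂ ≤ 108 * (K * (((a : ℝ) + 1) ^ n * (2 / 3) ^ a)) :=
    calc _ ≤ 9 * (T : ℝ) ^ 2 / 2 ^ (2 * a) * ((a : ℝ) + 1) ^ n := by gcongr
      _ = 9 * (T : ℝ) ^ 2 * (1 / 4) ^ a * ((a : ℝ) + 1) ^ n := by
        rw [pow_mul, one_div_pow]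
        norm_num
        left
        ring
      _ ≤ 9 * (12 * K) * (2 / 3) ^ a * ((a : ℝ) + 1) ^ n := by gcongr <;> norm_num
      _ = _ := by ring
  have e3 : ((pz s a : ℝ) + 1) ^ (3 * (2 * a)) ≤ 2 ^ (12 * a ^ (2 * s + 2)) := by
    have h3 : pz s a + 1 ≤ 2 ^ (2 * a ^ (2 * s)) := by
      have h4 : 2 ^ 1 ≤ pz s a := Nat.pow_le_pow_right two_pos (Nat.one_le_pow _ _ ha)
      rw [pow_mul', show 2 ^ a ^ (2 * s) = pz s a from rfl]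
      nlinarith
    have h4 : (pz s a + 1) ^ (3 * (2 * a)) ≤ 2 ^ (12 * a ^ (2 * s + 2)) := by
      refine (Nat.pow_le_pow_left h3 _).trans ?_
      rw [← pow_mul]
      refine Nat.pow_le_pow_right two_pos ?_
      calc _ = 12 * a ^ (2 * s + 1) := by ring
        _ ≤ _ := Nat.mul_le_mul_left _ (Nat.pow_le_pow_right ha (by omega))
    exact_mod_cast h4
  have e4 : (T : ℝ) ^ (95 / 48 : ℝ) ≤ 12 * (K : ℝ) ^ (1 - 1 / 96 : ℝ) :=
    calc _ = ((T : ℝ) ^ 2) ^ (1 - 1 / 96 : ℝ) := by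
          rw [← Real.rpow_natCast, ← Real.rpow_mul (by positivity)]
          norm_num
      _ ≤ (12 * K : ℝ) ^ (1 - 1 / 96 : ℝ) := by gcongr
      _ = 12 ^ (1 - 1 / 96 : ℝ) * (K : ℝ) ^ (1 - 1 / 96 : ℝ) :=
          Real.mul_rpow (by norm_num) (by positivity)
      _ ≤ _ := by
          gcongr
          exact Real.rpow_le_self_of_one_le (by norm_num) (by norm_num)
  have e5 : C * ((pz s a : ℝ) + 1) ^ (3 * (2 * a)) * (T : ℝ) ^ (95 / 48 : ℝ) ≤ 12 * |C| *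
      (((a : ℝ) + 1) ^ n * 2 ^ (12 * a ^ (2 * s + 2)) * (K : ℝ) ^ (1 - 1 / 96 : ℝ)) :=
    calc _ ≤ |C| * (1 * 2 ^ (12 * a ^ (2 * s + 2))) * (12 * (K : ℝ) ^ (1 - 1 / 96 : ℝ)) := by
          rw [one_mul]
          gcongr
          exact le_abs_self C
      _ ≤ |C| * (((a : ℝ) + 1) ^ n * 2 ^ (12 * a ^ (2 * s + 2))) *
          (12 * (K : ℝ) ^ (1 - 1 / 96 : ℝ)) := by
          gcongr
          exact one_le_pow₀ (by linarith)
      _ = _ := by ring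
  have p1 : 0 ≤ K * (a : ℝ) ^ 2 / (a : ℝ) ^ (3 * s) := by positivity
  have p2 : 0 ≤ K * (((a : ℝ) + 1) ^ n * (2 / 3) ^ a) := by positivity
  have p3 : 0 ≤ ((a : ℝ) + 1) ^ n * 2 ^ (12 * a ^ (2 * s + 2)) * (K : ℝ) ^ (1 - 1 / 96 : ℝ) := by
    positivity
  nlinarith [mul_nonneg (abs_nonneg C) p1, mul_nonneg (abs_nonneg C) p2]

theorem sparse_S11 (h1 : CS1Stmt) (h2 : CS2Stmt) (hm : MTStmt) (he : ETStmt) (hp : ParamStmt)
    (hs2 : SL2Stmt) (hl : LocalStmt) (mu s : ℕ) (hmu : 1 ≤ mu) (hs : 1 ≤ s) (e : ℤ)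
    (he1 : e = 1 ∨ e = -1) : Sparse s (S11 mu s e) := by
  classical
  have hmu' : (1 : ℤ) ≤ mu := by exact_mod_cast hmu
  obtain ⟨Δ, hΔ⟩ : ∃ Δ : ℤ, Δ = 4 * (mu : ℤ) ^ 2 - 1 := ⟨_, rfl⟩
  have h0 : 0 < Δ := by nlinarith
  have hn : ¬ IsSquare Δ := hΔ ▸ sieve3_nsq mu
  obtain ⟨C₁, hC₁, hps⟩ := sieve3_ps h1 h2 Δ h0 hn
  obtain ⟨C, hC⟩ := hs2
  obtain ⟨n, hn'⟩ := he s hs
  refine Sparse.of_bound (#(sieve3_B Δ) * (108 + 12 * |C|)) n 12 (1 / 96) (by norm_num) ?_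
  filter_upwards [hm s hs C₁ (by linarith), hn', eventually_ge_atTop 5,
    eventually_ge_atTop (mu ^ 2), eventually_gt_atTop (4 * mu * Δ ^ 2).toNat]
    with a hM hE ha5 hamu haΔ K hK
  have hZ : a ≤ pZ s a := Nat.le_self_pow (by omega) a
  have hz : 2 ≤ pz s a := Nat.pow_le_pow_right two_pos (Nat.one_le_pow (2 * s) a (by omega))
  have hPP : ∀ p ∈ PP s a, p.Prime ∧ a ≤ p ∧ p ≤ pz s a := fun p hp => by
    simp only [PP, mem_filter, mem_Icc] at hp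
    exact ⟨hp.2, hZ.trans hp.1.1, hp.1.2⟩
  have hlog : 0 ≤ Real.log (Real.log (pZ s a)) := by
    refine Real.log_nonneg ((Real.le_log_iff_exp_le ?_).2 ?_)
    · exact_mod_cast (by omega : 0 < pZ s a)
    · have : (5 : ℝ) ≤ pZ s a := by exact_mod_cast ha5.trans hZ
      linarith [Real.exp_one_lt_d9]
  have key : ∀ β : ℤ × ℤ × ℤ, ∃ W : Finset (ℕ × ℕ × ℕ), β ∈ sieve3_B Δ →
      (#W : ℝ) ≤ (108 + 12 * |C|) * (K * (a : ℝ) ^ 2 / (a : ℝ) ^ (3 * s) +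
        K * (((a : ℝ) + 1) ^ n * (2 / 3) ^ a) +
        ((a : ℝ) + 1) ^ n * 2 ^ (12 * a ^ (2 * s + 2)) * (K : ℝ) ^ (1 - 1 / 96 : ℝ)) ∧
      ∀ x : ℕ × ℕ × ℕ, x.1 ≤ Nat.sqrt (12 * K) → 0 < x.1 → x.2.1 < 3 * x.1 → x.2.2 < 3 * x.1 →
        x.2.1 * x.2.2 ≡ 1 [MOD x.1] → (∀ p ∈ PP s a, ¬ BadP (Δ : ZMod p) e β.1 β.2.1 β.2.2 x.1
          ((x.2.1 : ZMod p) - x.1) ((x.2.2 : ZMod p) - x.1)) → x ∈ W := by
    rintro ⟨u, y, v⟩
    by_cases hβ : (u, y, v) ∈ sieve3_B Δ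
    swap
    · exact ⟨∅, fun h => absurd h hβ⟩
    simp only [sieve3_B, mem_filter, mem_product, mem_Icc] at hβ
    obtain ⟨⟨hu, -⟩, hy⟩ := hβ
    have hu0 : u ≠ 0 := by
      rintro rfl
      exact hn ⟨y, by linear_combination -hy⟩
    have hb : ∀ p : ℕ, ∃ Bd : Finset (ZMod p × ZMod p × ZMod p), p ∈ PP s a →
        (∀ x ∈ Bd, BadP (Δ : ZMod p) e u y v x.1 (x.2.1 - x.1) (x.2.2 - x.1)) ∧
        sieve3_c Δ p / p - 27 / (p : ℝ) ^ 2 ≤ (#Bd : ℝ) / (p : ℝ) ^ 3 ∧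
        (#Bd : ℝ) / (p : ℝ) ^ 3 ≤ 5 / p := fun p => by
      by_cases hP : p ∈ PP s a
      swap
      · exact ⟨∅, fun h => absurd h hP⟩
      obtain ⟨Bd, hBd⟩ := sieve3_bad hl mu Δ e u y v p (hPP p hP).1 hΔ he1 hy fun hd => by
        have h3 := Int.le_of_dvd (abs_pos.2 (by positivity)) ((dvd_abs _ _).2 hd)
        rw [abs_mul, abs_of_pos (by positivity : 0 < 2 * (mu : ℤ) * Δ)] at h3
        have h4 := mul_le_mul_of_nonneg_left (abs_le.2 hu) (by positivity : 0 ≤ 2 * (mu : ℤ) * Δ)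
        have h5 := (hPP p hP).2.1
        have h6 : 2 * (mu : ℤ) * Δ * (2 * Δ) = 4 * mu * Δ ^ 2 := by ring
        omega
      exact ⟨Bd, fun _ => hBd⟩
    choose Bad hBad using hb
    have h3 := hC (PP s a) (pz s a) (2 * a) (Nat.sqrt (12 * K)) Bad
      (fun p hp => ⟨(hPP p hp).1, (hPP p hp).2.2⟩) (even_two_mul a)
      fun p hp x hx => ((hBad p hp).1 x hx).1
    refine ⟨_, fun _ => ⟨h3.trans (sieve3_num s a n K _ C _ _ (by omega) (Nat.sqrt_le' _)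
      (hM (fun p => (#(Bad p) : ℝ) / (p : ℝ) ^ 3) (sieve3_c Δ) (fun p _ => sieve3_c_le Δ p)
        (fun p hp => ⟨le_trans ?_ (hBad p hp).2.1, (hBad p hp).2.2.trans ?_⟩) ?_)
      (hE (fun p => (#(Bad p) : ℝ) / (p : ℝ) ^ 3) fun p hp => ⟨by positivity, (hBad p hp).2.2⟩)),
      fun x b1 b2 b3 b4 b5 b6 => ?_⟩⟩
    · gcongr
    · have : (5 : ℝ) ≤ p := by exact_mod_cast ha5.trans (hPP p hp).2.1
      exact div_le_one_of_le₀ this (by positivity)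
    · nlinarith [hps _ hz, mul_nonneg (by linarith : 0 ≤ C₁) hlog]
    · refine mem_filter.2 ⟨?_, b2, b3, b4, b5, fun p hp hx => b6 p hp ((hBad p hp).1 _ hx)⟩
      simp only [mem_product, mem_range]
      omega
  choose W hW using key
  refine (cnt_le_card ((sieve3_B Δ).biUnion fun β => (W β).image (sieve3_k β))
    fun k hk hS => ?_).trans ?_
  · obtain ⟨β, hβ, x, b0, b1, b2, b3, b4, b5, b6⟩ := sieve3_cover hp mu s a K k hmu e he1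
      (by omega) (hamu.trans hK.lt.le) hk hS
    rw [← hΔ] at hβ b6
    exact mem_biUnion.2 ⟨β, hβ, mem_image.2 ⟨x, (hW β hβ).2 x b1 b2 b3 b4 b5 b6, b0⟩⟩
  · rw [mul_assoc, ← nsmul_eq_mul]
    refine le_trans ?_ (sum_le_card_nsmul _ _ _ fun β hβ => (hW β hβ).1)
    exact_mod_cast card_biUnion_le.trans (sum_le_sum fun β _ => card_image_le)

end Pool.Agent.Lib.MP_0820eb_co.Dens
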