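import Pool.Agent.Lib.MP_0820eb_co.Dens.Defs
import Pool.Agent.Lib.MP_30b5ba_nt.Upper

/-! The sets `S7` and `S8` are sparse. -/

open Finset Filter

namespace Pool.Agent.Lib.MP_0820eb_co.Dens

theorem twoprimes_class {m k : ℕ} (h : m ∣ k ∨ m ∣ k - 1) : ∃ k₀ c, k₀ < 2 ∧ k = k₀ + c * m := by
  rcases h with ⟨c, hc⟩ | ⟨c, hc⟩
  · exact ⟨0, c, by norm_num, by rw [hc, mul_comm, zero_add]⟩
  · rcases Nat.eq_zero_or_pos k with rfl | h0
    · exact ⟨0, 0, by norm_num, by simp⟩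
    · exact ⟨1, c, by norm_num, by rw [mul_comm, ← hc]; omega⟩

theorem twoprimes_cnt (lam K : ℕ) {m r : ℕ} (hm : 0 < m) (hr : r.Prime) (hmr : m.Coprime r) :
    cnt K (fun k => k % m < 2 ∧ r ∣ F lam k) ≤ 4 * (((K : ℝ) + 1) / (m * r) + 1) := by
  have hA : Function.Periodic (fun k => k % m < 2) m := fun k => by simp
  have hP : Function.Periodic (fun k => k % m < 2 ∧ r ∣ F lam k) (m * r) := fun k => by
    have h1 : (k + m * r) % m = k % m := by simp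
    have h2 : k + m * r ≡ k [MOD r] := by simp [Nat.ModEq]
    simp only [h1, dvd_F_congr h2]
  have h1 := count_le (Nat.mul_pos hm hr.pos) _ hP (K + 1)
  rw [Pool.Agent.Shared.BrunSieve.count_mul_coprime hm hr.pos hmr _ _ hA (periodic_F lam r)] at h1
  have h2 : #{n ∈ range m | n % m < 2} ≤ 2 := by
    refine le_trans (card_le_card (t := range 2) fun n hn => ?_) (card_range 2).le
    obtain ⟨h3, h4⟩ := mem_filter.1 hn
    rw [Nat.mod_eq_of_lt (mem_range.1 h3)] at h4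
    exact mem_range.2 h4
  have h3 : ((#{n ∈ range m | n % m < 2} * #{n ∈ range r | r ∣ F lam n} : ℕ) : ℝ) ≤ 4 := by
    exact_mod_cast Nat.mul_le_mul h2 (roots_prime lam hr)
  rw [cnt_eq]
  refine h1.trans ?_
  push_cast at h3 ⊢
  exact mul_le_mul_of_nonneg_right h3 (by positivity)

theorem twoprimes_sum (T z : ℕ) (Y : ℝ) (hY : 0 ≤ Y) :
    ∑ p ∈ (Icc 1 T ×ˢ Ioo z (T + 1)).filter (fun p => p.1 * p.2 ≤ T),
      (Y / (p.1 * (p.2 : ℝ) ^ 2) + 1) ≤ (1 + Real.log T) * (Y * (2 / (z + 1)) + T) := by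
  have hH : ∑ j ∈ Icc 1 T, (j : ℝ)⁻¹ ≤ 1 + Real.log T := by
    have := harmonic_le_one_add_log T
    simpa only [harmonic_eq_sum_Icc, Rat.cast_sum, Rat.cast_inv, Rat.cast_natCast] using this
  refine le_trans ?_ (mul_le_mul_of_nonneg_right hH (by positivity))
  rw [sum_filter, sum_product, sum_mul]
  refine sum_le_sum fun j hj => ?_
  have hj1 : 0 < j := (mem_Icc.1 hj).1
  have hj0 : (0 : ℝ) < j := by exact_mod_cast hj1
  rw [← sum_filter, sum_add_distrib, mul_add]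
  refine add_le_add ?_ ?_
  · calc _ ≤ ∑ m ∈ Ioo z (T + 1), Y / (j * (m : ℝ) ^ 2) :=
          sum_le_sum_of_subset_of_nonneg (filter_subset _ _) fun m _ _ => by positivity
      _ = (j : ℝ)⁻¹ * (Y * ∑ m ∈ Ioo z (T + 1), ((m : ℝ) ^ 2)⁻¹) := by
          rw [mul_sum, mul_sum]
          exact sum_congr rfl fun m _ => by rw [div_eq_mul_inv, mul_inv]; ring
      _ ≤ _ := by
          have := sum_Ioo_inv_sq_le (α := ℝ) z (T + 1)
          gcongr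
  · have h1 : #{m ∈ Ioo z (T + 1) | j * m ≤ T} ≤ T / j := by
      refine le_trans (card_le_card (t := Icc 1 (T / j)) fun m hm => ?_) (by simp)
      obtain ⟨h2, h3⟩ := mem_filter.1 hm
      have := (mem_Ioo.1 h2).1
      exact mem_Icc.2 ⟨by omega, (Nat.le_div_iff_mul_le hj1).2 (by rwa [mul_comm])⟩
    rw [sum_const, nsmul_eq_mul, mul_one, ← div_eq_inv_mul]
    exact le_trans (by exact_mod_cast h1) Nat.cast_div_le

theorem sparse_S7 (lam s : ℕ) (hs : 1 ≤ s) : Sparse s (S7 lam s) := by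
  refine Sparse.of_bound 32 (2 * s + 3) 0 (1 / 10) (by norm_num) ?_
  filter_upwards [eventually_ge_atTop 1] with a ha K hK
  have hK1 : (1 : ℝ) ≤ K := by exact_mod_cast hK.pos
  obtain ⟨x, hx⟩ : ∃ x : ℝ, x = (K : ℝ) ^ (1 - 1 / 10 : ℝ) := ⟨_, rfl⟩
  have hx0 : 0 ≤ x := by rw [hx]; positivity
  have hx10 : x ^ 10 = (K : ℝ) ^ 9 := by
    rw [hx, ← Real.rpow_natCast, ← Real.rpow_mul (by positivity), ← Real.rpow_natCast]
    norm_num
  have hxK : x ≤ K := by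
    rw [hx]
    exact Real.rpow_le_self_of_one_le hK1 (by norm_num)
  have hT : (⌊x⌋₊ : ℝ) ≤ x := Nat.floor_le hx0
  have hz : 2 ^ a ≤ pz s a := Nat.pow_le_pow_right (by norm_num) (Nat.le_self_pow (by omega) a)
  have hz2 : 2 ≤ pz s a := le_trans (Nat.le_self_pow (by omega) 2) hz
  have h1 := cnt_le_sum (K := K) (S := S7 lam s a K)
    (((Icc 1 ⌊x⌋₊ ×ˢ Ioo (pz s a) (⌊x⌋₊ + 1)).filter fun p => p.1 * p.2 ≤ ⌊x⌋₊).filter
      fun p => (p.1 * p.2 + 1).Prime)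
    (fun p k => k % p.2 < 2 ∧ p.1 * p.2 + 1 ∣ F lam k) (by
      rintro k - ⟨m, r, hr, hd, hr9, hm, ⟨j, hj⟩, hk⟩
      have hr2 := hr.two_le
      have e : r = j * m + 1 := by rw [mul_comm]; omega
      have hj0 : 0 < j := Nat.pos_of_ne_zero (by rintro rfl; omega)
      have hrx : r ≤ ⌊x⌋₊ := by
        refine Nat.le_floor (le_of_pow_le_pow_left₀ (n := 10) (by norm_num) hx0 ?_)
        rw [hx10]
        exact_mod_cast hr9.le
      have h2 : j ≤ j * m := Nat.le_mul_of_pos_right _ (by omega)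
      have h3 : m ≤ j * m := Nat.le_mul_of_pos_left _ hj0
      refine ⟨(j, m), mem_filter.2 ⟨mem_filter.2 ⟨mem_product.2
        ⟨mem_Icc.2 ⟨hj0, by omega⟩, mem_Ioo.2 ⟨hm, by omega⟩⟩, (by omega : j * m ≤ _)⟩,
        e ▸ hr⟩, ?_, e ▸ hd⟩
      obtain ⟨k₀, c, h4, rfl⟩ := twoprimes_class hk
      rw [Nat.add_mul_mod_self_right]
      exact lt_of_le_of_lt (Nat.mod_le _ _) h4)
  have h2 := twoprimes_sum ⌊x⌋₊ (pz s a) ((K : ℝ) + 1) (by positivity)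
  have h3 : cnt K (S7 lam s a K) ≤
      4 * ((1 + Real.log ⌊x⌋₊) * (((K : ℝ) + 1) * (2 / (pz s a + 1)) + ⌊x⌋₊)) := by
    refine h1.trans (le_trans ?_ (mul_le_mul_of_nonneg_left h2 (by norm_num)))
    rw [mul_sum]
    refine le_trans (sum_le_sum fun p hp => ?_)
      (sum_le_sum_of_subset_of_nonneg (filter_subset _ _) fun p _ _ => by positivity)
    obtain ⟨h4, h5⟩ := mem_filter.1 hp
    obtain ⟨h6, h7⟩ := mem_product.1 (mem_filter.1 h4).1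
    have h8 : 0 < p.2 := lt_of_le_of_lt (Nat.zero_le _) (mem_Ioo.1 h7).1
    have h9 : (0 : ℝ) < p.1 := by exact_mod_cast (mem_Icc.1 h6).1
    have h10 : (0 : ℝ) < p.2 := by exact_mod_cast h8
    refine (twoprimes_cnt lam K h8 h5 (by simp)).trans ?_
    push_cast
    have h11 : (p.1 : ℝ) * (p.2 : ℝ) ^ 2 ≤ p.2 * (p.1 * p.2 + 1) := by nlinarith
    gcongr
  have h4 : 1 + Real.log ⌊x⌋₊ ≤ 2 * ((a : ℝ) + 1) ^ (2 * s + 3) := by
    have h5 : Real.log ⌊x⌋₊ ≤ Real.log K := by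
      rcases Nat.eq_zero_or_pos ⌊x⌋₊ with h | h
      · rw [h, Nat.cast_zero, Real.log_zero]
        exact Real.log_nonneg hK1
      · exact Real.log_le_log (by exact_mod_cast h) (hT.trans hxK)
    have h6 : (1 : ℝ) ≤ ((a : ℝ) + 1) ^ (2 * s + 3) :=
      one_le_pow₀ (by linarith [Nat.cast_nonneg (α := ℝ) a])
    linarith [hK.log_le]
  have h5 : (2 : ℝ) / (pz s a + 1) ≤ 2 * (2 / 3) ^ a := by
    have h6 : (2 : ℝ) ^ a ≤ pz s a := by exact_mod_cast hz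
    have h7 : (1 : ℝ) ≤ 2 ^ a * (2 / 3) ^ a := by
      rw [← mul_pow]
      exact one_le_pow₀ (by norm_num)
    have h8 : (0 : ℝ) < (2 / 3) ^ a := by positivity
    rw [div_le_iff₀ (by positivity)]
    nlinarith
  have h6 : ((K : ℝ) + 1) * (2 / (pz s a + 1)) ≤ 2 * K * (2 * (2 / 3) ^ a) :=
    mul_le_mul (by linarith) h5 (by positivity) (by positivity)
  have h7 := mul_le_mul h4 (add_le_add h6 hT) (by positivity) (by positivity)
  have h8 : 0 ≤ (K : ℝ) * (a : ℝ) ^ 2 / (a : ℝ) ^ (3 * s) := by positivity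
  have h9 : 0 ≤ ((a : ℝ) + 1) ^ (2 * s + 3) * x := by positivity
  rw [zero_mul, pow_zero, mul_one, ← hx]
  linarith

/-- the relations satisfied by an element of `S8` -/
def TwoPrimesRel (lam K k₀ c : ℕ) (e : ℤ) (a₁ k : ℕ) : Prop :=
  ∃ m a₂ : ℕ, 0 < a₁ ∧ 0 < a₂ ∧ k = k₀ + c * m ∧ (c : ℤ) ^ 2 - e = lam * a₁ * a₂ ∧ e ≠ 0 ∧
    m * e = lam * (a₁ + a₂) - (2 * k₀ - 1) * c ∧ lam * a₁ * a₂ ≤ K ^ 2

theorem twoprimes_rel_le {lam : ℕ} (hl : 1 ≤ lam) (K k₀ c : ℕ) (e : ℤ) (a₁ : ℕ) :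
    cnt K (TwoPrimesRel lam K k₀ c e a₁) ≤ 1 := by
  classical
  rw [cnt_eq]
  refine Nat.cast_le_one.2 (card_le_one.2 fun k hk k' hk' => ?_)
  obtain ⟨m, a₂, h1, -, h2, h3, h4, h5, -⟩ := (mem_filter.1 hk).2
  obtain ⟨m', a₂', -, -, h2', h3', -, h5', -⟩ := (mem_filter.1 hk').2
  have h6 : (lam : ℤ) * a₁ ≠ 0 := by positivity
  have h7 : (a₂ : ℤ) = a₂' := mul_left_cancel₀ h6 (h3.symm.trans h3')
  rw [← h7, ← h5] at h5'
  have h8 : m' = m := by exact_mod_cast mul_right_cancel₀ h4 h5'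
  rw [h2, h2', h8]

theorem twoprimes_rel {lam K k : ℕ} (hl : 1 ≤ lam) (hlK : lam ≤ K) (hK : 1 < K) (hk : k ≤ K)
    {x : ℝ} (hx : 1 ≤ x) (hx20 : x ^ 20 = K) {a : ℕ} (h : S8 lam a K k) :
    ∃ (k₀ c : ℕ) (e : ℤ) (a₁ : ℕ), k₀ < 2 ∧ (c : ℝ) ≤ x ^ 12 ∧
      |(e : ℝ)| ≤ (2 * lam + 1) * x ^ 6 ∧ TwoPrimesRel lam K k₀ c e a₁ k := by
  obtain ⟨m, r₁, r₂, h1, h2, h3, h4, ⟨a₁, h5⟩, ⟨a₂, h6⟩, h7⟩ := h
  obtain ⟨k₀, c, hk₀, rfl⟩ := twoprimes_class h7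
  have hx0 : 0 < x := by linarith
  have hr : ∀ r : ℕ, K ^ 9 ≤ r ^ 10 → 2 ≤ r := fun r hr => by
    by_contra h
    have h8 : r ^ 10 ≤ 1 ^ 10 := Nat.pow_le_pow_left (by omega) 10
    have h9 : 1 < K ^ 9 := Nat.one_lt_pow (by norm_num) hK
    omega
  have hr1 := hr r₁ h2
  have hr2 := hr r₂ h3
  obtain rfl : r₁ = m * a₁ + 1 := by omega
  obtain rfl : r₂ = m * a₂ + 1 := by omega
  have ha1 : 0 < a₁ := Nat.pos_of_ne_zero (by rintro rfl; simp at hr1)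
  have ha2 : 0 < a₂ := Nat.pos_of_ne_zero (by rintro rfl; simp at hr2)
  have hm0 : 0 < m := Nat.pos_of_ne_zero (by rintro rfl; simp at hr1)
  have hF := F_le hk hlK
  rw [← h1] at hF
  have hrr : (m * a₁ + 1) * (m * a₂ + 1) ≤ K ^ 2 := le_trans (Nat.le_mul_of_pos_left _ hl) hF
  have hm : x ^ 8 ≤ m := by
    refine le_of_pow_le_pow_left₀ (n := 5) (by norm_num) (by positivity) ?_
    calc (x ^ 8) ^ 5 = (x ^ 20) ^ 2 := by ring
      _ ≤ _ := by rw [hx20]; exact_mod_cast h4.le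
  have hlow : ∀ r : ℕ, K ^ 9 ≤ r ^ 10 → x ^ 18 ≤ r := fun r hr => by
    refine le_of_pow_le_pow_left₀ (n := 10) (by norm_num) (by positivity) ?_
    calc (x ^ 18) ^ 10 = (x ^ 20) ^ 9 := by ring
      _ ≤ _ := by rw [hx20]; exact_mod_cast hr
  have hup : ∀ b b' : ℕ, K ^ 9 ≤ (m * b' + 1) ^ 10 → (m * b + 1) * (m * b' + 1) ≤ K ^ 2 →
      (b : ℝ) ≤ x ^ 14 := fun b b' hb hbb => by
    have e1 := hlow _ hb
    have e2 : ((m : ℝ) * b + 1) * ((m * b' + 1 : ℕ) : ℝ) ≤ (x ^ 20) ^ 2 := by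
      rw [hx20]
      exact_mod_cast hbb
    have e3 : x ^ 8 * b * x ^ 18 ≤ ((m : ℝ) * b + 1) * ((m * b' + 1 : ℕ) : ℝ) := by
      gcongr
      have := mul_le_mul_of_nonneg_right hm (Nat.cast_nonneg (α := ℝ) b)
      linarith
    refine le_of_mul_le_mul_right (a := x ^ 26) ?_ (by positivity)
    calc b * x ^ 26 = x ^ 8 * b * x ^ 18 := by ring
      _ ≤ (x ^ 20) ^ 2 := e3.trans e2
      _ = _ := by ring
  have hb1 := hup a₁ a₂ h3 hrr
  have hb2 := hup a₂ a₁ h2 (by rwa [mul_comm])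
  have hc : (c : ℝ) ≤ x ^ 12 := by
    have e1 : (c : ℝ) * m ≤ x ^ 20 := by
      rw [hx20]
      exact_mod_cast le_trans (Nat.le_add_left _ _) hk
    refine le_of_mul_le_mul_right (a := x ^ 8) ?_ (by positivity)
    calc c * x ^ 8 ≤ c * m := by gcongr
      _ ≤ x ^ 20 := e1
      _ = _ := by ring
  have hk2 : (k₀ : ℤ) ^ 2 = k₀ := by interval_cases k₀ <;> simp
  have hid : (m : ℤ) * (c ^ 2 - lam * a₁ * a₂) = lam * (a₁ + a₂) - (2 * k₀ - 1) * c := by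
    have e1 := F_cast lam (k₀ + c * m)
    rw [← h1] at e1
    push_cast at e1
    refine mul_left_cancel₀ (a := (m : ℤ)) (by positivity) ?_
    linear_combination -e1 - hk2
  refine ⟨k₀, c, c ^ 2 - lam * a₁ * a₂, a₁, hk₀, hc, ?_, m, a₂, ha1, ha2, rfl, by ring, ?_, hid, ?_⟩
  · have e1 : (m : ℝ) * ((c ^ 2 - lam * a₁ * a₂ : ℤ) : ℝ) =
        lam * (a₁ + a₂) - (2 * k₀ - 1) * c := by exact_mod_cast hid
    have e2 : |(lam : ℝ) * (a₁ + a₂) - (2 * k₀ - 1) * c| ≤ (2 * lam + 1) * x ^ 14 := by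
      have e3 : x ^ 12 ≤ x ^ 14 := pow_le_pow_right₀ hx (by norm_num)
      have e4 : (0 : ℝ) ≤ lam * (a₁ + a₂) := by positivity
      have e5 : (lam : ℝ) * (a₁ + a₂) ≤ lam * (x ^ 14 + x ^ 14) := by gcongr
      have e6 : (0 : ℝ) ≤ c := by positivity
      have e7 : (0 : ℝ) ≤ lam * x ^ 14 := by positivity
      rw [abs_le]
      interval_cases k₀ <;> constructor <;> push_cast <;> linarith
    rw [← e1, abs_mul, Nat.abs_cast] at e2
    refine le_of_mul_le_mul_left (a := x ^ 8) ?_ (by positivity)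
    calc _ ≤ _ := mul_le_mul_of_nonneg_right hm (abs_nonneg _)
      _ ≤ (2 * lam + 1) * x ^ 14 := e2
      _ = _ := by ring
  · intro h0
    rw [h0, mul_zero] at hid
    have e1 : ((2 * k₀ - 1 : ℤ)) ^ 2 = 1 := by linear_combination 4 * hk2
    have e2 : (lam : ℤ) * (lam * (a₁ + a₂) ^ 2) = lam * (a₁ * a₂) := by
      linear_combination (-(lam * (a₁ + a₂)) - (2 * k₀ - 1) * c) * hid + c ^ 2 * e1 + h0
    have e3 := mul_left_cancel₀ (by positivity) e2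
    have e4 : (1 : ℤ) ≤ lam := by exact_mod_cast hl
    have e5 : (0 : ℤ) < a₁ := by exact_mod_cast ha1
    have e6 : (0 : ℤ) < a₂ := by exact_mod_cast ha2
    nlinarith [sq_nonneg ((a₁ : ℤ) + a₂), mul_pos e5 e6]
  · refine le_trans ?_ hF
    rw [mul_assoc]
    refine Nat.mul_le_mul_left _ (Nat.mul_le_mul ?_ ?_)
    · exact le_trans (Nat.le_mul_of_pos_left _ hm0) (Nat.le_succ _)
    · exact le_trans (Nat.le_mul_of_pos_left _ hm0) (Nat.le_succ _)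

theorem sparse_S8 (lam s : ℕ) (hl : 1 ≤ lam) : Sparse s (S8 lam) := by
  obtain ⟨C, hC0, hC⟩ := Pool.Agent.Lib.MP_30b5ba_nt.exists_divisor_bound
    (δ := 1 / 20) (by norm_num)
  refine Sparse.of_bound (4 * (4 * lam + 3) * C) 0 0 (1 / 20) (by norm_num) ?_
  filter_upwards [eventually_ge_atTop lam] with a ha K hK
  have hlt := hK.lt
  have hK1 : (1 : ℝ) ≤ K := by exact_mod_cast hK.pos
  obtain ⟨T, hT, hTC⟩ := hC K hK.pos
  obtain ⟨x, hx⟩ : ∃ x : ℝ, x = (K : ℝ) ^ (1 / 20 : ℝ) := ⟨_, rfl⟩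
  have hx1 : 1 ≤ x := by rw [hx]; exact Real.one_le_rpow hK1 (by norm_num)
  have hx20 : x ^ 20 = K := by
    rw [hx, ← Real.rpow_natCast, ← Real.rpow_mul (by positivity)]
    norm_num
  have hx19 : (K : ℝ) ^ (1 - 1 / 20 : ℝ) = x ^ 19 := by
    rw [hx, ← Real.rpow_natCast, ← Real.rpow_mul (by positivity)]
    norm_num
  rw [← hx] at hTC
  obtain ⟨E, hE⟩ : ∃ E : ℕ, E = ⌊(2 * lam + 1) * x ^ 6⌋₊ := ⟨_, rfl⟩
  have h1 := cnt_le_sum (K := K) (S := S8 lam a K)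
    (range 2 ×ˢ range (⌊x ^ 12⌋₊ + 1) ×ˢ Icc (-(E : ℤ)) E)
    (fun p k => ∃ a₁, TwoPrimesRel lam K p.1 p.2.1 p.2.2 a₁ k) (by
      intro k hk h
      obtain ⟨k₀, c, e, a₁, h2, h3, h4, h5⟩ :=
        twoprimes_rel hl (by omega) (by omega) hk hx1 hx20 h
      refine ⟨(k₀, c, e), mem_product.2 ⟨mem_range.2 h2, mem_product.2
        ⟨mem_range.2 (Nat.lt_succ_of_le (Nat.le_floor h3)), mem_Icc.2 (abs_le.1 ?_)⟩⟩, a₁, h5⟩
      have h6 : e.natAbs ≤ E := by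
        rw [hE]
        refine Nat.le_floor ?_
        rwa [Nat.cast_natAbs, Int.cast_abs]
      rw [← Int.natCast_natAbs]
      exact_mod_cast h6)
  have h2 : ∀ (k₀ c : ℕ) (e : ℤ), cnt K (fun k => ∃ a₁, TwoPrimesRel lam K k₀ c e a₁ k) ≤ T := by
    intro k₀ c e
    refine (cnt_le_sum (min ((c : ℤ) ^ 2 - e).toNat (K ^ 2)).divisors
      (TwoPrimesRel lam K k₀ c e) ?_).trans ?_
    · rintro k - ⟨a₁, h⟩
      refine ⟨a₁, ?_, h⟩
      obtain ⟨m, a₂, h3, h4, -, h5, -, -, h6⟩ := h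
      have h7 : ((c : ℤ) ^ 2 - e).toNat = lam * a₁ * a₂ := by
        rw [h5]
        exact_mod_cast Int.toNat_natCast (lam * a₁ * a₂)
      rw [h7, min_eq_left h6]
      exact Nat.mem_divisors.2 ⟨⟨lam * a₂, by ring⟩, by positivity⟩
    · refine (sum_le_card_nsmul _ _ 1 fun a₁ _ => twoprimes_rel_le hl K k₀ c e a₁).trans ?_
      rw [nsmul_eq_mul, mul_one]
      exact_mod_cast hT _ (min_le_right _ _)
  have h3 := h1.trans (sum_le_card_nsmul _ _ _ fun p _ => h2 p.1 p.2.1 p.2.2)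
  rw [nsmul_eq_mul, card_product, card_product, card_range, card_range, Int.card_Icc,
    show ((E : ℤ) + 1 - -E).toNat = 2 * E + 1 by omega] at h3
  push_cast at h3
  have h4 : (⌊x ^ 12⌋₊ : ℝ) + 1 ≤ 2 * x ^ 12 := by
    have := Nat.floor_le (a := x ^ 12) (by positivity)
    have : 1 ≤ x ^ 12 := one_le_pow₀ hx1
    linarith
  have h5 : 2 * (E : ℝ) + 1 ≤ (4 * lam + 3) * x ^ 6 := by
    have := Nat.floor_le (a := (2 * lam + 1) * x ^ 6) (by positivity)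
    have : 1 ≤ x ^ 6 := one_le_pow₀ hx1
    rw [hE]
    linarith
  have h6 : cnt K (S8 lam a K) ≤ 4 * (4 * lam + 3) * C * x ^ 19 :=
    calc _ ≤ _ := h3
      _ ≤ 2 * (2 * x ^ 12 * ((4 * lam + 3) * x ^ 6)) * (C * x) := by gcongr
      _ = _ := by ring
  refine h6.trans (mul_le_mul_of_nonneg_left ?_ (by positivity))
  rw [zero_mul, pow_zero, pow_zero, one_mul, one_mul, one_mul, hx19]
  exact le_add_of_nonneg_left (by positivity)

end Pool.Agent.Lib.MP_0820eb_co.Dens
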