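import Pool.Agent.Lib.MP_0820eb_co.Dens.Alg
import Pool.Agent.Lib.MP_0820eb_co.Dens.Chain
import Pool.Agent.Lib.MP_0820eb_co.Dens.CharSum
import Pool.Agent.Lib.MP_0820eb_co.Dens.Cover
import Pool.Agent.Lib.MP_0820eb_co.Dens.Easy
import Pool.Agent.Lib.MP_0820eb_co.Dens.Kloost
import Pool.Agent.Lib.MP_0820eb_co.Dens.Local
import Pool.Agent.Lib.MP_0820eb_co.Dens.MainTerm
import Pool.Agent.Lib.MP_0820eb_co.Dens.Omega
import Pool.Agent.Lib.MP_0820eb_co.Dens.Order
import Pool.Agent.Lib.MP_0820eb_co.Dens.Param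
import Pool.Agent.Lib.MP_0820eb_co.Dens.Quartic
import Pool.Agent.Lib.MP_0820eb_co.Dens.SL2Sieve
import Pool.Agent.Lib.MP_0820eb_co.Dens.Sieve1
import Pool.Agent.Lib.MP_0820eb_co.Dens.Sieve3
import Pool.Agent.Lib.MP_0820eb_co.Dens.TwoPrimes

/-!
Abelian difference sets with fixed `λ ≥ 2`: the block sizes form a sparse set.
-/

open Finset Filter

namespace Pool.Agent.Lib.MP_0820eb_co.Dens

theorem arith_of_isDS {G : Type} [CommGroup G] [Fintype G] [DecidableEq G] {lam : ℕ}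
    {D : Finset G} (hD : IsDS lam D) (hl : 2 ≤ lam) (hk : lam < #D) :
    Arith lam (Fintype.card G) #D where
  eq := hD.eq_F
  mann := fun _ _ hp hr h2 hn hn2 hrv j => hD.mann hl hk hp hr h2 hn hn2 hrv j
  mult := fun Z B u hu hp hB hZ => by
    obtain ⟨hc, D', hD', hcard, hfix⟩ := hD.exists_fixed (by omega) hk hp hu
    rw [← hcard] at hk hZ ⊢
    exact mult_of_fixed hD' hk u hc hfix hD'.eq_F Z B hB hZ (by omega)

theorem sparse_arith (lam s : ℕ) (hl : 2 ≤ lam) (hs : 1 ≤ s) :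
    Sparse s (fun _ _ k => k ≤ lam ∨ ∃ v, Arith lam v k) := by
  have h9 : Sparse s (fun a K k => ¬ IsSquare (lam : ℤ) ∧ S9 lam s lam a K k) := by
    by_cases h : IsSquare (lam : ℤ)
    · exact (Sparse.of_false s).mono (Eventually.of_forall fun _ _ _ _ _ h' => h'.1 h)
    · exact (sparse_S9 cs1 cs2 lam s (by omega) hs lam h).mono
        (Eventually.of_forall fun _ _ _ _ _ h' => h'.2)
  have h9' : Sparse s (S9 lam s (-(lam : ℤ))) := by
    refine sparse_S9 cs1 cs2 lam s (by omega) hs _ ?_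
    rintro ⟨x, hx⟩
    have : (2 : ℤ) ≤ lam := by exact_mod_cast hl
    nlinarith [mul_self_nonneg x]
  have h11 : Sparse s (fun a K k =>
      ∃ mu : ℕ, lam = mu ^ 2 ∧ (S11 mu s 1 a K k ∨ S11 mu s (-1) a K k)) := by
    by_cases h : ∃ mu : ℕ, lam = mu ^ 2
    · obtain ⟨mu, hmu⟩ := h
      have h1 : 1 ≤ mu := by
        rcases Nat.eq_zero_or_pos mu with rfl | h0
        · simp at hmu
          omega
        · exact h0
      have := fun e he => sparse_S11 cs1 cs2 (mt cs1) (et cs1) param (sl2 klo) local_density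
        mu s h1 hs e he
      refine ((this 1 (Or.inl rfl)).or (this (-1) (Or.inr rfl))).mono
        (Eventually.of_forall fun _ _ _ _ _ h' => ?_)
      obtain ⟨mu', h2, h3⟩ := h'
      have : mu' = mu := Nat.pow_left_injective two_ne_zero (h2.symm.trans hmu)
      rwa [this] at h3
    · exact (Sparse.of_false s).mono
        (Eventually.of_forall fun _ _ _ _ _ ⟨mu, h1, _⟩ => h ⟨mu, h1⟩)
  have hall := (sparse_S0 lam s).or <| (sparse_S1 lam s (by omega)).or <|
    (sparse_S2 lam s hs).or <| (sparse_S3 lam s hs).or <| (sparse_S4 lam s hl hs).or <|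
    (sparse_S5 lam s hl hs).or <| (sparse_S6 lam s (by omega) hs).or <|
    (sparse_S7 lam s hs).or <| (sparse_S8 lam s (by omega)).or <| h9'.or <| h9.or <|
    (sparse_S10 cs1 cs2 cs3 lam s (by omega) hs).or h11
  refine hall.mono ?_
  filter_upwards [cover quartic lam s hl hs] with a ha K hK k hk h
  rcases h with h | ⟨v, hv⟩
  · exact Or.inl (Or.inl h)
  · exact ha K hK k v hk hv

theorem card_rep {G : Type} [CommGroup G] [Fintype G] [DecidableEq G] (D : Set G)
    [DecidablePred (· ∈ D)] (g : G) :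
    Set.ncard {p : G × G | p.1 ∈ D ∧ p.2 ∈ D ∧ p.1 * p.2⁻¹ = g} =
      #{y ∈ D.toFinset | g * y ∈ D.toFinset} := by
  rw [← Set.ncard_coe_finset]
  refine Set.ncard_congr (fun p _ => p.2) ?_ ?_ ?_
  · rintro ⟨x, y⟩ ⟨h1, h2, rfl⟩
    simpa [h2] using h1
  · rintro ⟨x, y⟩ ⟨x', y'⟩ ⟨-, -, h3⟩ ⟨-, -, h3'⟩ h
    simp only at h h3 h3'
    subst h
    rw [mul_right_cancel (h3.trans h3'.symm)]
  · intro y hy
    simp only [coe_filter, Set.mem_toFinset, Set.mem_ofPred_eq] at hy
    exact ⟨(g * y, y), ⟨hy.2, hy.1, by simp⟩, rfl⟩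

theorem density (lam : ℕ) (hl : 1 < lam) (ε : ℝ) (hε : 0 < ε) : ∃ C : ℝ, ∀ X : ℕ, 2 ≤ X →
    (Set.ncard {v : ℕ | v ≤ X ∧ ∃ (G : Type) (_ : CommGroup G) (_ : Finite G),
        Nat.card G = v ∧ ∃ D : Set G, ∀ g : G, g ≠ 1 →
          Set.ncard {p : G × G | p.1 ∈ D ∧ p.2 ∈ D ∧ p.1 * p.2⁻¹ = g} = lam} : ℝ) ≤
      C * Real.sqrt X / Real.log X ^ (3 / 2 - ε) := by
  classical
  obtain ⟨C, hC⟩ := final (fun k => k ≤ lam ∨ ∃ v, Arith lam v k)
    (fun s hs => sparse_arith lam s hl hs) ε hε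
  set θ : ℝ := 3 / 2 - ε with hθ
  set c : ℝ := 2 * (1 + Real.log lam) with hc
  have hlam : (2 : ℝ) ≤ lam := by exact_mod_cast hl
  have hlog : 0 ≤ Real.log lam := Real.log_nonneg (by linarith)
  refine ⟨|C| * (2 * Real.sqrt lam) * (2 ^ θ + c ^ (-θ)), fun X hX => ?_⟩
  set K := Nat.sqrt (lam * X) + 1 with hK
  have hX2 : (2 : ℝ) ≤ X := by exact_mod_cast hX
  have hKsq : lam * X < K * K := Nat.lt_succ_sqrt _
  have hK2 : 2 ≤ K := by
    by_contra h
    have : K * K ≤ 1 * 1 := Nat.mul_le_mul (by omega) (by omega)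
    nlinarith
  have hKle : K ≤ lam * X := by
    have := Nat.sqrt_lt_self (show 1 < lam * X by nlinarith)
    omega
  have h1 : (Set.ncard {v : ℕ | v ≤ X ∧ ∃ (G : Type) (_ : CommGroup G) (_ : Finite G),
        Nat.card G = v ∧ ∃ D : Set G, ∀ g : G, g ≠ 1 →
          Set.ncard {p : G × G | p.1 ∈ D ∧ p.2 ∈ D ∧ p.1 * p.2⁻¹ = g} = lam} : ℝ) ≤
      cnt K (fun k => k ≤ lam ∨ ∃ v, Arith lam v k) := by
    rw [cnt_eq]
    refine Nat.cast_le.2 (le_trans ?_ (card_image_le (f := fun k => F lam k / lam)))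
    rw [← Set.ncard_coe_finset]
    refine Set.ncard_le_ncard ?_ (finite_toSet _)
    rintro v ⟨hv, G, _, _, rfl, D, hD⟩
    have := Fintype.ofFinite G
    have hD' : IsDS lam D.toFinset := fun g hg => (card_rep D g).symm.trans (hD g hg)
    have e := hD'.eq_F
    rw [Nat.card_eq_fintype_card] at hv ⊢
    simp only [coe_image, coe_filter, mem_range, Set.mem_image, Set.mem_ofPred_eq]
    refine ⟨#D.toFinset, ⟨?_, ?_⟩, by rw [← e, Nat.mul_div_cancel_left _ (by omega)]⟩
    · have h2 : F lam #D.toFinset ≤ lam * X := e ▸ Nat.mul_le_mul_left _ hv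
      unfold F at h2
      by_contra h3
      have h4 : K ≤ #D.toFinset - 1 := by omega
      have : K * K ≤ #D.toFinset * (#D.toFinset - 1) := Nat.mul_le_mul (by omega) h4
      omega
    · rcases le_or_gt (#D.toFinset) lam with h | h
      · exact Or.inl h
      · exact Or.inr ⟨_, arith_of_isDS hD' hl h⟩
  have hK2' : (2 : ℝ) ≤ K := by exact_mod_cast hK2
  have hlX : 0 < Real.log X := Real.log_pos (by linarith)
  have hlK : 0 < Real.log K := Real.log_pos (by linarith)
  have h2 : (K : ℝ) ≤ 2 * Real.sqrt lam * Real.sqrt X := by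
    have e1 : ((Nat.sqrt (lam * X) : ℕ) : ℝ) ≤ Real.sqrt lam * Real.sqrt X := by
      rw [← Real.sqrt_mul (by positivity)]
      have := Real.nat_sqrt_le_real_sqrt (a := lam * X)
      push_cast at this
      exact this
    have e2 : (1 : ℝ) ≤ Nat.sqrt (lam * X) := by exact_mod_cast (by omega : 1 ≤ Nat.sqrt (lam * X))
    rw [hK]
    push_cast
    linarith
  have h3 : Real.log X ≤ 2 * Real.log K := by
    have e1 : (X : ℝ) ≤ (K : ℝ) ^ 2 := by
      have : X ≤ K ^ 2 := by nlinarith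
      exact_mod_cast this
    have := Real.log_le_log (by linarith) e1
    rwa [Real.log_pow] at this
  have h4 : Real.log K ≤ c * Real.log X := by
    have e1 : (K : ℝ) ≤ lam * X := by exact_mod_cast hKle
    have e2 := Real.log_le_log (by linarith) e1
    rw [Real.log_mul (by linarith) (by linarith)] at e2
    have e3 : Real.log 2 ≤ Real.log X := Real.log_le_log (by norm_num) hX2
    have e4 := Real.log_two_gt_d9
    rw [hc]
    nlinarith
  have hc0 : 0 < c := by rw [hc]; linarith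
  have h5 : Real.log X ^ θ ≤ (2 ^ θ + c ^ (-θ)) * Real.log K ^ θ := by
    have e0 : 0 ≤ Real.log K ^ θ := by positivity
    rcases le_total 0 θ with h | h
    · have e1 := Real.rpow_le_rpow hlX.le h3 h
      rw [Real.mul_rpow (by norm_num) hlK.le] at e1
      have : 0 ≤ c ^ (-θ) * Real.log K ^ θ := by positivity
      linarith
    · have e1 := Real.rpow_le_rpow_of_nonpos hlK h4 h
      rw [Real.mul_rpow hc0.le hlX.le] at e1
      have e2 : Real.log X ^ θ = c ^ (-θ) * (c ^ θ * Real.log X ^ θ) := by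
        rw [← mul_assoc, ← Real.rpow_add hc0]
        simp
      have e3 : c ^ (-θ) * (c ^ θ * Real.log X ^ θ) ≤ c ^ (-θ) * Real.log K ^ θ := by gcongr
      have : 0 ≤ (2 : ℝ) ^ θ * Real.log K ^ θ := by positivity
      linarith
  refine h1.trans ((hC K hK2).trans ?_)
  rw [div_le_div_iff₀ (by positivity) (by positivity)]
  calc C * K * Real.log X ^ θ ≤ |C| * K * Real.log X ^ θ := by gcongr; exact le_abs_self C
    _ ≤ |C| * (2 * Real.sqrt lam * Real.sqrt X) * ((2 ^ θ + c ^ (-θ)) * Real.log K ^ θ) := by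
        gcongr
    _ = _ := by ring

end Pool.Agent.Lib.MP_0820eb_co.Dens
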