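import Mathlib
import Pool.Agent.Lib.MP_0820eb_co.Dens.Defs

/-! Reduction of indefinite binary forms with control of the transformation matrix. -/

namespace Pool.Agent.Lib.MP_0820eb_co.Dens

/-- reduction of a nonnegative form -/
lemma param_red (A B C : ℤ) (h : ∀ x w, 0 ≤ QF A B C x w) :
    ∃ p q r s : ℤ, p * s - q * r = 1 ∧ |2 * BF A B C p r q s| ≤ QF A B C p r ∧
      |2 * BF A B C p r q s| ≤ QF A B C q s := by
  classical
  let P : ℕ → Prop := fun n => ∃ p q r s : ℤ, p * s - q * r = 1 ∧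
    QF A B C p r + QF A B C q s = n
  have hP : ∀ p q r s : ℤ, p * s - q * r = 1 → ∃ n, P n ∧ QF A B C p r + QF A B C q s = n := by
    intro p q r s hd
    obtain ⟨n, hn⟩ := Int.eq_ofNat_of_zero_le (add_nonneg (h p r) (h q s))
    exact ⟨n, ⟨p, q, r, s, hd, hn⟩, hn⟩
  have hex : ∃ n, P n := (hP 1 0 0 1 (by norm_num)).imp fun _ h => h.1
  obtain ⟨p, q, r, s, hd, hn⟩ := Nat.find_spec hex
  have hmin : ∀ p' q' r' s' : ℤ, p' * s' - q' * r' = 1 →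
      QF A B C p r + QF A B C q s ≤ QF A B C p' r' + QF A B C q' s' := by
    intro p' q' r' s' hd'
    obtain ⟨n, pn, en⟩ := hP p' q' r' s' hd'
    rw [hn, en]
    exact_mod_cast Nat.find_min' hex pn
  have h1 := hmin p (q + p) r (s + r) (by linear_combination hd)
  have h2 := hmin p (q - p) r (s - r) (by linear_combination hd)
  have h3 := hmin (p + q) q (r + s) s (by linear_combination hd)
  have h4 := hmin (p - q) q (r - s) s (by linear_combination hd)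
  refine ⟨p, q, r, s, hd, abs_le.2 ⟨?_, ?_⟩, abs_le.2 ⟨?_, ?_⟩⟩ <;> unfold QF BF at * <;> linarith

/-- the size of the entries of the matrix -/
lemma param_entry {T H h₁ h₂ h₃ a c : ℤ} (hT : 0 < T) (hH : H ≤ T) (b₁ : |2 * h₂| ≤ h₁)
    (b₃ : |2 * h₂| ≤ h₃) (t₁ : T ≤ h₁ ^ 2) (t₃ : T ≤ h₃ ^ 2) (e : H = QF h₁ h₂ h₃ a c) :
    a ^ 4 ≤ 9 * T ∧ c ^ 4 ≤ 9 * T := by
  have p₁ : 0 ≤ h₁ := (abs_nonneg _).trans b₁
  have p₃ : 0 ≤ h₃ := (abs_nonneg _).trans b₃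
  have h1 : -(|2 * h₂| * |a * c|) ≤ 2 * h₂ * (a * c) := by
    rw [← abs_mul]; exact neg_abs_le _
  have h2 : 2 * |a * c| ≤ a ^ 2 + c ^ 2 := by
    rw [abs_mul, ← sq_abs a, ← sq_abs c]
    nlinarith [sq_nonneg (|a| - |c|)]
  have h3 : h₁ * a ^ 2 + h₃ * c ^ 2 ≤ 2 * T := by
    unfold QF at e
    nlinarith [mul_le_mul_of_nonneg_right b₁ (sq_nonneg a), mul_le_mul_of_nonneg_right b₃
      (sq_nonneg c), mul_le_mul_of_nonneg_left h2 (abs_nonneg (2 * h₂))]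
  have key : ∀ g x : ℤ, 0 ≤ g → T ≤ g ^ 2 → g * x ^ 2 ≤ 2 * T → x ^ 4 ≤ 9 * T := by
    intro g x hg ht hx
    have h4 : (g * x ^ 2) ^ 2 ≤ (2 * T) ^ 2 := pow_le_pow_left₀ (by positivity) hx 2
    have h5 : T * x ^ 4 ≤ g ^ 2 * x ^ 4 := mul_le_mul_of_nonneg_right ht (by positivity)
    have h6 : T * x ^ 4 ≤ T * (9 * T) := by nlinarith
    exact le_of_mul_le_mul_left h6 hT
  have q₁ : 0 ≤ h₁ * a ^ 2 := by positivity
  have q₃ : 0 ≤ h₃ * c ^ 2 := by positivity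
  exact ⟨key h₁ a p₁ t₁ (by linarith), key h₃ c p₃ t₃ (by linarith)⟩

/-- choice of the sign -/
lemma param_sign {Δ U y V u₀ y₀ v₀ a b c d : ℤ} (h0 : y₀ ^ 2 - u₀ * v₀ = Δ) (h1 : |u₀| ≤ 2 * Δ)
    (h2 : |y₀| ≤ 2 * Δ) (h3 : |v₀| ≤ 2 * Δ) (hd : a * d - b * c = 1) (ha : |a| ≤ |c|)
    (hd' : |d| ≤ |c|) (hc : c ^ 4 ≤ 9 * ((U + V) ^ 2 + 4 * Δ))
    (h : (U = QF u₀ y₀ v₀ a c ∧ y = BF u₀ y₀ v₀ a c b d ∧ V = QF u₀ y₀ v₀ b d) ∨
      (V = QF u₀ y₀ v₀ a c ∧ -y = BF u₀ y₀ v₀ a c b d ∧ U = QF u₀ y₀ v₀ b d)) :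
    ∃ u₀ y₀ v₀ a b c d : ℤ, y₀ ^ 2 - u₀ * v₀ = Δ ∧ |u₀| ≤ 2 * Δ ∧ |y₀| ≤ 2 * Δ ∧ |v₀| ≤ 2 * Δ ∧
    a * d - b * c = 1 ∧ 0 < c ∧ |a| ≤ c ∧ |d| ≤ c ∧ c ^ 4 ≤ 9 * ((U + V) ^ 2 + 4 * Δ) ∧
    ((U = QF u₀ y₀ v₀ a c ∧ y = BF u₀ y₀ v₀ a c b d ∧ V = QF u₀ y₀ v₀ b d) ∨
      (V = QF u₀ y₀ v₀ a c ∧ -y = BF u₀ y₀ v₀ a c b d ∧ U = QF u₀ y₀ v₀ b d)) := by
  rcases lt_trichotomy c 0 with hc0 | rfl | hc0
  · rw [abs_of_neg hc0] at ha hd'
    refine ⟨u₀, y₀, v₀, -a, -b, -c, -d, h0, h1, h2, h3, by linear_combination hd, by omega,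
      by rwa [abs_neg], by rwa [abs_neg], by linarith [show (-c) ^ 4 = c ^ 4 by ring], ?_⟩
    simpa [QF, BF] using h
  · rw [abs_zero, abs_nonpos_iff] at ha
    simp [ha] at hd
  · rw [abs_of_pos hc0] at ha hd'
    exact ⟨u₀, y₀, v₀, a, b, c, d, h0, h1, h2, h3, hd, hc0, ha, hd', hc, h⟩

theorem param : ParamStmt := by
  intro Δ U y V hΔ hsq hD
  set T := (U + V) ^ 2 + 4 * Δ with hT
  have hT0 : 0 < T := by positivity
  set A := U ^ 2 + y ^ 2 + Δ with hA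
  set B := y * (U + V) with hB
  set C := y ^ 2 + V ^ 2 + Δ with hC
  have hH : ∀ x w, QF A B C x w = (U * x + y * w) ^ 2 + (y * x + V * w) ^ 2 + Δ * (x ^ 2 + w ^ 2) := by
    intro x w
    simp only [QF, hA, hB, hC]; ring
  have hid : ∀ x w, QF A B C x w ^ 2 = T * QF U y V x w ^ 2 +
      4 * Δ * (x * (y * x + V * w) - w * (U * x + y * w)) ^ 2 := by
    intro x w
    simp only [QF, hA, hB, hC, hT, ← hD]; ring
  obtain ⟨p, q, r, s, hd, b₁, b₃⟩ := param_red A B C fun x w => by rw [hH]; positivity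
  have h0 : BF U y V p r q s ^ 2 - QF U y V p r * QF U y V q s = Δ := by
    have : BF U y V p r q s ^ 2 - QF U y V p r * QF U y V q s =
        (y ^ 2 - U * V) * (p * s - q * r) ^ 2 := by unfold QF BF; ring
    rw [this, hd, hD]; ring
  have hdet : QF A B C p r * QF A B C q s - BF A B C p r q s ^ 2 = T * Δ := by
    have : QF A B C p r * QF A B C q s - BF A B C p r q s ^ 2 =
        (A * C - B ^ 2) * (p * s - q * r) ^ 2 := by unfold QF BF; ring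
    rw [this, hd, hA, hB, hC, hT, ← hD]; ring
  have inv : ∀ u y v : ℤ, u = QF (QF u y v p r) (BF u y v p r q s) (QF u y v q s) s (-r) ∧
      y = BF (QF u y v p r) (BF u y v p r q s) (QF u y v q s) s (-r) (-q) p ∧
      v = QF (QF u y v p r) (BF u y v p r q s) (QF u y v q s) (-q) p := by
    intro u y v
    unfold QF BF
    exact ⟨by linear_combination -u * (p * s - q * r + 1) * hd,
      by linear_combination -y * (p * s - q * r + 1) * hd,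
      by linear_combination -v * (p * s - q * r + 1) * hd⟩
  have i₁ := hid p r
  have i₃ := hid q s
  obtain ⟨e₁, e₂, e₃⟩ := inv U y V
  obtain ⟨f₁, -, f₃⟩ := inv A B C
  generalize QF U y V p r = u₀ at *
  generalize QF U y V q s = v₀ at *
  generalize BF U y V p r q s = y₀ at *
  generalize QF A B C p r = h₁ at *
  generalize QF A B C q s = h₃ at *
  generalize BF A B C p r q s = h₂ at *
  have hu : u₀ ≠ 0 := by
    rintro rfl
    exact hsq ⟨y₀, by linear_combination -h0⟩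
  have hv : v₀ ≠ 0 := by
    rintro rfl
    exact hsq ⟨y₀, by linear_combination -h0⟩
  have hu1 : 1 ≤ |u₀| := Int.one_le_abs hu
  have hv1 : 1 ≤ |v₀| := Int.one_le_abs hv
  have t₁ : T * u₀ ^ 2 ≤ h₁ ^ 2 := by rw [i₁]; exact le_add_of_nonneg_right (by positivity)
  have t₃ : T * v₀ ^ 2 ≤ h₃ ^ 2 := by rw [i₃]; exact le_add_of_nonneg_right (by positivity)
  have p₁ : 0 ≤ h₁ := (abs_nonneg _).trans b₁
  have p₃ : 0 ≤ h₃ := (abs_nonneg _).trans b₃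
  have g₁ : (2 * h₂) ^ 2 ≤ h₁ * h₃ := by
    rw [← sq_abs, sq]
    exact mul_le_mul b₁ b₃ (abs_nonneg _) p₁
  have g₂ : h₁ * h₃ ≤ T * (2 * Δ) := by linarith [mul_pos hT0 hΔ]
  have g₃ : |u₀| * |v₀| ≤ 2 * Δ := by
    have g₄ : (T * (|u₀| * |v₀|)) ^ 2 ≤ (h₁ * h₃) ^ 2 := by
      have := mul_le_mul t₁ t₃ (by positivity) (sq_nonneg _)
      rw [mul_pow, mul_pow, sq_abs, sq_abs]
      linarith [show T * u₀ ^ 2 * (T * v₀ ^ 2) = T ^ 2 * (u₀ ^ 2 * v₀ ^ 2) by ring,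
        show h₁ ^ 2 * h₃ ^ 2 = (h₁ * h₃) ^ 2 by ring]
    have g₅ := (pow_le_pow_iff_left₀ (by positivity) (mul_nonneg p₁ p₃) two_ne_zero).1 g₄
    exact le_of_mul_le_mul_left (g₅.trans g₂) hT0
  have c₁ : |u₀| ≤ 2 * Δ := (le_mul_of_one_le_right (abs_nonneg _) hv1).trans g₃
  have c₃ : |v₀| ≤ 2 * Δ := (le_mul_of_one_le_left (abs_nonneg _) hu1).trans g₃
  have c₂ : |y₀| ≤ 2 * Δ := by
    have g₄ : u₀ * v₀ ≤ |u₀| * |v₀| := by rw [← abs_mul]; exact le_abs_self _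
    have g₅ : Δ * 1 ≤ Δ * Δ := mul_le_mul_of_nonneg_left hΔ hΔ.le
    exact abs_le_of_sq_le_sq' (by linarith) (by positivity) |> abs_le.2
  have hu2 : T ≤ h₁ ^ 2 :=
    (le_mul_of_one_le_right hT0.le (by rw [← sq_abs]; exact one_le_pow₀ hu1)).trans t₁
  have hv2 : T ≤ h₃ ^ 2 :=
    (le_mul_of_one_le_right hT0.le (by rw [← sq_abs]; exact one_le_pow₀ hv1)).trans t₃
  have hAC : A + C = T := by rw [hA, hC, hT]; linear_combination 2 * hD
  have hA0 : 0 ≤ A := by positivity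
  have hC0 : 0 ≤ C := by positivity
  obtain ⟨ba, bc⟩ := param_entry hT0 (by linarith) b₁ b₃ hu2 hv2 f₁
  obtain ⟨bb, bd⟩ := param_entry hT0 (by linarith) b₁ b₃ hu2 hv2 f₃
  have hd' : s * p - -q * -r = 1 := by linear_combination hd
  generalize -r = c at *
  generalize -q = b at *
  have h0' : (-y₀) ^ 2 - v₀ * u₀ = Δ := by linear_combination h0
  have c₂' : |-y₀| ≤ 2 * Δ := by rwa [abs_neg]
  have hcases : (|s| ≤ |c| ∧ |p| ≤ |c|) ∨ (|c| ≤ |s| ∧ |b| ≤ |s|) ∨ (|b| ≤ |p| ∧ |c| ≤ |p|) ∨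
      (|p| ≤ |b| ∧ |s| ≤ |b|) := by omega
  rcases hcases with h | h | h | h
  · exact param_sign h0 c₁ c₂ c₃ hd' h.1 h.2 bc (Or.inl ⟨e₁, e₂, e₃⟩)
  · refine param_sign (a := -c) (b := -p) (c := s) (d := b) h0' c₃ c₂' c₁
      (by linear_combination hd') (by rw [abs_neg]; exact h.1) h.2 ba (Or.inl ⟨?_, ?_, ?_⟩)
    · rw [e₁]; unfold QF; ring
    · rw [e₂]; unfold BF; ring
    · rw [e₃]; unfold QF; ring
  · refine param_sign (a := b) (b := -s) (c := p) (d := -c) h0 c₁ c₂ c₃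
      (by linear_combination hd') h.1 (by rw [abs_neg]; exact h.2) bd (Or.inr ⟨e₃, ?_, ?_⟩)
    · rw [e₂]; unfold BF; ring
    · rw [e₁]; unfold QF; ring
  · refine param_sign (a := -p) (b := c) (c := b) (d := -s) h0' c₃ c₂' c₁
      (by linear_combination hd') (by rw [abs_neg]; exact h.1) (by rw [abs_neg]; exact h.2) bb
      (Or.inr ⟨?_, ?_, ?_⟩)
    · rw [e₃]; unfold QF; ring
    · rw [e₂]; unfold BF; ring
    · rw [e₁]; unfold QF; ring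

end Pool.Agent.Lib.MP_0820eb_co.Dens
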